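import Pool.Agent.APLarge.Defs

set_option autoImplicit false

namespace Pool.Agent.APLarge

open Finset Pool.Agent.APInt

namespace NearM

/-- an integer `≥ 2L`-long interval contains a multiple -/
lemma exists_step {x g lo hi : ℤ} (hg : 0 < g) (h : lo + g ≤ hi + 1) :
    ∃ t, g ∣ t - x ∧ lo ≤ t ∧ t ≤ hi := by
  refine ⟨x + g * ((lo - x + g - 1) / g), by simp, ?_, ?_⟩
  · have h1 : g * ((lo - x + g - 1) / g) + (lo - x + g - 1) % g = lo - x + g - 1 :=
      Int.mul_ediv_add_emod _ _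
    have h2 : (lo - x + g - 1) % g < g := Int.emod_lt_of_pos _ hg
    omega
  · have h1 : g * ((lo - x + g - 1) / g) + (lo - x + g - 1) % g = lo - x + g - 1 :=
      Int.mul_ediv_add_emod _ _
    have h2 : 0 ≤ (lo - x + g - 1) % g := Int.emod_nonneg _ (by omega)
    omega

lemma coprime_choice (n : ℕ) (hn : 6 ≤ n) : ∃ k : ℕ, 1 ≤ k ∧ 2 * k + 1 ≤ n ∧ n ≤ 2 * k + 4 ∧
    Nat.Coprime k n := by
  have h1 : ∀ k n : ℕ, (∀ d : ℕ, d ∣ k → d ∣ n → d = 1) → Nat.Coprime k n := fun k n h =>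
    h _ (Nat.gcd_dvd_left _ _) (Nat.gcd_dvd_right _ _)
  have hmod : n % 2 = 1 ∨ n % 4 = 0 ∨ n % 4 = 2 := by omega
  rcases hmod with h | h | h
  · obtain ⟨m, rfl⟩ : ∃ m, n = 2 * m + 1 := ⟨n / 2, by omega⟩
    refine ⟨m, by omega, by omega, by omega, h1 _ _ fun d hd1 hd2 => ?_⟩
    have h2 : d ∣ 2 * m := Dvd.dvd.mul_left hd1 2
    have h3 : d ∣ 1 := (Nat.dvd_add_right h2).1 hd2
    exact Nat.dvd_one.1 h3
  · obtain ⟨m, rfl⟩ : ∃ m, n = 4 * (m + 1) := ⟨n / 4 - 1, by omega⟩
    refine ⟨2 * m + 1, by omega, by omega, by omega, h1 _ _ fun d hd1 hd2 => ?_⟩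
    have h2 : d ∣ 2 * (2 * m + 1) := Dvd.dvd.mul_left hd1 2
    have h3 : d ∣ 2 := by
      have e : 4 * (m + 1) = 2 * (2 * m + 1) + 2 := by ring
      rw [e] at hd2
      exact (Nat.dvd_add_right h2).1 hd2
    rcases (Nat.dvd_prime Nat.prime_two).1 h3 with h4 | h4
    · exact h4
    · exfalso
      subst h4
      omega
  · obtain ⟨m, rfl⟩ : ∃ m, n = 4 * (m + 1) + 2 := ⟨n / 4 - 1, by omega⟩
    refine ⟨2 * m + 1, by omega, by omega, by omega, h1 _ _ fun d hd1 hd2 => ?_⟩
    have h2 : d ∣ 2 * (2 * m + 1) := Dvd.dvd.mul_left hd1 2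
    have h3 : d ∣ 4 := by
      have e : 4 * (m + 1) + 2 = 2 * (2 * m + 1) + 4 := by ring
      rw [e] at hd2
      exact (Nat.dvd_add_right h2).1 hd2
    have h5 : d ≤ 4 := Nat.le_of_dvd (by omega) h3
    have h6 : d ≠ 0 := by rintro rfl; omega
    interval_cases d
    · exact absurd rfl h6
    · rfl
    · exfalso; omega
    · exfalso; omega
    · exfalso; omega

end NearM

/-- P9a NearM.lean -/
theorem lemma_M {N L : ℕ} {F : Finset (Finset ℤ)} (hF : Admissible N F) {x : ℤ} (hx1 : 1 ≤ x)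
    (hxL : x < L) (hLN : 100 * L ≤ N) (hcore : ∀ B ∈ F, x ∉ B → Icc (L : ℤ) (N - L) ⊆ B)
    {A : Finset ℤ} (hA : A ∈ F) (hxA : x ∈ A) (hAP : ¬ IsAP A) :
    ∃ y z, y < z ∧ Own x A y z ∧ ¬ Kmix F x (y, z) := by
  classical
  by_contra hcon
  push Not at hcon
  have hLN' : (100 : ℤ) * L ≤ N := by exact_mod_cast hLN
  have hAN : A ⊆ Icc (1 : ℤ) N := hF.1 A hA
  have key : ∀ y z, y < z → Own x A y z → x < y ∧ y < L ∧ (N : ℤ) - L < z ∧
      ∃ a b, a ≤ b ∧ Icc a b ∈ F ∧ y < a ∧ b < z ∧ a ≤ L ∧ (N : ℤ) - L ≤ b := by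
    intro y z hyz how
    obtain ⟨hxy, a, b, hab, hF', hya, hbz⟩ := hcon y z hyz how
    simp only at hxy hya hbz
    have h1 : x ∉ Icc a b := by rw [mem_Icc]; omega
    have h2 := hcore _ hF' h1
    have h3 : (L : ℤ) ∈ Icc a b := h2 (mem_Icc.2 ⟨le_refl _, by omega⟩)
    have h4 : (N : ℤ) - L ∈ Icc a b := h2 (mem_Icc.2 ⟨by omega, le_refl _⟩)
    rw [mem_Icc] at h3 h4
    exact ⟨hxy, by omega, by omega, a, b, hab, hF', hya, hbz, h3.1, h4.2⟩
  have core_not : ∀ c w, (L : ℤ) ≤ c → c ≤ N - L → ¬ Own x A c w := by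
    intro c w h1 h2 how
    rcases lt_or_gt_of_ne how.2.2.2.2.1 with h3 | h3
    · have := (key c w h3 how).2.1; omega
    · have := (key w c h3 how.symm).2.2.1; omega
  -- the extremal pair
  obtain ⟨y1, z1, hyz1, how1⟩ := exists_own hxA hAP
  obtain ⟨y0, hy0, hy0max⟩ := (A.filter (fun y => ∃ z, y < z ∧ Own x A y z)).exists_max_image id
    ⟨y1, mem_filter.2 ⟨how1.1, z1, hyz1, how1⟩⟩
  rw [mem_filter] at hy0
  obtain ⟨hy0A, z2, hyz2, how2⟩ := hy0
  obtain ⟨z0, hz0, hz0min⟩ := (A.filter (fun z => y0 < z ∧ Own x A y0 z)).exists_min_image id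
    ⟨z2, mem_filter.2 ⟨how2.2.1, hyz2, how2⟩⟩
  rw [mem_filter] at hz0
  obtain ⟨hz0A, hyz0, how0⟩ := hz0
  obtain ⟨hxy0, hy0L, hz0N, a, b, hab, habF, hy0a, hbz0, haL, hbN⟩ := key y0 z0 hyz0 how0
  have hz0N' : z0 ≤ N := (mem_Icc.1 (hAN hz0A)).2
  have hright : ∀ t ∈ A, y0 < t → t ≤ b → ¬ Own x A t z0 := by
    intro t ht h1 h2 how
    have := hy0max t (mem_filter.2 ⟨ht, z0, by omega, how⟩)
    simp only [id] at this
    omega
  have hleft : ∀ t ∈ A, y0 < t → t ≤ b → ¬ Own x A y0 t := by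
    intro t ht h1 h2 how
    have := hz0min t (mem_filter.2 ⟨ht, h1, how⟩)
    simp only [id] at this
    omega
  have hxab : x ∉ Icc a b := by rw [mem_Icc]; omega
  have hAne : A ≠ Icc a b := by rintro rfl; exact hxab hxA
  have hAP' := hF.2 A hA _ habF hAne
  -- closure facts
  have cr : ∀ t ∈ A, y0 < t → t ≤ b → ∀ s, (Int.gcd (t - x) (z0 - x) : ℤ) ∣ s - x → x ≤ s →
      s ≤ z0 → s ∈ A := by
    intro t ht h1 h2 s hs h3 h4
    refine mem_of_not_own hxA ht hz0A (by omega) (by omega) (by omega) (hright t ht h1 h2) hs ?_ ?_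
    · exact (min_le_left _ _).trans h3
    · exact h4.trans ((le_max_right _ _).trans (le_max_right _ _))
  have cl : ∀ t ∈ A, y0 < t → t ≤ b → ∀ s, (Int.gcd (y0 - x) (t - x) : ℤ) ∣ s - x → x ≤ s →
      s ≤ t → s ∈ A := by
    intro t ht h1 h2 s hs h3 h4
    refine mem_of_not_own hxA hy0A ht (by omega) (by omega) (by omega) (hleft t ht h1 h2) hs ?_ ?_
    · exact (min_le_left _ _).trans h3
    · exact h4.trans ((le_max_right _ _).trans (le_max_right _ _))
  have gpos : ∀ u v : ℤ, x < u → 0 < (Int.gcd (u - x) (v - x) : ℤ) ∧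
      (Int.gcd (u - x) (v - x) : ℤ) ≤ u - x ∧ (Int.gcd (u - x) (v - x) : ℤ) ∣ u - x ∧
      (Int.gcd (u - x) (v - x) : ℤ) ∣ v - x := by
    intro u v hu
    have h1 : 0 < Int.gcd (u - x) (v - x) := Int.gcd_pos_of_ne_zero_left _ (by omega)
    exact ⟨by exact_mod_cast h1, Int.le_of_dvd (by omega) (Int.gcd_dvd_left _ _),
      Int.gcd_dvd_left _ _, Int.gcd_dvd_right _ _⟩
  -- (i) the core is met
  have hc : ∃ c ∈ A, (L : ℤ) ≤ c ∧ c ≤ N - L := by
    obtain ⟨t, ht⟩ := hAP'.nonempty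
    rw [mem_inter, mem_Icc] at ht
    obtain ⟨htA, hat, htb⟩ := ht
    by_cases h1 : (L : ℤ) ≤ t
    · by_cases h2 : t ≤ N - L
      · exact ⟨t, htA, h1, h2⟩
      · obtain ⟨g1, g2, g3, g4⟩ := gpos y0 t hxy0
        obtain ⟨s, hs1, hs2, hs3⟩ := NearM.exists_step (x := x) (lo := L) (hi := (N : ℤ) - L) g1
          (by omega)
        exact ⟨s, cl t htA (by omega) htb s hs1 (by omega) (by omega), hs2, hs3⟩
    · obtain ⟨g1, g2, g3, g4⟩ := gpos t z0 (by omega)
      obtain ⟨s, hs1, hs2, hs3⟩ := NearM.exists_step (x := x) (lo := L) (hi := (N : ℤ) - L) g1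
        (by omega)
      exact ⟨s, cr t htA (by omega) htb s hs1 (by omega) (by omega), hs2, hs3⟩
  obtain ⟨t', ht', ht'max⟩ := (A.filter (fun c => (L : ℤ) ≤ c ∧ c ≤ N - L)).exists_max_image id
    (by obtain ⟨c, h1, h2⟩ := hc; exact ⟨c, mem_filter.2 ⟨h1, h2⟩⟩)
  rw [mem_filter] at ht'
  obtain ⟨ht'A, ht'L, ht'N⟩ := ht'
  have hmax : ∀ c ∈ A, (L : ℤ) ≤ c → c ≤ N - L → c ≤ t' := fun c h1 h2 h3 =>
    ht'max c (mem_filter.2 ⟨h1, h2, h3⟩)
  -- t' + h is beyond the core
  obtain ⟨hh1, hh2, hh3, hh4⟩ := gpos t' z0 (by omega)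
  set H : ℤ := (Int.gcd (t' - x) (z0 - x) : ℤ) with hH
  have hH5 : t' + H ≤ z0 := by
    have : H ∣ z0 - t' := by
      have := dvd_sub hh4 hh3
      simpa using this
    have := Int.le_of_dvd (by omega) this
    omega
  have hH6 : t' + H ∈ A := cr t' ht'A (by omega) (by omega) (t' + H)
    (by rw [← hH, show t' + H - x = (t' - x) + H by ring]; exact dvd_add hh3 dvd_rfl)
    (by omega) hH5
  have hH7 : (N : ℤ) - L < t' + H := by
    by_contra h
    have := hmax _ hH6 (by omega) (by omega)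
    omega
  have ht'2 : 2 * (L : ℤ) ≤ t' := by omega
  -- the difference
  obtain ⟨a', D, b', hD, hab', hdvd', hmem⟩ := (isAP_iff _).1 hAP'
  have hcoreab : ∀ t, (L : ℤ) ≤ t → t ≤ N - L → (t ∈ A ↔ (D ∣ t - a' ∧ a' ≤ t ∧ t ≤ b')) := by
    intro t h1 h2
    rw [← hmem t, mem_inter, mem_Icc]
    constructor
    · intro h; exact ⟨h, by omega, by omega⟩
    · intro h; exact h.1
  have ht'mem := (hcoreab t' ht'L ht'N).1 ht'A
  have hdiff : ∀ s, s ∈ A → (L : ℤ) ≤ s → s ≤ t' → D ∣ t' - s := by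
    intro s hs h1 h2
    have h3 := (hcoreab s h1 (by omega)).1 hs
    have := dvd_sub ht'mem.1 h3.1
    simpa using this
  -- a second element of the core
  obtain ⟨g1, g2, g3, g4⟩ := gpos y0 t' hxy0
  set G2 : ℤ := (Int.gcd (y0 - x) (t' - x) : ℤ) with hG2
  have hG2m : t' - G2 ∈ A := cl t' ht'A (by omega) (by omega) (t' - G2)
    (by rw [← hG2, show t' - G2 - x = (t' - x) - G2 by ring]; exact dvd_sub g4 dvd_rfl)
    (by omega) (by omega)
  have hDG2 : D ∣ G2 := by
    have := hdiff _ hG2m (by omega) (by omega)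
    simpa using this
  have hDG2le : D ≤ G2 := Int.le_of_dvd g1 hDG2
  -- t = t' - D lies in the core part of A
  have htD : t' - D ∈ A := by
    rw [hcoreab (t' - D) (by omega) (by omega)]
    have h3 := (hcoreab _ (by omega : (L : ℤ) ≤ t' - G2) (by omega)).1 hG2m
    refine ⟨?_, by omega, by omega⟩
    rw [show t' - D - a' = (t' - a') - D by ring]
    exact dvd_sub ht'mem.1 dvd_rfl
  -- D divides t' - x
  obtain ⟨k1, k2, k3, k4⟩ := gpos (t' - D) t' (by omega)
  set H1 : ℤ := (Int.gcd (t' - D - x) (t' - x) : ℤ) with hH1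
  have hH1D : H1 ∣ D := by
    have := dvd_sub k4 k3
    rw [show t' - x - (t' - D - x) = D by ring] at this
    exact this
  have hH1le : H1 ≤ D := Int.le_of_dvd (by omega) hH1D
  have hall : ∀ s, H1 ∣ s - x → x ≤ s → s ≤ t' → s ∈ A := by
    intro s hs h1 h2
    refine mem_of_not_own hxA htD ht'A (by omega) (by omega) (by omega)
      (core_not _ _ (by omega) (by omega)) (by rw [← hH1]; exact hs) ?_ ?_
    · exact (min_le_left _ _).trans h1
    · exact h2.trans ((le_max_right _ _).trans (le_max_right _ _))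
  have hDH1 : D ∣ H1 := by
    have h3 : t' - H1 ∈ A := hall _
      (by rw [show t' - H1 - x = (t' - x) - H1 by ring]; exact dvd_sub k4 dvd_rfl) (by omega)
      (by omega)
    have := hdiff _ h3 (by omega) (by omega)
    simpa using this
  have hDt' : D ∣ t' - x := hDH1.trans k4
  have hallD : ∀ s, D ∣ s - x → x ≤ s → s ≤ t' → s ∈ A := fun s hs => hall s (hH1D.trans hs)
  have hDy0 : D ∣ y0 - x := hDG2.trans g3
  have hDz0 : D ∣ z0 - x := by
    by_cases h1 : H = t' - x
    · rw [← h1] at hDt'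
      exact hDt'.trans hh4
    · obtain ⟨m, hm⟩ := hh3
      have hm2 : 2 ≤ m := by
        by_contra hlt
        have : m ≤ 1 := by omega
        have h5 : H * m ≤ H * 1 := mul_le_mul_of_nonneg_left this (by omega)
        have h6 : 0 < m := by
          by_contra hle
          have : H * m ≤ 0 := mul_nonpos_of_nonneg_of_nonpos (by omega) (by omega)
          omega
        have h7 : m = 1 := by omega
        rw [h7] at hm
        omega
      have h2H : 2 * H ≤ t' - x := by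
        have : H * 2 ≤ H * m := mul_le_mul_of_nonneg_left hm2 (by omega)
        omega
      have h3 : t' - H ∈ A := cr t' ht'A (by omega) (by omega) _
        (by rw [← hH, show t' - H - x = (t' - x) - H by ring]
            exact dvd_sub ⟨m, hm⟩ dvd_rfl) (by omega) (by omega)
      have h4 := hdiff _ h3 (by omega) (by omega)
      have h5 : D ∣ H := by simpa using h4
      exact h5.trans hh4
  -- z0 - x ≤ 2 (t' - x)
  have hZT : z0 - x ≤ 2 * (t' - x) := by
    obtain ⟨m, hm⟩ := hh3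
    by_cases h1 : H = t' - x
    · obtain ⟨q, hq⟩ := hh4
      by_contra hgt
      have hq3 : 3 ≤ q := by
        by_contra hlt
        have : q ≤ 2 := by omega
        have h5 : H * q ≤ H * 2 := mul_le_mul_of_nonneg_left this (by omega)
        omega
      have h6 : H * 3 ≤ H * q := mul_le_mul_of_nonneg_left hq3 (by omega)
      omega
    · have hm2 : 2 ≤ m := by
        by_contra hlt
        have : m ≤ 1 := by omega
        have h6 : 0 < m := by
          by_contra hle
          have : H * m ≤ 0 := mul_nonpos_of_nonneg_of_nonpos (by omega) (by omega)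
          omega
        have h7 : m = 1 := by omega
        rw [h7] at hm
        omega
      have h2H : 2 * H ≤ t' - x := by
        have : H * 2 ≤ H * m := mul_le_mul_of_nonneg_left hm2 (by omega)
        omega
      omega
  -- the final contradiction
  have fin : ∀ k n : ℤ, z0 - x = D * n → (L : ℤ) ≤ x + D * k → x + D * k ≤ t' →
      Int.gcd k n = 1 → False := by
    intro k n hn h1 h2 hkn
    have hcA : x + D * k ∈ A := hallD _ (by simp) (by omega) h2
    have hno := core_not (x + D * k) z0 h1 (by omega)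
    have hall2 : ∀ s, D ∣ s - x → x ≤ s → s ≤ z0 → s ∈ A := by
      intro s hs h3 h4
      refine mem_of_not_own hxA hcA hz0A (by omega) (by omega) (by omega) hno ?_ ?_ ?_
      · have e : (Int.gcd (x + D * k - x) (z0 - x) : ℤ) = D := by
          rw [show x + D * k - x = D * k by ring, hn, Int.gcd_mul_left, hkn]
          simp; omega
        rw [e]; exact hs
      · exact (min_le_left _ _).trans h3
      · exact h4.trans ((le_max_right _ _).trans (le_max_right _ _))
    obtain ⟨_, _, _, _, _, t, ht1, ht2, ht3, ht4⟩ := (own_iff hxA).1 how0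
    apply ht4
    apply hall2 t
    · have h5 : D ∣ (Int.gcd (y0 - x) (z0 - x) : ℤ) := Int.dvd_coe_gcd hDy0 hDz0
      exact h5.trans ht1
    · have h5 : min x (min y0 z0) = x := min_eq_left (le_min (by omega) (by omega))
      rw [h5] at ht2; exact ht2
    · have h5 : max x (max y0 z0) = z0 := by
        rw [max_eq_right (a := y0) (b := z0) (by omega), max_eq_right (by omega)]
      rw [h5] at ht3; exact ht3
  obtain ⟨n, hn⟩ := hDz0
  by_cases hDL : (L : ℤ) ≤ x + D
  · refine fin 1 n hn (by omega) ?_ (by simp)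
    have := Int.le_of_dvd (by omega) hDt'
    omega
  · -- D < L - x
    have hn6 : 6 ≤ n := by
      by_contra hlt
      have h1 : n ≤ 5 := by omega
      have h2 : D * n ≤ D * 5 := mul_le_mul_of_nonneg_left h1 (by omega)
      omega
    obtain ⟨k, hk1, hk2, hk3, hk4⟩ := NearM.coprime_choice n.toNat (by omega)
    have hnn : ((n.toNat : ℕ) : ℤ) = n := Int.toNat_of_nonneg (by omega)
    refine fin k n hn ?_ ?_ ?_
    · have h1 : n ≤ 2 * (k : ℤ) + 4 := by omega
      have h2 : D * n ≤ D * (2 * (k : ℤ) + 4) := mul_le_mul_of_nonneg_left h1 (by omega)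
      have h3 : D * (2 * (k : ℤ) + 4) = 2 * (D * k) + 4 * D := by ring
      omega
    · have h1 : 2 * (k : ℤ) + 1 ≤ n := by omega
      have h2 : D * (2 * (k : ℤ) + 1) ≤ D * n := mul_le_mul_of_nonneg_left h1 (by omega)
      have h3 : D * (2 * (k : ℤ) + 1) = 2 * (D * k) + D := by ring
      omega
    · rw [← hnn, Int.gcd_natCast_natCast]
      exact hk4

end Pool.Agent.APLarge
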