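import Pool.Agent.APLarge.Defs

/-!
The number of progressions in an admissible family.
-/

set_option autoImplicit false

namespace Pool.Agent.APLarge

open Finset Pool.Agent.APInt

namespace APCount

/-- a member with difference `d` and at least two elements -/
def HasDiff (d : ℤ) (B : Finset ℤ) : Prop :=
  ∃ c e : ℤ, c < e ∧ d ∣ e - c ∧ B = apSet d c e

open Classical in
lemma card_diff {N : ℕ} {F : Finset (Finset ℤ)} (hF : Admissible N F) {d : ℕ} (hd : 1 ≤ d) :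
    ((F.filter (fun B => HasDiff d B)).card : ℝ) ≤ ((N : ℝ) / d + 2) ^ 2 / 4 := by
  have hd0 : (0 : ℤ) < d := by exact_mod_cast hd
  have hdR : (0 : ℝ) < d := by exact_mod_cast hd
  set G := F.filter (fun B => HasDiff d B) with hG
  rcases G.eq_empty_or_nonempty with h0 | h0
  · rw [h0]
    simp only [card_empty, Nat.cast_zero]
    positivity
  have hch : ∀ B : Finset ℤ, ∃ p : ℤ × ℤ, B ∈ G → p.1 < p.2 ∧ (d : ℤ) ∣ p.2 - p.1 ∧
      B = apSet d p.1 p.2 := by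
    intro B
    by_cases hB : B ∈ G
    · obtain ⟨c, e, h1, h2, h3⟩ := (mem_filter.1 hB).2
      exact ⟨(c, e), fun _ => ⟨h1, h2, h3⟩⟩
    · exact ⟨(0, 0), fun h => absurd h hB⟩
  choose f hf using hch
  obtain ⟨B1, hB1, hmax⟩ := exists_max_image G (fun B => (f B).1) h0
  set C : ℤ := (f B1).1 with hC
  have hmem1 : ∀ B ∈ G, (f B).1 ∈ B := by
    intro B hB
    obtain ⟨h1, h2, h3⟩ := hf B hB
    have : (f B).1 ∈ apSet d (f B).1 (f B).2 := mem_apSet.2 ⟨⟨le_refl _, h1.le⟩, by simp⟩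
    rw [← h3] at this
    exact this
  have hmem2 : ∀ B ∈ G, (f B).2 ∈ B := by
    intro B hB
    obtain ⟨h1, h2, h3⟩ := hf B hB
    have : (f B).2 ∈ apSet d (f B).1 (f B).2 := mem_apSet.2 ⟨⟨h1.le, le_refl _⟩, h2⟩
    rw [← h3] at this
    exact this
  have hsub : ∀ B ∈ G, B ⊆ Icc (1 : ℤ) N := fun B hB => hF.1 B (mem_filter.1 hB).1
  have hC1 : 1 ≤ C ∧ C ≤ N := by
    have := hsub B1 hB1 (hmem1 B1 hB1)
    rwa [mem_Icc] at this
  -- every member meets `B1`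
  have hmeet : ∀ B ∈ G, ∃ t, t ∈ B ∧ t ∈ B1 := by
    intro B hB
    by_cases h : B = B1
    · subst h
      exact ⟨_, hmem1 B hB, hmem1 B hB⟩
    · obtain ⟨t, ht⟩ := (hF.2 B (mem_filter.1 hB).1 B1 (mem_filter.1 hB1).1 h).nonempty
      exact ⟨t, (mem_inter.1 ht).1, (mem_inter.1 ht).2⟩
  have hprop : ∀ B ∈ G, (f B).1 ≤ C ∧ C ≤ (f B).2 ∧ (d : ℤ) ∣ C - (f B).1 ∧
      (d : ℤ) ∣ (f B).2 - C := by
    intro B hB
    obtain ⟨t, ht, ht1⟩ := hmeet B hB
    obtain ⟨h1, h2, h3⟩ := hf B hB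
    obtain ⟨h4, h5, h6⟩ := hf B1 hB1
    rw [h3, mem_apSet] at ht
    rw [h6, mem_apSet, ← hC] at ht1
    have h7 : (d : ℤ) ∣ C - (f B).1 := by
      have := dvd_sub ht.2 ht1.2
      have h8 : t - (f B).1 - (t - C) = C - (f B).1 := by ring
      rwa [h8] at this
    refine ⟨hmax B hB, ht1.1.1.trans ht.1.2, h7, ?_⟩
    have := dvd_sub h2 h7
    have h8 : (f B).2 - (f B).1 - (C - (f B).1) = (f B).2 - C := by ring
    rwa [h8] at this
  set K : ℤ := (C - 1) / d with hK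
  set L : ℤ := ((N : ℤ) - C) / d with hL
  have hK0 : 0 ≤ K := Int.ediv_nonneg (by omega) hd0.le
  have hL0 : 0 ≤ L := Int.ediv_nonneg (by omega) hd0.le
  have hcard : G.card ≤ (Icc (0 : ℤ) K ×ˢ Icc (0 : ℤ) L).card := by
    apply card_le_card_of_injOn (fun B => ((C - (f B).1) / d, ((f B).2 - C) / d))
    · intro B hB
      obtain ⟨h1, h2, h3, h4⟩ := hprop B hB
      have h5 := mem_Icc.1 (hsub B hB (hmem1 B hB))
      have h6 := mem_Icc.1 (hsub B hB (hmem2 B hB))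
      simp only [coe_product, coe_Icc, Set.mem_prod, Set.mem_Icc]
      refine ⟨⟨Int.ediv_nonneg (by omega) hd0.le, ?_⟩, Int.ediv_nonneg (by omega) hd0.le, ?_⟩
      · exact Int.ediv_le_ediv hd0 (by omega)
      · exact Int.ediv_le_ediv hd0 (by omega)
    · intro B hB B' hB' heq
      obtain ⟨h1, h2, h3, h4⟩ := hprop B hB
      obtain ⟨h1', h2', h3', h4'⟩ := hprop B' hB'
      simp only [Prod.mk.injEq] at heq
      obtain ⟨e1, e2⟩ := heq
      have g1 : C - (f B).1 = C - (f B').1 := by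
        rw [← Int.ediv_mul_cancel h3, ← Int.ediv_mul_cancel h3', e1]
      have g2 : (f B).2 - C = (f B').2 - C := by
        rw [← Int.ediv_mul_cancel h4, ← Int.ediv_mul_cancel h4', e2]
      have g3 : (f B).1 = (f B').1 := by omega
      have g4 : (f B).2 = (f B').2 := by omega
      rw [(hf B hB).2.2, (hf B' hB').2.2, g3, g4]
  rw [card_product, Int.card_Icc, Int.card_Icc] at hcard
  have hcR : (G.card : ℝ) ≤ ((K : ℝ) + 1) * ((L : ℝ) + 1) := by
    have h1 : ((K + 1 - 0).toNat : ℝ) = (K : ℝ) + 1 := by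
      have : ((K + 1 - 0).toNat : ℤ) = K + 1 := by
        rw [Int.toNat_of_nonneg (by omega)]; ring
      exact_mod_cast this
    have h2 : ((L + 1 - 0).toNat : ℝ) = (L : ℝ) + 1 := by
      have : ((L + 1 - 0).toNat : ℤ) = L + 1 := by
        rw [Int.toNat_of_nonneg (by omega)]; ring
      exact_mod_cast this
    rw [← h1, ← h2]
    exact_mod_cast hcard
  have hKR : (K : ℝ) ≤ ((C : ℝ) - 1) / d := by
    rw [le_div_iff₀ hdR]
    have : K * d ≤ C - 1 := Int.ediv_mul_le _ hd0.ne'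
    exact_mod_cast this
  have hLR : (L : ℝ) ≤ ((N : ℝ) - C) / d := by
    rw [le_div_iff₀ hdR]
    have : L * d ≤ N - C := Int.ediv_mul_le _ hd0.ne'
    exact_mod_cast this
  have hKL : (K : ℝ) + L ≤ (N : ℝ) / d := by
    have h3 : ((C : ℝ) - 1) / d + ((N : ℝ) - C) / d = (N : ℝ) / d - 1 / d := by
      field_simp
      ring
    have h4 : (0 : ℝ) ≤ 1 / d := by positivity
    linarith
  have hK0R : (0 : ℝ) ≤ K := by exact_mod_cast hK0
  have hL0R : (0 : ℝ) ≤ L := by exact_mod_cast hL0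
  have h5 : ((K : ℝ) + 1) * ((L : ℝ) + 1) ≤ ((K : ℝ) + L + 2) ^ 2 / 4 := by
    nlinarith [sq_nonneg ((K : ℝ) - L)]
  have h6 : ((K : ℝ) + L + 2) ^ 2 ≤ ((N : ℝ) / d + 2) ^ 2 := by
    apply pow_le_pow_left₀ (by positivity)
    linarith
  linarith

open Classical in
lemma ap_subset {N : ℕ} {F : Finset (Finset ℤ)} (hF : Admissible N F) :
    F.filter (fun A => IsAP A) ⊆ (Icc (1 : ℤ) N).image (fun t => ({t} : Finset ℤ)) ∪
      (Icc 1 N).biUnion (fun d : ℕ => F.filter (fun B => HasDiff d B)) := by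
  intro B hB
  obtain ⟨hB1, hB2⟩ := mem_filter.1 hB
  obtain ⟨d, a, b, hd, hab, hdvd, hBe⟩ := (isAP_iff_apSet B).1 hB2
  have hsub := hF.1 B hB1
  have ha : a ∈ B := by rw [hBe]; exact mem_apSet.2 ⟨⟨le_refl _, hab⟩, by simp⟩
  have hb : b ∈ B := by rw [hBe]; exact mem_apSet.2 ⟨⟨hab, le_refl _⟩, hdvd⟩
  have ha' := mem_Icc.1 (hsub ha)
  have hb' := mem_Icc.1 (hsub hb)
  rw [mem_union]
  rcases hab.eq_or_lt with h | h
  · left
    rw [mem_image]
    refine ⟨a, hsub ha, ?_⟩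
    rw [hBe]
    ext t
    rw [mem_singleton, mem_apSet]
    constructor
    · rintro rfl
      exact ⟨⟨le_refl _, hab⟩, by simp⟩
    · rintro ⟨⟨h1, h2⟩, _⟩
      omega
  · right
    rw [mem_biUnion]
    have hle : d ≤ b - a := Int.le_of_dvd (by omega) hdvd
    refine ⟨d.toNat, mem_Icc.2 ⟨by omega, by omega⟩, mem_filter.2 ⟨hB1, a, b, h, ?_, ?_⟩⟩
    · rw [Int.toNat_of_nonneg (by omega)]; exact hdvd
    · rw [Int.toNat_of_nonneg (by omega)]; exact hBe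

lemma sum_sq_le (N : ℕ) : ∑ d ∈ Icc 1 N, (1 : ℝ) / (d : ℝ) ^ 2 ≤ 1.645 := by
  have h1 : ∑ d ∈ Icc 1 N, (1 : ℝ) / (d : ℝ) ^ 2 ≤ Real.pi ^ 2 / 6 :=
    sum_le_hasSum _ (fun _ _ => by positivity) hasSum_zeta_two
  have h2 : Real.pi < 3.1416 := Real.pi_lt_d4
  have h3 : 0 < Real.pi := Real.pi_pos
  nlinarith

lemma sum_inv_le {N : ℕ} : ∑ d ∈ Icc 1 N, (1 : ℝ) / (d : ℝ) ≤ 1 + Real.log N := by
  have h := harmonic_le_one_add_log N
  rw [harmonic_eq_sum_Icc] at h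
  push_cast at h
  simpa [one_div] using h

end APCount

open Classical in
theorem card_ap : ∃ N0 : ℕ, ∀ N ≥ N0, ∀ F : Finset (Finset ℤ), Admissible N F →
    ((F.filter (fun A => IsAP A)).card : ℝ) ≤ 0.42 * (N : ℝ) ^ 2 := by
  refine ⟨10 ^ 6, fun N hN F hF => ?_⟩
  have hNR : (10 : ℝ) ^ 6 ≤ N := by exact_mod_cast hN
  have h1 : (F.filter (fun A => IsAP A)).card ≤
      N + ∑ d ∈ Icc 1 N, (F.filter (fun B => APCount.HasDiff d B)).card := by
    refine (card_le_card (APCount.ap_subset hF)).trans ((card_union_le _ _).trans ?_)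
    refine Nat.add_le_add ?_ card_biUnion_le
    refine card_image_le.trans ?_
    rw [Int.card_Icc]
    omega
  have h2 : ((F.filter (fun A => IsAP A)).card : ℝ) ≤
      N + ∑ d ∈ Icc 1 N, ((N : ℝ) / d + 2) ^ 2 / 4 := by
    have h3 : ((F.filter (fun A => IsAP A)).card : ℝ) ≤
      N + ∑ d ∈ Icc 1 N, ((F.filter (fun B => APCount.HasDiff d B)).card : ℝ) := by
      exact_mod_cast h1
    refine h3.trans ?_
    have h4 : ∑ d ∈ Icc 1 N, ((F.filter (fun B => APCount.HasDiff d B)).card : ℝ) ≤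
        ∑ d ∈ Icc 1 N, ((N : ℝ) / d + 2) ^ 2 / 4 :=
      sum_le_sum fun d hd => APCount.card_diff hF (mem_Icc.1 hd).1
    linarith
  have h5 : ∑ d ∈ Icc 1 N, ((N : ℝ) / d + 2) ^ 2 / 4 =
      (N : ℝ) ^ 2 / 4 * ∑ d ∈ Icc 1 N, (1 : ℝ) / (d : ℝ) ^ 2 +
      N * ∑ d ∈ Icc 1 N, (1 : ℝ) / (d : ℝ) + N := by
    rw [mul_sum, mul_sum, ← sum_add_distrib]
    have h6 : (N : ℝ) = ∑ d ∈ Icc 1 N, (1 : ℝ) := by simp
    conv_rhs => rw [h6]
    rw [← sum_add_distrib]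
    apply sum_congr rfl
    intro d hd
    have hd1 : (d : ℝ) ≠ 0 := by
      have := (mem_Icc.1 hd).1
      positivity
    rw [← h6]
    field_simp
    ring
  have h7 := APCount.sum_sq_le N
  have h8 := APCount.sum_inv_le (N := N)
  have hN0 : (0 : ℝ) ≤ N := by positivity
  have h9 : Real.log N ≤ 2 * √(N : ℝ) := by
    have h10 : Real.log (√(N : ℝ)) ≤ √(N : ℝ) := Real.log_le_self (Real.sqrt_nonneg _)
    rw [Real.log_sqrt hN0] at h10
    linarith
  have hs : √(N : ℝ) ≤ N / 1000 := by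
    rw [Real.sqrt_le_left (by positivity)]
    have : (N : ℝ) * 10 ^ 6 ≤ N * N := mul_le_mul_of_nonneg_left hNR hN0
    nlinarith
  have h11 : (N : ℝ) ^ 2 / 4 * ∑ d ∈ Icc 1 N, (1 : ℝ) / (d : ℝ) ^ 2 ≤ (N : ℝ) ^ 2 / 4 * 1.645 :=
    mul_le_mul_of_nonneg_left h7 (by positivity)
  have h12 : (N : ℝ) * ∑ d ∈ Icc 1 N, (1 : ℝ) / (d : ℝ) ≤ N * (1 + 2 * (N / 1000)) :=
    mul_le_mul_of_nonneg_left (by linarith) hN0
  rw [h5] at h2
  nlinarith

end Pool.Agent.APLarge
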