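import Pool.Agent.APLarge.Core

/-!
Counting members by owned pairs.
-/

set_option autoImplicit false

namespace Pool.Agent.APLarge

open Finset Pool.Agent.APInt

namespace Count

/-- the number of triples with bounded product -/
lemma card_triples (N : ℕ) :
    ((((Icc 1 N) ×ˢ ((Icc 1 N) ×ˢ (Icc 1 N))).filter
      (fun p : ℕ × ℕ × ℕ => p.1 * (p.2.1 * p.2.2) ≤ N)).card : ℝ) ≤ N * (1 + Real.log N) ^ 2 := by
  classical
  have h0 : ((Icc 1 N) ×ˢ ((Icc 1 N) ×ˢ (Icc 1 N))).filter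
      (fun p : ℕ × ℕ × ℕ => p.1 * (p.2.1 * p.2.2) ≤ N) ⊆
      ((Icc 1 N) ×ˢ (Icc 1 N)).biUnion
        (fun q : ℕ × ℕ => (Icc 1 (N / (q.1 * q.2))).image (fun g => (g, q))) := by
    rintro ⟨g, i, j⟩ hp
    simp only [mem_filter, mem_product, mem_Icc] at hp
    simp only [mem_biUnion, mem_product, mem_Icc, mem_image, Prod.mk.injEq, Prod.exists]
    refine ⟨i, j, ⟨hp.1.2.1, hp.1.2.2⟩, g, ⟨hp.1.1.1, ?_⟩, rfl, rfl, rfl⟩
    rw [Nat.le_div_iff_mul_le (Nat.mul_pos (by omega) (by omega))]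
    exact hp.2
  have hH : ∑ d ∈ Icc 1 N, (1 : ℝ) / (d : ℝ) ≤ 1 + Real.log N := by
    have := harmonic_le_one_add_log N
    rw [harmonic_eq_sum_Icc] at this
    push_cast at this
    simpa [one_div] using this
  have hH0 : 0 ≤ ∑ d ∈ Icc 1 N, (1 : ℝ) / (d : ℝ) := sum_nonneg (fun i _ => by positivity)
  calc _ ≤ ((((Icc 1 N) ×ˢ (Icc 1 N)).biUnion
        (fun q : ℕ × ℕ => (Icc 1 (N / (q.1 * q.2))).image (fun g => (g, q)))).card : ℝ) := by
        exact_mod_cast card_le_card h0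
    _ ≤ ((∑ q ∈ (Icc 1 N) ×ˢ (Icc 1 N), N / (q.1 * q.2) : ℕ) : ℝ) := by
        refine Nat.cast_le.2 (le_trans card_biUnion_le (sum_le_sum fun q _ => ?_))
        refine le_trans card_image_le ?_
        rw [Nat.card_Icc]
        exact (Nat.add_sub_cancel _ _).le
    _ = ∑ q ∈ (Icc 1 N) ×ˢ (Icc 1 N), ((N / (q.1 * q.2) : ℕ) : ℝ) := by push_cast; rfl
    _ ≤ ∑ q ∈ (Icc 1 N) ×ˢ (Icc 1 N), (N : ℝ) * ((1 / (q.1 : ℝ)) * (1 / (q.2 : ℝ))) := by
        refine sum_le_sum fun q _ => ?_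
        refine le_trans Nat.cast_div_le ?_
        push_cast
        rw [div_mul_div_comm, one_mul, mul_one_div]
    _ = N * ((∑ d ∈ Icc 1 N, (1 : ℝ) / (d : ℝ)) * (∑ d ∈ Icc 1 N, (1 : ℝ) / (d : ℝ))) := by
        rw [← mul_sum, sum_product, sum_mul_sum]
    _ ≤ _ := by
        rw [sq]
        gcongr

/-- every pair of nonzero integers with small lcm comes from a triple -/
lemma exists_triple {N : ℕ} {a b : ℤ} (ha : a ≠ 0) (hb : b ≠ 0) (h : Int.lcm a b ≤ N) :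
    ∃ g i j : ℕ, 1 ≤ g ∧ 1 ≤ i ∧ 1 ≤ j ∧ g * (i * j) ≤ N ∧ a.natAbs = g * i ∧
      b.natAbs = g * j := by
  have hg : 0 < Nat.gcd a.natAbs b.natAbs := Nat.gcd_pos_of_pos_left _ (by omega)
  obtain ⟨i, hi⟩ := Nat.gcd_dvd_left a.natAbs b.natAbs
  obtain ⟨j, hj⟩ := Nat.gcd_dvd_right a.natAbs b.natAbs
  have hi0 : 1 ≤ i := by
    rcases Nat.eq_zero_or_pos i with h1 | h1
    · rw [h1] at hi; omega
    · exact h1
  have hj0 : 1 ≤ j := by
    rcases Nat.eq_zero_or_pos j with h1 | h1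
    · rw [h1] at hj; omega
    · exact h1
  refine ⟨Nat.gcd a.natAbs b.natAbs, i, j, hg, hi0, hj0, ?_, hi, hj⟩
  have h1 : Nat.gcd a.natAbs b.natAbs * Nat.lcm a.natAbs b.natAbs = a.natAbs * b.natAbs :=
    Nat.gcd_mul_lcm _ _
  have h2 : Nat.lcm a.natAbs b.natAbs ≤ N := h
  set G := Nat.gcd a.natAbs b.natAbs with hG
  have h3 : G * Nat.lcm a.natAbs b.natAbs = G * (G * (i * j)) := by
    rw [h1]
    calc a.natAbs * b.natAbs = (G * i) * (G * j) := by rw [← hi, ← hj]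
      _ = _ := by ring
  have h4 := Nat.eq_of_mul_eq_mul_left hg h3
  omega

end Count

open Classical in
theorem card_spec {N : ℕ} {F : Finset (Finset ℤ)} (hF : Admissible N F) {x : ℤ}
    (hx : x ∈ Icc (1 : ℤ) N) :
    ((F.filter (fun A => x ∈ A ∧ ¬ IsAP A ∧ Spec N x A)).card : ℝ) ≤
      4 * N * (1 + Real.log N) ^ 2 := by
  set T := ((Icc 1 N) ×ˢ ((Icc 1 N) ×ˢ (Icc 1 N))).filter
      (fun p : ℕ × ℕ × ℕ => p.1 * (p.2.1 * p.2.2) ≤ N) with hT
  set U : Finset (ℤ × ℤ) := ((({1, -1} : Finset ℤ) ×ˢ ({1, -1} : Finset ℤ)) ×ˢ T).image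
    (fun p : (ℤ × ℤ) × (ℕ × ℕ × ℕ) => (p.1.1 * ((p.2.1 * p.2.2.1 : ℕ) : ℤ),
      p.1.2 * ((p.2.1 * p.2.2.2 : ℕ) : ℤ))) with hU
  have hUcard : U.card ≤ 4 * T.card := by
    refine le_trans card_image_le ?_
    rw [card_product]
    gcongr
    rw [card_product]
    decide
  have key : ∀ A ∈ F.filter (fun A => x ∈ A ∧ ¬ IsAP A ∧ Spec N x A),
      ∃ p ∈ U, Own x A (x + p.1) (x + p.2) := by
    intro A hA
    rw [mem_filter] at hA
    obtain ⟨hAF, hxA, hAP, a, b, hown, hlcm⟩ := hA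
    have ha : a ≠ 0 := by
      rintro rfl
      exact hown.2.2.1 (by ring)
    have hb : b ≠ 0 := by
      rintro rfl
      exact hown.2.2.2.1 (by ring)
    obtain ⟨g, i, j, hg, hi, hj, hN, h1, h2⟩ := Count.exists_triple ha hb hlcm
    refine ⟨(a, b), ?_, hown⟩
    rw [hU, mem_image]
    have hsgn : ∀ c : ℤ, c ≠ 0 → Int.sign c ∈ ({1, -1} : Finset ℤ) := by
      intro c hc
      rcases lt_trichotomy c 0 with h | h | h
      · rw [Int.sign_eq_neg_one_of_neg h]; simp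
      · exact absurd h hc
      · rw [Int.sign_eq_one_of_pos h]; simp
    refine ⟨((Int.sign a, Int.sign b), (g, i, j)), ?_, ?_⟩
    · rw [mem_product, mem_product, hT, mem_filter, mem_product, mem_product, mem_Icc, mem_Icc,
        mem_Icc]
      have hij1 : 1 ≤ i * j := Nat.mul_pos hi hj
      have hgN : g ≤ N := le_trans (Nat.le_mul_of_pos_right g hij1) hN
      have hijN : i * j ≤ N := le_trans (Nat.le_mul_of_pos_left _ hg) hN
      have hiN : i ≤ N := le_trans (Nat.le_mul_of_pos_right i hj) hijN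
      have hjN : j ≤ N := le_trans (Nat.le_mul_of_pos_left j hi) hijN
      exact ⟨⟨hsgn a ha, hsgn b hb⟩, ⟨⟨hg, hgN⟩, ⟨hi, hiN⟩, ⟨hj, hjN⟩⟩, hN⟩
    · dsimp only
      rw [← h1, ← h2, Int.sign_mul_natAbs, Int.sign_mul_natAbs]
  choose! f hfU hfown using key
  have hcard : (F.filter (fun A => x ∈ A ∧ ¬ IsAP A ∧ Spec N x A)).card ≤ U.card := by
    refine card_le_card_of_injOn f (fun A hA => hfU A hA) ?_
    intro A hA B hB hAB
    by_contra hne
    have hA' := mem_filter.1 (mem_coe.1 hA)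
    have hB' := mem_filter.1 (mem_coe.1 hB)
    have h1 := hfown A hA
    have h2 := hfown B hB
    rw [← hAB] at h2
    exact Own.exclusive hF hA'.1 hB'.1 hne hB'.2.1 hA'.2.1 h1 ⟨h2.1, h2.2.1⟩
  have h3 := Count.card_triples N
  rw [← hT] at h3
  calc ((F.filter (fun A => x ∈ A ∧ ¬ IsAP A ∧ Spec N x A)).card : ℝ) ≤ (U.card : ℝ) := by
        exact_mod_cast hcard
    _ ≤ ((4 * T.card : ℕ) : ℝ) := by exact_mod_cast hUcard
    _ = 4 * (T.card : ℝ) := by push_cast; ring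
    _ ≤ 4 * (N * (1 + Real.log N) ^ 2) := by gcongr
    _ = _ := by ring

open Classical in
theorem sum_own {N : ℕ} {F : Finset (Finset ℤ)} (hF : Admissible N F) {x : ℤ}
    (hx : x ∈ Icc (1 : ℤ) N) :
    ∑ A ∈ F.filter (fun A => x ∈ A ∧ ¬ IsAP A ∧ ¬ Spec N x A), (A.card - 1) ≤ N ^ 2 := by
  set G := F.filter (fun A => x ∈ A ∧ ¬ IsAP A ∧ ¬ Spec N x A) with hG
  set S : Finset ℤ → Finset (ℤ × ℤ) := fun A =>
    (A ×ˢ A).filter (fun p => Own x A p.1 p.2) with hS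
  have h1 : ∀ A ∈ G, A.card - 1 ≤ (S A).card := by
    intro A hA
    rw [hG, mem_filter] at hA
    obtain ⟨hAF, hxA, hAP, hsp⟩ := hA
    have h2 : A.erase x ⊆ (S A).image Prod.fst := by
      intro p hp
      rw [mem_erase] at hp
      by_contra hcon
      apply hsp
      refine dom_spec (hF.1 A hAF) hxA hAP hp.2 hp.1 ?_
      intro z hz
      apply hcon
      rw [mem_image]
      refine ⟨(p, z), ?_, rfl⟩
      rw [hS]
      simp only [mem_filter, mem_product]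
      exact ⟨⟨hp.2, hz.2.1⟩, hz⟩
    have h3 := card_le_card h2
    rw [card_erase_of_mem hxA] at h3
    exact le_trans h3 card_image_le
  have h2 : (G : Set (Finset ℤ)).PairwiseDisjoint S := by
    intro A hA B hB hAB
    rw [Function.onFun, disjoint_left]
    rintro ⟨y, z⟩ h3 h4
    have hA' := mem_filter.1 (mem_coe.1 hA)
    have hB' := mem_filter.1 (mem_coe.1 hB)
    simp only [hS, mem_filter, mem_product] at h3 h4
    exact Own.exclusive hF hA'.1 hB'.1 hAB hB'.2.1 hA'.2.1 h3.2 ⟨h4.1.1, h4.1.2⟩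
  calc ∑ A ∈ G, (A.card - 1) ≤ ∑ A ∈ G, (S A).card := sum_le_sum h1
    _ = (G.biUnion S).card := (card_biUnion h2).symm
    _ ≤ ((Icc (1 : ℤ) N) ×ˢ (Icc (1 : ℤ) N)).card := by
        apply card_le_card
        intro p hp
        rw [mem_biUnion] at hp
        obtain ⟨A, hA, hp⟩ := hp
        have hA' := mem_filter.1 hA
        simp only [hS, mem_filter, mem_product] at hp
        exact mem_product.2 ⟨hF.1 A hA'.1 hp.1.1, hF.1 A hA'.1 hp.1.2⟩
    _ = N ^ 2 := by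
        rw [card_product, Int.card_Icc]
        simp [sq]

open Classical in
/-- for `y ≠ x` -/
theorem card_two {N : ℕ} {F : Finset (Finset ℤ)} (hF : Admissible N F) {x y : ℤ}
    (hx : x ∈ Icc (1 : ℤ) N) (hyx : y ≠ x) :
    (F.filter (fun A => x ∈ A ∧ y ∈ A ∧ ¬ IsAP A ∧ ¬ Spec N x A)).card ≤ N := by
  have key : ∀ A ∈ F.filter (fun A => x ∈ A ∧ y ∈ A ∧ ¬ IsAP A ∧ ¬ Spec N x A),
      ∃ w, Own x A y w := by
    intro A hA
    rw [mem_filter] at hA
    obtain ⟨hAF, hxA, hyA, hAP, hsp⟩ := hA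
    by_contra hcon
    push Not at hcon
    exact hsp (dom_spec (hF.1 A hAF) hxA hAP hyA hyx hcon)
  choose! w hw using key
  have h1 : (F.filter (fun A => x ∈ A ∧ y ∈ A ∧ ¬ IsAP A ∧ ¬ Spec N x A)).card ≤
      (Icc (1 : ℤ) N).card := by
    refine card_le_card_of_injOn w (fun A hA => ?_) ?_
    · have hA' := mem_filter.1 (mem_coe.1 hA)
      exact hF.1 A hA'.1 (hw A hA).2.1
    · intro A hA B hB hAB
      by_contra hne
      have hA' := mem_filter.1 (mem_coe.1 hA)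
      have hB' := mem_filter.1 (mem_coe.1 hB)
      have h1 := hw A hA
      have h2 := hw B hB
      rw [← hAB] at h2
      exact Own.exclusive hF hA'.1 hB'.1 hne hB'.2.1 hA'.2.1 h1 ⟨h2.1, h2.2.1⟩
  rw [Int.card_Icc] at h1
  simpa using h1

end Pool.Agent.APLarge
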