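import Pool.Agent.APLarge.Mid
import Pool.Agent.APLarge.Count

/-!
A point which is contained in almost all members that are not progressions.
-/

set_option autoImplicit false

namespace Pool.Agent.APLarge

open Finset Pool.Agent.APInt

namespace Center

/-- `N ^ (3/2) (1 + log N) ^ 2 = o(N ^ 2)` -/
lemma growth2 (c : ℝ) (hc : 0 < c) :
    ∃ N1 : ℕ, ∀ N : ℕ, N1 ≤ N → √(N : ℝ) * N * (1 + Real.log N) ^ 2 ≤ c * (N : ℝ) ^ 2 := by
  set s0 := max 1 (81 / c) with hs0
  have h1 : 1 ≤ s0 := le_max_left _ _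
  refine ⟨⌈s0 ^ 8⌉₊, ?_⟩
  intro N hN
  have hNs : s0 ^ 8 ≤ N := le_trans (Nat.le_ceil _) (by exact_mod_cast hN)
  have hN0 : (0 : ℝ) < N := lt_of_lt_of_le (by positivity) hNs
  set s := √√√(N : ℝ) with hs
  have hs2 : s ^ 2 = √√(N : ℝ) := Real.sq_sqrt (Real.sqrt_nonneg _)
  have hs4 : s ^ 4 = √(N : ℝ) := by
    calc s ^ 4 = (s ^ 2) ^ 2 := by ring
      _ = _ := by rw [hs2, Real.sq_sqrt (Real.sqrt_nonneg _)]
  have hs8 : s ^ 8 = N := by
    calc s ^ 8 = (s ^ 4) ^ 2 := by ring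
      _ = _ := by rw [hs4, Real.sq_sqrt hN0.le]
  have hsn : 0 ≤ s := Real.sqrt_nonneg _
  have hss0 : s0 ≤ s := by
    have : s0 ^ 8 ≤ s ^ 8 := by rw [hs8]; exact hNs
    exact le_of_pow_le_pow_left₀ (by norm_num) hsn this
  have hs1 : 1 ≤ s := le_trans h1 hss0
  have hlog : Real.log N ≤ 8 * s := by
    rw [← hs8, Real.log_pow]
    have := Real.log_le_sub_one_of_pos (show 0 < s by linarith)
    push_cast
    linarith
  have hlog0 : 0 ≤ Real.log N := Real.log_natCast_nonneg N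
  have h2 : 81 ≤ c * s := by
    have h3 : 81 / c ≤ s := le_trans (le_max_right _ _) hss0
    rw [div_le_iff₀ hc] at h3
    linarith
  have h4 : (1 + Real.log N) ^ 2 ≤ 81 * s ^ 2 := by
    have h5 : 1 + Real.log N ≤ 9 * s := by linarith
    calc (1 + Real.log N) ^ 2 ≤ (9 * s) ^ 2 := pow_le_pow_left₀ (by linarith) h5 2
      _ = 81 * s ^ 2 := by ring
  rw [← hs4]
  calc s ^ 4 * N * (1 + Real.log N) ^ 2 ≤ s ^ 4 * N * (81 * s ^ 2) :=
        mul_le_mul_of_nonneg_left h4 (by positivity)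
    _ = (81 * s ^ 6) * N := by ring
    _ ≤ (c * (s ^ 8)) * N := by
        apply mul_le_mul_of_nonneg_right _ hN0.le
        calc 81 * s ^ 6 ≤ (c * s) * s ^ 6 := mul_le_mul_of_nonneg_right h2 (by positivity)
          _ = (c * s ^ 7) * 1 := by ring
          _ ≤ (c * s ^ 7) * s := mul_le_mul_of_nonneg_left hs1 (by positivity)
          _ = c * (s ^ 8) := by ring
    _ = c * (N : ℝ) ^ 2 := by rw [hs8]; ring

open Classical in
/-- the number of large members which are not progressions -/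
lemma large_members {N : ℕ} {F : Finset (Finset ℤ)} (hF : Admissible N F) {S : Finset ℤ}
    (hS : S ∈ F) (hSne : S.Nonempty) (C0 : ℝ) (hC0 : 2 ≤ C0) :
    ((F.filter (fun A => ¬ IsAP A ∧ C0 * (S.card : ℝ) < A.card)).card : ℝ) ≤
      2 * (N : ℝ) ^ 2 / C0 + 4 * S.card * N * (1 + Real.log N) ^ 2 := by
  set m := S.card with hm
  have hm1 : 1 ≤ m := hSne.card_pos
  have hmR : (1 : ℝ) ≤ m := by exact_mod_cast hm1
  set T := F.filter (fun A => ¬ IsAP A ∧ C0 * (m : ℝ) < A.card) with hT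
  have hcov : T ⊆ S.biUnion (fun x =>
      (F.filter (fun A => x ∈ A ∧ ¬ IsAP A ∧ ¬ Spec N x A ∧ C0 * (m : ℝ) < A.card)) ∪
      (F.filter (fun A => x ∈ A ∧ ¬ IsAP A ∧ Spec N x A))) := by
    intro A hA
    rw [hT, mem_filter] at hA
    obtain ⟨hAF, hAP, hAc⟩ := hA
    rw [mem_biUnion]
    obtain ⟨x, hxS, hxA⟩ : ∃ x, x ∈ S ∧ x ∈ A := by
      by_cases h : S = A
      · obtain ⟨x, hx⟩ := hSne
        exact ⟨x, hx, h ▸ hx⟩
      · exact Mid.exists_common hF hS hAF h
    refine ⟨x, hxS, ?_⟩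
    rw [mem_union, mem_filter, mem_filter]
    by_cases h : Spec N x A
    · exact Or.inr ⟨hAF, hxA, hAP, h⟩
    · exact Or.inl ⟨hAF, hxA, hAP, h, hAc⟩
  have hper : ∀ x ∈ S, (((F.filter (fun A => x ∈ A ∧ ¬ IsAP A ∧ ¬ Spec N x A ∧
      C0 * (m : ℝ) < A.card)) ∪
      (F.filter (fun A => x ∈ A ∧ ¬ IsAP A ∧ Spec N x A))).card : ℝ) ≤
      2 * (N : ℝ) ^ 2 / (C0 * m) + 4 * N * (1 + Real.log N) ^ 2 := by
    intro x hxS
    have hx := hF.1 S hS hxS
    have h1 := card_spec hF hx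
    have h2 := sum_own hF hx
    set Z := F.filter (fun A => x ∈ A ∧ ¬ IsAP A ∧ ¬ Spec N x A ∧ C0 * (m : ℝ) < A.card) with hZ
    have h3 : ∑ A ∈ Z, (A.card - 1) ≤ N ^ 2 := by
      refine le_trans ?_ h2
      apply sum_le_sum_of_subset
      intro A hA
      rw [hZ, mem_filter] at hA
      rw [mem_filter]
      exact ⟨hA.1, hA.2.1, hA.2.2.1, hA.2.2.2.1⟩
    have h4 : (Z.card : ℝ) * (C0 * m / 2) ≤ (N : ℝ) ^ 2 := by
      calc (Z.card : ℝ) * (C0 * m / 2) = ∑ A ∈ Z, (C0 * m / 2) := by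
            rw [sum_const, nsmul_eq_mul]
        _ ≤ ∑ A ∈ Z, ((A.card - 1 : ℕ) : ℝ) := by
            apply sum_le_sum
            intro A hA
            rw [hZ, mem_filter] at hA
            have h5 := hA.2.2.2.2
            have h6 : (2 : ℝ) ≤ C0 * m := by nlinarith
            have h7 : 1 ≤ A.card := by
              have : (0 : ℝ) < A.card := by linarith
              exact_mod_cast this
            rw [Nat.cast_sub h7]
            push_cast
            linarith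
        _ ≤ (N : ℝ) ^ 2 := by
            rw [← Nat.cast_sum]
            exact_mod_cast h3
    have h5 : (Z.card : ℝ) ≤ 2 * (N : ℝ) ^ 2 / (C0 * m) := by
      rw [le_div_iff₀ (by positivity)]
      linarith
    have h6 : ((Z ∪ (F.filter (fun A => x ∈ A ∧ ¬ IsAP A ∧ Spec N x A))).card : ℝ) ≤
        (Z.card : ℝ) + ((F.filter (fun A => x ∈ A ∧ ¬ IsAP A ∧ Spec N x A)).card : ℝ) := by
      exact_mod_cast card_union_le _ _
    linarith
  calc (T.card : ℝ) ≤ ∑ x ∈ S, (((F.filter (fun A => x ∈ A ∧ ¬ IsAP A ∧ ¬ Spec N x A ∧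
      C0 * (m : ℝ) < A.card)) ∪
      (F.filter (fun A => x ∈ A ∧ ¬ IsAP A ∧ Spec N x A))).card : ℝ) := by
        rw [← Nat.cast_sum]
        exact_mod_cast le_trans (card_le_card hcov) card_biUnion_le
    _ ≤ ∑ x ∈ S, (2 * (N : ℝ) ^ 2 / (C0 * m) + 4 * N * (1 + Real.log N) ^ 2) :=
        sum_le_sum hper
    _ = 2 * (N : ℝ) ^ 2 / C0 + 4 * m * N * (1 + Real.log N) ^ 2 := by
        rw [sum_const, nsmul_eq_mul, ← hm]
        field_simp

end Center

open Center

open Classical in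
theorem exists_center (ε : ℝ) (hε : 0 < ε) : ∃ N0 : ℕ, ∀ N ≥ N0, ∀ F : Finset (Finset ℤ),
    Admissible N F → 0.07 * (N : ℝ) ^ 2 ≤ ((F.filter (fun A => ¬ IsAP A)).card : ℝ) →
    ∃ x ∈ Icc (1 : ℤ) N,
      ((F.filter (fun A => ¬ IsAP A ∧ x ∉ A)).card : ℝ) ≤ ε * (N : ℝ) ^ 2 := by
  set C0 : ℝ := 200 + 4 / ε with hC0
  have hC0pos : 200 ≤ C0 := by
    have : 0 < 4 / ε := by positivity
    linarith
  have hC0ε : 2 / C0 ≤ ε / 2 := by
    rw [div_le_iff₀ (by linarith)]
    have : ε * (4 / ε) = 4 := by field_simp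
    nlinarith
  have hC0' : 2 / C0 ≤ 0.01 := by
    rw [div_le_iff₀ (by linarith)]
    linarith
  set c1 : ℝ := 1 / (10 * C0) with hc1
  have hc1pos : 0 < c1 := by positivity
  have hc1C : c1 * C0 = 1 / 10 := by
    rw [hc1]; field_simp
  have hc1le : c1 ≤ 1 / 2000 := by
    rw [hc1]
    apply one_div_le_one_div_of_le (by norm_num)
    linarith
  obtain ⟨N1, hN1⟩ := mid_members c1 C0 0.01 hc1pos (by linarith) (by norm_num)
  obtain ⟨N2, hN2⟩ := growth2 (min 0.0001 (ε / 100)) (by positivity)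
  refine ⟨max (max N1 N2) 10000, ?_⟩
  intro N hN F hF hNA
  have hNN1 : N1 ≤ N := le_trans (le_trans (le_max_left _ _) (le_max_left _ _)) hN
  have hNN2 : N2 ≤ N := le_trans (le_trans (le_max_right _ _) (le_max_left _ _)) hN
  have hN4 : 10000 ≤ N := le_trans (le_max_right _ _) hN
  have hN4R : (10000 : ℝ) ≤ N := by exact_mod_cast hN4
  have hg := hN2 N hNN2
  set x := √(N : ℝ) with hx
  have hx2 : x ^ 2 = N := Real.sq_sqrt (by positivity)
  have hx100 : 100 ≤ x := by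
    rw [hx]
    apply Real.le_sqrt_of_sq_le
    norm_num
    exact hN4
  have hgA : x * N * (1 + Real.log N) ^ 2 ≤ 0.0001 * (N : ℝ) ^ 2 :=
    le_trans hg (mul_le_mul_of_nonneg_right (min_le_left _ _) (by positivity))
  have hgB : x * N * (1 + Real.log N) ^ 2 ≤ ε / 100 * (N : ℝ) ^ 2 :=
    le_trans hg (mul_le_mul_of_nonneg_right (min_le_right _ _) (by positivity))
  set NA := F.filter (fun A => ¬ IsAP A) with hNAdef
  have hNAne : NA.Nonempty := by
    rw [nonempty_iff_ne_empty]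
    intro h
    rw [h] at hNA
    simp only [card_empty, Nat.cast_zero] at hNA
    nlinarith
  obtain ⟨S, hSNA, hSmin⟩ := exists_min_image NA (fun A => A.card) hNAne
  have hSF : S ∈ F := (mem_filter.1 hSNA).1
  have hSne : S.Nonempty := by
    rw [nonempty_iff_ne_empty]
    rintro rfl
    have h1 : NA ⊆ {∅} := by
      intro A hA
      rw [mem_singleton]
      by_contra hne
      obtain ⟨t, _, ht⟩ := Mid.exists_common hF (mem_filter.1 hA).1 hSF hne
      simp at ht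
    have h2 := card_le_card h1
    rw [card_singleton] at h2
    have h3 : (NA.card : ℝ) ≤ 1 := by exact_mod_cast h2
    nlinarith
  set m := S.card with hm
  have hm1 : 1 ≤ m := hSne.card_pos
  have hmR : (1 : ℝ) ≤ m := by exact_mod_cast hm1
  have hmin : ∀ A ∈ F, ¬ IsAP A → m ≤ A.card :=
    fun A hA hAP => hSmin A (mem_filter.2 ⟨hA, hAP⟩)
  -- the case of large m
  have hm9 : (m : ℝ) ≤ 9 * x := by
    by_contra hcon
    push Not at hcon
    have hm2 : 2 ≤ m := by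
      have : (2 : ℝ) ≤ m := by linarith
      exact_mod_cast this
    have h1 := big_members hF hm2 hmin
    have h1R : (NA.card : ℝ) * ((m - 1 : ℕ) : ℝ) ^ 2 ≤ 4 * (N : ℝ) ^ 3 := by exact_mod_cast h1
    have h2 : 8.9 * x ≤ ((m - 1 : ℕ) : ℝ) := by
      rw [Nat.cast_sub (by omega)]
      push_cast
      linarith
    have h3 : 79 * (N : ℝ) ≤ ((m - 1 : ℕ) : ℝ) ^ 2 := by
      calc 79 * (N : ℝ) ≤ (8.9 * x) ^ 2 := by rw [← hx2]; nlinarith
        _ ≤ _ := pow_le_pow_left₀ (by positivity) h2 2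
    have h4 : 0.07 * (N : ℝ) ^ 2 * (79 * (N : ℝ)) ≤ 4 * (N : ℝ) ^ 3 := by
      refine le_trans ?_ h1R
      exact mul_le_mul hNA h3 (by positivity) (by positivity)
    have h5 : 0 < (N : ℝ) ^ 3 := by positivity
    nlinarith
  -- large members are few
  have hlarge := large_members hF hSF hSne C0 (by linarith)
  rw [← hm] at hlarge
  have hlogsq : 0 ≤ (1 + Real.log N) ^ 2 := by positivity
  have herr : 4 * m * N * (1 + Real.log N) ^ 2 ≤ 36 * (x * N * (1 + Real.log N) ^ 2) := by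
    calc 4 * m * N * (1 + Real.log N) ^ 2 = (4 * N * (1 + Real.log N) ^ 2) * m := by ring
      _ ≤ (4 * N * (1 + Real.log N) ^ 2) * (9 * x) := mul_le_mul_of_nonneg_left hm9 (by positivity)
      _ = _ := by ring
  set LG := F.filter (fun A => ¬ IsAP A ∧ C0 * (m : ℝ) < A.card) with hLG
  set M := F.filter (fun A => ¬ IsAP A ∧ (A.card : ℝ) ≤ C0 * m) with hM
  have hLG1 : (LG.card : ℝ) ≤ 0.0136 * (N : ℝ) ^ 2 := by
    have h1 : 2 * (N : ℝ) ^ 2 / C0 ≤ 0.01 * (N : ℝ) ^ 2 := by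
      have : 2 * (N : ℝ) ^ 2 / C0 = 2 / C0 * (N : ℝ) ^ 2 := by ring
      rw [this]
      exact mul_le_mul_of_nonneg_right hC0' (by positivity)
    linarith
  have hLG2 : (LG.card : ℝ) ≤ ε * (N : ℝ) ^ 2 := by
    have h1 : 2 * (N : ℝ) ^ 2 / C0 ≤ ε / 2 * (N : ℝ) ^ 2 := by
      have : 2 * (N : ℝ) ^ 2 / C0 = 2 / C0 * (N : ℝ) ^ 2 := by ring
      rw [this]
      exact mul_le_mul_of_nonneg_right hC0ε (by positivity)
    have h2 : 0 ≤ ε * (N : ℝ) ^ 2 := by positivity
    linarith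
  have hNAc : (NA.card : ℝ) ≤ LG.card + M.card := by
    have : NA ⊆ LG ∪ M := by
      intro A hA
      rw [hNAdef, mem_filter] at hA
      rw [mem_union, hLG, hM, mem_filter, mem_filter]
      rcases lt_or_ge (C0 * (m : ℝ)) A.card with h | h
      · exact Or.inl ⟨hA.1, hA.2, h⟩
      · exact Or.inr ⟨hA.1, hA.2, h⟩
    exact_mod_cast le_trans (card_le_card this) (card_union_le _ _)
  have hMc : 0.05 * (N : ℝ) ^ 2 ≤ M.card := by
    have h2 : 0 ≤ (N : ℝ) ^ 2 := by positivity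
    linarith
  -- the case of medium m
  have hm3 : (m : ℝ) < c1 * x := by
    by_contra hcon
    push Not at hcon
    have h1 := hN1 N hNN1 F hF m hcon hm9 hmin
    rw [← hM] at h1
    have h2 : 0 < (N : ℝ) ^ 2 := by positivity
    linarith
  -- a popular point of S
  obtain ⟨x0, hx0S, hx0⟩ : ∃ x0 ∈ S, (M.card : ℝ) ≤
      m * ((M.filter (fun A => x0 ∈ A)).card : ℝ) := by
    by_contra hcon
    push Not at hcon
    have hcov : M ⊆ S.biUnion (fun t => M.filter (fun A => t ∈ A)) := by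
      intro A hA
      rw [mem_biUnion]
      have hAF : A ∈ F := (mem_filter.1 hA).1
      obtain ⟨t, htS, htA⟩ : ∃ t, t ∈ S ∧ t ∈ A := by
        by_cases h : S = A
        · obtain ⟨t, ht⟩ := hSne
          exact ⟨t, ht, h ▸ ht⟩
        · exact Mid.exists_common hF hSF hAF h
      exact ⟨t, htS, mem_filter.2 ⟨hA, htA⟩⟩
    have h1 : (M.card : ℝ) ≤ ∑ t ∈ S, ((M.filter (fun A => t ∈ A)).card : ℝ) := by
      rw [← Nat.cast_sum]
      exact_mod_cast le_trans (card_le_card hcov) card_biUnion_le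
    have h2 : ∑ t ∈ S, ((M.filter (fun A => t ∈ A)).card : ℝ) < ∑ t ∈ S, (M.card : ℝ) / m := by
      apply sum_lt_sum_of_nonempty hSne
      intro t ht
      rw [lt_div_iff₀ (by linarith), mul_comm]
      exact hcon t ht
    rw [sum_const, nsmul_eq_mul, ← hm, mul_div_cancel₀] at h2
    · linarith
    · exact (show (m : ℝ) ≠ 0 by positivity)
  have hx0N := hF.1 S hSF hx0S
  refine ⟨x0, hx0N, ?_⟩
  -- all members of M contain x0
  have hall : ∀ B ∈ M, x0 ∈ B := by
    intro B hB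
    by_contra hxB
    have hBF : B ∈ F := (mem_filter.1 hB).1
    have hBc : (B.card : ℝ) ≤ C0 * m := (mem_filter.1 hB).2.2
    have hcov : M.filter (fun A => x0 ∈ A) ⊆
        (B.biUnion (fun y => F.filter (fun A => x0 ∈ A ∧ y ∈ A ∧ ¬ IsAP A ∧ ¬ Spec N x0 A))) ∪
        F.filter (fun A => x0 ∈ A ∧ ¬ IsAP A ∧ Spec N x0 A) := by
      intro A hA
      rw [mem_filter] at hA
      obtain ⟨hAM, hxA⟩ := hA
      have hAF : A ∈ F := (mem_filter.1 hAM).1
      have hAP : ¬ IsAP A := (mem_filter.1 hAM).2.1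
      have hne : B ≠ A := by
        rintro rfl
        exact hxB hxA
      obtain ⟨y, hyB, hyA⟩ := Mid.exists_common hF hBF hAF hne
      rw [mem_union, mem_biUnion, mem_filter]
      by_cases h : Spec N x0 A
      · exact Or.inr ⟨hAF, hxA, hAP, h⟩
      · exact Or.inl ⟨y, hyB, mem_filter.2 ⟨hAF, hxA, hyA, hAP, h⟩⟩
    have h1 := le_trans (card_le_card hcov) (card_union_le _ _)
    have h2 : (B.biUnion (fun y => F.filter
        (fun A => x0 ∈ A ∧ y ∈ A ∧ ¬ IsAP A ∧ ¬ Spec N x0 A))).card ≤ B.card * N := by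
      refine le_trans card_biUnion_le ?_
      rw [← smul_eq_mul, ← sum_const]
      apply sum_le_sum
      intro y hy
      exact card_two hF hx0N (by rintro rfl; exact hxB hy)
    have h3 := card_spec hF hx0N
    have h4 : ((M.filter (fun A => x0 ∈ A)).card : ℝ) ≤
        (C0 * m) * N + 4 * N * (1 + Real.log N) ^ 2 := by
      have h5 : ((M.filter (fun A => x0 ∈ A)).card : ℝ) ≤ (B.card : ℝ) * N +
          ((F.filter (fun A => x0 ∈ A ∧ ¬ IsAP A ∧ Spec N x0 A)).card : ℝ) := by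
        exact_mod_cast le_trans h1 (Nat.add_le_add_right h2 _)
      have h6 := mul_le_mul_of_nonneg_right hBc (show (0 : ℝ) ≤ N by positivity)
      linarith
    have h5 : (M.card : ℝ) ≤ C0 * (m ^ 2 * N) + 4 * m * N * (1 + Real.log N) ^ 2 := by
      have := mul_le_mul_of_nonneg_left h4 (show (0 : ℝ) ≤ m by positivity)
      calc (M.card : ℝ) ≤ _ := hx0
        _ ≤ _ := this
        _ = _ := by ring
    have h6 : (m : ℝ) ^ 2 ≤ (c1 * x) ^ 2 := pow_le_pow_left₀ (by positivity) hm3.le 2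
    have h7 : C0 * ((m : ℝ) ^ 2 * N) ≤ 0.01 * (N : ℝ) ^ 2 := by
      calc C0 * ((m : ℝ) ^ 2 * N) ≤ C0 * ((c1 * x) ^ 2 * N) := by
            apply mul_le_mul_of_nonneg_left _ (by linarith)
            exact mul_le_mul_of_nonneg_right h6 (by positivity)
        _ = (c1 * C0) * c1 * (x ^ 2 * N) := by ring
        _ = (1 / 10 * c1) * (N : ℝ) ^ 2 := by rw [hc1C, hx2]; ring
        _ ≤ 0.01 * (N : ℝ) ^ 2 := by
            apply mul_le_mul_of_nonneg_right _ (by positivity)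
            linarith
    have h8 : 0 < (N : ℝ) ^ 2 := by positivity
    linarith
  refine le_trans ?_ hLG2
  have : F.filter (fun A => ¬ IsAP A ∧ x0 ∉ A) ⊆ LG := by
    intro A hA
    rw [mem_filter] at hA
    rw [hLG, mem_filter]
    refine ⟨hA.1, hA.2.1, ?_⟩
    by_contra hcon
    push Not at hcon
    exact hA.2.2 (hall A (mem_filter.2 ⟨hA.1, hA.2.1, hcon⟩))
  exact_mod_cast card_le_card this

end Pool.Agent.APLarge
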