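import Pool.Agent.APLarge.Core

/-!
Members own pairs outside the excluded set.
-/

set_option autoImplicit false

namespace Pool.Agent.APLarge

open Finset Pool.Agent.APInt

namespace Avoid

/-- a progression with two adjacent elements `q' < q` has difference `q - q'` -/
lemma adj {P : Finset ℤ} (hP : IsAP P) {q' q : ℤ} (hq' : q' ∈ P) (hq : q ∈ P) (hlt : q' < q)
    (hadj : ∀ t ∈ P, t ≤ q' ∨ q ≤ t) :
    (∀ u ∈ P, (q - q') ∣ u - q') ∧
      ∀ u ∈ P, ∀ v ∈ P, ∀ t, (q - q') ∣ t - q' → u ≤ t → t ≤ v → t ∈ P := by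
  obtain ⟨a0, d, b0, hd, hab, hdvd, hmem⟩ := (isAP_iff P).1 hP
  have h1 := (hmem q').1 hq'
  have h2 := (hmem q).1 hq
  have h3 : d ∣ q - q' := by
    have := dvd_sub h2.1 h1.1
    simpa using this
  have h4 : d ≤ q - q' := Int.le_of_dvd (by omega) h3
  have h5 : q' + d ∈ P := by
    rw [hmem]
    refine ⟨?_, by omega, by omega⟩
    have : q' + d - a0 = (q' - a0) + d := by ring
    rw [this]
    exact dvd_add h1.1 (dvd_refl d)
  have h6 : d = q - q' := by
    rcases hadj _ h5 with h | h <;> omega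
  rw [← h6]
  refine ⟨?_, ?_⟩
  · intro u hu
    have := dvd_sub ((hmem u).1 hu).1 h1.1
    simpa using this
  · intro u hu v hv t ht hut htv
    rw [hmem]
    have hu' := (hmem u).1 hu
    have hv' := (hmem v).1 hv
    refine ⟨?_, by omega, by omega⟩
    have := dvd_add ht h1.1
    simpa using this

lemma not_Oml {N : ℕ} {F : Finset (Finset ℤ)} {x : ℤ} (hF : Admissible N F) {A : Finset ℤ}
    (hA : A ∈ F) (hxA : x ∈ A) (hAP : ¬ IsAP A) {y z : ℤ} (h : Own x A y z) :
    ¬ Oml F x (y, z) := by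
  rintro ⟨P, hPF, hP, hxP, hyP, hzP⟩
  have hne : A ≠ P := by
    rintro rfl
    exact hAP hP
  exact Own.exclusive hF hA hPF hne hxP hxA h ⟨hyP, hzP⟩

lemma not_Oml' {N : ℕ} {F : Finset (Finset ℤ)} {x : ℤ} (hF : Admissible N F) {A : Finset ℤ}
    (hA : A ∈ F) (hxA : x ∈ A) (hAP : ¬ IsAP A) {p : ℤ × ℤ} (h : Own x A p.1 p.2) :
    ¬ Oml F x p := not_Oml hF hA hxA hAP h

/-- the exceptional pairs -/
def Exc (F : Finset (Finset ℤ)) (x : ℤ) (p : ℤ × ℤ) : Prop :=
  Tl F x p ∧ ¬ ∃ c d : ℤ, Icc c d ∈ F ∧ x ∉ Icc c d ∧ c ≤ p.1 ∧ p.2 ≤ d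

open Classical in
lemma card_Exc (N : ℕ) (F : Finset (Finset ℤ)) (x : ℤ) :
    ((prs N x).filter (fun p => Exc F x p)).card ≤ 2 * N := by
  have h1 : ((prs N x).filter (fun p => Exc F x p)).card ≤ (Icc (1 : ℤ) (2 * N)).card := by
    refine card_le_card_of_injOn (fun p => p.1 + p.2) ?_ ?_
    · intro p hp
      have hp' := mem_filter.1 (mem_coe.1 hp)
      have h2 := mem_prs.1 hp'.1
      rw [mem_coe, mem_Icc]
      constructor <;> dsimp only <;> omega
    · rintro ⟨y, z⟩ hp ⟨y', z'⟩ hp' h2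
      have h3 := (mem_filter.1 (mem_coe.1 hp)).2
      have h4 := (mem_filter.1 (mem_coe.1 hp')).2
      dsimp only at h2
      by_contra hne
      rcases lt_trichotomy y y' with h5 | h5 | h5
      · apply h4.2
        refine ⟨y + 1, z - 1, h3.1.2.1, h3.1.2.2, ?_, ?_⟩ <;> dsimp only <;> omega
      · apply hne
        rw [Prod.mk.injEq]
        exact ⟨h5, by omega⟩
      · apply h3.2
        refine ⟨y' + 1, z' - 1, h4.1.2.1, h4.1.2.2, ?_, ?_⟩ <;> dsimp only <;> omega
  refine le_trans h1 ?_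
  rw [Int.card_Icc]
  omega

lemma isAP_Icc' {c d : ℤ} (h : c ≤ d) : IsAP (Icc c d) := by
  rw [isAP_iff]
  refine ⟨c, 1, d, le_refl _, h, one_dvd _, ?_⟩
  intro t
  rw [mem_Icc]
  simp

/-- the key claim -/
lemma key {N : ℕ} {F : Finset (Finset ℤ)} {x a b : ℤ} (h : Hull N F x a b) {A : Finset ℤ}
    (hAF : A ∈ F) (hxA : x ∈ A) (hAP : ¬ IsAP A) (hsp : ¬ Spec N x A) :
    ∃ p ∈ prs N x, Own x A p.1 p.2 ∧
      (¬ ((p.2 < a ∨ b < p.1) ∨ Tl F x p ∨ Oml F x p) ∨ Exc F x p) := by
  have hF := h.adm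
  have hAN := hF.1 A hAF
  have hab := h.ab
  have hxb := h.xb
  by_cases hcase : ∃ q ∈ A, q ≠ x ∧ a ≤ q ∧ q ≤ b
  · obtain ⟨q, hq, hqx, haq, hqb⟩ := hcase
    have h1 : ∃ w, Own x A q w := by
      by_contra hcon
      push Not at hcon
      exact hsp (dom_spec hAN hxA hAP hq hqx hcon)
    obtain ⟨w, hw⟩ := h1
    have hqw : q ≠ w := hw.2.2.2.2.1
    have main : ∀ y z : ℤ, y < z → Own x A y z → (q = y ∨ q = z) →
        ∃ p ∈ prs N x, Own x A p.1 p.2 ∧
      (¬ ((p.2 < a ∨ b < p.1) ∨ Tl F x p ∨ Oml F x p) ∨ Exc F x p) := by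
      intro y z hyz hown hq'
      refine ⟨(y, z), hown.mem_prs hAN hyz, hown, Or.inl ?_⟩
      rintro ((h1 | h1) | h1 | h1)
      · dsimp only at h1; omega
      · dsimp only at h1; omega
      · obtain ⟨h2, h3, h4⟩ := h1
        dsimp only at h2 h3 h4
        obtain ⟨t, ht, hta⟩ := h.low _ h3 (isAP_Icc' h2) h4
        obtain ⟨s, hs, hsb⟩ := h.high _ h3 (isAP_Icc' h2) h4
        rw [mem_Icc] at ht hs
        omega
      · exact not_Oml hF hAF hxA hAP hown h1
    rcases lt_or_gt_of_ne hqw with h2 | h2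
    · exact main q w h2 hw (Or.inl rfl)
    · exact main w q h2 hw.symm (Or.inr rfl)
  · push Not at hcase
    -- elements on both sides
    obtain ⟨B, hBF, hB, hxB, hBb⟩ := h.att_high
    obtain ⟨B', hBF', hB', hxB', hBa⟩ := h.att_low
    have hne : A ≠ B := by
      rintro rfl
      exact hxB hxA
    have hne' : A ≠ B' := by
      rintro rfl
      exact hxB' hxA
    obtain ⟨t1, ht1⟩ := (hF.2 A hAF B hBF hne).nonempty
    obtain ⟨t2, ht2⟩ := (hF.2 A hAF B' hBF' hne').nonempty
    rw [mem_inter] at ht1 ht2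
    have ht1x : t1 ≠ x := by
      rintro rfl
      exact hxB ht1.2
    have ht2x : t2 ≠ x := by
      rintro rfl
      exact hxB' ht2.2
    have h3 := hBb t1 ht1.2
    have h4 := hBa t2 ht2.2
    have ht1a : t1 < a := by
      by_contra hcon
      have := hcase t1 ht1.1 ht1x (by omega)
      omega
    have ht2b : b < t2 := hcase t2 ht2.1 ht2x h4
    have hneL : (A.filter (fun t => t ≠ x ∧ t < a)).Nonempty :=
      ⟨t1, mem_filter.2 ⟨ht1.1, ht1x, ht1a⟩⟩
    have hneR : (A.filter (fun t => t ≠ x ∧ b < t)).Nonempty :=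
      ⟨t2, mem_filter.2 ⟨ht2.1, ht2x, ht2b⟩⟩
    set q' := (A.filter (fun t => t ≠ x ∧ t < a)).max' hneL with hq'
    set q := (A.filter (fun t => t ≠ x ∧ b < t)).min' hneR with hq
    have hq'm : q' ∈ A ∧ q' ≠ x ∧ q' < a := by
      have := (A.filter (fun t => t ≠ x ∧ t < a)).max'_mem hneL
      rw [← hq', mem_filter] at this
      exact this
    have hqm : q ∈ A ∧ q ≠ x ∧ b < q := by
      have := (A.filter (fun t => t ≠ x ∧ b < t)).min'_mem hneR
      rw [← hq, mem_filter] at this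
      exact this
    have hadj : ∀ t ∈ A, t ≠ x → t ≤ q' ∨ q ≤ t := by
      intro t ht htx
      rcases lt_or_ge t a with h5 | h5
      · left
        exact le_max' _ _ (mem_filter.2 ⟨ht, htx, h5⟩)
      · right
        exact min'_le _ _ (mem_filter.2 ⟨ht, htx, hcase t ht htx h5⟩)
    have hxq : x < q := by omega
    have hlt : q' < q := by omega
    by_cases hown : Own x A q' q
    · refine ⟨(q', q), hown.mem_prs hAN hlt, hown, Or.inl ?_⟩
      rintro ((h1 | h1) | h1 | h1)
      · dsimp only at h1; omega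
      · dsimp only at h1; omega
      · obtain ⟨h2, h5, h6⟩ := h1
        dsimp only at h2 h5 h6
        have hne2 : A ≠ Icc (q' + 1) (q - 1) := by
          intro h7
          rw [← h7] at h6
          exact h6 hxA
        obtain ⟨t, ht⟩ := (hF.2 A hAF _ h5 hne2).nonempty
        rw [mem_inter, mem_Icc] at ht
        have htx : t ≠ x := by
          rintro rfl
          exact h6 (mem_Icc.2 ht.2)
        rcases hadj t ht.1 htx with h7 | h7 <;> omega
      · exact not_Oml hF hAF hxA hAP hown h1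
    · have h5 : ∃ y z, y ≤ q' ∧ q ≤ z ∧ Own x A y z := by
        by_contra hcon
        push Not at hcon
        exact hsp (cross_spec hAN hxA hAP hq'm.1 hqm.1 hq'm.2.1 hxq hlt hadj
          (fun y z h6 h7 => hcon y z h6 h7))
      obtain ⟨y, z, hyq, hqz, hyz⟩ := h5
      refine ⟨(y, z), hyz.mem_prs hAN (by omega), hyz, ?_⟩
      by_cases hexc : Exc F x (y, z)
      · right; exact hexc
      left
      rintro ((h1 | h1) | h1 | h1)
      · dsimp only at h1; omega
      · dsimp only at h1; omega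
      · have h6 : ∃ c d : ℤ, Icc c d ∈ F ∧ x ∉ Icc c d ∧ c ≤ y ∧ z ≤ d := by
          by_contra hcon
          exact hexc ⟨h1, hcon⟩
        obtain ⟨c, d, hcdF, hxcd, hcy, hzd⟩ := h6
        have hne3 : A ≠ Icc c d := by
          rintro h7
          rw [← h7] at hxcd
          exact hxcd hxA
        have hI := hF.2 A hAF _ hcdF hne3
        have hyI : y ∈ A ∩ Icc c d := mem_inter.2 ⟨hyz.1, mem_Icc.2 ⟨hcy, by omega⟩⟩
        have hzI : z ∈ A ∩ Icc c d := mem_inter.2 ⟨hyz.2.1, mem_Icc.2 ⟨by omega, hzd⟩⟩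
        have hqI : q ∈ A ∩ Icc c d := mem_inter.2 ⟨hqm.1, mem_Icc.2 ⟨by omega, by omega⟩⟩
        have hqI' : q' ∈ A ∩ Icc c d := mem_inter.2 ⟨hq'm.1, mem_Icc.2 ⟨by omega, by omega⟩⟩
        have hadjI : ∀ t ∈ A ∩ Icc c d, t ≤ q' ∨ q ≤ t := by
          intro t ht
          rw [mem_inter] at ht
          refine hadj t ht.1 ?_
          rintro rfl
          exact hxcd ht.2
        obtain ⟨h7, h8⟩ := adj hI hqI' hqI hlt hadjI
        -- the progression through `x`
        have h9 : ∃ P ⊆ A, IsAP P ∧ x ∈ P ∧ q' ∈ P ∧ q ∈ P := by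
          by_contra hcon
          push Not at hcon
          exact hown ⟨hq'm.1, hqm.1, hq'm.2.1, hqm.2.1, by omega,
            fun P h1 h2 h3 h4 h5 => hcon P h1 h2 h3 h4 h5⟩
        obtain ⟨P, hPA, hP, hxP, hqP', hqP⟩ := h9
        have hxc : x < c := by
          by_contra hcon
          exact hxcd (mem_Icc.2 ⟨by omega, by omega⟩)
        have hadjP : ∀ t ∈ P, t ≤ q' ∨ q ≤ t := by
          intro t ht
          by_cases htx : t = x
          · left; omega
          · exact hadj t (hPA ht) htx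
        obtain ⟨h10, h11⟩ := adj hP hqP' hqP hlt hadjP
        have hDx : (q - q') ∣ x - q' := h10 x hxP
        refine hyz.2.2.2.2.2 (apSet (q - q') x z) ?_ (isAP_apSet (by omega) (by omega)) ?_ ?_ ?_
        · intro t ht
          rw [mem_apSet] at ht
          have htq : (q - q') ∣ t - q' := by
            have := dvd_add ht.2 hDx
            simpa using this
          rcases le_total t q with h12 | h12
          · exact hPA (h11 x hxP q hqP t htq ht.1.1 h12)
          · exact (mem_inter.1 (h8 q hqI z hzI t htq h12 ht.1.2)).1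
        · rw [mem_apSet]
          exact ⟨⟨le_refl _, by omega⟩, by simp⟩
        · rw [mem_apSet]
          refine ⟨⟨by omega, by omega⟩, ?_⟩
          have := dvd_sub (h7 y hyI) hDx
          simpa using this
        · rw [mem_apSet]
          refine ⟨⟨by omega, le_refl _⟩, ?_⟩
          have := dvd_sub (h7 z hzI) hDx
          simpa using this
      · exact not_Oml hF hAF hxA hAP hyz h1

end Avoid

open Classical in
theorem avoidance {N : ℕ} {F : Finset (Finset ℤ)} {x a b : ℤ} (h : Hull N F x a b) :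
    (F.filter (fun A => x ∈ A ∧ ¬ IsAP A ∧ ¬ Spec N x A)).card + (Omega N F x a b).card ≤
      (prs N x).card + 2 * N := by
  set G := F.filter (fun A => x ∈ A ∧ ¬ IsAP A ∧ ¬ Spec N x A) with hG
  set E := (prs N x).filter (fun p => Avoid.Exc F x p) with hE
  have key : ∀ A ∈ G, ∃ p, (p ∈ prs N x ∧ Own x A p.1 p.2) ∧
      (¬ ((p.2 < a ∨ b < p.1) ∨ Tl F x p ∨ Oml F x p) ∨ Avoid.Exc F x p) := by
    intro A hA
    rw [hG, mem_filter] at hA
    obtain ⟨p, h1, h2, h3⟩ := Avoid.key h hA.1 hA.2.1 hA.2.2.1 hA.2.2.2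
    exact ⟨p, ⟨h1, h2⟩, h3⟩
  choose! f hf1 hf2 using key
  have hsub : G.card ≤ (prs N x \ (Omega N F x a b \ E)).card := by
    refine card_le_card_of_injOn f ?_ ?_
    · intro A hA
      have h1 := hf1 A (mem_coe.1 hA)
      have h2 := hf2 A (mem_coe.1 hA)
      rw [mem_coe, mem_sdiff, mem_sdiff]
      refine ⟨h1.1, ?_⟩
      rintro ⟨h3, h4⟩
      rw [Omega, mem_filter] at h3
      rcases h2 with h2 | h2
      · exact h2 h3.2
      · exact h4 (mem_filter.2 ⟨h1.1, h2⟩)
    · intro A hA B hB hAB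
      by_contra hne
      have hA' := mem_filter.1 (mem_coe.1 hA)
      have hB' := mem_filter.1 (mem_coe.1 hB)
      have h1 := (hf1 A (mem_coe.1 hA)).2
      have h2 := (hf1 B (mem_coe.1 hB)).2
      rw [← hAB] at h2
      exact Own.exclusive h.adm hA'.1 hB'.1 hne hB'.2.1 hA'.2.1 h1 ⟨h2.1, h2.2.1⟩
  have h1 : (prs N x \ (Omega N F x a b \ E)).card + (Omega N F x a b \ E).card =
      (prs N x).card := by
    apply card_sdiff_add_card_eq_card
    exact sdiff_subset.trans (filter_subset _ _)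
  have h2 : (Omega N F x a b).card ≤ (Omega N F x a b \ E).card + E.card := by
    have := card_le_card_sdiff_add_card (s := Omega N F x a b) (t := E)
    omega
  have h3 : E.card ≤ 2 * N := Avoid.card_Exc N F x
  omega

end Pool.Agent.APLarge
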