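import Pool.Agent.APLarge.ScaleIneq

/-!
The counting lemma: progressions of an admissible family against excluded pairs.
-/

set_option autoImplicit false

namespace Pool.Agent.APLarge

open Finset Pool.Agent.APInt

lemma sum_err (N : ℕ) (c : ℝ) (hc : 0 ≤ c) (s : Finset ℕ) (hs : s ⊆ Icc 1 N) :
    ∑ d ∈ s, c * ((N : ℝ) / d) * (1 + Real.log N) ≤ c * N * (1 + Real.log N) ^ 2 := by
  have hl : 0 ≤ Real.log N := Real.log_natCast_nonneg N
  have h1 : ∑ d ∈ s, c * ((N : ℝ) / d) * (1 + Real.log N) ≤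
      ∑ d ∈ Icc 1 N, c * ((N : ℝ) / d) * (1 + Real.log N) := by
    apply sum_le_sum_of_subset_of_nonneg hs
    intro d _ _
    positivity
  refine le_trans h1 ?_
  have h2 : ∑ d ∈ Icc 1 N, c * ((N : ℝ) / d) * (1 + Real.log N) =
      c * N * (1 + Real.log N) * ∑ d ∈ Icc 1 N, (1 : ℝ) / (d : ℝ) := by
    rw [mul_sum]
    apply sum_congr rfl
    intro d _
    ring
  rw [h2]
  have h3 := harmonic_le N
  have h4 : 0 ≤ c * N * (1 + Real.log N) := by positivity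
  calc c * N * (1 + Real.log N) * ∑ d ∈ Icc 1 N, (1 : ℝ) / (d : ℝ)
      ≤ c * N * (1 + Real.log N) * (1 + Real.log N) := mul_le_mul_of_nonneg_left h3 h4
    _ = c * N * (1 + Real.log N) ^ 2 := by ring

section

variable {N : ℕ} {F : Finset (Finset ℤ)} {x a b : ℤ}

/-- the cost of one scale -/
noncomputable def cost (N : ℕ) (F : Finset (Finset ℤ)) (x a b : ℤ) (g : ℕ → ℕ → Prop) (d : ℕ) : ℝ :=
  ((Rd N F x d).card : ℝ) - ((Lab N F x a b g d).card : ℝ) + ((Gd F x d).card : ℝ)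

open Classical in
lemma assemble (hH : Hull N F x a b) (g : ℕ → ℕ → Prop) (κ : ℕ → ℕ)
    (hκ : ∀ d ∈ Icc 1 N, ∀ p ∈ Lab N F x a b g d, κ (Int.gcd p.1 p.2 * d) = d)
    {M c : ℝ}
    (h1 : ((Rd N F x 1).card : ℝ) - ((Lab N F x a b g 1).card : ℝ) ≤
      M + c * ((N : ℝ) / 1) * (1 + Real.log N)) :
    ((F.filter (fun A => IsAP A)).card : ℝ) +
      ((((a : ℝ) - 1) ^ 2 + ((N : ℝ) - b) ^ 2) / 2) ≤
    ((Omega N F x a b).card : ℝ) + M + ∑ d ∈ Icc 2 N, cost N F x a b g d +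
      c * N * (1 + Real.log N) + 10 * N * (1 + Real.log N) ^ 2 := by
  have hx := mem_Icc.1 hH.hx
  have hN1 : 1 ≤ N := by
    have : (1 : ℤ) ≤ N := le_trans hx.1 hx.2
    exact_mod_cast this
  have hN1R : (1 : ℝ) ≤ N := by exact_mod_cast hN1
  have hl : 0 ≤ Real.log N := Real.log_natCast_nonneg N
  have e1 := card_through hH.adm hH.hx
  have e2 := card_ap_missing hH.adm (x := x)
  have e3 := card_Tl hH
  have e4 := omega_ge hH g κ hκ
  have e5 := card_Kst hH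
  have hsplit : (F.filter (fun A => IsAP A)).card =
      (F.filter (fun A => x ∈ A ∧ IsAP A)).card + (F.filter (fun A => IsAP A ∧ x ∉ A)).card := by
    rw [← card_union_of_disjoint]
    · congr 1
      ext A
      simp only [mem_filter, mem_union]
      tauto
    · rw [disjoint_left]
      intro A h1 h2
      rw [mem_filter] at h1 h2
      exact h2.2.2 h1.2.1
  have e2R : ((F.filter (fun A => IsAP A ∧ x ∉ A)).card : ℝ) ≤
      (∑ d ∈ Icc 1 N, ((Gd F x d).card : ℝ)) + N := by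
    have : ((F.filter (fun A => IsAP A ∧ x ∉ A)).card : ℝ) ≤
      (((∑ d ∈ Icc 1 N, (Gd F x d).card) + N : ℕ) : ℝ) := by exact_mod_cast e2
    push_cast at this
    exact this
  have e3R : ((Gd F x 1).card : ℝ) ≤ (((prs N x).filter (fun p => Tl F x p)).card : ℝ) + 4 * N := by
    exact_mod_cast e3
  have e4R : ((Kst N x a b).card : ℝ) + (((prs N x).filter (fun p => Tl F x p)).card : ℝ) +
      ∑ d ∈ Icc 1 N, ((Lab N F x a b g d).card : ℝ) ≤ ((Omega N F x a b).card : ℝ) := by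
    exact_mod_cast e4
  have hsum : ∑ d ∈ Icc 1 N, cost N F x a b g d = ∑ d ∈ Icc 1 N, ((Rd N F x d).card : ℝ) -
      ∑ d ∈ Icc 1 N, ((Lab N F x a b g d).card : ℝ) + ∑ d ∈ Icc 1 N, ((Gd F x d).card : ℝ) := by
    unfold cost
    rw [sum_add_distrib, sum_sub_distrib]
  have hsum2 : ∑ d ∈ Icc 1 N, cost N F x a b g d =
      cost N F x a b g 1 + ∑ d ∈ Icc 2 N, cost N F x a b g d := by
    rw [← Finset.add_sum_Ioc_eq_sum_Icc hN1]
    rfl
  have hsplitR : ((F.filter (fun A => IsAP A)).card : ℝ) =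
      ((F.filter (fun A => x ∈ A ∧ IsAP A)).card : ℝ) +
        ((F.filter (fun A => IsAP A ∧ x ∉ A)).card : ℝ) := by exact_mod_cast hsplit
  have hc1 : cost N F x a b g 1 ≤ M + c * ((N : ℝ) / 1) * (1 + Real.log N) +
      ((Gd F x 1).card : ℝ) := by
    unfold cost
    linarith
  have h7 : (N : ℝ) * (1 + Real.log N) ≤ N * (1 + Real.log N) ^ 2 := by
    apply mul_le_mul_of_nonneg_left _ (by linarith)
    nlinarith
  have h8 : (N : ℝ) ≤ N * (1 + Real.log N) ^ 2 := by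
    have : (1 : ℝ) ≤ (1 + Real.log N) ^ 2 := by nlinarith
    nlinarith
  have h9 : c * ((N : ℝ) / 1) * (1 + Real.log N) = c * N * (1 + Real.log N) := by
    rw [div_one]
  rw [h9] at hc1
  linarith

end

/-! ### the two kinds of labels -/

lemma kappa_one {N : ℕ} {F : Finset (Finset ℤ)} {x a b : ℤ} :
    ∀ d ∈ Icc 1 N, ∀ p ∈ Lab N F x a b Nat.Coprime d, id (Int.gcd p.1 p.2 * d) = d := by
  intro d _ p hp
  have h : Int.gcd p.1 p.2 = 1 := by
    rcases mem_Lab hp with ⟨i, j, h1, h2, rfl⟩ | ⟨u, v, h1, h2, h3, h4, h5, rfl⟩ |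
      ⟨u, v, h1, h2, h3, h4, h5, rfl⟩
    · rw [Int.neg_gcd, Int.gcd_natCast_natCast]; exact h2
    · rw [Int.gcd_natCast_natCast]; exact h5
    · rw [Int.neg_gcd, Int.gcd_neg, Int.gcd_natCast_natCast]; exact h5.symm
  rw [h, one_mul]
  rfl

/-- no common odd prime factor -/
def NoOdd (i j : ℕ) : Prop := ¬ ∃ q : ℕ, q.Prime ∧ q ≠ 2 ∧ q ∣ i ∧ q ∣ j

lemma NoOdd_of_coprime {i j : ℕ} (h : Nat.Coprime i j) : NoOdd i j := by
  rintro ⟨q, h1, _, h2, h3⟩
  exact Nat.not_coprime_of_dvd_of_dvd h1.one_lt h2 h3 h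

lemma kappa_two {N : ℕ} {F : Finset (Finset ℤ)} {x a b : ℤ} (hF : Admissible N F)
    (hD : D1 F x 2) :
    ∀ d ∈ Icc 1 N, ∀ p ∈ Lab N F x a b NoOdd d,
      (fun n : ℕ => n / 2 ^ n.factorization 2) (Int.gcd p.1 p.2 * d) = d := by
  intro d hd p hp
  obtain ⟨h1, h2, h3, i, j, h4, -, -⟩ := mem_Lab' hp
  have hodd : ¬ 2 ∣ d := by
    intro h
    rw [Rd_eq_empty hF hD h] at h4
    simp at h4
  have hg : NoOdd (Int.natAbs p.1) (Int.natAbs p.2) := by
    rcases mem_Lab hp with ⟨i', j', k1, k2, rfl⟩ | ⟨u, v, k1, k2, k3, k4, k5, rfl⟩ |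
      ⟨u, v, k1, k2, k3, k4, k5, rfl⟩
    · simpa using k2
    · simpa using NoOdd_of_coprime k5
    · simpa using NoOdd_of_coprime k5.symm
  set m := Int.gcd p.1 p.2 with hm
  have hm0 : m ≠ 0 := by
    rw [hm]
    exact (Int.gcd_pos_of_ne_zero_left _ h2).ne'
  have hd0 : d ≠ 0 := by
    have := (mem_Icc.1 hd).1
    omega
  have h5 : m / 2 ^ m.factorization 2 = 1 := by
    by_contra hcon
    obtain ⟨q, hq, hq2⟩ := Nat.exists_prime_and_dvd hcon
    have h6 : q ≠ 2 := by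
      rintro rfl
      exact Nat.not_dvd_ordCompl Nat.prime_two hm0 hq2
    have h7 : q ∣ m := hq2.trans (Nat.ordCompl_dvd m 2)
    have h8 : (q : ℤ) ∣ p.1 := (Int.natCast_dvd_natCast.2 h7).trans (Int.gcd_dvd_left _ _)
    have h9 : (q : ℤ) ∣ p.2 := (Int.natCast_dvd_natCast.2 h7).trans (Int.gcd_dvd_right _ _)
    exact hg ⟨q, hq, h6, Int.natCast_dvd.1 h8, Int.natCast_dvd.1 h9⟩
  have h6 : d / 2 ^ d.factorization 2 = d := by
    rw [Nat.factorization_eq_zero_of_not_dvd hodd]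
    simp
  show (m * d) / 2 ^ (m * d).factorization 2 = d
  rw [Nat.ordCompl_mul, h5, h6, one_mul]

/-! ### the cost of the other scales -/

section

variable {N : ℕ} {F : Finset (Finset ℤ)} {x a b : ℤ}

lemma hull_real (hH : Hull N F x a b) : (1 : ℝ) ≤ x ∧ (x : ℝ) ≤ N ∧ (1 : ℝ) ≤ a ∧ (a : ℝ) ≤ N ∧
    (1 : ℝ) ≤ b ∧ (b : ℝ) ≤ N ∧ (x : ℝ) ≤ b := by
  have hx := mem_Icc.1 hH.hx
  have ha := mem_Icc.1 hH.ha
  have hb := mem_Icc.1 hH.hb
  refine ⟨by exact_mod_cast hx.1, by exact_mod_cast hx.2, by exact_mod_cast ha.1,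
    by exact_mod_cast ha.2, by exact_mod_cast hb.1, by exact_mod_cast hb.2,
    by exact_mod_cast hH.xb⟩

lemma div_bounds {d : ℕ} (hd : d ∈ Icc 1 N) : (1 : ℝ) ≤ d ∧ (1 : ℝ) ≤ (N : ℝ) / d := by
  have h := mem_Icc.1 hd
  have h1 : (1 : ℝ) ≤ d := by exact_mod_cast h.1
  have h2 : (d : ℝ) ≤ N := by exact_mod_cast h.2
  exact ⟨h1, by rw [le_div_iff₀ (by linarith)]; linarith⟩

/-- general bound for the members missing `x` -/
lemma Gd_bound (hH : Hull N F x a b) {d : ℕ} (hd : d ∈ Icc 1 N) :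
    ((Gd F x d).card : ℝ) ≤
      (((a : ℝ) - 1) * ((N : ℝ) - b)) / (d : ℝ) ^ 2 + 3 * ((N : ℝ) / d) * (1 + Real.log N) := by
  obtain ⟨h1, h2, h3, h4, h5, h6, h7⟩ := hull_real hH
  obtain ⟨hd1, hNd⟩ := div_bounds hd
  have hd0 : (0 : ℝ) < d := by linarith
  have hl : 0 ≤ Real.log N := Real.log_natCast_nonneg N
  refine le_trans (card_Gd hH (mem_Icc.1 hd).1) ?_
  have e1 : (((a : ℝ) - 1) / d + 1) * (((N : ℝ) - b) / d + 1) =
      (((a : ℝ) - 1) * ((N : ℝ) - b)) / (d : ℝ) ^ 2 + ((a : ℝ) - 1) / d + ((N : ℝ) - b) / d + 1 := by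
    field_simp
    ring
  rw [e1]
  have e2 : ((a : ℝ) - 1) / d ≤ (N : ℝ) / d := by
    apply div_le_div_of_nonneg_right _ hd0.le
    linarith
  have e3 : ((N : ℝ) - b) / d ≤ (N : ℝ) / d := by
    apply div_le_div_of_nonneg_right _ hd0.le
    linarith
  have e4 : 0 ≤ ((N : ℝ) / d) * Real.log N := mul_nonneg (by linarith) hl
  have e5 : 3 * ((N : ℝ) / d) * (1 + Real.log N) =
      3 * ((N : ℝ) / d) + 3 * (((N : ℝ) / d) * Real.log N) := by ring
  rw [e5]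
  linarith

/-- bound for the members missing `x` in the class of `x` -/
lemma Gd_bound' (hH : Hull N F x a b) (hxa : x ≤ a) {d : ℕ} (hd : d ∈ Icc 1 N)
    (hD : ¬ D1 F x d) : ((Gd F x d).card : ℝ) ≤
      (((a : ℝ) - x) * ((N : ℝ) - b)) / (d : ℝ) ^ 2 + ((N : ℝ) / d) * (1 + Real.log N) := by
  obtain ⟨h1, h2, h3, h4, h5, h6, h7⟩ := hull_real hH
  obtain ⟨hd1, hNd⟩ := div_bounds hd
  have hd0 : (0 : ℝ) < d := by linarith
  have hl : 0 ≤ Real.log N := Real.log_natCast_nonneg N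
  refine le_trans (card_Gd_of_not_D1 hH (mem_Icc.1 hd).1 hD hxa) ?_
  have e1 : (((a : ℝ) - x) / d) * (((N : ℝ) - b) / d + 1) =
      (((a : ℝ) - x) * ((N : ℝ) - b)) / (d : ℝ) ^ 2 + ((a : ℝ) - x) / d := by
    field_simp
  rw [e1]
  have e2 : ((a : ℝ) - x) / d ≤ (N : ℝ) / d := by
    apply div_le_div_of_nonneg_right _ hd0.le
    linarith
  have e4 : 0 ≤ ((N : ℝ) / d) * Real.log N := mul_nonneg (by linarith) hl
  have e5 : ((N : ℝ) / d) * (1 + Real.log N) =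
      ((N : ℝ) / d) + (((N : ℝ) / d) * Real.log N) := by ring
  rw [e5]
  linarith

lemma Mx_nonneg {ρ X η : ℝ} (hρ : 0 ≤ ρ) (hX : 0 ≤ X) (hη : 0 ≤ η) : 0 ≤ Mx ρ X η := by
  unfold Mx
  split_ifs <;> positivity

/-- the scale condition -/
def GoodG (g : ℕ → ℕ → Prop) (ρ : ℝ) : Prop :=
  0 ≤ ρ ∧ ρ ≤ 0.54 ∧ ∀ (_ : DecidablePred (fun p : ℕ × ℕ => ¬ g p.1 p.2)), ∀ I A J : ℕ,
    1 ≤ I → A ≤ J → 1 ≤ A →
      ((((Icc 1 I) ×ˢ (Icc A J)).filter (fun p : ℕ × ℕ => ¬ g p.1 p.2)).card : ℝ) ≤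
        ρ * I * ((J : ℝ) - A) + I * (1 + Real.log I)

lemma good_one : GoodG Nat.Coprime 0.46 := by
  refine ⟨by norm_num, by norm_num, ?_⟩
  intro _ I A J hI hAJ hA
  convert nc_all I A J hI hAJ hA

open Classical in
lemma good_two : GoodG NoOdd 0.21 := by
  refine ⟨by norm_num, by norm_num, ?_⟩
  intro _ I A J hI hAJ hA
  refine le_trans (le_of_eq ?_) (nc_odd I A J hI hAJ hA)
  congr 2
  ext p
  rw [mem_filter, mem_filter]
  unfold NoOdd
  rw [not_not]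

/-- through part of the cost, Case A -/
lemma through_A (hH : Hull N F x a b) {g : ℕ → ℕ → Prop} {ρ : ℝ} (hg : GoodG g ρ) {d : ℕ}
    (hd : d ∈ Icc 1 N) : ((Rd N F x d).card : ℝ) - ((Lab N F x a b g d).card : ℝ) ≤
      Mx ρ ((x : ℝ) - 1) ((N : ℝ) - b) / (d : ℝ) ^ 2 + 8 * ((N : ℝ) / d) * (1 + Real.log N) := by
  obtain ⟨h1, h2, h3, h4, h5, h6, h7⟩ := hull_real hH
  obtain ⟨hd1, hNd⟩ := div_bounds hd
  have hl : 0 ≤ Real.log N := Real.log_natCast_nonneg N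
  have hd0 : (0 : ℝ) < d := by linarith
  rcases (Rd N F x d).eq_empty_or_nonempty with hR | hR
  · rw [hR, card_empty, Nat.cast_zero]
    have := Mx_nonneg (ρ := ρ) (X := (x : ℝ) - 1) (η := (N : ℝ) - b) hg.1 (by linarith)
      (by linarith)
    have h8 : 0 ≤ Mx ρ ((x : ℝ) - 1) ((N : ℝ) - b) / (d : ℝ) ^ 2 := by positivity
    have h9 : 0 ≤ 8 * ((N : ℝ) / d) * (1 + Real.log N) := by positivity
    have h10 : (0 : ℝ) ≤ ((Lab N F x a b g d).card : ℝ) := Nat.cast_nonneg _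
    linarith
  · exact scale_A hH hg.1 (hg.2.2 _) (mem_Icc.1 hd).1 hR

/-- through part of the cost, Case B -/
lemma through_B (hH : Hull N F x a b) (hax : a ≤ x) {g : ℕ → ℕ → Prop} {ρ : ℝ}
    (hg : GoodG g ρ) {d : ℕ} (hd : d ∈ Icc 1 N) :
    ((Rd N F x d).card : ℝ) - ((Lab N F x a b g d).card : ℝ) ≤
      ρ * ((((a : ℝ) - 1) ^ 2 + ((N : ℝ) - b) ^ 2) / 2) / (d : ℝ) ^ 2 +
        14 * ((N : ℝ) / d) * (1 + Real.log N) := by
  obtain ⟨h1, h2, h3, h4, h5, h6, h7⟩ := hull_real hH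
  obtain ⟨hd1, hNd⟩ := div_bounds hd
  have hl : 0 ≤ Real.log N := Real.log_natCast_nonneg N
  have hd0 : (0 : ℝ) < d := by linarith
  rcases (Rd N F x d).eq_empty_or_nonempty with hR | hR
  · rw [hR, card_empty, Nat.cast_zero]
    have := hg.1
    have h8 : 0 ≤ ρ * ((((a : ℝ) - 1) ^ 2 + ((N : ℝ) - b) ^ 2) / 2) / (d : ℝ) ^ 2 := by
      positivity
    have h9 : 0 ≤ 14 * ((N : ℝ) / d) * (1 + Real.log N) := by positivity
    have h10 : (0 : ℝ) ≤ ((Lab N F x a b g d).card : ℝ) := Nat.cast_nonneg _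
    linarith
  · exact scale_B hH hax hg.1 hg.2.1 (hg.2.2 _) (mem_Icc.1 hd).1 hR

/-- cost of a scale without a member avoiding the class of `x`, Case A -/
lemma cost_A0 (hH : Hull N F x a b) (hxa : x ≤ a) {g : ℕ → ℕ → Prop} {ρ : ℝ} (hg : GoodG g ρ)
    {d : ℕ} (hd : d ∈ Icc 1 N) (hD : ¬ D1 F x d) : cost N F x a b g d ≤
      (Mx ρ ((x : ℝ) - 1) ((N : ℝ) - b) + ((a : ℝ) - x) * ((N : ℝ) - b)) / (d : ℝ) ^ 2 +
        9 * ((N : ℝ) / d) * (1 + Real.log N) := by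
  have h1 := through_A hH hg hd
  have h2 := Gd_bound' hH hxa hd hD
  unfold cost
  have e : 9 * ((N : ℝ) / d) * (1 + Real.log N) = 8 * ((N : ℝ) / d) * (1 + Real.log N) +
    ((N : ℝ) / d) * (1 + Real.log N) := by ring
  rw [add_div, e]
  linarith

/-- cost of a scale without members through `x` -/
lemma cost_D1 (hH : Hull N F x a b) {g : ℕ → ℕ → Prop}
    {d : ℕ} (hd : d ∈ Icc 1 N) (hR : Rd N F x d = ∅) : cost N F x a b g d ≤
      (((a : ℝ) - 1) * ((N : ℝ) - b)) / (d : ℝ) ^ 2 +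
        3 * ((N : ℝ) / d) * (1 + Real.log N) := by
  have h2 := Gd_bound hH hd
  unfold cost
  rw [hR, card_empty, Nat.cast_zero]
  have h10 : (0 : ℝ) ≤ ((Lab N F x a b g d).card : ℝ) := Nat.cast_nonneg _
  linarith

/-- any scale, Case A -/
lemma cost_A (hH : Hull N F x a b) (hxa : x ≤ a) {g : ℕ → ℕ → Prop} {ρ : ℝ} (hg : GoodG g ρ)
    {d : ℕ} (hd : d ∈ Icc 1 N) : cost N F x a b g d ≤
      (max (Mx ρ ((x : ℝ) - 1) ((N : ℝ) - b) + ((a : ℝ) - x) * ((N : ℝ) - b))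
        (((a : ℝ) - 1) * ((N : ℝ) - b))) / (d : ℝ) ^ 2 +
        9 * ((N : ℝ) / d) * (1 + Real.log N) := by
  obtain ⟨hd1, hNd⟩ := div_bounds hd
  have hl : 0 ≤ Real.log N := Real.log_natCast_nonneg N
  have hd0 : (0 : ℝ) < d := by linarith
  by_cases hD : D1 F x d
  · refine le_trans (cost_D1 hH hd (Rd_eq_empty hH.adm hD (dvd_refl d))) ?_
    have h1 : (((a : ℝ) - 1) * ((N : ℝ) - b)) / (d : ℝ) ^ 2 ≤
        (max (Mx ρ ((x : ℝ) - 1) ((N : ℝ) - b) + ((a : ℝ) - x) * ((N : ℝ) - b))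
        (((a : ℝ) - 1) * ((N : ℝ) - b))) / (d : ℝ) ^ 2 :=
      div_le_div_of_nonneg_right (le_max_right _ _) (by positivity)
    have h2 : 3 * ((N : ℝ) / d) * (1 + Real.log N) ≤ 9 * ((N : ℝ) / d) * (1 + Real.log N) := by
      apply mul_le_mul_of_nonneg_right _ (by linarith)
      linarith
    linarith
  · refine le_trans (cost_A0 hH hxa hg hd hD) ?_
    have h1 : (Mx ρ ((x : ℝ) - 1) ((N : ℝ) - b) + ((a : ℝ) - x) * ((N : ℝ) - b)) / (d : ℝ) ^ 2 ≤
        (max (Mx ρ ((x : ℝ) - 1) ((N : ℝ) - b) + ((a : ℝ) - x) * ((N : ℝ) - b))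
        (((a : ℝ) - 1) * ((N : ℝ) - b))) / (d : ℝ) ^ 2 :=
      div_le_div_of_nonneg_right (le_max_left _ _) (by positivity)
    linarith

/-- any scale, Case B -/
lemma cost_B (hH : Hull N F x a b) (hax : a ≤ x) {g : ℕ → ℕ → Prop} {ρ : ℝ} (hg : GoodG g ρ)
    {d : ℕ} (hd : d ∈ Icc 1 N) : cost N F x a b g d ≤
      ((((a : ℝ) - 1) ^ 2 + ((N : ℝ) - b) ^ 2) / 2) / (d : ℝ) ^ 2 +
        14 * ((N : ℝ) / d) * (1 + Real.log N) := by
  obtain ⟨hd1, hNd⟩ := div_bounds hd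
  have hl : 0 ≤ Real.log N := Real.log_natCast_nonneg N
  have hd0 : (0 : ℝ) < d := by linarith
  by_cases hD : D1 F x d
  · refine le_trans (cost_D1 hH hd (Rd_eq_empty hH.adm hD (dvd_refl d))) ?_
    have h1 : (((a : ℝ) - 1) * ((N : ℝ) - b)) / (d : ℝ) ^ 2 ≤
        ((((a : ℝ) - 1) ^ 2 + ((N : ℝ) - b) ^ 2) / 2) / (d : ℝ) ^ 2 := by
      apply div_le_div_of_nonneg_right _ (by positivity)
      nlinarith [sq_nonneg (((a : ℝ) - 1) - ((N : ℝ) - b))]
    have h2 : 3 * ((N : ℝ) / d) * (1 + Real.log N) ≤ 14 * ((N : ℝ) / d) * (1 + Real.log N) := by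
      apply mul_le_mul_of_nonneg_right _ (by linarith)
      linarith
    linarith
  · have h1 := through_B hH hax hg hd
    unfold cost
    rw [Gd_eq_empty hH (mem_Icc.1 hd).1 hD hax, card_empty, Nat.cast_zero, add_zero]
    refine le_trans h1 ?_
    have h2 : ρ * ((((a : ℝ) - 1) ^ 2 + ((N : ℝ) - b) ^ 2) / 2) / (d : ℝ) ^ 2 ≤
        ((((a : ℝ) - 1) ^ 2 + ((N : ℝ) - b) ^ 2) / 2) / (d : ℝ) ^ 2 := by
      apply div_le_div_of_nonneg_right _ (by positivity)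
      have := hg.1
      have := hg.2.1
      have h3 : 0 ≤ (((a : ℝ) - 1) ^ 2 + ((N : ℝ) - b) ^ 2) / 2 := by positivity
      nlinarith
    linarith

end

/-- summing the cost with weights -/
lemma sum_cost {N : ℕ} {f : ℕ → ℝ} {W c z : ℝ} (hW : 0 ≤ W) (hc : 0 ≤ c) (s : Finset ℕ)
    (hs : s ⊆ Icc 1 N) (hz : ∑ d ∈ s, (1 : ℝ) / (d : ℝ) ^ 2 ≤ z)
    (h : ∀ d ∈ s, f d ≤ W / (d : ℝ) ^ 2 + c * ((N : ℝ) / d) * (1 + Real.log N)) :
    ∑ d ∈ s, f d ≤ z * W + c * N * (1 + Real.log N) ^ 2 := by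
  refine le_trans (sum_le_sum h) ?_
  rw [sum_add_distrib]
  have h1 := sum_err N c hc s hs
  have h2 : ∑ d ∈ s, W / (d : ℝ) ^ 2 = W * ∑ d ∈ s, (1 : ℝ) / (d : ℝ) ^ 2 := by
    rw [mul_sum]
    apply sum_congr rfl
    intro d _
    ring
  rw [h2]
  have h3 := mul_le_mul_of_nonneg_left hz hW
  linarith

open Classical in
/-- Case A with few large scales -/
lemma count_A2 {N : ℕ} {F : Finset (Finset ℤ)} {x a b : ℤ} (hH : Hull N F x a b) (hxa : x ≤ a)
    (hD : D1 F x 2) :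
    ((F.filter (fun A => IsAP A)).card : ℝ) +
      0.03 * ((((a : ℝ) - 1) ^ 2 + ((N : ℝ) - b) ^ 2) / 2) ≤
    ((Omega N F x a b).card : ℝ) + 50 * N * (1 + Real.log N) ^ 2 := by
  obtain ⟨h1, h2, h3, h4, h5, h6, h7⟩ := hull_real hH
  have hN1 : 1 ≤ N := by
    have : (1 : ℝ) ≤ N := by linarith
    exact_mod_cast this
  have hl : 0 ≤ Real.log N := Real.log_natCast_nonneg N
  have hg := good_two
  have hxaR : (x : ℝ) ≤ a := by exact_mod_cast hxa
  have e1 := through_A hH hg (d := 1) (mem_Icc.2 ⟨le_refl _, hN1⟩)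
  rw [Nat.cast_one, one_pow, div_one] at e1
  have e2 := assemble hH NoOdd (fun n : ℕ => n / 2 ^ n.factorization 2) (kappa_two hH.adm hD) e1
  have hM : 0 ≤ Mx 0.21 ((x : ℝ) - 1) ((N : ℝ) - b) :=
    Mx_nonneg (by norm_num) (by linarith) (by linarith)
  have hW : 0 ≤ max (Mx 0.21 ((x : ℝ) - 1) ((N : ℝ) - b) + ((a : ℝ) - x) * ((N : ℝ) - b))
        (((a : ℝ) - 1) * ((N : ℝ) - b)) := by
    apply le_max_of_le_right
    exact mul_nonneg (by linarith) (by linarith)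
  have e3 := sum_cost (N := N) (f := cost N F x a b NoOdd) (c := 9) (z := 0.645) hW (by norm_num)
    (Icc 2 N) (Icc_subset_Icc_left (by norm_num)) (zeta_ge_two N)
    (fun d hd => cost_A hH hxa hg (Icc_subset_Icc_left (by norm_num) hd))
  have e4 := ri4 ((x : ℝ) - 1) ((a : ℝ) - x) ((N : ℝ) - b) (by linarith) (by linarith)
    (by linarith)
  have e5 : ((x : ℝ) - 1) + ((a : ℝ) - x) = (a : ℝ) - 1 := by ring
  rw [e5] at e4
  have h8 : (N : ℝ) * (1 + Real.log N) ≤ N * (1 + Real.log N) ^ 2 := by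
    apply mul_le_mul_of_nonneg_left _ (by linarith)
    nlinarith
  have h0 : 0 ≤ (N : ℝ) * (1 + Real.log N) ^ 2 := by positivity
  linarith

open Classical in
/-- Case A, the generic case -/
lemma count_A1 {N : ℕ} {F : Finset (Finset ℤ)} {x a b : ℤ} (hH : Hull N F x a b) (hxa : x ≤ a)
    (hD : ¬ D1 F x 2) :
    ((F.filter (fun A => IsAP A)).card : ℝ) +
      0.03 * ((((a : ℝ) - 1) ^ 2 + ((N : ℝ) - b) ^ 2) / 2) ≤
    ((Omega N F x a b).card : ℝ) + 50 * N * (1 + Real.log N) ^ 2 := by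
  obtain ⟨h1, h2, h3, h4, h5, h6, h7⟩ := hull_real hH
  have hN1 : 1 ≤ N := by
    have : (1 : ℝ) ≤ N := by linarith
    exact_mod_cast this
  have hl : 0 ≤ Real.log N := Real.log_natCast_nonneg N
  have hg := good_one
  have hxaR : (x : ℝ) ≤ a := by exact_mod_cast hxa
  have e1 := through_A hH hg (d := 1) (mem_Icc.2 ⟨le_refl _, hN1⟩)
  rw [Nat.cast_one, one_pow, div_one] at e1
  have e2 := assemble hH Nat.Coprime _ kappa_one e1
  have hM : 0 ≤ Mx 0.46 ((x : ℝ) - 1) ((N : ℝ) - b) :=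
    Mx_nonneg (by norm_num) (by linarith) (by linarith)
  have hαη : 0 ≤ ((a : ℝ) - x) * ((N : ℝ) - b) := mul_nonneg (by linarith) (by linarith)
  set W := max (Mx 0.46 ((x : ℝ) - 1) ((N : ℝ) - b) + ((a : ℝ) - x) * ((N : ℝ) - b))
        (((a : ℝ) - 1) * ((N : ℝ) - b)) with hWdef
  have hW : 0 ≤ W := by
    apply le_max_of_le_right
    exact mul_nonneg (by linarith) (by linarith)
  have e3 := sum_cost (N := N) (f := cost N F x a b Nat.Coprime) (c := 9) (z := 0.395) hW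
    (by norm_num) (Icc 3 N) (Icc_subset_Icc_left (by norm_num)) (zeta_ge_three N)
    (fun d hd => cost_A hH hxa hg (Icc_subset_Icc_left (by norm_num) hd))
  have e4 := ri3 ((x : ℝ) - 1) ((a : ℝ) - x) ((N : ℝ) - b) (by linarith) (by linarith)
    (by linarith)
  have e5 : ((x : ℝ) - 1) + ((a : ℝ) - x) = (a : ℝ) - 1 := by ring
  rw [e5, ← hWdef] at e4
  have h8 : (N : ℝ) * (1 + Real.log N) ≤ N * (1 + Real.log N) ^ 2 := by
    apply mul_le_mul_of_nonneg_left _ (by linarith)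
    nlinarith
  have e6 : ∑ d ∈ Icc 2 N, cost N F x a b Nat.Coprime d ≤
      (Mx 0.46 ((x : ℝ) - 1) ((N : ℝ) - b) + ((a : ℝ) - x) * ((N : ℝ) - b)) / 4 +
      5 * N * (1 + Real.log N) + ∑ d ∈ Icc 3 N, cost N F x a b Nat.Coprime d := by
    rcases Nat.lt_or_ge N 2 with h | h
    · rw [Icc_eq_empty (by omega), Icc_eq_empty (by omega), sum_empty]
      have : 0 ≤ 5 * (N : ℝ) * (1 + Real.log N) := by positivity
      linarith
    · have h9 : ∑ d ∈ Icc 2 N, cost N F x a b Nat.Coprime d =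
          cost N F x a b Nat.Coprime 2 + ∑ d ∈ Icc 3 N, cost N F x a b Nat.Coprime d := by
        rw [← Finset.add_sum_Ioc_eq_sum_Icc h]
        rfl
      rw [h9]
      have h10 := cost_A0 hH hxa hg (d := 2) (mem_Icc.2 ⟨by norm_num, h⟩) hD
      have h11 : (((2 : ℕ) : ℝ)) = 2 := by norm_num
      rw [h11] at h10
      have h12 : 9 * ((N : ℝ) / 2) * (1 + Real.log N) ≤ 5 * (N : ℝ) * (1 + Real.log N) := by
        apply mul_le_mul_of_nonneg_right _ (by linarith)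
        have : (0 : ℝ) ≤ N := Nat.cast_nonneg _
        linarith
      have h13 : ((2 : ℝ)) ^ 2 = 4 := by norm_num
      rw [h13] at h10
      linarith
  have h0 : 0 ≤ (N : ℝ) * (1 + Real.log N) ^ 2 := by positivity
  linarith

open Classical in
/-- Case B -/
lemma count_B2 {N : ℕ} {F : Finset (Finset ℤ)} {x a b : ℤ} (hH : Hull N F x a b) (hax : a ≤ x)
    (hD : D1 F x 2) :
    ((F.filter (fun A => IsAP A)).card : ℝ) +
      0.03 * ((((a : ℝ) - 1) ^ 2 + ((N : ℝ) - b) ^ 2) / 2) ≤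
    ((Omega N F x a b).card : ℝ) + 50 * N * (1 + Real.log N) ^ 2 := by
  obtain ⟨h1, h2, h3, h4, h5, h6, h7⟩ := hull_real hH
  have hN1 : 1 ≤ N := by
    have : (1 : ℝ) ≤ N := by linarith
    exact_mod_cast this
  have hl : 0 ≤ Real.log N := Real.log_natCast_nonneg N
  have hg := good_two
  have e1 := through_B hH hax hg (d := 1) (mem_Icc.2 ⟨le_refl _, hN1⟩)
  rw [Nat.cast_one, one_pow, div_one] at e1
  have e2 := assemble hH NoOdd (fun n : ℕ => n / 2 ^ n.factorization 2) (kappa_two hH.adm hD) e1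
  have hq : 0 ≤ (((a : ℝ) - 1) ^ 2 + ((N : ℝ) - b) ^ 2) / 2 := by positivity
  have e3 := sum_cost (N := N) (f := cost N F x a b NoOdd) (c := 14) (z := 0.645) hq (by norm_num)
    (Icc 2 N) (Icc_subset_Icc_left (by norm_num)) (zeta_ge_two N)
    (fun d hd => cost_B hH hax hg (Icc_subset_Icc_left (by norm_num) hd))
  have h8 : (N : ℝ) * (1 + Real.log N) ≤ N * (1 + Real.log N) ^ 2 := by
    apply mul_le_mul_of_nonneg_left _ (by linarith)
    nlinarith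
  have h0 : 0 ≤ (N : ℝ) * (1 + Real.log N) ^ 2 := by positivity
  linarith

open Classical in
/-- Case B, the generic case -/
lemma count_B1 {N : ℕ} {F : Finset (Finset ℤ)} {x a b : ℤ} (hH : Hull N F x a b) (hax : a ≤ x)
    (hD : ¬ D1 F x 2) :
    ((F.filter (fun A => IsAP A)).card : ℝ) +
      0.03 * ((((a : ℝ) - 1) ^ 2 + ((N : ℝ) - b) ^ 2) / 2) ≤
    ((Omega N F x a b).card : ℝ) + 50 * N * (1 + Real.log N) ^ 2 := by
  obtain ⟨h1, h2, h3, h4, h5, h6, h7⟩ := hull_real hH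
  have hN1 : 1 ≤ N := by
    have : (1 : ℝ) ≤ N := by linarith
    exact_mod_cast this
  have hl : 0 ≤ Real.log N := Real.log_natCast_nonneg N
  have hg := good_one
  have e1 := through_B hH hax hg (d := 1) (mem_Icc.2 ⟨le_refl _, hN1⟩)
  rw [Nat.cast_one, one_pow, div_one] at e1
  have e2 := assemble hH Nat.Coprime _ kappa_one e1
  have hq : 0 ≤ (((a : ℝ) - 1) ^ 2 + ((N : ℝ) - b) ^ 2) / 2 := by positivity
  set q := (((a : ℝ) - 1) ^ 2 + ((N : ℝ) - b) ^ 2) / 2 with hqdef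
  have e3 := sum_cost (N := N) (f := cost N F x a b Nat.Coprime) (c := 14) (z := 0.395) hq
    (by norm_num) (Icc 3 N) (Icc_subset_Icc_left (by norm_num)) (zeta_ge_three N)
    (fun d hd => cost_B hH hax hg (Icc_subset_Icc_left (by norm_num) hd))
  have h8 : (N : ℝ) * (1 + Real.log N) ≤ N * (1 + Real.log N) ^ 2 := by
    apply mul_le_mul_of_nonneg_left _ (by linarith)
    nlinarith
  have e6 : ∑ d ∈ Icc 2 N, cost N F x a b Nat.Coprime d ≤
      0.46 * q / 4 + 7 * N * (1 + Real.log N) + ∑ d ∈ Icc 3 N, cost N F x a b Nat.Coprime d := by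
    rcases Nat.lt_or_ge N 2 with h | h
    · rw [Icc_eq_empty (by omega), Icc_eq_empty (by omega), sum_empty]
      have : 0 ≤ 7 * (N : ℝ) * (1 + Real.log N) := by positivity
      linarith
    · have h9 : ∑ d ∈ Icc 2 N, cost N F x a b Nat.Coprime d =
          cost N F x a b Nat.Coprime 2 + ∑ d ∈ Icc 3 N, cost N F x a b Nat.Coprime d := by
        rw [← Finset.add_sum_Ioc_eq_sum_Icc h]
        rfl
      rw [h9]
      have h10 := through_B hH hax hg (d := 2) (mem_Icc.2 ⟨by norm_num, h⟩)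
      have h11 : (((2 : ℕ) : ℝ)) = 2 := by norm_num
      rw [h11, ← hqdef] at h10
      have h12 : 14 * ((N : ℝ) / 2) * (1 + Real.log N) ≤ 7 * (N : ℝ) * (1 + Real.log N) := by
        apply mul_le_mul_of_nonneg_right _ (by linarith)
        have : (0 : ℝ) ≤ N := Nat.cast_nonneg _
        linarith
      have h13 : ((2 : ℝ)) ^ 2 = 4 := by norm_num
      rw [h13] at h10
      have h14 : cost N F x a b Nat.Coprime 2 =
          ((Rd N F x 2).card : ℝ) - ((Lab N F x a b Nat.Coprime 2).card : ℝ) := by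
        unfold cost
        rw [Gd_eq_empty hH (by norm_num) hD hax, card_empty, Nat.cast_zero, add_zero]
      rw [h14]
      linarith
  have h0 : 0 ≤ (N : ℝ) * (1 + Real.log N) ^ 2 := by positivity
  linarith

open Classical in
theorem count_ap : ∃ C : ℝ, 0 ≤ C ∧ ∀ (N : ℕ) (F : Finset (Finset ℤ)) (x a b : ℤ),
    Hull N F x a b →
    ((F.filter (fun A => IsAP A)).card : ℝ) +
      0.03 * ((((a : ℝ) - 1) ^ 2 + ((N : ℝ) - b) ^ 2) / 2) ≤
    ((Omega N F x a b).card : ℝ) + C * N * (1 + Real.log N) ^ 2 := by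
  refine ⟨50, by norm_num, ?_⟩
  intro N F x a b hH
  by_cases hD : D1 F x 2
  · rcases le_total x a with h | h
    · exact count_A2 hH h hD
    · exact count_B2 hH h hD
  · rcases le_total x a with h | h
    · exact count_A1 hH h hD
    · exact count_B1 hH h hD

open Classical in
theorem count_missing : ∃ C : ℝ, 0 ≤ C ∧ ∀ (N : ℕ) (F : Finset (Finset ℤ)) (x a b : ℤ),
    Hull N F x a b →
    ((F.filter (fun A => IsAP A ∧ x ∉ A)).card : ℝ) ≤
      4 * ((((a : ℝ) - 1) ^ 2 + ((N : ℝ) - b) ^ 2) / 2) + C * N * (1 + Real.log N) ^ 2 := by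
  refine ⟨50, by norm_num, ?_⟩
  intro N F x a b hH
  obtain ⟨h1, h2, h3, h4, h5, h6, h7⟩ := hull_real hH
  have hN1 : 1 ≤ N := by
    have : (1 : ℝ) ≤ N := by linarith
    exact_mod_cast this
  have hl : 0 ≤ Real.log N := Real.log_natCast_nonneg N
  have e2 := card_ap_missing hH.adm (x := x)
  have e2R : ((F.filter (fun A => IsAP A ∧ x ∉ A)).card : ℝ) ≤
      (∑ d ∈ Icc 1 N, ((Gd F x d).card : ℝ)) + N := by
    have : ((F.filter (fun A => IsAP A ∧ x ∉ A)).card : ℝ) ≤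
      (((∑ d ∈ Icc 1 N, (Gd F x d).card) + N : ℕ) : ℝ) := by exact_mod_cast e2
    push_cast at this
    exact this
  have hq : 0 ≤ (((a : ℝ) - 1) ^ 2 + ((N : ℝ) - b) ^ 2) / 2 := by positivity
  set q := (((a : ℝ) - 1) ^ 2 + ((N : ℝ) - b) ^ 2) / 2 with hqdef
  have hb : ∀ d ∈ Icc 1 N, ((Gd F x d).card : ℝ) ≤ q / (d : ℝ) ^ 2 +
      3 * ((N : ℝ) / d) * (1 + Real.log N) := by
    intro d hd
    refine le_trans (Gd_bound hH hd) ?_
    obtain ⟨hd1, hNd⟩ := div_bounds hd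
    have h8 : (((a : ℝ) - 1) * ((N : ℝ) - b)) / (d : ℝ) ^ 2 ≤ q / (d : ℝ) ^ 2 := by
      apply div_le_div_of_nonneg_right _ (by positivity)
      rw [hqdef]
      nlinarith [sq_nonneg (((a : ℝ) - 1) - ((N : ℝ) - b))]
    linarith
  have hz : ∑ d ∈ Icc 1 N, (1 : ℝ) / (d : ℝ) ^ 2 ≤ 1.645 := by
    have h9 : ∑ d ∈ Icc 1 N, (1 : ℝ) / (d : ℝ) ^ 2 =
        (1 : ℝ) / ((1 : ℕ) : ℝ) ^ 2 + ∑ d ∈ Icc 2 N, (1 : ℝ) / (d : ℝ) ^ 2 := by
      rw [← Finset.add_sum_Ioc_eq_sum_Icc hN1]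
      rfl
    rw [h9]
    have := zeta_ge_two N
    norm_num
    norm_num at this
    linarith
  have e3 := sum_cost (N := N) (f := fun d => ((Gd F x d).card : ℝ)) (c := 3) (z := 1.645) hq
    (by norm_num) (Icc 1 N) (subset_refl _) hz hb
  have h8 : (N : ℝ) ≤ N * (1 + Real.log N) ^ 2 := by
    have : (1 : ℝ) ≤ (1 + Real.log N) ^ 2 := by nlinarith
    have h0 : (1 : ℝ) ≤ N := by linarith
    nlinarith
  linarith

end Pool.Agent.APLarge
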