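import Pool.Agent.APLarge.Defs

/-!
Reflection `t ↦ N + 1 - t` and existence of the hull.
-/

set_option autoImplicit false

namespace Pool.Agent.APLarge

open Finset Pool.Agent.APInt

theorem mem_mir {N : ℕ} {A : Finset ℤ} {t : ℤ} : t ∈ mir N A ↔ (N : ℤ) + 1 - t ∈ A := by
  rw [mir, mem_image]
  constructor
  · rintro ⟨s, hs, rfl⟩
    have : (N : ℤ) + 1 - ((N : ℤ) + 1 - s) = s := by ring
    rwa [this]
  · intro h
    exact ⟨_, h, by ring⟩

theorem mir_mir (N : ℕ) (A : Finset ℤ) : mir N (mir N A) = A := by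
  ext t
  rw [mem_mir, mem_mir]
  have : (N : ℤ) + 1 - ((N : ℤ) + 1 - t) = t := by ring
  rw [this]

theorem mirF_mirF (N : ℕ) (F : Finset (Finset ℤ)) : mirF N (mirF N F) = F := by
  rw [mirF, mirF, image_image]
  have : mir N ∘ mir N = id := by
    funext A
    exact mir_mir N A
  rw [this, image_id]

theorem mem_mirF {N : ℕ} {F : Finset (Finset ℤ)} {A : Finset ℤ} :
    A ∈ mirF N F ↔ mir N A ∈ F := by
  rw [mirF, mem_image]
  constructor
  · rintro ⟨B, hB, rfl⟩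
    rwa [mir_mir]
  · intro h
    exact ⟨_, h, mir_mir N A⟩

lemma Mirror.mir_injective (N : ℕ) : Function.Injective (mir N) := by
  intro A B h
  rw [← mir_mir N A, h, mir_mir]

theorem card_mir (N : ℕ) (A : Finset ℤ) : (mir N A).card = A.card := by
  rw [mir]
  apply card_image_of_injective
  intro s t h
  have : (N : ℤ) + 1 - s = (N : ℤ) + 1 - t := h
  omega

theorem card_mirF (N : ℕ) (F : Finset (Finset ℤ)) : (mirF N F).card = F.card := by
  rw [mirF]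
  exact card_image_of_injective _ (Mirror.mir_injective N)

lemma Mirror.isAP_mir_of {N : ℕ} {A : Finset ℤ} (h : IsAP A) : IsAP (mir N A) := by
  obtain ⟨d, a, b, hd, hab, hdvd, rfl⟩ := (isAP_iff_apSet A).1 h
  rw [isAP_iff_apSet]
  refine ⟨d, (N : ℤ) + 1 - b, (N : ℤ) + 1 - a, hd, by omega, ?_, ?_⟩
  · have : (N : ℤ) + 1 - a - ((N : ℤ) + 1 - b) = b - a := by ring
    rwa [this]
  · ext t
    rw [mem_mir, mem_apSet, mem_apSet]
    have h1 : (N : ℤ) + 1 - t - a = (b - a) - (t - ((N : ℤ) + 1 - b)) := by ring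
    have h2 : d ∣ (N : ℤ) + 1 - t - a ↔ d ∣ t - ((N : ℤ) + 1 - b) := by
      rw [h1]
      exact dvd_sub_right hdvd
    rw [h2]
    constructor
    · rintro ⟨⟨h3, h4⟩, h5⟩
      exact ⟨⟨by omega, by omega⟩, h5⟩
    · rintro ⟨⟨h3, h4⟩, h5⟩
      exact ⟨⟨by omega, by omega⟩, h5⟩

theorem isAP_mir {N : ℕ} {A : Finset ℤ} : IsAP (mir N A) ↔ IsAP A := by
  constructor
  · intro h
    have := Mirror.isAP_mir_of (N := N) h
    rwa [mir_mir] at this
  · exact Mirror.isAP_mir_of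

lemma Mirror.mir_inter (N : ℕ) (A B : Finset ℤ) : mir N A ∩ mir N B = mir N (A ∩ B) := by
  ext t
  rw [mem_inter, mem_mir, mem_mir, mem_mir, mem_inter]

theorem admissible_mir {N : ℕ} {F : Finset (Finset ℤ)} (h : Admissible N F) :
    Admissible N (mirF N F) := by
  constructor
  · intro A hA t ht
    rw [mem_mirF] at hA
    have h1 : (N : ℤ) + 1 - t ∈ mir N A := by
      rw [mem_mir]
      have : (N : ℤ) + 1 - ((N : ℤ) + 1 - t) = t := by ring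
      rwa [this]
    have h2 := h.1 _ hA h1
    rw [mem_Icc] at h2 ⊢
    omega
  · intro A hA B hB hne
    rw [mem_mirF] at hA hB
    have h1 := h.2 _ hA _ hB (fun h3 => hne (Mirror.mir_injective N h3))
    rw [Mirror.mir_inter, isAP_mir] at h1
    exact h1

lemma Mirror.isAP_nonempty {A : Finset ℤ} (h : IsAP A) : A.Nonempty := by
  obtain ⟨d, a, b, hd, hab, hdvd, rfl⟩ := (isAP_iff_apSet A).1 h
  exact ⟨a, mem_apSet.2 ⟨⟨le_refl _, hab⟩, by simp⟩⟩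

open Classical in
/-- existence of the hull, up to the position of `x` -/
lemma Mirror.exists_hull_aux {N : ℕ} {F : Finset (Finset ℤ)} (hF : Admissible N F) {x : ℤ}
    (hG : ∃ B ∈ F, IsAP B ∧ x ∉ B) :
    ∃ a b : ℤ, a ≤ b ∧ a ∈ Icc (1 : ℤ) N ∧ b ∈ Icc (1 : ℤ) N ∧
      (∀ B ∈ F, IsAP B → x ∉ B → ∃ t ∈ B, t ≤ a) ∧
      (∀ B ∈ F, IsAP B → x ∉ B → ∃ t ∈ B, b ≤ t) ∧
      (∃ B ∈ F, IsAP B ∧ x ∉ B ∧ ∀ t ∈ B, a ≤ t) ∧
      (∃ B ∈ F, IsAP B ∧ x ∉ B ∧ ∀ t ∈ B, t ≤ b) := by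
  set G : Finset (Finset ℤ) := F.filter (fun B => IsAP B ∧ x ∉ B) with hGdef
  have hGne : G.Nonempty := by
    obtain ⟨B, hB, h1, h2⟩ := hG
    exact ⟨B, mem_filter.2 ⟨hB, h1, h2⟩⟩
  have hmem : ∀ B ∈ G, B ∈ F ∧ IsAP B ∧ x ∉ B := by
    intro B hB
    have := mem_filter.1 hB
    exact ⟨this.1, this.2.1, this.2.2⟩
  -- minimum and maximum functions
  have hmin : ∀ B : Finset ℤ, ∃ m : ℤ, B.Nonempty → (m ∈ B ∧ ∀ t ∈ B, m ≤ t) := by
    intro B
    by_cases h : B.Nonempty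
    · exact ⟨B.min' h, fun _ => ⟨B.min'_mem h, fun t ht => B.min'_le t ht⟩⟩
    · exact ⟨0, fun h' => absurd h' h⟩
  have hmax : ∀ B : Finset ℤ, ∃ m : ℤ, B.Nonempty → (m ∈ B ∧ ∀ t ∈ B, t ≤ m) := by
    intro B
    by_cases h : B.Nonempty
    · exact ⟨B.max' h, fun _ => ⟨B.max'_mem h, fun t ht => B.le_max' t ht⟩⟩
    · exact ⟨0, fun h' => absurd h' h⟩
  choose mn hmn using hmin
  choose mx hmx using hmax
  obtain ⟨B1, hB1, hB1max⟩ := exists_max_image G mn hGne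
  obtain ⟨B2, hB2, hB2min⟩ := exists_min_image G mx hGne
  obtain ⟨hB1F, hB1P, hB1x⟩ := hmem B1 hB1
  obtain ⟨hB2F, hB2P, hB2x⟩ := hmem B2 hB2
  have h1 := hmn B1 (Mirror.isAP_nonempty hB1P)
  have h2 := hmx B2 (Mirror.isAP_nonempty hB2P)
  refine ⟨mn B1, mx B2, ?_, hF.1 _ hB1F h1.1, hF.1 _ hB2F h2.1, ?_, ?_,
    ⟨B1, hB1F, hB1P, hB1x, h1.2⟩, ⟨B2, hB2F, hB2P, hB2x, h2.2⟩⟩
  · by_cases h : B1 = B2
    · subst h
      exact h2.2 _ h1.1
    · obtain ⟨t, ht⟩ := Mirror.isAP_nonempty (hF.2 _ hB1F _ hB2F h)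
      rw [mem_inter] at ht
      exact le_trans (h1.2 t ht.1) (h2.2 t ht.2)
  · intro B hB hBP hBx
    exact ⟨mn B, (hmn B (Mirror.isAP_nonempty hBP)).1, hB1max B (mem_filter.2 ⟨hB, hBP, hBx⟩)⟩
  · intro B hB hBP hBx
    exact ⟨mx B, (hmx B (Mirror.isAP_nonempty hBP)).1, hB2min B (mem_filter.2 ⟨hB, hBP, hBx⟩)⟩

open Classical in
/-- existence of the hull, possibly after reflection -/
theorem exists_hull {N : ℕ} {F : Finset (Finset ℤ)} (hF : Admissible N F) {x : ℤ}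
    (hx : x ∈ Icc (1 : ℤ) N) (hG : ∃ B ∈ F, IsAP B ∧ x ∉ B) :
    (∃ a b, Hull N F x a b) ∨ (∃ a b, Hull N (mirF N F) (N + 1 - x) a b) := by
  obtain ⟨a, b, hab, ha, hb, hlow, hhigh, hal, hah⟩ := Mirror.exists_hull_aux hF hG
  by_cases hxb : x ≤ b
  · left
    exact ⟨a, b, ⟨hF, hx, hxb, hab, ha, hb, hlow, hhigh, hal, hah⟩⟩
  · right
    rw [mem_Icc] at hx ha hb
    have hxm : ∀ B : Finset ℤ, (N : ℤ) + 1 - x ∉ B ↔ x ∉ mir N B := by
      intro B
      rw [mem_mir]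
    have hxm' : ∀ B : Finset ℤ, x ∉ B → (N : ℤ) + 1 - x ∉ mir N B := by
      intro B h
      rw [mem_mir]
      have : (N : ℤ) + 1 - ((N : ℤ) + 1 - x) = x := by ring
      rwa [this]
    refine ⟨(N : ℤ) + 1 - b, (N : ℤ) + 1 - a, ⟨admissible_mir hF, ?_, by omega, by omega, ?_, ?_,
      ?_, ?_, ?_, ?_⟩⟩
    · rw [mem_Icc]; omega
    · rw [mem_Icc]; omega
    · rw [mem_Icc]; omega
    · intro B hB hBP hBx
      rw [mem_mirF] at hB
      obtain ⟨t, ht, h⟩ := hhigh _ hB (isAP_mir.2 hBP) ((hxm B).1 hBx)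
      rw [mem_mir] at ht
      exact ⟨_, ht, by omega⟩
    · intro B hB hBP hBx
      rw [mem_mirF] at hB
      obtain ⟨t, ht, h⟩ := hlow _ hB (isAP_mir.2 hBP) ((hxm B).1 hBx)
      rw [mem_mir] at ht
      exact ⟨_, ht, by omega⟩
    · obtain ⟨B, hB, hBP, hBx, h⟩ := hah
      refine ⟨mir N B, ?_, isAP_mir.2 hBP, hxm' B hBx, ?_⟩
      · rw [mem_mirF, mir_mir]
        exact hB
      · intro t ht
        rw [mem_mir] at ht
        have := h _ ht
        omega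
    · obtain ⟨B, hB, hBP, hBx, h⟩ := hal
      refine ⟨mir N B, ?_, isAP_mir.2 hBP, hxm' B hBx, ?_⟩
      · rw [mem_mirF, mir_mir]
        exact hB
      · intro t ht
        rw [mem_mir] at ht
        have := h _ ht
        omega

end Pool.Agent.APLarge
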