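import Mathlib

/-!
Package P7A: sums of reciprocals of squares (of primes) and the harmonic sum.
-/

set_option autoImplicit false

namespace Pool.Agent.APLarge

open Finset

namespace Rho

theorem tail_le (n : ℕ) (h : 130 ≤ n) :
    ∑ p ∈ Ioc 130 n, (1 : ℝ) / (p : ℝ) ^ 2 ≤ 1 / 130 := by
  have h1 := sum_Ioc_inv_sq_le_sub (α := ℝ) (k := 130) (n := n) (by norm_num) h
  have h2 : (0 : ℝ) ≤ ((n : ℝ))⁻¹ := by positivity
  simp only [one_div]
  calc ∑ p ∈ Ioc 130 n, ((p : ℝ) ^ 2)⁻¹ ≤ ((130 : ℕ) : ℝ)⁻¹ - (n : ℝ)⁻¹ := h1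
    _ ≤ (130 : ℝ)⁻¹ := by push_cast; linarith

theorem head (q : ℕ → Prop) [DecidablePred q] (S : Finset ℕ)
    (hS : (range 131).filter q = S) (n : ℕ) :
    ∑ p ∈ (range n).filter q, (1 : ℝ) / (p : ℝ) ^ 2 ≤
      ∑ p ∈ S, (1 : ℝ) / (p : ℝ) ^ 2 + 1 / 130 := by
  have h0 : ∀ p : ℕ, (0 : ℝ) ≤ 1 / (p : ℝ) ^ 2 := fun p => by positivity
  rcases Nat.lt_or_ge n 131 with hn | hn
  · have h1 : (range n).filter q ⊆ S := by
      rw [← hS]
      intro p hp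
      rw [mem_filter, mem_range] at hp ⊢
      exact ⟨by omega, hp.2⟩
    have h2 := sum_le_sum_of_subset_of_nonneg h1 (f := fun p : ℕ => (1 : ℝ) / (p : ℝ) ^ 2)
      fun p _ _ => h0 p
    have h3 : (0 : ℝ) ≤ 1 / 130 := by norm_num
    linarith
  · have h1 : (range n).filter q ⊆ S ∪ Ioc 130 n := by
      intro p hp
      rw [mem_filter, mem_range] at hp
      rw [mem_union]
      rcases Nat.lt_or_ge p 131 with h | h
      · left; rw [← hS, mem_filter, mem_range]; exact ⟨h, hp.2⟩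
      · right; rw [mem_Ioc]; omega
    have h2 := sum_le_sum_of_subset_of_nonneg h1 (f := fun p : ℕ => (1 : ℝ) / (p : ℝ) ^ 2)
      fun p _ _ => h0 p
    have h3 : ∑ p ∈ S ∪ Ioc 130 n, (1 : ℝ) / (p : ℝ) ^ 2 ≤
        ∑ p ∈ S, (1 : ℝ) / (p : ℝ) ^ 2 + ∑ p ∈ Ioc 130 n, (1 : ℝ) / (p : ℝ) ^ 2 := by
      have := sum_union_inter (s₁ := S) (s₂ := Ioc 130 n) (f := fun p : ℕ => (1 : ℝ) / (p : ℝ) ^ 2)
      have h4 : (0 : ℝ) ≤ ∑ p ∈ S ∩ Ioc 130 n, (1 : ℝ) / (p : ℝ) ^ 2 :=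
        sum_nonneg fun p _ => h0 p
      linarith
    have h5 := tail_le n (by omega)
    linarith

/-- the odd primes below 131 -/
def P : Finset ℕ := {3, 5, 7, 11, 13, 17, 19, 23, 29, 31, 37, 41, 43, 47, 53, 59, 61, 67, 71,
  73, 79, 83, 89, 97, 101, 103, 107, 109, 113, 127}

theorem P_eq : (range 131).filter (fun p => Nat.Prime p ∧ p ≠ 2) = P := by decide +kernel

theorem P_eq' : (range 131).filter Nat.Prime = insert 2 P := by decide +kernel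

theorem sum_P : ∑ p ∈ P, (1 : ℝ) / (p : ℝ) ^ 2 ≤ 0.2015 := by
  unfold P
  repeat rw [sum_insert (by decide)]
  rw [sum_singleton]
  norm_num

theorem zeta_aux (n : ℕ) : ∑ d ∈ Icc 1 n, (1 : ℝ) / (d : ℝ) ^ 2 ≤ 1.645 := by
  have h1 : ∑ d ∈ Icc 1 n, (1 : ℝ) / (d : ℝ) ^ 2 ≤ Real.pi ^ 2 / 6 :=
    sum_le_hasSum _ (fun d _ => by positivity) hasSum_zeta_two
  have h2 := Real.pi_lt_d4
  have h3 := Real.pi_pos
  nlinarith

end Rho

open Rho

theorem rho_all (n : ℕ) : ∑ p ∈ (range n).filter Nat.Prime, (1 : ℝ) / (p : ℝ) ^ 2 ≤ 0.46 := by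
  have h1 := head Nat.Prime (insert 2 P) P_eq' n
  rw [sum_insert (by decide)] at h1
  have h2 := sum_P
  norm_num at h1 h2 ⊢
  linarith

theorem rho_odd (n : ℕ) :
    ∑ p ∈ (range n).filter (fun p => Nat.Prime p ∧ p ≠ 2), (1 : ℝ) / (p : ℝ) ^ 2 ≤ 0.21 := by
  have h1 := head (fun p => Nat.Prime p ∧ p ≠ 2) P P_eq n
  have h2 := sum_P
  norm_num at h1 h2 ⊢
  linarith

theorem zeta_ge_two (n : ℕ) : ∑ d ∈ Icc 2 n, (1 : ℝ) / (d : ℝ) ^ 2 ≤ 0.645 := by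
  have h1 := zeta_aux n
  rcases Nat.lt_or_ge n 2 with hn | hn
  · rw [Icc_eq_empty (by omega)]; norm_num
  · have h2 : Icc 1 n = insert 1 (Icc 2 n) := by
      ext d; simp only [mem_insert, mem_Icc]; omega
    rw [h2, sum_insert (by simp)] at h1
    norm_num at h1 ⊢
    linarith

theorem zeta_ge_three (n : ℕ) : ∑ d ∈ Icc 3 n, (1 : ℝ) / (d : ℝ) ^ 2 ≤ 0.395 := by
  have h1 := zeta_ge_two n
  rcases Nat.lt_or_ge n 3 with hn | hn
  · rw [Icc_eq_empty (by omega)]; norm_num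
  · have h2 : Icc 2 n = insert 2 (Icc 3 n) := by
      ext d; simp only [mem_insert, mem_Icc]; omega
    rw [h2, sum_insert (by simp)] at h1
    norm_num at h1 ⊢
    linarith

theorem harmonic_le (n : ℕ) : ∑ d ∈ Icc 1 n, (1 : ℝ) / (d : ℝ) ≤ 1 + Real.log n := by
  have h := harmonic_le_one_add_log n
  rw [harmonic_eq_sum_Icc] at h
  simpa [one_div] using h

end Pool.Agent.APLarge
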