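import Mathlib
import Pool.Agent.APLarge.Rho

/-!
# Counting coprime pairs
-/

set_option autoImplicit false

namespace Pool.Agent.APLarge

open Finset

namespace Pairs

/-- multiples of `p` in an interval -/
theorem card_mult (p A J : ℕ) (hp : 1 ≤ p) (hA : 1 ≤ A) (hAJ : A ≤ J) :
    (((Icc A J).filter (fun j => p ∣ j)).card : ℝ) ≤ ((J : ℝ) - A) / p + 1 := by
  have hp0 : (0 : ℝ) < p := by exact_mod_cast hp
  have h1 : (Icc A J).filter (fun j => p ∣ j) ⊆ ((Icc ((A + p - 1) / p) (J / p)).image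
      (fun k => p * k)) := by
    intro j hj
    rw [mem_filter, mem_Icc] at hj
    obtain ⟨⟨h1, h2⟩, k, rfl⟩ := hj
    rw [mem_image]
    refine ⟨k, ?_, rfl⟩
    rw [mem_Icc]
    constructor
    · rw [← Nat.lt_succ_iff, Nat.div_lt_iff_lt_mul hp]
      have : k.succ * p = p * k + p := by rw [Nat.succ_mul, mul_comm]
      omega
    · rw [Nat.le_div_iff_mul_le hp, mul_comm]
      exact h2
  have h2 := (card_le_card h1).trans card_image_le
  rw [Nat.card_Icc] at h2
  have h3 : ((J / p : ℕ) : ℝ) ≤ (J : ℝ) / p := Nat.cast_div_le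
  have h4 : (A : ℝ) / p ≤ (((A + p - 1) / p : ℕ) : ℝ) := by
    rw [div_le_iff₀ hp0]
    have h5 : A ≤ (A + p - 1) / p * p := by
      have := Nat.div_add_mod (A + p - 1) p
      have h6 := Nat.mod_lt (A + p - 1) hp
      have h7 : p * ((A + p - 1) / p) = (A + p - 1) / p * p := mul_comm _ _
      omega
    exact_mod_cast h5
  by_cases hc : (A + p - 1) / p ≤ J / p + 1
  · have h5 : (((Icc A J).filter (fun j => p ∣ j)).card : ℝ) ≤
        ((J / p : ℕ) : ℝ) + 1 - (((A + p - 1) / p : ℕ) : ℝ) := by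
      have : (((Icc A J).filter (fun j => p ∣ j)).card : ℝ) ≤
        ((J / p + 1 - (A + p - 1) / p : ℕ) : ℝ) := by exact_mod_cast h2
      rw [Nat.cast_sub hc] at this
      push_cast at this
      exact this
    rw [sub_div]
    linarith
  · have h5 : ((Icc A J).filter (fun j => p ∣ j)).card = 0 := by omega
    rw [h5]
    have h6 : (0 : ℝ) ≤ ((J : ℝ) - A) / p := by
      apply div_nonneg _ hp0.le
      have : (A : ℝ) ≤ J := by exact_mod_cast hAJ
      linarith
    push_cast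
    linarith

/-- multiples of `p` up to `I` -/
theorem card_mult_one (p I : ℕ) (hp : 1 ≤ p) :
    (((Icc 1 I).filter (fun j => p ∣ j)).card : ℝ) ≤ (I : ℝ) / p := by
  have h : (Icc 1 I : Finset ℕ) = Ioc 0 I := by
    ext x; simp only [mem_Icc, mem_Ioc]; omega
  rw [h, Nat.Ioc_filter_dvd_card_eq_div]
  exact Nat.cast_div_le

/-- general bound for a union over a set of primes -/
theorem nc_gen (P : Finset ℕ) (ρ : ℝ) (I A J : ℕ) (hI : 1 ≤ I) (hAJ : A ≤ J) (hA : 1 ≤ A)
    (hP1 : ∀ p ∈ P, 1 ≤ p ∧ p ≤ I) (hρ : ∑ p ∈ P, (1 : ℝ) / (p : ℝ) ^ 2 ≤ ρ)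
    (S : Finset (ℕ × ℕ)) (hS : S ⊆ (Icc 1 I) ×ˢ (Icc A J))
    (hSP : ∀ q ∈ S, ∃ p ∈ P, p ∣ q.1 ∧ p ∣ q.2) :
    (S.card : ℝ) ≤ ρ * I * ((J : ℝ) - A) + I * (1 + Real.log I) := by
  have hJA : (0 : ℝ) ≤ (J : ℝ) - A := by
    have : (A : ℝ) ≤ J := by exact_mod_cast hAJ
    linarith
  have h1 : S ⊆ P.biUnion (fun p => ((Icc 1 I).filter (fun j => p ∣ j)) ×ˢ
      ((Icc A J).filter (fun j => p ∣ j))) := by
    intro q hq
    obtain ⟨p, hp, h1, h2⟩ := hSP q hq
    have h3 := mem_product.1 (hS hq)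
    rw [mem_biUnion]
    exact ⟨p, hp, mem_product.2 ⟨mem_filter.2 ⟨h3.1, h1⟩, mem_filter.2 ⟨h3.2, h2⟩⟩⟩
  have h2 : (S.card : ℝ) ≤ ∑ p ∈ P, ((I : ℝ) / p) * (((J : ℝ) - A) / p + 1) := by
    have h3 : S.card ≤ ∑ p ∈ P, (((Icc 1 I).filter (fun j => p ∣ j)) ×ˢ
      ((Icc A J).filter (fun j => p ∣ j))).card := (card_le_card h1).trans card_biUnion_le
    have h4 : (S.card : ℝ) ≤ ∑ p ∈ P, ((((Icc 1 I).filter (fun j => p ∣ j)) ×ˢ
      ((Icc A J).filter (fun j => p ∣ j))).card : ℝ) := by exact_mod_cast h3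
    refine h4.trans (sum_le_sum fun p hp => ?_)
    rw [card_product]
    push_cast
    refine mul_le_mul (card_mult_one p I (hP1 p hp).1) (card_mult p A J (hP1 p hp).1 hA hAJ)
      (Nat.cast_nonneg _) (by positivity)
  have h3 : ∑ p ∈ P, ((I : ℝ) / p) * (((J : ℝ) - A) / p + 1) =
      I * ((J : ℝ) - A) * (∑ p ∈ P, (1 : ℝ) / (p : ℝ) ^ 2) + I * ∑ p ∈ P, (1 : ℝ) / (p : ℝ) := by
    rw [mul_sum, mul_sum, ← sum_add_distrib]
    refine sum_congr rfl fun p hp => ?_
    have hp0 : (p : ℝ) ≠ 0 := by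
      have := (hP1 p hp).1
      positivity
    field_simp
  have h4 : ∑ p ∈ P, (1 : ℝ) / (p : ℝ) ≤ 1 + Real.log I := by
    refine le_trans ?_ (harmonic_le I)
    refine sum_le_sum_of_subset_of_nonneg ?_ fun i _ _ => by positivity
    intro p hp
    exact mem_Icc.2 (hP1 p hp)
  rw [h3] at h2
  have h5 : (I : ℝ) * ((J : ℝ) - A) * (∑ p ∈ P, (1 : ℝ) / (p : ℝ) ^ 2) ≤
      I * ((J : ℝ) - A) * ρ := mul_le_mul_of_nonneg_left hρ (by positivity)
  have h6 : (I : ℝ) * ∑ p ∈ P, (1 : ℝ) / (p : ℝ) ≤ I * (1 + Real.log I) :=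
    mul_le_mul_of_nonneg_left h4 (by positivity)
  calc (S.card : ℝ) ≤ _ := h2
    _ ≤ I * ((J : ℝ) - A) * ρ + I * (1 + Real.log I) := add_le_add h5 h6
    _ = _ := by ring

end Pairs

/-- non-coprime pairs `(i, j)`, `1 ≤ i ≤ I`, `A ≤ j ≤ J` -/
theorem nc_all (I A J : ℕ) (hI : 1 ≤ I) (hAJ : A ≤ J) (hA : 1 ≤ A) :
    ((((Icc 1 I) ×ˢ (Icc A J)).filter (fun p : ℕ × ℕ => ¬ Nat.Coprime p.1 p.2)).card : ℝ) ≤
      0.46 * I * ((J : ℝ) - A) + I * (1 + Real.log I) := by
  refine Pairs.nc_gen ((range (I + 1)).filter Nat.Prime) 0.46 I A J hI hAJ hA ?_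
    (rho_all _) _ (filter_subset _ _) ?_
  · intro p hp
    rw [mem_filter, mem_range] at hp
    exact ⟨hp.2.one_le, by omega⟩
  · intro q hq
    rw [mem_filter, mem_product, mem_Icc] at hq
    obtain ⟨p, hp, h1, h2⟩ := Nat.Prime.not_coprime_iff_dvd.1 hq.2
    refine ⟨p, ?_, h1, h2⟩
    rw [mem_filter, mem_range]
    exact ⟨Nat.lt_succ_of_le ((Nat.le_of_dvd hq.1.1.1 h1).trans hq.1.1.2), hp⟩

open Classical in
/-- pairs with a common odd prime factor -/
theorem nc_odd (I A J : ℕ) (hI : 1 ≤ I) (hAJ : A ≤ J) (hA : 1 ≤ A) :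
    ((((Icc 1 I) ×ˢ (Icc A J)).filter
      (fun p : ℕ × ℕ => ∃ q : ℕ, q.Prime ∧ q ≠ 2 ∧ q ∣ p.1 ∧ q ∣ p.2)).card : ℝ) ≤
      0.21 * I * ((J : ℝ) - A) + I * (1 + Real.log I) := by
  refine Pairs.nc_gen ((range (I + 1)).filter (fun p => Nat.Prime p ∧ p ≠ 2)) 0.21 I A J hI hAJ
    hA ?_ (rho_odd _) _ (filter_subset _ _) ?_
  · intro p hp
    rw [mem_filter, mem_range] at hp
    exact ⟨hp.2.1.one_le, by omega⟩
  · intro q hq
    rw [mem_filter, mem_product, mem_Icc] at hq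
    obtain ⟨p, hp, hp2, h1, h2⟩ := hq.2
    refine ⟨p, ?_, h1, h2⟩
    rw [mem_filter, mem_range]
    exact ⟨Nat.lt_succ_of_le ((Nat.le_of_dvd hq.1.1.1 h1).trans hq.1.1.2), hp, hp2⟩

namespace Pairs

/-- all pairs -/
def T (A B J : ℕ) : Finset (ℕ × ℕ) := ((Icc A B) ×ˢ (Icc A J)).filter (fun p => p.1 < p.2)

theorem mem_T {A B J : ℕ} {q : ℕ × ℕ} : q ∈ T A B J ↔ A ≤ q.1 ∧ q.1 ≤ B ∧ q.1 < q.2 ∧ q.2 ≤ J := by
  unfold T
  rw [mem_filter, mem_product, mem_Icc, mem_Icc]
  constructor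
  · rintro ⟨⟨⟨h1, h2⟩, h3, h4⟩, h5⟩
    exact ⟨h1, h2, h5, h4⟩
  · rintro ⟨h1, h2, h3, h4⟩
    exact ⟨⟨⟨h1, h2⟩, by omega, h4⟩, h3⟩

/-- the number of pairs -/
theorem card_T (A J : ℕ) : ∀ B, A ≤ B → B ≤ J →
    (((J : ℝ) - A) ^ 2 - ((J : ℝ) - B) ^ 2) / 2 + (((J : ℝ) - A) + ((J : ℝ) - B)) / 2 ≤
      ((T A B J).card : ℝ) := by
  intro B hAB
  induction B, hAB using Nat.le_induction with
  | base =>
    intro hBJ
    have hsub : ((Icc (A + 1) J).image (fun v => (A, v))) ⊆ T A A J := by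
      intro q hq
      rw [mem_image] at hq
      obtain ⟨v, hv, rfl⟩ := hq
      rw [mem_Icc] at hv
      rw [mem_T]
      simp only
      omega
    have h1 := card_le_card hsub
    rw [card_image_of_injective _ (fun a b h => by simpa using h), Nat.card_Icc] at h1
    have h3 : ((J + 1 - (A + 1) : ℕ) : ℝ) ≤ ((T A A J).card : ℝ) := by exact_mod_cast h1
    rw [Nat.cast_sub (by omega)] at h3
    push_cast at h3
    linarith
  | succ B hAB ih =>
    intro hBJ
    have ih' := ih (by omega)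
    have hsub : T A B J ∪ ((Icc (B + 2) J).image (fun v => (B + 1, v))) ⊆ T A (B + 1) J := by
      intro q hq
      rw [mem_union] at hq
      rcases hq with hq | hq
      · rw [mem_T] at hq ⊢
        omega
      · rw [mem_image] at hq
        obtain ⟨v, hv, rfl⟩ := hq
        rw [mem_Icc] at hv
        rw [mem_T]
        simp only
        omega
    have hdisj : Disjoint (T A B J) ((Icc (B + 2) J).image (fun v => (B + 1, v))) := by
      rw [disjoint_left]
      intro q hq hq2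
      rw [mem_T] at hq
      rw [mem_image] at hq2
      obtain ⟨v, hv, rfl⟩ := hq2
      simp only at hq
      omega
    have h1 := card_le_card hsub
    rw [card_union_of_disjoint hdisj, card_image_of_injective _ (fun a b h => by
      simpa using h), Nat.card_Icc] at h1
    have h2 : ((T A B J).card : ℝ) + ((J : ℝ) - (B + 1)) ≤ ((T A (B + 1) J).card : ℝ) := by
      have h3 : ((T A B J).card : ℝ) + ((J + 1 - (B + 2) : ℕ) : ℝ) ≤
        ((T A (B + 1) J).card : ℝ) := by exact_mod_cast h1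
      rw [Nat.cast_sub (by omega)] at h3
      push_cast at h3
      linarith
    push_cast
    nlinarith

/-- pairs of multiples of `p` -/
theorem card_mult_pairs (p A B J : ℕ) (hp : 1 ≤ p) (hAJ : A ≤ J) (hBJ : B ≤ J) :
    (((T A B J).filter (fun q => p ∣ q.1 ∧ p ∣ q.2)).card : ℝ) ≤
      ((J : ℝ) - A) / p + ((T A B J).card : ℝ) / (p : ℝ) ^ 2 := by
  have hp0 : (0 : ℝ) < p := by exact_mod_cast hp
  set S := (T A B J).filter (fun q => p ∣ q.1 ∧ p ∣ q.2) with hS
  set S1 := S.filter (fun q => A + p ≤ q.1 + 1) with hS1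
  set S2 := S.filter (fun q => ¬ (A + p ≤ q.1 + 1)) with hS2
  have hcard : S.card = S1.card + S2.card := (card_filter_add_card_filter_not _).symm
  -- the main part
  have h1 : p ^ 2 * S1.card ≤ (T A B J).card := by
    have h2 : ((S1 ×ˢ ((range p) ×ˢ (range p))).image
        (fun w : (ℕ × ℕ) × (ℕ × ℕ) => (w.1.1 - w.2.1, w.1.2 - w.2.2))).card =
        p ^ 2 * S1.card := by
      rw [card_image_of_injOn]
      · rw [card_product, card_product, card_range]; ring
      · rintro ⟨⟨u, v⟩, r, s⟩ hw ⟨⟨u', v'⟩, r', s'⟩ hw' heq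
        simp only [coe_product, Set.mem_prod, mem_coe, hS1, hS, mem_filter, mem_T,
          mem_range] at hw hw'
        simp only [Prod.mk.injEq] at heq ⊢
        obtain ⟨⟨⟨⟨hA1, hB1, huv, hvJ⟩, ⟨k, hk⟩, ⟨l, hl⟩⟩, hAp⟩, hr, hs⟩ := hw
        obtain ⟨⟨⟨⟨hA1', hB1', huv', hvJ'⟩, ⟨k', hk'⟩, ⟨l', hl'⟩⟩, hAp'⟩, hr', hs'⟩ := hw'
        have hkl : k < l := by
          by_contra hcon
          push Not at hcon
          have := Nat.mul_le_mul_left p hcon
          omega
        have hkl' : k' < l' := by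
          by_contra hcon
          push Not at hcon
          have := Nat.mul_le_mul_left p hcon
          omega
        have e1 : p * (k + 1) ≤ p * l := Nat.mul_le_mul_left p hkl
        have e1' : p * (k' + 1) ≤ p * l' := Nat.mul_le_mul_left p hkl'
        rw [Nat.mul_add, Nat.mul_one] at e1 e1'
        have hkk : k = k' := by
          rcases lt_trichotomy k k' with h | h | h
          · have := Nat.mul_le_mul_left p (Nat.succ_le_of_lt h)
            rw [Nat.succ_eq_add_one, Nat.mul_add, Nat.mul_one] at this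
            omega
          · exact h
          · have := Nat.mul_le_mul_left p (Nat.succ_le_of_lt h)
            rw [Nat.succ_eq_add_one, Nat.mul_add, Nat.mul_one] at this
            omega
        have hll : l = l' := by
          rcases lt_trichotomy l l' with h | h | h
          · have := Nat.mul_le_mul_left p (Nat.succ_le_of_lt h)
            rw [Nat.succ_eq_add_one, Nat.mul_add, Nat.mul_one] at this
            omega
          · exact h
          · have := Nat.mul_le_mul_left p (Nat.succ_le_of_lt h)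
            rw [Nat.succ_eq_add_one, Nat.mul_add, Nat.mul_one] at this
            omega
        subst hkk
        subst hll
        refine ⟨⟨by omega, by omega⟩, by omega, by omega⟩
    rw [← h2]
    refine card_le_card ?_
    intro q hq
    rw [mem_image] at hq
    obtain ⟨⟨⟨u, v⟩, r, s⟩, hw, rfl⟩ := hq
    simp only [mem_product, hS1, hS, mem_filter, mem_T, mem_range] at hw
    obtain ⟨⟨⟨⟨hA1, hB1, huv, hvJ⟩, ⟨k, hk⟩, ⟨l, hl⟩⟩, hAp⟩, hr, hs⟩ := hw
    have hkl : k < l := by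
      by_contra hcon
      push Not at hcon
      have := Nat.mul_le_mul_left p hcon
      omega
    have e1 : p * (k + 1) ≤ p * l := Nat.mul_le_mul_left p hkl
    rw [Nat.mul_add, Nat.mul_one] at e1
    rw [mem_T]
    simp only
    omega
  -- the exceptional first multiple
  have h3 : (S2.card : ℝ) ≤ ((J : ℝ) - A) / p := by
    have hinj : Set.InjOn (fun q : ℕ × ℕ => (q.2 - q.1) / p) (S2 : Set (ℕ × ℕ)) := by
      rintro ⟨u, v⟩ hw ⟨u', v'⟩ hw' heq
      simp only [mem_coe, hS2, hS, mem_filter, mem_T] at hw hw'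
      obtain ⟨⟨⟨hA1, hB1, huv, hvJ⟩, ⟨k, hk⟩, ⟨l, hl⟩⟩, hAp⟩ := hw
      obtain ⟨⟨⟨hA1', hB1', huv', hvJ'⟩, ⟨k', hk'⟩, ⟨l', hl'⟩⟩, hAp'⟩ := hw'
      simp only at hk hl hk' hl' heq
      have hkk : k = k' := by
        rcases lt_trichotomy k k' with h | h | h
        · have := Nat.mul_le_mul_left p (Nat.succ_le_of_lt h)
          rw [Nat.succ_eq_add_one, Nat.mul_add, Nat.mul_one] at this
          omega
        · exact h
        · have := Nat.mul_le_mul_left p (Nat.succ_le_of_lt h)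
          rw [Nat.succ_eq_add_one, Nat.mul_add, Nat.mul_one] at this
          omega
      subst hkk
      rw [hk, hl, hk', hl', ← Nat.mul_sub, ← Nat.mul_sub, Nat.mul_div_cancel_left _ hp,
        Nat.mul_div_cancel_left _ hp] at heq
      have hkl : k < l := by
        by_contra hcon
        push Not at hcon
        have := Nat.mul_le_mul_left p hcon
        omega
      have hkl' : k < l' := by
        by_contra hcon
        push Not at hcon
        have := Nat.mul_le_mul_left p hcon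
        omega
      have hll : l = l' := by omega
      subst hll
      rw [hk, hl, hk', hl']
    have himg : S2.image (fun q : ℕ × ℕ => (q.2 - q.1) / p) ⊆ Icc 1 ((J - A) / p) := by
      intro d hd
      rw [mem_image] at hd
      obtain ⟨⟨u, v⟩, hw, rfl⟩ := hd
      simp only [hS2, hS, mem_filter, mem_T] at hw
      obtain ⟨⟨⟨hA1, hB1, huv, hvJ⟩, ⟨k, hk⟩, ⟨l, hl⟩⟩, hAp⟩ := hw
      simp only
      have hkl : k < l := by
        by_contra hcon
        push Not at hcon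
        have := Nat.mul_le_mul_left p hcon
        omega
      rw [mem_Icc]
      constructor
      · rw [hk, hl, ← Nat.mul_sub, Nat.mul_div_cancel_left _ hp]
        omega
      · exact Nat.div_le_div_right (by omega)
    have h4 := card_le_card himg
    rw [card_image_of_injOn hinj, Nat.card_Icc, Nat.add_sub_cancel] at h4
    have h5 : (S2.card : ℝ) ≤ (((J - A) / p : ℕ) : ℝ) := by exact_mod_cast h4
    refine h5.trans ((Nat.cast_div_le).trans ?_)
    rw [Nat.cast_sub hAJ]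
  have h4 : (S1.card : ℝ) ≤ ((T A B J).card : ℝ) / (p : ℝ) ^ 2 := by
    rw [le_div_iff₀ (by positivity), mul_comm]
    exact_mod_cast h1
  rw [hcard]
  push_cast
  linarith

/-- pairs with a common prime factor -/
theorem card_nc (A B J : ℕ) (hA : 1 ≤ A) (hAJ : A ≤ J) (hBJ : B ≤ J) :
    (((T A B J).filter (fun q => ¬ Nat.Coprime q.1 q.2)).card : ℝ) ≤
      J * (1 + Real.log J) + 0.46 * ((T A B J).card : ℝ) := by
  set P := (range (J + 1)).filter Nat.Prime with hP
  have h1 : (T A B J).filter (fun q => ¬ Nat.Coprime q.1 q.2) ⊆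
      P.biUnion (fun p => (T A B J).filter (fun q => p ∣ q.1 ∧ p ∣ q.2)) := by
    intro q hq
    rw [mem_filter] at hq
    obtain ⟨p, hp, h1, h2⟩ := Nat.Prime.not_coprime_iff_dvd.1 hq.2
    rw [mem_biUnion]
    refine ⟨p, ?_, mem_filter.2 ⟨hq.1, h1, h2⟩⟩
    rw [hP, mem_filter, mem_range]
    have h3 := mem_T.1 hq.1
    have h4 := Nat.le_of_dvd (by omega) h1
    exact ⟨by omega, hp⟩
  have h2 : (((T A B J).filter (fun q => ¬ Nat.Coprime q.1 q.2)).card : ℝ) ≤
      ∑ p ∈ P, (((J : ℝ) - A) / p + ((T A B J).card : ℝ) / (p : ℝ) ^ 2) := by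
    have h3 := (card_le_card h1).trans card_biUnion_le
    have h4 : (((T A B J).filter (fun q => ¬ Nat.Coprime q.1 q.2)).card : ℝ) ≤
      ∑ p ∈ P, (((T A B J).filter (fun q => p ∣ q.1 ∧ p ∣ q.2)).card : ℝ) := by
      exact_mod_cast h3
    refine h4.trans (sum_le_sum fun p hp => ?_)
    rw [hP, mem_filter] at hp
    exact card_mult_pairs p A B J hp.2.one_le hAJ hBJ
  have h3 : ∑ p ∈ P, (((J : ℝ) - A) / p + ((T A B J).card : ℝ) / (p : ℝ) ^ 2) =
      ((J : ℝ) - A) * (∑ p ∈ P, (1 : ℝ) / (p : ℝ)) +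
        ((T A B J).card : ℝ) * ∑ p ∈ P, (1 : ℝ) / (p : ℝ) ^ 2 := by
    rw [mul_sum, mul_sum, ← sum_add_distrib]
    refine sum_congr rfl fun p _ => ?_
    ring
  have h4 : ∑ p ∈ P, (1 : ℝ) / (p : ℝ) ≤ 1 + Real.log J := by
    refine le_trans ?_ (harmonic_le J)
    refine sum_le_sum_of_subset_of_nonneg ?_ fun i _ _ => by positivity
    intro p hp
    rw [hP, mem_filter, mem_range] at hp
    exact mem_Icc.2 ⟨hp.2.one_le, by omega⟩
  have h5 : ∑ p ∈ P, (1 : ℝ) / (p : ℝ) ^ 2 ≤ 0.46 := rho_all _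
  have hA' : (1 : ℝ) ≤ A := by exact_mod_cast hA
  have hAJ' : (A : ℝ) ≤ J := by exact_mod_cast hAJ
  have hlog : 0 ≤ Real.log (J : ℝ) := Real.log_nonneg (by linarith)
  rw [h3] at h2
  have h6 : ((J : ℝ) - A) * (∑ p ∈ P, (1 : ℝ) / (p : ℝ)) ≤ J * (1 + Real.log J) := by
    have h7 : (0 : ℝ) ≤ ∑ p ∈ P, (1 : ℝ) / (p : ℝ) := sum_nonneg fun i _ => by positivity
    exact mul_le_mul (by linarith) h4 h7 (by positivity)
  have h7 : ((T A B J).card : ℝ) * ∑ p ∈ P, (1 : ℝ) / (p : ℝ) ^ 2 ≤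
      ((T A B J).card : ℝ) * 0.46 := mul_le_mul_of_nonneg_left h5 (Nat.cast_nonneg _)
  linarith

end Pairs

/-- coprime pairs `u < v ≤ J` with `A ≤ u ≤ B` -/
theorem cp_pairs (A B J : ℕ) (hA : 1 ≤ A) (hAJ : A ≤ J) :
    0.54 * (((J : ℝ) - A) ^ 2 - ((J - B : ℕ) : ℝ) ^ 2) / 2 - J * (4 + Real.log J) ≤
      ((((Icc A B) ×ˢ (Icc A J)).filter
        (fun p : ℕ × ℕ => p.1 < p.2 ∧ Nat.Coprime p.1 p.2)).card : ℝ) := by
  have hA' : (1 : ℝ) ≤ A := by exact_mod_cast hA
  have hAJ' : (A : ℝ) ≤ J := by exact_mod_cast hAJ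
  have hlog : 0 ≤ Real.log (J : ℝ) := Real.log_nonneg (by linarith)
  have hJlog : 0 ≤ (J : ℝ) * Real.log J := by positivity
  rcases lt_or_ge B A with hBA | hAB
  · have h1 : ((J : ℝ) - A) ≤ ((J - B : ℕ) : ℝ) := by
      rw [Nat.cast_sub (by omega)]
      have : (B : ℝ) < A := by exact_mod_cast hBA
      linarith
    have h2 : ((J : ℝ) - A) ^ 2 ≤ ((J - B : ℕ) : ℝ) ^ 2 :=
      pow_le_pow_left₀ (by linarith) h1 2
    refine le_trans ?_ (Nat.cast_nonneg _)
    nlinarith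
  · set B' := min B J with hB'
    have hAB' : A ≤ B' := le_min hAB hAJ
    have hBJ' : B' ≤ J := min_le_right _ _
    have e1 : ((J - B : ℕ) : ℝ) = (J : ℝ) - B' := by
      rw [← Nat.cast_sub hBJ']
      congr 1
      omega
    have h1 := Pairs.card_T A J B' hAB' hBJ'
    have h2 := Pairs.card_nc A B' J hA hAJ hBJ'
    have h3 : (((Pairs.T A B' J).filter (fun q => Nat.Coprime q.1 q.2)).card : ℝ) +
        (((Pairs.T A B' J).filter (fun q => ¬ Nat.Coprime q.1 q.2)).card : ℝ) =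
        ((Pairs.T A B' J).card : ℝ) := by
      exact_mod_cast card_filter_add_card_filter_not _
    have h4 : (((Pairs.T A B' J).filter (fun q => Nat.Coprime q.1 q.2)).card : ℝ) ≤
        ((((Icc A B) ×ˢ (Icc A J)).filter
          (fun p : ℕ × ℕ => p.1 < p.2 ∧ Nat.Coprime p.1 p.2)).card : ℝ) := by
      have : (Pairs.T A B' J).filter (fun q => Nat.Coprime q.1 q.2) ⊆
        ((Icc A B) ×ˢ (Icc A J)).filter
          (fun p : ℕ × ℕ => p.1 < p.2 ∧ Nat.Coprime p.1 p.2) := by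
        intro q hq
        rw [mem_filter, Pairs.mem_T] at hq
        rw [mem_filter, mem_product, mem_Icc, mem_Icc]
        have := min_le_left B J
        exact ⟨⟨⟨hq.1.1, by omega⟩, by omega, hq.1.2.2.2⟩, hq.1.2.2.1, hq.2⟩
      exact_mod_cast card_le_card this
    rw [e1]
    have hB'J : (B' : ℝ) ≤ J := by exact_mod_cast hBJ'
    nlinarith

end Pool.Agent.APLarge
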