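import Pool.Agent.APLarge.Defs
import Pool.Agent.APInt.Lower

/-!
Progressions of an admissible family, sorted by their difference.
-/

set_option autoImplicit false

namespace Pool.Agent.APLarge

open Finset Pool.Agent.APInt

namespace Scale

/-- the number of points of a class in an interval -/
lemma card_class_le {lo hi r : ℤ} {d : ℕ} (hd : 1 ≤ d) (hle : lo ≤ hi) :
    ((((Icc lo hi).filter (fun t => (d : ℤ) ∣ t - r)).card : ℕ) : ℝ) ≤
      ((hi : ℝ) - lo) / d + 1 := by
  set S := (Icc lo hi).filter (fun t => (d : ℤ) ∣ t - r) with hS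
  have hd0 : (0 : ℤ) < d := by omega
  have hdR : (0 : ℝ) < d := by exact_mod_cast hd
  rcases S.eq_empty_or_nonempty with h0 | hne
  · rw [h0, card_empty]
    have h1 : (0 : ℝ) ≤ (hi : ℝ) - lo := by
      have : (lo : ℝ) ≤ hi := by exact_mod_cast hle
      linarith
    have := div_nonneg h1 hdR.le
    push_cast
    linarith
  · set t0 := S.min' hne with ht0
    have hm : t0 ∈ S := S.min'_mem hne
    have hm' := hm
    rw [hS, mem_filter, mem_Icc] at hm'
    obtain ⟨⟨h1, h2⟩, h3⟩ := hm'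
    have hsub : S ⊆ (Icc (0 : ℤ) ((hi - lo) / d)).image (fun k => t0 + k * d) := by
      intro t ht
      have h4 : t0 ≤ t := S.min'_le t ht
      rw [hS, mem_filter, mem_Icc] at ht
      obtain ⟨⟨h5, h6⟩, h7⟩ := ht
      have h8 : (d : ℤ) ∣ t - t0 := by
        have := dvd_sub h7 h3
        rwa [show t - r - (t0 - r) = t - t0 by ring] at this
      obtain ⟨k, hk⟩ := h8
      rw [mem_image]
      refine ⟨k, ?_, ?_⟩
      · rw [mem_Icc]
        constructor
        · by_contra hneg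
          push Not at hneg
          have : (d : ℤ) * k < 0 := mul_neg_of_pos_of_neg hd0 hneg
          omega
        · rw [Int.le_ediv_iff_mul_le hd0]
          have : k * (d : ℤ) = d * k := mul_comm _ _
          omega
      · have : k * (d : ℤ) = d * k := mul_comm _ _
        omega
    have hc := le_trans (card_le_card hsub) card_image_le
    rw [Int.card_Icc] at hc
    have h9 : (0 : ℤ) ≤ (hi - lo) / d := Int.ediv_nonneg (by omega) (by omega)
    have h10 : (S.card : ℤ) ≤ (hi - lo) / d + 1 := by omega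
    have h11 : (d : ℤ) * ((hi - lo) / d) ≤ hi - lo := Int.mul_ediv_self_le (by omega)
    have h12 : (((hi - lo) / (d : ℤ) : ℤ) : ℝ) ≤ ((hi : ℝ) - lo) / d := by
      rw [le_div_iff₀ hdR]
      have h13 : (((d : ℤ) * ((hi - lo) / d) : ℤ) : ℝ) ≤ ((hi - lo : ℤ) : ℝ) := by
        exact_mod_cast h11
      push_cast at h13 ⊢
      linarith
    have h14 : ((S.card : ℤ) : ℝ) ≤ (((hi - lo) / (d : ℤ) : ℤ) : ℝ) + 1 := by
      exact_mod_cast h10
    have h15 : ((S.card : ℤ) : ℝ) = (S.card : ℝ) := by push_cast; rfl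
    linarith

/-- the number of points of the class of `x` to the right of `x` -/
lemma card_class_right {x hi : ℤ} {d : ℕ} (hd : 1 ≤ d) (hle : x ≤ hi) :
    ((((Ioc x hi).filter (fun t => (d : ℤ) ∣ t - x)).card : ℕ) : ℝ) ≤
      ((hi : ℝ) - x) / d := by
  have hd0 : (0 : ℤ) < d := by omega
  have hdR : (0 : ℝ) < d := by exact_mod_cast hd
  have hsub : (Ioc x hi).filter (fun t => (d : ℤ) ∣ t - x) ⊆
      (Icc (1 : ℤ) ((hi - x) / d)).image (fun k => x + k * d) := by
    intro t ht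
    rw [mem_filter, mem_Ioc] at ht
    obtain ⟨⟨h5, h6⟩, k, hk⟩ := ht
    rw [mem_image]
    refine ⟨k, ?_, ?_⟩
    · rw [mem_Icc]
      constructor
      · by_contra hneg
        push Not at hneg
        have : (d : ℤ) * k ≤ 0 := mul_nonpos_of_nonneg_of_nonpos hd0.le (by omega)
        omega
      · rw [Int.le_ediv_iff_mul_le hd0]
        have : k * (d : ℤ) = d * k := mul_comm _ _
        omega
    · have : k * (d : ℤ) = d * k := mul_comm _ _
      omega
  have hc := le_trans (card_le_card hsub) card_image_le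
  rw [Int.card_Icc] at hc
  have h9 : (0 : ℤ) ≤ (hi - x) / d := Int.ediv_nonneg (by omega) (by omega)
  set n := ((Ioc x hi).filter (fun t => (d : ℤ) ∣ t - x)).card with hn
  have h10 : (n : ℤ) ≤ (hi - x) / d := by omega
  have h11 : (d : ℤ) * ((hi - x) / d) ≤ hi - x := Int.mul_ediv_self_le (by omega)
  rw [le_div_iff₀ hdR]
  have h13 : (((d : ℤ) * ((hi - x) / d) : ℤ) : ℝ) ≤ ((hi - x : ℤ) : ℝ) := by
    exact_mod_cast h11
  have h14 : ((n : ℤ) : ℝ) ≤ (((hi - x) / (d : ℤ) : ℤ) : ℝ) := by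
    exact_mod_cast h10
  push_cast at h13 h14 ⊢
  nlinarith

lemma harmonic_real (n : ℕ) : ∑ d ∈ Icc 1 n, (1 : ℝ) / (d : ℝ) ≤ 1 + Real.log n := by
  have h1 := harmonic_le_one_add_log n
  rw [harmonic_eq_sum_Icc] at h1
  push_cast at h1
  refine le_trans (le_of_eq ?_) h1
  apply sum_congr rfl
  intro d _
  rw [one_div]

lemma sum_div_le (N : ℕ) : ∑ d ∈ Icc 1 N, (((N / d : ℕ) : ℕ) : ℝ) ≤ N * (1 + Real.log N) := by
  calc ∑ d ∈ Icc 1 N, (((N / d : ℕ) : ℕ) : ℝ) ≤ ∑ d ∈ Icc 1 N, (N : ℝ) * (1 / (d : ℝ)) := by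
        apply sum_le_sum
        intro d _
        rw [mul_one_div]
        exact Nat.cast_div_le
    _ = N * ∑ d ∈ Icc 1 N, (1 : ℝ) / (d : ℝ) := by rw [mul_sum]
    _ ≤ N * (1 + Real.log N) := mul_le_mul_of_nonneg_left (harmonic_real N) (Nat.cast_nonneg _)

/-- the shape of a progression through `x` -/
lemma exists_seg' {N : ℕ} {x : ℤ} {P : Finset ℤ} (hP : IsAP P) (hx : x ∈ P)
    (hN : P ⊆ Icc (1 : ℤ) N) :
    ∃ d : ℕ, 1 ≤ d ∧ ∃ i j : ℕ, P = seg x d i j ∧ (i : ℤ) * d < N ∧ (j : ℤ) * d < N := by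
  obtain ⟨a, d, b, hd, hab, hdvd, h⟩ := (isAP_iff P).1 hP
  obtain ⟨⟨i, hi⟩, hax, hxb⟩ := (h x).1 hx
  have hbx : d ∣ b - x := by
    have : b - x = (b - a) - (x - a) := by ring
    rw [this]
    exact dvd_sub hdvd ⟨i, hi⟩
  obtain ⟨j, hj⟩ := hbx
  have haP : a ∈ P := (h a).2 ⟨by simp, le_refl _, hab⟩
  have hbP : b ∈ P := (h b).2 ⟨hdvd, hab, le_refl _⟩
  have haN := mem_Icc.1 (hN haP)
  have hbN := mem_Icc.1 (hN hbP)
  have hi0 : 0 ≤ i := by
    by_contra hneg
    push Not at hneg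
    have : d * i < 0 := mul_neg_of_pos_of_neg (by omega) hneg
    omega
  have hj0 : 0 ≤ j := by
    by_contra hneg
    push Not at hneg
    have : d * j < 0 := mul_neg_of_pos_of_neg (by omega) hneg
    omega
  have hPseg : P = (Icc (-i) j).image (fun k => x + k * d) := by
    ext t
    rw [h t]
    simp only [mem_image, mem_Icc]
    constructor
    · rintro ⟨⟨k, hk⟩, h1, h2⟩
      refine ⟨k - i, ⟨?_, ?_⟩, ?_⟩
      · by_contra hneg
        push Not at hneg
        have : d * k < 0 := mul_neg_of_pos_of_neg (by omega) (by omega)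
        omega
      · by_contra hneg
        push Not at hneg
        have h3 : d * (j + i) < d * k := mul_lt_mul_of_pos_left (by omega) (by omega)
        have h4 : d * (j + i) = d * j + d * i := by ring
        omega
      · have h4 : (k - i) * d = d * k - d * i := by ring
        omega
    · rintro ⟨k, ⟨h1, h2⟩, h3⟩
      have h5 : 0 ≤ d * (k + i) := mul_nonneg (by omega) (by omega)
      have h6 : d * (k + i) = d * k + d * i := by ring
      have h7 : k * d = d * k := by ring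
      have h8 : d * k ≤ d * j := mul_le_mul_of_nonneg_left h2 (by omega)
      refine ⟨⟨k + i, by omega⟩, by omega, by omega⟩
  refine ⟨d.toNat, by omega, i.toNat, j.toNat, ?_, ?_, ?_⟩
  · rw [hPseg, seg, Int.toNat_of_nonneg hi0, Int.toNat_of_nonneg hj0,
      Int.toNat_of_nonneg (by omega : (0 : ℤ) ≤ d)]
  · rw [Int.toNat_of_nonneg hi0, Int.toNat_of_nonneg (by omega : (0 : ℤ) ≤ d), mul_comm]
    omega
  · rw [Int.toNat_of_nonneg hj0, Int.toNat_of_nonneg (by omega : (0 : ℤ) ≤ d), mul_comm]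
    omega

lemma inter_nonempty {N : ℕ} {F : Finset (Finset ℤ)} (hF : Admissible N F) {A B : Finset ℤ}
    (hA : A ∈ F) (hB : B ∈ F) (hne : A ≠ B) : ∃ t, t ∈ A ∧ t ∈ B := by
  obtain ⟨t, ht⟩ := (hF.2 A hA B hB hne).nonempty
  rw [mem_inter] at ht
  exact ⟨t, ht⟩

end Scale

open Classical in
/-- two-sided members through `x` with difference `d` -/
noncomputable def Rd (N : ℕ) (F : Finset (Finset ℤ)) (x : ℤ) (d : ℕ) : Finset (ℕ × ℕ) :=
  ((Icc 1 N) ×ˢ (Icc 1 N)).filter (fun p => seg x d p.1 p.2 ∈ F)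

open Classical in
/-- members with difference `d` (at least two elements) missing `x` -/
noncomputable def Gd (F : Finset (Finset ℤ)) (x : ℤ) (d : ℕ) : Finset (Finset ℤ) :=
  F.filter (fun B => x ∉ B ∧ ∃ c e : ℤ, c < e ∧ (d : ℤ) ∣ e - c ∧ B = apSet d c e)

/-- some member with difference `d` missing `x` avoids the class of `x` -/
def D1 (F : Finset (Finset ℤ)) (x : ℤ) (d : ℕ) : Prop :=
  ∃ B ∈ Gd F x d, ∀ t ∈ B, ¬ (d : ℤ) ∣ t - x

open Classical in
theorem card_through {N : ℕ} {F : Finset (Finset ℤ)} (hF : Admissible N F) {x : ℤ}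
    (hx : x ∈ Icc (1 : ℤ) N) :
    ((F.filter (fun A => x ∈ A ∧ IsAP A)).card : ℝ) ≤
      (∑ d ∈ Icc 1 N, ((Rd N F x d).card : ℝ)) + 2 * N * (1 + Real.log N) + 1 := by
  have hN1 : 1 ≤ N := by
    have := mem_Icc.1 hx
    omega
  have hsub : F.filter (fun A => x ∈ A ∧ IsAP A) ⊆
      ((Icc 1 N).biUnion (fun d => (Rd N F x d).image (fun p => seg x d p.1 p.2)) ∪
        {seg x 1 0 0}) ∪
      ((Icc 1 N).biUnion (fun d => (Icc 1 (N / d)).image (fun j => seg x d 0 j)) ∪
      (Icc 1 N).biUnion (fun d => (Icc 1 (N / d)).image (fun i => seg x d i 0))) := by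
    intro A hA
    rw [mem_filter] at hA
    obtain ⟨hAF, hxA, hAP⟩ := hA
    obtain ⟨d, hd, i, j, rfl, hi, hj⟩ := Scale.exists_seg' hAP hxA (hF.1 A hAF)
    have hi' : i * d < N := by exact_mod_cast hi
    have hj' : j * d < N := by exact_mod_cast hj
    rcases Nat.eq_zero_or_pos i with hi0 | hi0
    · subst hi0
      rcases Nat.eq_zero_or_pos j with hj0 | hj0
      · subst hj0
        apply mem_union_left
        apply mem_union_right
        rw [mem_singleton]
        ext t
        rw [mem_seg, mem_seg]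
        constructor
        · rintro ⟨k, h1, h2, h3⟩
          have : k = 0 := by
            push_cast at h1 h2
            omega
          subst this
          exact ⟨0, by simp, by simp, by simpa using h3⟩
        · rintro ⟨k, h1, h2, h3⟩
          have : k = 0 := by
            push_cast at h1 h2
            omega
          subst this
          exact ⟨0, by simp, by simp, by simpa using h3⟩
      · apply mem_union_right
        apply mem_union_left
        rw [mem_biUnion]
        refine ⟨d, ?_, ?_⟩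
        · rw [mem_Icc]
          refine ⟨hd, ?_⟩
          have := Nat.le_mul_of_pos_left d hj0
          omega
        · rw [mem_image]
          refine ⟨j, ?_, rfl⟩
          rw [mem_Icc]
          exact ⟨hj0, (Nat.le_div_iff_mul_le hd).2 hj'.le⟩
    · rcases Nat.eq_zero_or_pos j with hj0 | hj0
      · subst hj0
        apply mem_union_right
        apply mem_union_right
        rw [mem_biUnion]
        refine ⟨d, ?_, ?_⟩
        · rw [mem_Icc]
          refine ⟨hd, ?_⟩
          have := Nat.le_mul_of_pos_left d hi0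
          omega
        · rw [mem_image]
          refine ⟨i, ?_, rfl⟩
          rw [mem_Icc]
          exact ⟨hi0, (Nat.le_div_iff_mul_le hd).2 hi'.le⟩
      · apply mem_union_left
        apply mem_union_left
        rw [mem_biUnion]
        refine ⟨d, ?_, ?_⟩
        · rw [mem_Icc]
          refine ⟨hd, ?_⟩
          have := Nat.le_mul_of_pos_left d hj0
          omega
        · rw [mem_image]
          refine ⟨(i, j), ?_, rfl⟩
          rw [Rd, mem_filter, mem_product, mem_Icc, mem_Icc]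
          have h1 := Nat.le_mul_of_pos_right i hd
          have h2 := Nat.le_mul_of_pos_right j hd
          exact ⟨⟨⟨hi0, by omega⟩, hj0, by omega⟩, hAF⟩
  have h1 := card_le_card hsub
  have h2 : ((Icc 1 N).biUnion (fun d => (Rd N F x d).image (fun p => seg x d p.1 p.2))).card ≤
      ∑ d ∈ Icc 1 N, (Rd N F x d).card :=
    le_trans card_biUnion_le (sum_le_sum fun d _ => card_image_le)
  have h3 : ((Icc 1 N).biUnion (fun d => (Icc 1 (N / d)).image (fun j => seg x d 0 j))).card ≤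
      ∑ d ∈ Icc 1 N, N / d := by
    refine le_trans card_biUnion_le (sum_le_sum fun d _ => ?_)
    refine le_trans card_image_le (le_of_eq ?_)
    rw [Nat.card_Icc, Nat.add_sub_cancel]
  have h4 : ((Icc 1 N).biUnion (fun d => (Icc 1 (N / d)).image (fun i => seg x d i 0))).card ≤
      ∑ d ∈ Icc 1 N, N / d := by
    refine le_trans card_biUnion_le (sum_le_sum fun d _ => ?_)
    refine le_trans card_image_le (le_of_eq ?_)
    rw [Nat.card_Icc, Nat.add_sub_cancel]
  have h5 : (F.filter (fun A => x ∈ A ∧ IsAP A)).card ≤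
      ((∑ d ∈ Icc 1 N, (Rd N F x d).card) + 1) + (∑ d ∈ Icc 1 N, N / d + ∑ d ∈ Icc 1 N, N / d) := by
    refine le_trans h1 (le_trans (card_union_le _ _) (add_le_add ?_ ?_))
    · refine le_trans (card_union_le _ _) (add_le_add h2 ?_)
      rw [card_singleton]
    · exact le_trans (card_union_le _ _) (add_le_add h3 h4)
  have h6 := Scale.sum_div_le N
  have h7 : ((F.filter (fun A => x ∈ A ∧ IsAP A)).card : ℝ) ≤
      ((∑ d ∈ Icc 1 N, ((Rd N F x d).card : ℝ)) + 1) +
        (∑ d ∈ Icc 1 N, (((N / d : ℕ) : ℕ) : ℝ) + ∑ d ∈ Icc 1 N, (((N / d : ℕ) : ℕ) : ℝ)) := by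
    exact_mod_cast h5
  linarith

open Classical in
theorem card_ap_missing {N : ℕ} {F : Finset (Finset ℤ)} (hF : Admissible N F) {x : ℤ} :
    (F.filter (fun A => IsAP A ∧ x ∉ A)).card ≤ (∑ d ∈ Icc 1 N, (Gd F x d).card) + N := by
  have hsub : F.filter (fun A => IsAP A ∧ x ∉ A) ⊆
      ((Icc 1 N).biUnion (fun d => Gd F x d)) ∪ (Icc (1 : ℤ) N).image (fun t => apSet 1 t t) := by
    intro A hA
    rw [mem_filter] at hA
    obtain ⟨hAF, hAP, hxA⟩ := hA
    obtain ⟨d, a, b, hd, hab, hdvd, rfl⟩ := (isAP_iff_apSet A).1 hAP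
    have ha : a ∈ apSet d a b := mem_apSet.2 ⟨⟨le_refl _, hab⟩, by simp⟩
    have hb : b ∈ apSet d a b := mem_apSet.2 ⟨⟨hab, le_refl _⟩, hdvd⟩
    have haN := mem_Icc.1 (hF.1 _ hAF ha)
    have hbN := mem_Icc.1 (hF.1 _ hAF hb)
    rcases hab.lt_or_eq with h | h
    · apply mem_union_left
      rw [mem_biUnion]
      have hdN : d ≤ b - a := Int.le_of_dvd (by omega) hdvd
      have hdd : ((d.toNat : ℕ) : ℤ) = d := Int.toNat_of_nonneg (by omega)
      refine ⟨d.toNat, ?_, ?_⟩
      · rw [mem_Icc]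
        omega
      · rw [Gd, mem_filter]
        refine ⟨hAF, hxA, a, b, h, ?_, ?_⟩
        · rw [hdd]; exact hdvd
        · rw [hdd]
    · apply mem_union_right
      rw [mem_image]
      subst h
      refine ⟨a, mem_Icc.2 haN, ?_⟩
      ext t
      rw [mem_apSet, mem_apSet]
      constructor
      · rintro ⟨⟨h1, h2⟩, _⟩
        have : t = a := by omega
        subst this
        exact ⟨⟨h1, h2⟩, by simp⟩
      · rintro ⟨⟨h1, h2⟩, _⟩
        have : t = a := by omega
        subst this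
        exact ⟨⟨h1, h2⟩, by simp⟩
  refine le_trans (card_le_card hsub) (le_trans (card_union_le _ _) (add_le_add ?_ ?_))
  · exact card_biUnion_le
  · refine le_trans card_image_le ?_
    rw [Int.card_Icc]
    omega

theorem card_Gd {N : ℕ} {F : Finset (Finset ℤ)} {x a b : ℤ} (h : Hull N F x a b) {d : ℕ}
    (hd : 1 ≤ d) : ((Gd F x d).card : ℝ) ≤
      (((a : ℝ) - 1) / d + 1) * (((N : ℝ) - b) / d + 1) := by
  classical
  have hd0 : (1 : ℤ) ≤ d := by exact_mod_cast hd
  have haN := mem_Icc.1 h.ha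
  have hbN := mem_Icc.1 h.hb
  rcases (Gd F x d).eq_empty_or_nonempty with h0 | ⟨B0, hB0⟩
  · rw [h0, card_empty]
    have hdR : (0 : ℝ) < d := by exact_mod_cast hd
    have h1 : (0 : ℝ) ≤ (a : ℝ) - 1 := by
      have : (1 : ℝ) ≤ a := by exact_mod_cast haN.1
      linarith
    have h2 : (0 : ℝ) ≤ (N : ℝ) - b := by
      have : (b : ℝ) ≤ N := by exact_mod_cast hbN.2
      linarith
    have := div_nonneg h1 hdR.le
    have := div_nonneg h2 hdR.le
    push_cast
    positivity
  rw [Gd, mem_filter] at hB0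
  obtain ⟨hB0F, hxB0, c0, e0, hce0, hdvd0, rfl⟩ := hB0
  have hsub : Gd F x d ⊆
      (((Icc 1 a).filter (fun t => (d : ℤ) ∣ t - c0)) ×ˢ
        ((Icc b (N : ℤ)).filter (fun t => (d : ℤ) ∣ t - c0))).image
        (fun p => apSet d p.1 p.2) := by
    intro B hB
    rw [Gd, mem_filter] at hB
    obtain ⟨hBF, hxB, c, e, hce, hdvd, rfl⟩ := hB
    have hc : c ∈ apSet d c e := mem_apSet.2 ⟨⟨le_refl _, hce.le⟩, by simp⟩
    have he : e ∈ apSet d c e := mem_apSet.2 ⟨⟨hce.le, le_refl _⟩, hdvd⟩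
    have hcN := mem_Icc.1 (h.adm.1 _ hBF hc)
    have heN := mem_Icc.1 (h.adm.1 _ hBF he)
    obtain ⟨t, ht, hta⟩ := h.low _ hBF (isAP_apSet hd0 hce.le) hxB
    obtain ⟨s, hs, hsb⟩ := h.high _ hBF (isAP_apSet hd0 hce.le) hxB
    rw [mem_apSet] at ht hs
    have hcc : (d : ℤ) ∣ c - c0 := by
      by_cases heq : apSet (d : ℤ) c e = apSet (d : ℤ) c0 e0
      · rw [heq, mem_apSet] at hc
        exact hc.2
      · obtain ⟨u, hu1, hu2⟩ := Scale.inter_nonempty h.adm hBF hB0F heq
        rw [mem_apSet] at hu1 hu2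
        have := dvd_sub hu2.2 hu1.2
        rwa [show u - c0 - (u - c) = c - c0 by ring] at this
    rw [mem_image]
    refine ⟨(c, e), ?_, rfl⟩
    rw [mem_product, mem_filter, mem_filter, mem_Icc, mem_Icc]
    refine ⟨⟨⟨hcN.1, by omega⟩, hcc⟩, ⟨by omega, heN.2⟩, ?_⟩
    have := dvd_add hdvd hcc
    rwa [show e - c + (c - c0) = e - c0 by ring] at this
  have h1 := le_trans (card_le_card hsub) card_image_le
  rw [card_product] at h1
  have h2 := Scale.card_class_le (lo := 1) (hi := a) (r := c0) hd haN.1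
  have h3 := Scale.card_class_le (lo := b) (hi := N) (r := c0) hd hbN.2
  have h4 : ((Gd F x d).card : ℝ) ≤
      ((((Icc 1 a).filter (fun t => (d : ℤ) ∣ t - c0)).card : ℕ) : ℝ) *
        ((((Icc b (N : ℤ)).filter (fun t => (d : ℤ) ∣ t - c0)).card : ℕ) : ℝ) := by
    exact_mod_cast h1
  refine le_trans h4 ?_
  push_cast at h2 h3
  exact mul_le_mul h2 h3 (Nat.cast_nonneg _) (le_trans (Nat.cast_nonneg _) h2)

namespace Scale

lemma Gd_shape {N : ℕ} {F : Finset (Finset ℤ)} {x a b : ℤ} (h : Hull N F x a b)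
    {d : ℕ} (hd : 1 ≤ d) (hD : ¬ D1 F x d) {B : Finset ℤ} (hB : B ∈ Gd F x d) :
    ∃ c e : ℤ, x < c ∧ c ≤ a ∧ b ≤ e ∧ e ≤ N ∧ (d : ℤ) ∣ c - x ∧ (d : ℤ) ∣ e - x ∧
      B = apSet d c e := by
  classical
  have hd0 : (1 : ℤ) ≤ d := by exact_mod_cast hd
  have hBD : ∃ t ∈ B, (d : ℤ) ∣ t - x := by
    by_contra hcon
    push Not at hcon
    exact hD ⟨B, hB, hcon⟩
  rw [Gd, mem_filter] at hB
  obtain ⟨hBF, hxB, c, e, hce, hdvd, rfl⟩ := hB
  obtain ⟨u, hu, hux⟩ := hBD
  have he : e ∈ apSet d c e := mem_apSet.2 ⟨⟨hce.le, le_refl _⟩, hdvd⟩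
  have heN := mem_Icc.1 (h.adm.1 _ hBF he)
  obtain ⟨t, ht, hta⟩ := h.low _ hBF (isAP_apSet hd0 hce.le) hxB
  obtain ⟨s, hs, hsb⟩ := h.high _ hBF (isAP_apSet hd0 hce.le) hxB
  rw [mem_apSet] at ht hs hu
  have hxb := h.xb
  have hcx : (d : ℤ) ∣ c - x := by
    have := dvd_sub hux hu.2
    rwa [show u - x - (u - c) = c - x by ring] at this
  have hxc : x < c := by
    by_contra hcon
    push Not at hcon
    apply hxB
    rw [mem_apSet]
    refine ⟨⟨hcon, by omega⟩, ?_⟩
    rw [← dvd_neg, neg_sub]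
    exact hcx
  refine ⟨c, e, hxc, by omega, by omega, heN.2, hcx, ?_, rfl⟩
  have := dvd_add hdvd hcx
  rwa [show e - c + (c - x) = e - x by ring] at this

end Scale

theorem card_Gd_of_not_D1 {N : ℕ} {F : Finset (Finset ℤ)} {x a b : ℤ} (h : Hull N F x a b)
    {d : ℕ} (hd : 1 ≤ d) (hD : ¬ D1 F x d) (hxa : x ≤ a) : ((Gd F x d).card : ℝ) ≤
      (((a : ℝ) - x) / d) * (((N : ℝ) - b) / d + 1) := by
  classical
  have hbN := mem_Icc.1 h.hb
  have hsub : Gd F x d ⊆
      (((Ioc x a).filter (fun t => (d : ℤ) ∣ t - x)) ×ˢ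
        ((Icc b (N : ℤ)).filter (fun t => (d : ℤ) ∣ t - x))).image
        (fun p => apSet d p.1 p.2) := by
    intro B hB
    obtain ⟨c, e, h1, h2, h3, h4, h5, h6, rfl⟩ := Scale.Gd_shape h hd hD hB
    rw [mem_image]
    refine ⟨(c, e), ?_, rfl⟩
    rw [mem_product, mem_filter, mem_filter, mem_Icc, mem_Ioc]
    exact ⟨⟨⟨h1, h2⟩, h5⟩, ⟨h3, h4⟩, h6⟩
  have h1 := le_trans (card_le_card hsub) card_image_le
  rw [card_product] at h1
  have h2 := Scale.card_class_right (x := x) (hi := a) hd hxa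
  have h3 := Scale.card_class_le (lo := b) (hi := N) (r := x) hd hbN.2
  have h4 : ((Gd F x d).card : ℝ) ≤
      ((((Ioc x a).filter (fun t => (d : ℤ) ∣ t - x)).card : ℕ) : ℝ) *
        ((((Icc b (N : ℤ)).filter (fun t => (d : ℤ) ∣ t - x)).card : ℕ) : ℝ) := by
    exact_mod_cast h1
  refine le_trans h4 ?_
  push_cast at h2 h3
  exact mul_le_mul h2 h3 (Nat.cast_nonneg _) (le_trans (Nat.cast_nonneg _) h2)

theorem Gd_eq_empty {N : ℕ} {F : Finset (Finset ℤ)} {x a b : ℤ} (h : Hull N F x a b)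
    {d : ℕ} (hd : 1 ≤ d) (hD : ¬ D1 F x d) (hxa : a ≤ x) : Gd F x d = ∅ := by
  rw [eq_empty_iff_forall_notMem]
  intro B hB
  obtain ⟨c, e, h1, h2, _⟩ := Scale.Gd_shape h hd hD hB
  omega

theorem not_D1_one (F : Finset (Finset ℤ)) (x : ℤ) : ¬ D1 F x 1 := by
  classical
  rintro ⟨B, hB, h⟩
  rw [Gd, mem_filter] at hB
  obtain ⟨_, _, c, e, hce, hdvd, rfl⟩ := hB
  apply h c
  · exact mem_apSet.2 ⟨⟨le_refl _, hce.le⟩, by simp⟩
  · simp

theorem Rd_eq_empty {N : ℕ} {F : Finset (Finset ℤ)} (hF : Admissible N F) {x : ℤ} {d d' : ℕ}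
    (hD : D1 F x d) (hdd : d ∣ d') : Rd N F x d' = ∅ := by
  classical
  rw [eq_empty_iff_forall_notMem]
  rintro ⟨i, j⟩ hp
  rw [Rd, mem_filter] at hp
  have hseg : seg x d' i j ∈ F := hp.2
  obtain ⟨B, hB, h⟩ := hD
  rw [Gd, mem_filter] at hB
  obtain ⟨hBF, hxB, _⟩ := hB
  have hne : seg x d' i j ≠ B := by
    rintro rfl
    exact hxB (self_mem_seg _ _ _ _)
  obtain ⟨t, ht1, ht2⟩ := Scale.inter_nonempty hF hseg hBF hne
  apply h t ht2
  rw [mem_seg] at ht1
  obtain ⟨k, _, _, rfl⟩ := ht1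
  rw [show x + k * (d' : ℤ) - x = k * d' by ring]
  exact dvd_mul_of_dvd_right (Int.natCast_dvd_natCast.2 hdd) _

/-- members through `x` reach `a` -/
theorem le_of_mem_Rd {N : ℕ} {F : Finset (Finset ℤ)} {x a b : ℤ} (h : Hull N F x a b)
    {d i j : ℕ} (hR : (i, j) ∈ Rd N F x d) : a ≤ x + j * d := by
  rw [Rd, mem_filter] at hR
  have hseg : seg x d i j ∈ F := hR.2
  obtain ⟨B, hBF, _, hxB, hB⟩ := h.att_low
  have hne : seg x d i j ≠ B := by
    rintro rfl
    exact hxB (self_mem_seg _ _ _ _)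
  obtain ⟨t, ht1, ht2⟩ := Scale.inter_nonempty h.adm hseg hBF hne
  have h1 := hB t ht2
  rw [mem_seg] at ht1
  obtain ⟨k, h2, h3, rfl⟩ := ht1
  have h4 : k * (d : ℤ) ≤ j * d := mul_le_mul_of_nonneg_right h3 (by omega)
  omega

/-- labels of different scales are different -/
theorem card_labels (D : Finset ℕ) (hD : ∀ d ∈ D, 1 ≤ d) (x : ℤ) (S : ℕ → Finset (ℤ × ℤ))
    (κ : ℕ → ℕ) (hκ : ∀ d ∈ D, ∀ p ∈ S d, κ (Int.gcd p.1 p.2 * d) = d) :
    (D.biUnion (fun d => (S d).image
      (fun p => ((x + p.1 * d, x + p.2 * d) : ℤ × ℤ)))).card = ∑ d ∈ D, (S d).card := by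
  have hgcd : ∀ d : ℕ, ∀ p : ℤ × ℤ, Int.gcd (x + p.1 * d - x) (x + p.2 * d - x) =
      Int.gcd p.1 p.2 * d := by
    intro d p
    rw [show x + p.1 * (d : ℤ) - x = p.1 * d by ring, show x + p.2 * (d : ℤ) - x = p.2 * d by ring,
      Int.gcd_mul_right, Int.natAbs_natCast]
  rw [card_biUnion]
  · apply sum_congr rfl
    intro d hd
    apply card_image_of_injective
    rintro ⟨p1, p2⟩ ⟨q1, q2⟩ hpq
    simp only [Prod.mk.injEq] at hpq ⊢
    obtain ⟨h1, h2⟩ := hpq
    have hd0 : (0 : ℤ) < d := by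
      have := hD d hd
      omega
    constructor
    · have h3 : (p1 - q1) * (d : ℤ) = 0 := by
        have : (p1 - q1) * (d : ℤ) = p1 * d - q1 * d := by ring
        omega
      rcases mul_eq_zero.1 h3 with h4 | h4 <;> omega
    · have h3 : (p2 - q2) * (d : ℤ) = 0 := by
        have : (p2 - q2) * (d : ℤ) = p2 * d - q2 * d := by ring
        omega
      rcases mul_eq_zero.1 h3 with h4 | h4 <;> omega
  · intro d hd d' hd' hne
    rw [Function.onFun, disjoint_left]
    intro p hp hp'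
    rw [mem_image] at hp hp'
    obtain ⟨q, hq, rfl⟩ := hp
    obtain ⟨q', hq', heq⟩ := hp'
    apply hne
    have e1 := hgcd d q
    have e2 := hgcd d' q'
    rw [Prod.mk.injEq] at heq
    rw [heq.1, heq.2, e1] at e2
    rw [← hκ d hd q hq, ← hκ d' hd' q' hq', e2]

open Classical in
/-- intervals missing `x` -/
theorem card_Tl {N : ℕ} {F : Finset (Finset ℤ)} {x a b : ℤ} (h : Hull N F x a b) :
    (Gd F x 1).card ≤ ((prs N x).filter (fun p => Tl F x p)).card + 4 * N := by
  have hI : ∀ c e : ℤ, apSet ((1 : ℕ) : ℤ) c e = Icc c e := by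
    intro c e
    ext t
    rw [mem_apSet, mem_Icc]
    simp
  have hsub : Gd F x 1 ⊆
      ((prs N x).filter (fun p => Tl F x p)).image (fun p => Icc (p.1 + 1) (p.2 - 1)) ∪
      (((Icc (1 : ℤ) N).image (fun e => Icc 1 e) ∪ (Icc (1 : ℤ) N).image (fun c => Icc c (N : ℤ))) ∪
      ((Icc (1 : ℤ) N).image (fun e => Icc (x + 1) e) ∪
        (Icc (1 : ℤ) N).image (fun c => Icc c (x - 1)))) := by
    intro B hB
    rw [Gd, mem_filter] at hB
    obtain ⟨hBF, hxB, c, e, hce, _, rfl⟩ := hB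
    rw [hI] at hBF hxB ⊢
    have hcN := mem_Icc.1 (h.adm.1 _ hBF (left_mem_Icc.2 hce.le))
    have heN := mem_Icc.1 (h.adm.1 _ hBF (right_mem_Icc.2 hce.le))
    by_cases h1 : c = 1
    · subst h1
      apply mem_union_right
      apply mem_union_left
      apply mem_union_left
      exact mem_image.2 ⟨e, mem_Icc.2 heN, rfl⟩
    by_cases h2 : e = N
    · subst h2
      apply mem_union_right
      apply mem_union_left
      apply mem_union_right
      exact mem_image.2 ⟨c, mem_Icc.2 hcN, rfl⟩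
    by_cases h3 : c = x + 1
    · subst h3
      apply mem_union_right
      apply mem_union_right
      apply mem_union_left
      exact mem_image.2 ⟨e, mem_Icc.2 heN, rfl⟩
    by_cases h4 : e = x - 1
    · subst h4
      apply mem_union_right
      apply mem_union_right
      apply mem_union_right
      exact mem_image.2 ⟨c, mem_Icc.2 hcN, rfl⟩
    apply mem_union_left
    rw [mem_image]
    refine ⟨(c - 1, e + 1), ?_, ?_⟩
    · rw [mem_filter, mem_prs]
      simp only [Tl]
      rw [show c - 1 + 1 = c by ring, show e + 1 - 1 = e by ring]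
      exact ⟨⟨⟨by omega, by omega, by omega⟩, ⟨by omega, by omega, by omega⟩, by omega⟩,
        hce.le, hBF, hxB⟩
    · simp only
      rw [show c - 1 + 1 = c by ring, show e + 1 - 1 = e by ring]
  have hc : ∀ f : ℤ → Finset ℤ, ((Icc (1 : ℤ) N).image f).card ≤ N := by
    intro f
    refine le_trans card_image_le ?_
    rw [Int.card_Icc]
    omega
  have h1 := card_le_card hsub
  have h2 : (((prs N x).filter (fun p => Tl F x p)).image
      (fun p => Icc (p.1 + 1) (p.2 - 1))).card ≤ ((prs N x).filter (fun p => Tl F x p)).card :=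
    card_image_le
  have h3 := hc (fun e => Icc 1 e)
  have h4 := hc (fun c => Icc c (N : ℤ))
  have h5 := hc (fun e => Icc (x + 1) e)
  have h6 := hc (fun c => Icc c (x - 1))
  have h7 := le_trans h1 (le_trans (card_union_le _ _) (add_le_add h2
    (le_trans (card_union_le _ _) (add_le_add
      (le_trans (card_union_le _ _) (add_le_add h3 h4))
      (le_trans (card_union_le _ _) (add_le_add h5 h6))))))
  omega

end Pool.Agent.APLarge
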