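import Pool.Agent.APLarge.Core
import Pool.Agent.APLarge.Rho
import Pool.Agent.APLarge.Pairs
import Pool.Agent.APLarge.Scale

/-!
MP_7a6934_co, package P8 (helper29): `om_bound` and `single_kill`.
-/

set_option autoImplicit false

namespace Pool.Agent.APLarge

open Finset Pool.Agent.APInt

namespace Single

open Classical in
/-- the labels below the members with difference `d` -/
lemma sum_cop_le {N : ℕ} {F : Finset (Finset ℤ)} (hF : Admissible N F) {x : ℤ} :
    ∑ d ∈ Icc 1 N, (cop (Rd N F x d)).card ≤ ((prs N x).filter (fun p => Oml F x p)).card := by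
  rw [← card_sigma]
  apply card_le_card_of_injOn
    (fun q : (Σ _ : ℕ, ℤ × ℤ) => (x + q.2.1 * q.1, x + q.2.2 * q.1))
  · rintro ⟨d, a, b⟩ hq
    rw [mem_coe, mem_sigma] at hq
    obtain ⟨hd, hab⟩ := hq
    have hd' : 1 ≤ d ∧ d ≤ N := mem_Icc.1 hd
    obtain ⟨h1, h2, h3, h4, ⟨i, j⟩, hp, h5, h6⟩ := mem_cop hab
    simp only at h5 h6
    have hp' := hp
    simp only [Rd, mem_filter, mem_product] at hp'
    obtain ⟨_, hPF⟩ := hp'
    have hya : x + a * d ∈ seg x d i j := mem_seg.2 ⟨a, h5, by omega, rfl⟩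
    have hyb : x + b * d ∈ seg x d i j := mem_seg.2 ⟨b, by omega, h6, rfl⟩
    have hd0 : (0 : ℤ) < d := by omega
    have hane : a * d ≠ 0 := mul_ne_zero h2 (by omega)
    have hbne : b * d ≠ 0 := mul_ne_zero h3 (by omega)
    have hlt : a * d < b * d := mul_lt_mul_of_pos_right h1 hd0
    have hya' := mem_Icc.1 (hF.1 _ hPF hya)
    have hyb' := mem_Icc.1 (hF.1 _ hPF hyb)
    change (x + a * d, x + b * d) ∈ (((prs N x).filter (fun p => Oml F x p) : Finset _) : Set (ℤ × ℤ))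
    rw [mem_coe, mem_filter, mem_prs]
    refine ⟨⟨⟨hya'.1, hya'.2, by omega⟩, ⟨hyb'.1, hyb'.2, by omega⟩, by omega⟩, ?_⟩
    exact ⟨seg x d i j, hPF, isAP_seg x hd'.1 i j, self_mem_seg x d i j, hya, hyb⟩
  · rintro ⟨d, a, b⟩ hq ⟨d', a', b'⟩ hq' heq
    rw [mem_coe, mem_sigma] at hq hq'
    obtain ⟨hd, hab⟩ := hq
    obtain ⟨hd', hab'⟩ := hq'
    have hd1 : 1 ≤ d := (mem_Icc.1 hd).1
    have hd1' : 1 ≤ d' := (mem_Icc.1 hd').1
    obtain ⟨_, _, _, hg, _⟩ := mem_cop hab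
    obtain ⟨_, _, _, hg', _⟩ := mem_cop hab'
    have heq' : (x + a * d, x + b * d) = (x + a' * d', x + b' * d') := heq
    simp only [Prod.mk.injEq] at heq'
    have e1 : a * d = a' * d' := by omega
    have e2 : b * d = b' * d' := by omega
    have g1 : Int.gcd (a * d) (b * d) = d := by
      rw [Int.gcd_mul_right, hg]; simp
    have g2 : Int.gcd (a' * d') (b' * d') = d' := by
      rw [Int.gcd_mul_right, hg']; simp
    have hdd : d = d' := by rw [← g1, ← g2, e1, e2]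
    subst hdd
    have hd0 : (d : ℤ) ≠ 0 := by omega
    have ha : a = a' := mul_right_cancel₀ hd0 e1
    have hb : b = b' := mul_right_cancel₀ hd0 e2
    rw [ha, hb]

lemma cpSet_ge (n : ℕ) (hn : 1 ≤ n) :
    0.27 * ((n : ℝ) - 1) ^ 2 - n * (4 + Real.log n) ≤ ((cpSet n).card : ℝ) := by
  have h := cp_pairs 1 n n le_rfl hn
  have e : cpSet n = (((Icc 1 n) ×ˢ (Icc 1 n)).filter
        (fun p : ℕ × ℕ => p.1 < p.2 ∧ Nat.Coprime p.1 p.2)) := by
    ext p
    simp only [cpSet, mem_filter, mem_product, mem_Ioc, mem_Icc]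
    constructor
    · rintro ⟨⟨h1, h2⟩, h3, h4⟩
      exact ⟨⟨⟨by omega, by omega⟩, ⟨by omega, by omega⟩⟩, h3, h4⟩
    · rintro ⟨⟨h1, h2⟩, h3, h4⟩
      exact ⟨⟨⟨by omega, by omega⟩, ⟨by omega, by omega⟩⟩, h3, h4⟩
  rw [e]
  refine le_trans (le_of_eq ?_) h
  rw [Nat.sub_self]
  push_cast
  ring

open Classical in
/-- the comparison for one difference -/
lemma per_d {N : ℕ} {F : Finset (Finset ℤ)} (hF : Admissible N F) {x : ℤ}
    {d : ℕ} (hd : 1 ≤ d) :
    1.05 * ((Rd N F x d).card : ℝ) ≤ ((cop (Rd N F x d)).card : ℝ) +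
      6 * N * (1 + Real.log N) * (1 / (d : ℝ)) := by
  set R := Rd N F x d with hR
  have hd0 : (0 : ℝ) < d := by exact_mod_cast hd
  rcases Nat.eq_zero_or_pos N with hN0 | hN1
  · have : R = ∅ := by
      rw [hR, Rd, hN0]
      simp
    rw [this]
    simp [hN0]
  have hlogN : 0 ≤ Real.log N := Real.log_natCast_nonneg N
  rcases R.eq_empty_or_nonempty with hRe | hRn
  · rw [hRe]
    simp only [card_empty, Nat.cast_zero, mul_zero]
    positivity
  set I := R.sup Prod.fst with hI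
  set J := R.sup Prod.snd with hJ
  obtain ⟨p1, hp1, hp1I⟩ := exists_fst hRn
  obtain ⟨p2, hp2, hp2J⟩ := exists_snd hRn
  have hle1 : ∀ p ∈ R, p.1 ≤ I := fun p hp => le_sup (f := Prod.fst) hp
  have hle2 : ∀ p ∈ R, p.2 ≤ J := fun p hp => le_sup (f := Prod.snd) hp
  have hmem : ∀ p ∈ R, 1 ≤ p.1 ∧ 1 ≤ p.2 ∧ seg x d p.1 p.2 ∈ F := by
    intro p hp
    rw [hR, Rd, mem_filter, mem_product, mem_Icc, mem_Icc] at hp
    exact ⟨hp.1.1.1, hp.1.2.1, hp.2⟩
  have hI1 : 1 ≤ I := (hmem p1 hp1).1.trans (hle1 p1 hp1)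
  have hJ1 : 1 ≤ J := (hmem p2 hp2).2.1.trans (hle2 p2 hp2)
  have hIJ : (I + J) * d ≤ N := by
    have h1 : x + (-(I : ℤ)) * d ∈ seg x d p1.1 p1.2 :=
      mem_seg.2 ⟨-(I : ℤ), by rw [hp1I], by omega, rfl⟩
    have h2 : x + (J : ℤ) * d ∈ seg x d p2.1 p2.2 :=
      mem_seg.2 ⟨(J : ℤ), by omega, by rw [hp2J], rfl⟩
    have h3 := mem_Icc.1 (hF.1 _ (hmem p1 hp1).2.2 h1)
    have h4 := mem_Icc.1 (hF.1 _ (hmem p2 hp2).2.2 h2)
    have h5 : (((I + J) * d : ℕ) : ℤ) ≤ N := by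
      push_cast
      have : ((I : ℤ) + J) * d = (x + (J : ℤ) * d) - (x + (-(I : ℤ)) * d) := by ring
      rw [this]
      omega
    exact_mod_cast h5
  have hIJ' : ((I : ℝ) + J) ≤ N * (1 / (d : ℝ)) := by
    rw [mul_one_div, le_div_iff₀ hd0]
    exact_mod_cast hIJ
  have hIN : I ≤ N := by nlinarith
  have hJN : J ≤ N := by nlinarith
  -- coprime and non-coprime parts
  set c := (R.filter (fun p => 0 < p.1 ∧ 0 < p.2 ∧ Nat.Coprime p.1 p.2)).card with hc
  have hRc : (R.card : ℝ) ≤ c + (0.46 * I * ((J : ℝ) - 1) + I * (1 + Real.log I)) := by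
    have h1 : R ⊆ (R.filter (fun p => 0 < p.1 ∧ 0 < p.2 ∧ Nat.Coprime p.1 p.2)) ∪
        (((Icc 1 I) ×ˢ (Icc 1 J)).filter (fun p : ℕ × ℕ => ¬ Nat.Coprime p.1 p.2)) := by
      intro p hp
      have h2 := hmem p hp
      have h3 := hle1 p hp
      have h4 := hle2 p hp
      rw [mem_union, mem_filter, mem_filter, mem_product, mem_Icc, mem_Icc]
      by_cases hcp : Nat.Coprime p.1 p.2
      · exact Or.inl ⟨hp, by omega, by omega, hcp⟩
      · exact Or.inr ⟨⟨⟨h2.1, h3⟩, h2.2.1, h4⟩, hcp⟩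
    have h2 := (card_le_card h1).trans (card_union_le _ _)
    have h3 : (R.card : ℝ) ≤ c +
        ((((Icc 1 I) ×ˢ (Icc 1 J)).filter (fun p : ℕ × ℕ => ¬ Nat.Coprime p.1 p.2)).card : ℝ) := by
      exact_mod_cast h2
    have h4 := nc_all I 1 J hI1 hJ1 le_rfl
    push_cast at h4
    linarith
  have hRIJ : (R.card : ℝ) ≤ I * J := by
    have h1 : R ⊆ (Icc 1 I) ×ˢ (Icc 1 J) := by
      intro p hp
      rw [mem_product, mem_Icc, mem_Icc]
      exact ⟨⟨(hmem p hp).1, hle1 p hp⟩, (hmem p hp).2.1, hle2 p hp⟩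
    have h2 := card_le_card h1
    rw [card_product, Nat.card_Icc, Nat.card_Icc] at h2
    simp only [Nat.add_sub_cancel] at h2
    exact_mod_cast h2
  have hcop : ((cop R).card : ℝ) = c + (((cpSet J).card : ℝ) + ((cpSet I).card : ℝ)) := by
    rw [card_cop, ← hc, ← hI, ← hJ]
    push_cast
    ring
  have hcI := cpSet_ge I hI1
  have hcJ := cpSet_ge J hJ1
  have hI1' : (1 : ℝ) ≤ I := by exact_mod_cast hI1
  have hJ1' : (1 : ℝ) ≤ J := by exact_mod_cast hJ1
  have hlogI : Real.log I ≤ Real.log N :=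
    Real.log_le_log (by linarith) (by exact_mod_cast hIN)
  have hlogJ : Real.log J ≤ Real.log N :=
    Real.log_le_log (by linarith) (by exact_mod_cast hJN)
  have hsq : 0 ≤ ((I : ℝ) - J) ^ 2 := sq_nonneg _
  have hIlog : I * Real.log I ≤ I * Real.log N := mul_le_mul_of_nonneg_left hlogI (by linarith)
  have hJlog : J * Real.log J ≤ J * Real.log N := mul_le_mul_of_nonneg_left hlogJ (by linarith)
  have hJlog' : 0 ≤ J * Real.log N := mul_nonneg (by linarith) hlogN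
  have hIlog' : 0 ≤ I * Real.log N := mul_nonneg (by linarith) hlogN
  have hfin : 1.05 * (R.card : ℝ) ≤ ((cop R).card : ℝ) + 6 * (1 + Real.log N) * ((I : ℝ) + J) := by
    rw [hcop]
    nlinarith [mul_nonneg (by linarith : (0:ℝ) ≤ I) (by linarith : (0:ℝ) ≤ J)]
  have h7 : 6 * (1 + Real.log N) * ((I : ℝ) + J) ≤ 6 * (1 + Real.log N) * (N * (1 / (d : ℝ))) :=
    mul_le_mul_of_nonneg_left hIJ' (by positivity)
  calc 1.05 * (R.card : ℝ) ≤ _ := hfin
    _ ≤ ((cop R).card : ℝ) + 6 * (1 + Real.log N) * (N * (1 / (d : ℝ))) := by linarith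
    _ = _ := by ring

end Single

open Classical in
theorem om_bound : ∃ C : ℝ, 0 ≤ C ∧ ∀ (N : ℕ) (F : Finset (Finset ℤ)) (x : ℤ),
    Admissible N F → x ∈ Icc (1 : ℤ) N →
    1.05 * ((F.filter (fun A => x ∈ A ∧ IsAP A)).card : ℝ) ≤
      (((prs N x).filter (fun p => Oml F x p)).card : ℝ) + C * N * (1 + Real.log N) ^ 2 := by
  refine ⟨10, by norm_num, ?_⟩
  intro N F x hF hx
  have hN1 : 1 ≤ N := by
    have := mem_Icc.1 hx
    omega
  have hN1' : (1 : ℝ) ≤ N := by exact_mod_cast hN1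
  have hlogN : 0 ≤ Real.log N := Real.log_natCast_nonneg N
  have h1 := card_through hF hx
  have h2 : 1.05 * (∑ d ∈ Icc 1 N, ((Rd N F x d).card : ℝ)) ≤
      (∑ d ∈ Icc 1 N, ((cop (Rd N F x d)).card : ℝ)) + 6 * N * (1 + Real.log N) ^ 2 := by
    calc 1.05 * (∑ d ∈ Icc 1 N, ((Rd N F x d).card : ℝ))
        = ∑ d ∈ Icc 1 N, 1.05 * ((Rd N F x d).card : ℝ) := by rw [mul_sum]
      _ ≤ ∑ d ∈ Icc 1 N, (((cop (Rd N F x d)).card : ℝ) +
          6 * N * (1 + Real.log N) * (1 / (d : ℝ))) :=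
          sum_le_sum fun d hd => Single.per_d hF (mem_Icc.1 hd).1
      _ = (∑ d ∈ Icc 1 N, ((cop (Rd N F x d)).card : ℝ)) +
          6 * N * (1 + Real.log N) * ∑ d ∈ Icc 1 N, (1 / (d : ℝ)) := by
          rw [sum_add_distrib, mul_sum]
      _ ≤ (∑ d ∈ Icc 1 N, ((cop (Rd N F x d)).card : ℝ)) +
          6 * N * (1 + Real.log N) * (1 + Real.log N) := by
          have := mul_le_mul_of_nonneg_left (harmonic_le N)
            (by positivity : 0 ≤ 6 * (N : ℝ) * (1 + Real.log N))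
          linarith
      _ = _ := by ring
  have h3 : (∑ d ∈ Icc 1 N, ((cop (Rd N F x d)).card : ℝ)) ≤
      (((prs N x).filter (fun p => Oml F x p)).card : ℝ) := by
    exact_mod_cast Single.sum_cop_le hF
  have h4 : (N : ℝ) * (1 + Real.log N) ≤ N * (1 + Real.log N) ^ 2 := by
    refine mul_le_mul_of_nonneg_left ?_ (by linarith)
    nlinarith
  have h5 : 1 ≤ (N : ℝ) * (1 + Real.log N) := by nlinarith
  nlinarith

open Classical in
theorem single_kill {N : ℕ} {F : Finset (Finset ℤ)} (hF : Admissible N F) {x : ℤ}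
    (hx : x ∈ Icc (1 : ℤ) N) {B : Finset ℤ} (hB : B ∈ F) (hxB : x ∉ B) :
    (F.filter (fun A => x ∈ A ∧ ¬ IsAP A ∧ ¬ Spec N x A)).card +
      ((prs N x).filter (fun p => Oml F x p ∨ (p.1 ∉ B ∧ p.2 ∉ B))).card ≤ (prs N x).card := by
  set S := F.filter (fun A => x ∈ A ∧ ¬ IsAP A ∧ ¬ Spec N x A) with hS
  set T := (prs N x).filter (fun p => Oml F x p ∨ (p.1 ∉ B ∧ p.2 ∉ B)) with hT
  have key : ∀ A ∈ S, ∃ p : ℤ × ℤ, p.1 < p.2 ∧ Own x A p.1 p.2 ∧ (p.1 ∈ B ∨ p.2 ∈ B) := by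
    intro A hA
    rw [hS, mem_filter] at hA
    obtain ⟨hAF, hxA, hAP, hsp⟩ := hA
    have hne : A ≠ B := by
      rintro rfl
      exact hxB hxA
    obtain ⟨y, hy⟩ := (hF.2 A hAF B hB hne).nonempty
    rw [mem_inter] at hy
    have hyx : y ≠ x := by
      rintro rfl
      exact hxB hy.2
    have h1 : ∃ z, Own x A y z := by
      by_contra hcon
      push Not at hcon
      exact hsp (dom_spec (hF.1 A hAF) hxA hAP hy.1 hyx hcon)
    obtain ⟨z, hz⟩ := h1
    rcases lt_or_gt_of_ne hz.2.2.2.2.1 with h | h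
    · exact ⟨(y, z), h, hz, Or.inl hy.2⟩
    · exact ⟨(z, y), h, hz.symm, Or.inr hy.2⟩
  choose! f hf using key
  have hinj : (S.image f).card = S.card := by
    apply card_image_of_injOn
    intro A hA A' hA' heq
    by_contra hne
    have h1 := hf A hA
    have h2 := hf A' hA'
    rw [mem_coe, hS, mem_filter] at hA hA'
    have heq' : f A = f A' := heq
    refine h1.2.1.exclusive hF hA.1 hA'.1 hne hA'.2.1 hA.2.1 ?_
    rw [heq']
    exact ⟨h2.2.1.1, h2.2.1.2.1⟩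
  have hdisj : Disjoint (S.image f) T := by
    rw [disjoint_left]
    intro p hp hpT
    obtain ⟨A, hA, rfl⟩ := mem_image.1 hp
    have h1 := hf A hA
    rw [hS, mem_filter] at hA
    rw [hT, mem_filter] at hpT
    rcases hpT.2 with ⟨P, hPF, hPAP, hxP, hP1, hP2⟩ | h2
    · have hne : A ≠ P := by
        rintro rfl
        exact hA.2.2.1 hPAP
      exact h1.2.1.exclusive hF hA.1 hPF hne hxP hA.2.1 ⟨hP1, hP2⟩
    · rcases h1.2.2 with h3 | h3
      · exact h2.1 h3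
      · exact h2.2 h3
  have hsub : S.image f ∪ T ⊆ prs N x := by
    apply union_subset
    · intro p hp
      obtain ⟨A, hA, rfl⟩ := mem_image.1 hp
      have h1 := hf A hA
      rw [hS, mem_filter] at hA
      exact Own.mem_prs (hF.1 A hA.1) h1.1 h1.2.1
    · exact filter_subset _ _
  have := card_le_card hsub
  rw [card_union_of_disjoint hdisj, hinj] at this
  exact this

end Pool.Agent.APLarge
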