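import Pool.Agent.APLarge.Count
import Pool.Agent.APLarge.Avoid
import Pool.Agent.APLarge.Single
import Pool.Agent.APLarge.Counting
import Pool.Agent.APLarge.Mirror

/-!
P10b: families with a member missing `x` and many other points.
-/

set_option autoImplicit false

namespace Pool.Agent.APLarge

namespace Far

open Finset Pool.Agent.APInt Filter Topology

/-- the error terms are small -/
lemma exists_small (K ε : ℝ) (hK : 0 ≤ K) (hε : 0 < ε) : ∃ N0 : ℕ, ∀ N : ℕ, N0 ≤ N →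
    K * N * (1 + Real.log N) ^ 2 ≤ ε * (N : ℝ) ^ 2 := by
  have h0 : (fun x : ℝ => 1 + (2 * Real.log x + Real.log x ^ 2)) =o[atTop] (id : ℝ → ℝ) := by
    have e1 : (fun _ : ℝ => (1 : ℝ)) =o[atTop] (id : ℝ → ℝ) :=
      Asymptotics.isLittleO_const_id_atTop 1
    have e2 : (fun x : ℝ => 2 * Real.log x) =o[atTop] (id : ℝ → ℝ) :=
      Real.isLittleO_log_id_atTop.const_mul_left 2
    have e3 : (fun x : ℝ => Real.log x ^ 2) =o[atTop] (id : ℝ → ℝ) :=
      Real.isLittleO_pow_log_id_atTop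
    exact e1.add (e2.add e3)
  have h2 := h0.def (show 0 < ε / (K + 1) by positivity)
  have h3 := (tendsto_natCast_atTop_atTop (R := ℝ)).eventually h2
  obtain ⟨N0, hN0⟩ := eventually_atTop.1 h3
  refine ⟨N0, fun N hN => ?_⟩
  have h4 := hN0 N hN
  have h5 : 1 + (2 * Real.log N + Real.log N ^ 2) = (1 + Real.log N) ^ 2 := by ring
  simp only [Real.norm_eq_abs, id] at h4
  rw [h5, abs_of_nonneg (by positivity), abs_of_nonneg (by positivity)] at h4
  have h6 : K / (K + 1) ≤ 1 := by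
    rw [div_le_one (by positivity)]
    linarith
  calc K * N * (1 + Real.log N) ^ 2 ≤ K * N * (ε / (K + 1) * N) := by gcongr
    _ = (K / (K + 1)) * (ε * (N : ℝ) ^ 2) := by ring
    _ ≤ 1 * (ε * (N : ℝ) ^ 2) := by gcongr
    _ = ε * (N : ℝ) ^ 2 := one_mul _

open Classical in
lemma card_decomp (N : ℕ) (F : Finset (Finset ℤ)) (x : ℤ) :
    F.card = (F.filter (fun A => x ∈ A ∧ IsAP A)).card
      + (F.filter (fun A => x ∈ A ∧ ¬ IsAP A ∧ ¬ Spec N x A)).card
      + (F.filter (fun A => x ∈ A ∧ ¬ IsAP A ∧ Spec N x A)).card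
      + (F.filter (fun A => IsAP A ∧ x ∉ A)).card
      + (F.filter (fun A => ¬ IsAP A ∧ x ∉ A)).card := by
  simp only [card_filter, ← sum_add_distrib]
  rw [card_eq_sum_ones]
  apply sum_congr rfl
  intro A _
  by_cases h1 : x ∈ A <;> by_cases h2 : IsAP A <;> by_cases h3 : Spec N x A <;>
    simp [h1, h2, h3]

open Classical in
lemma card_ap_decomp (F : Finset (Finset ℤ)) (x : ℤ) :
    (F.filter (fun A => IsAP A)).card = (F.filter (fun A => x ∈ A ∧ IsAP A)).card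
      + (F.filter (fun A => IsAP A ∧ x ∉ A)).card := by
  simp only [card_filter, ← sum_add_distrib]
  apply sum_congr rfl
  intro A _
  by_cases h1 : x ∈ A <;> by_cases h2 : IsAP A <;> simp [h1, h2]

lemma card_prs_le {N : ℕ} {x : ℤ} (hx : x ∈ Icc (1 : ℤ) N) : (prs N x).card ≤ N.choose 2 := by
  rw [card_prs hx]
  exact Nat.choose_le_choose 2 (Nat.sub_le _ _)

open Classical in
lemma small_case {C1 : ℝ} (hC1 : 0 ≤ C1) {N : ℕ} {F : Finset (Finset ℤ)} {x : ℤ}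
    (hF : Admissible N F) (hx : x ∈ Icc (1 : ℤ) N)
    (hom : 1.05 * ((F.filter (fun A => x ∈ A ∧ IsAP A)).card : ℝ) ≤
      (((prs N x).filter (fun p => Oml F x p)).card : ℝ) + C1 * N * (1 + Real.log N) ^ 2)
    (hG : ((F.filter (fun A => IsAP A ∧ x ∉ A)).card : ℝ) ≤ 2.1e-7 * (N : ℝ) ^ 2)
    (hH : ((F.filter (fun A => ¬ IsAP A ∧ x ∉ A)).card : ℝ) ≤ 1e-9 * (N : ℝ) ^ 2)
    {B : Finset ℤ} (hB : B ∈ F) (hxB : x ∉ B)
    (hu : (N : ℝ) / 250 ≤ ((((Icc (1 : ℤ) N).erase x) \ B).card : ℝ))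
    (he : (C1 + 4) * N * (1 + Real.log N) ^ 2 ≤ 1e-10 * (N : ℝ) ^ 2) (hN : 1000 ≤ N) :
    F.card ≤ N.choose 2 := by
  set U := ((Icc (1 : ℤ) N).erase x) \ B with hU
  set Q := (prs N x).filter (fun p => Oml F x p ∨ (p.1 ∉ B ∧ p.2 ∉ B)) with hQ
  have h1 : ((prs N x).filter (fun p => Oml F x p)).card ≤ Q.card := by
    apply card_le_card
    intro p hp
    rw [mem_filter] at hp ⊢
    exact ⟨hp.1, Or.inl hp.2⟩
  have h2 : U.card.choose 2 ≤ Q.card := by
    rw [← card_pairs]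
    apply card_le_card
    have hmem : ∀ t, t ∈ U → (1 ≤ t ∧ t ≤ N ∧ t ≠ x) ∧ t ∉ B := by
      intro t ht
      rw [hU, Finset.mem_sdiff, Finset.mem_erase, Finset.mem_Icc] at ht
      exact ⟨⟨ht.1.2.1, ht.1.2.2, ht.1.1⟩, ht.2⟩
    intro p hp
    rw [mem_filter, mem_product] at hp
    obtain ⟨⟨hp1, hp2⟩, hlt⟩ := hp
    have h11 := hmem _ hp1
    have h12 := hmem _ hp2
    rw [hQ, mem_filter, mem_prs]
    exact ⟨⟨h11.1, h12.1, hlt⟩, Or.inr ⟨h11.2, h12.2⟩⟩
  have h3 := single_kill hF hx hB hxB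
  have h4 := card_spec hF hx
  have h5 := card_decomp N F x
  have h6 := card_prs_le hx
  rw [← hQ] at h3
  have h1' : (((prs N x).filter (fun p => Oml F x p)).card : ℝ) ≤ Q.card := by exact_mod_cast h1
  have h2' : ((U.card.choose 2 : ℕ) : ℝ) ≤ Q.card := by exact_mod_cast h2
  have h3' : ((F.filter (fun A => x ∈ A ∧ ¬ IsAP A ∧ ¬ Spec N x A)).card : ℝ) + Q.card ≤
      (prs N x).card := by exact_mod_cast h3
  have h5' := congrArg (Nat.cast : ℕ → ℝ) h5
  push_cast at h5'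
  have h6' : ((prs N x).card : ℝ) ≤ (N.choose 2 : ℕ) := by exact_mod_cast h6
  rw [Nat.cast_choose_two] at h2'
  have hNr : (1000 : ℝ) ≤ N := by exact_mod_cast hN
  have h7 : (N : ℝ) / 250 * (N / 250 - 1) / 2 ≤ Q.card := by
    refine le_trans ?_ h2'
    have : (0 : ℝ) ≤ N / 250 - 1 := by linarith
    gcongr
  have h8 : (C1 + 4) * N * (1 + Real.log N) ^ 2 =
      C1 * N * (1 + Real.log N) ^ 2 + 4 * N * (1 + Real.log N) ^ 2 := by ring
  have h9 : 0 ≤ C1 * N * (1 + Real.log N) ^ 2 := by positivity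
  have h10 : (F.card : ℝ) ≤ (N.choose 2 : ℕ) := by
    have : (1000 : ℝ) * N ≤ (N : ℝ) ^ 2 := by
      rw [pow_two]
      gcongr
    nlinarith
  exact_mod_cast h10

open Classical in
lemma hull_case {C1 C2 C3 : ℝ} (hC1 : 0 ≤ C1) {N : ℕ} {F : Finset (Finset ℤ)}
    {x a b : ℤ} (hull : Hull N F x a b)
    (hom : 1.05 * ((F.filter (fun A => x ∈ A ∧ IsAP A)).card : ℝ) ≤
      (((prs N x).filter (fun p => Oml F x p)).card : ℝ) + C1 * N * (1 + Real.log N) ^ 2)
    (hap : ((F.filter (fun A => IsAP A)).card : ℝ) +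
        0.03 * ((((a : ℝ) - 1) ^ 2 + ((N : ℝ) - b) ^ 2) / 2) ≤
      ((Omega N F x a b).card : ℝ) + C2 * N * (1 + Real.log N) ^ 2)
    (hms : ((F.filter (fun A => IsAP A ∧ x ∉ A)).card : ℝ) ≤
      4 * ((((a : ℝ) - 1) ^ 2 + ((N : ℝ) - b) ^ 2) / 2) + C3 * N * (1 + Real.log N) ^ 2)
    (hH : ((F.filter (fun A => ¬ IsAP A ∧ x ∉ A)).card : ℝ) ≤ 1e-9 * (N : ℝ) ^ 2)
    (hB : ∃ B ∈ F, x ∉ B ∧ (N : ℝ) / 250 ≤ ((((Icc (1 : ℤ) N).erase x) \ B).card : ℝ))
    (he1 : (C1 + 4) * N * (1 + Real.log N) ^ 2 ≤ 1e-10 * (N : ℝ) ^ 2)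
    (he2 : (C2 + 4) * N * (1 + Real.log N) ^ 2 ≤ 1e-10 * (N : ℝ) ^ 2)
    (he3 : C3 * N * (1 + Real.log N) ^ 2 ≤ 1e-10 * (N : ℝ) ^ 2)
    (hN : 10000000000 ≤ N) :
    F.card ≤ N.choose 2 := by
  have hx := hull.hx
  have hF := hull.adm
  have hNr : (10000000000 : ℝ) ≤ N := by exact_mod_cast hN
  rcases le_or_gt ((((a : ℝ) - 1) ^ 2 + ((N : ℝ) - b) ^ 2) / 2) (5e-8 * (N : ℝ) ^ 2) with hq | hq
  · obtain ⟨B, hB, hxB, hu⟩ := hB
    refine small_case hC1 hF hx hom ?_ hH hB hxB hu he1 (by omega)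
    nlinarith
  · have h3 := avoidance hull
    have h4 := card_spec hF hx
    have h5 := card_decomp N F x
    have h5b := card_ap_decomp F x
    have h6 := card_prs_le hx
    have h3' : ((F.filter (fun A => x ∈ A ∧ ¬ IsAP A ∧ ¬ Spec N x A)).card : ℝ) +
        (Omega N F x a b).card ≤ (prs N x).card + 2 * N := by exact_mod_cast h3
    have h5' := congrArg (Nat.cast : ℕ → ℝ) h5
    have h5b' := congrArg (Nat.cast : ℕ → ℝ) h5b
    push_cast at h5' h5b'
    have h6' : ((prs N x).card : ℝ) ≤ (N.choose 2 : ℕ) := by exact_mod_cast h6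
    have h8 : (C2 + 4) * N * (1 + Real.log N) ^ 2 =
        C2 * N * (1 + Real.log N) ^ 2 + 4 * N * (1 + Real.log N) ^ 2 := by ring
    have h9 : 2 * (N : ℝ) ≤ 2e-10 * (N : ℝ) ^ 2 := by nlinarith
    have h10 : (F.card : ℝ) ≤ (N.choose 2 : ℕ) := by
      nlinarith
    exact_mod_cast h10

/-! ### reflection -/

open Classical in
lemma card_filter_mir (N : ℕ) (F : Finset (Finset ℤ)) (x : ℤ) :
    ((mirF N F).filter (fun A => ¬ IsAP A ∧ (N : ℤ) + 1 - x ∉ A)).card =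
      (F.filter (fun A => ¬ IsAP A ∧ x ∉ A)).card := by
  apply card_nbij' (mir N) (mir N)
  · intro A hA
    simp only [coe_filter, Set.mem_ofPred_eq, mem_mirF, isAP_mir, mem_mir] at hA ⊢
    exact hA
  · intro A hA
    simp only [coe_filter, Set.mem_ofPred_eq, mem_mirF, isAP_mir, mem_mir, mir_mir] at hA ⊢
    refine ⟨hA.1, hA.2.1, ?_⟩
    have : (N : ℤ) + 1 - (N + 1 - x) = x := by ring
    rw [this]
    exact hA.2.2
  · intro A _
    exact mir_mir N A
  · intro A _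
    exact mir_mir N A

lemma card_sdiff_mir (N : ℕ) (B : Finset ℤ) (x : ℤ) :
    (((Icc (1 : ℤ) N).erase ((N : ℤ) + 1 - x)) \ mir N B).card =
      (((Icc (1 : ℤ) N).erase x) \ B).card := by
  apply card_nbij' (fun t => (N : ℤ) + 1 - t) (fun t => (N : ℤ) + 1 - t)
  · intro t ht
    simp only [coe_sdiff, coe_erase, coe_Icc, Set.mem_sdiff, Set.mem_Icc, Set.mem_singleton_iff,
      mem_coe, mem_mir] at ht ⊢
    refine ⟨⟨⟨by omega, by omega⟩, by omega⟩, ht.2⟩
  · intro t ht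
    simp only [coe_sdiff, coe_erase, coe_Icc, Set.mem_sdiff, Set.mem_Icc, Set.mem_singleton_iff,
      mem_coe, mem_mir] at ht ⊢
    refine ⟨⟨⟨by omega, by omega⟩, by omega⟩, ?_⟩
    have : (N : ℤ) + 1 - (N + 1 - t) = t := by ring
    rw [this]
    exact ht.2
  · intro t _
    simp
  · intro t _
    simp

end Far

open Finset Pool.Agent.APInt

open Classical Far in
/-- P10b: a member missing `x` together with many other points makes the family small. -/
theorem far_bound : ∃ N0 : ℕ, ∀ N ≥ N0, ∀ F : Finset (Finset ℤ), Admissible N F →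
    ∀ x ∈ Icc (1 : ℤ) N,
    ((F.filter (fun A => ¬ IsAP A ∧ x ∉ A)).card : ℝ) ≤ 1e-9 * (N : ℝ) ^ 2 →
    (∃ B ∈ F, x ∉ B ∧ (N : ℝ) / 250 ≤ ((((Icc (1 : ℤ) N).erase x) \ B).card : ℝ)) →
    F.card ≤ N.choose 2 := by
  obtain ⟨C1, hC1, hom⟩ := om_bound
  obtain ⟨C2, hC2, hap⟩ := count_ap
  obtain ⟨C3, hC3, hms⟩ := count_missing
  obtain ⟨N1, hN1⟩ := exists_small (C1 + 4) 1e-10 (by linarith) (by norm_num)
  obtain ⟨N2, hN2⟩ := exists_small (C2 + 4) 1e-10 (by linarith) (by norm_num)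
  obtain ⟨N3, hN3⟩ := exists_small C3 1e-10 hC3 (by norm_num)
  refine ⟨max (max N1 N2) (max N3 10000000000), ?_⟩
  intro N hN F hF x hx hH hB
  have hNN1 : N1 ≤ N := le_trans (le_trans (le_max_left _ _) (le_max_left _ _)) hN
  have hNN2 : N2 ≤ N := le_trans (le_trans (le_max_right _ _) (le_max_left _ _)) hN
  have hNN3 : N3 ≤ N := le_trans (le_trans (le_max_left _ _) (le_max_right _ _)) hN
  have hNN4 : 10000000000 ≤ N := le_trans (le_trans (le_max_right _ _) (le_max_right _ _)) hN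
  have he1 := hN1 N hNN1
  have he2 := hN2 N hNN2
  have he3 := hN3 N hNN3
  by_cases hG : ∃ B ∈ F, IsAP B ∧ x ∉ B
  · rcases exists_hull hF hx hG with ⟨a, b, hull⟩ | ⟨a, b, hull⟩
    · exact hull_case hC1 hull (hom N F x hF hx) (hap N F x a b hull) (hms N F x a b hull)
        hH hB he1 he2 he3 hNN4
    · have hx' := hull.hx
      have hF' := hull.adm
      rw [← card_mirF N F]
      refine hull_case hC1 hull (hom N _ _ hF' hx') (hap N _ _ a b hull)
        (hms N _ _ a b hull) ?_ ?_ he1 he2 he3 hNN4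
      · rw [card_filter_mir]
        exact hH
      · obtain ⟨B, hB, hxB, hu⟩ := hB
        refine ⟨mir N B, ?_, ?_, ?_⟩
        · rw [mem_mirF, mir_mir]
          exact hB
        · rw [mem_mir]
          have : (N : ℤ) + 1 - (N + 1 - x) = x := by ring
          rw [this]
          exact hxB
        · rw [card_sdiff_mir]
          exact hu
  · obtain ⟨B, hB, hxB, hu⟩ := hB
    refine small_case hC1 hF hx (hom N F x hF hx) ?_ hH hB hxB hu he1 (by omega)
    have : F.filter (fun A => IsAP A ∧ x ∉ A) = ∅ := by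
      rw [filter_eq_empty_iff]
      intro A hA hcon
      exact hG ⟨A, hA, hcon.1, hcon.2⟩
    rw [this]
    simp only [card_empty, Nat.cast_zero]
    positivity

end Pool.Agent.APLarge
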