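import Pool.Agent.APLarge.Defs

/-!
Members missing `x` when all of them contain the core `[L, N - L]`.
-/

set_option autoImplicit false

namespace Pool.Agent.APLarge

open Finset Pool.Agent.APInt

namespace NearB

/-- the intersection of two different members missing `x` is an interval -/
lemma mem_of_between {N L : ℕ} {F : Finset (Finset ℤ)} (hF : Admissible N F) {x : ℤ}
    (hL : 1 ≤ L) (hLN : 100 * L ≤ N)
    (hcore : ∀ B ∈ F, x ∉ B → Icc (L : ℤ) (N - L) ⊆ B) {B B' : Finset ℤ} (hB : B ∈ F)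
    (hB' : B' ∈ F) (hne : B ≠ B') (hxB : x ∉ B) (hxB' : x ∉ B') {s t w : ℤ}
    (hs : s ∈ B) (hs' : s ∈ B') (ht : t ∈ B) (ht' : t ∈ B') (hsw : s ≤ w) (hwt : w ≤ t) :
    w ∈ B := by
  have hAP := hF.2 B hB B' hB' hne
  obtain ⟨a, d, b, hd, hab, hdvd, h⟩ := (isAP_iff _).1 hAP
  have h1 : (L : ℤ) ∈ B ∩ B' := mem_inter.2 ⟨hcore B hB hxB (by rw [mem_Icc]; omega),
    hcore B' hB' hxB' (by rw [mem_Icc]; omega)⟩
  have h2 : (L : ℤ) + 1 ∈ B ∩ B' := mem_inter.2 ⟨hcore B hB hxB (by rw [mem_Icc]; omega),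
    hcore B' hB' hxB' (by rw [mem_Icc]; omega)⟩
  have h3 : s ∈ B ∩ B' := mem_inter.2 ⟨hs, hs'⟩
  have h4 : t ∈ B ∩ B' := mem_inter.2 ⟨ht, ht'⟩
  rw [h] at h1 h2 h3 h4
  have h5 : d ∣ 1 := by
    have := dvd_sub h2.1 h1.1
    have e : (L : ℤ) + 1 - a - (L - a) = 1 := by ring
    rwa [e] at this
  have h6 : w ∈ B ∩ B' := by
    rw [h]
    exact ⟨dvd_trans h5 (one_dvd _), by omega, by omega⟩
  exact (mem_inter.1 h6).1

open Classical in
lemma card_int {N L : ℕ} {F : Finset (Finset ℤ)} (hF : Admissible N F) {x : ℤ}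
    (hx1 : 1 ≤ x) (hxL : x < L) (hLN : 100 * L ≤ N)
    (hcore : ∀ B ∈ F, x ∉ B → Icc (L : ℤ) (N - L) ⊆ B) :
    (F.filter (fun A => x ∉ A ∧ ∃ a b : ℤ, A = Icc a b)).card ≤
      ((prs N x).filter (fun p => Kmix F x p)).card + 2 * L := by
  have hsub : F.filter (fun A => x ∉ A ∧ ∃ a b : ℤ, A = Icc a b) ⊆
      (((prs N x).filter (fun p => Kmix F x p)).image
        (fun p : ℤ × ℤ => Icc (p.1 + 1) (p.2 - 1))) ∪
      ((Icc ((N : ℤ) - L) N).image (fun b => Icc (x + 1) b) ∪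
        (Icc (x + 1) (L : ℤ)).image (fun a => Icc a (N : ℤ))) := by
    intro B hB
    rw [mem_filter] at hB
    obtain ⟨hBF, hxB, a, b, rfl⟩ := hB
    have hc := hcore _ hBF hxB
    have h1 : (L : ℤ) ∈ Icc a b := hc (by rw [mem_Icc]; omega)
    have h2 : (N : ℤ) - L ∈ Icc a b := hc (by rw [mem_Icc]; omega)
    rw [mem_Icc] at h1 h2
    have h3 : x < a := by
      by_contra hcon
      exact hxB (by rw [mem_Icc]; omega)
    have h4 : b ≤ N := by
      have := hF.1 _ hBF (by rw [mem_Icc]; omega : b ∈ Icc a b)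
      rw [mem_Icc] at this
      exact this.2
    simp only [mem_union, mem_image]
    by_cases h5 : a = x + 1
    · subst h5
      right; left
      exact ⟨b, by rw [mem_Icc]; omega, rfl⟩
    by_cases h6 : b = N
    · subst h6
      right; right
      exact ⟨a, by rw [mem_Icc]; omega, rfl⟩
    left
    refine ⟨(a - 1, b + 1), ?_, by simp⟩
    rw [mem_filter, mem_prs]
    refine ⟨⟨by dsimp only; omega, by dsimp only; omega, by dsimp only; omega⟩, ?_⟩
    refine ⟨by dsimp only; omega, a, b, by omega, hBF, by dsimp only; omega, by dsimp only; omega⟩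
  refine (card_le_card hsub).trans ((card_union_le _ _).trans ?_)
  refine Nat.add_le_add card_image_le ((card_union_le _ _).trans ?_)
  have e1 : ((Icc ((N : ℤ) - L) N).image (fun b => Icc (x + 1) b)).card ≤ L + 1 := by
    refine card_image_le.trans ?_
    rw [Int.card_Icc]
    omega
  have e2 : ((Icc (x + 1) (L : ℤ)).image (fun a => Icc a (N : ℤ))).card ≤ L - 1 := by
    refine card_image_le.trans ?_
    rw [Int.card_Icc]
    omega
  omega

open Classical in
lemma card_nonint {N L : ℕ} {F : Finset (Finset ℤ)} (hF : Admissible N F) {x : ℤ}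
    (hx1 : 1 ≤ x) (hxL : x < L) (hLN : 100 * L ≤ N)
    (hcore : ∀ B ∈ F, x ∉ B → Icc (L : ℤ) (N - L) ⊆ B) :
    (F.filter (fun A => x ∉ A ∧ ¬ ∃ a b : ℤ, A = Icc a b)).card ≤ 2 * L := by
  -- the witness
  have hwit : ∀ B ∈ F.filter (fun A => x ∉ A ∧ ¬ ∃ a b : ℤ, A = Icc a b), ∃ t ∈ B,
      (t ∈ Icc (1 : ℤ) (L - 1) ∪ Icc ((N : ℤ) - L + 1) N) ∧
        ∀ B' ∈ F, x ∉ B' → B' ≠ B → t ∉ B' := by
    intro B hB
    rw [mem_filter] at hB
    obtain ⟨hBF, hxB, hint⟩ := hB
    have hc := hcore _ hBF hxB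
    have hLB : (L : ℤ) ∈ B := hc (by rw [mem_Icc]; omega)
    have hNB : (N : ℤ) - L ∈ B := hc (by rw [mem_Icc]; omega)
    have hne : B.Nonempty := ⟨L, hLB⟩
    have hBN := hF.1 _ hBF
    have hm1 := hBN (B.min'_mem hne)
    have hm2 := hBN (B.max'_mem hne)
    rw [mem_Icc] at hm1 hm2
    have hminL := B.min'_le _ hLB
    have hmaxN := B.le_max' _ hNB
    have hw : ∃ w, B.min' hne < w ∧ w < B.max' hne ∧ w ∉ B := by
      by_contra hcon
      push Not at hcon
      apply hint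
      refine ⟨B.min' hne, B.max' hne, ?_⟩
      ext t
      rw [mem_Icc]
      constructor
      · intro ht
        exact ⟨B.min'_le _ ht, B.le_max' _ ht⟩
      · rintro ⟨h1, h2⟩
        rcases eq_or_lt_of_le h1 with h3 | h3
        · rw [← h3]; exact B.min'_mem hne
        rcases eq_or_lt_of_le h2 with h4 | h4
        · rw [h4]; exact B.max'_mem hne
        exact hcon t h3 h4
    obtain ⟨w, hw1, hw2, hw3⟩ := hw
    have hw4 : w < L ∨ (N : ℤ) - L < w := by
      by_contra hcon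
      push Not at hcon
      exact hw3 (hc (by rw [mem_Icc]; omega))
    rcases hw4 with hw4 | hw4
    · refine ⟨B.min' hne, B.min'_mem hne, ?_, ?_⟩
      · rw [mem_union, mem_Icc, mem_Icc]
        left
        omega
      · intro B' hB' hxB' hne' hmem
        exact hw3 (mem_of_between hF (by omega) hLN hcore hBF hB' hne'.symm hxB hxB'
          (B.min'_mem hne) hmem hLB (hcore B' hB' hxB' (by rw [mem_Icc]; omega)) hw1.le hw4.le)
    · refine ⟨B.max' hne, B.max'_mem hne, ?_, ?_⟩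
      · rw [mem_union, mem_Icc, mem_Icc]
        right
        omega
      · intro B' hB' hxB' hne' hmem
        exact hw3 (mem_of_between hF (by omega) hLN hcore hBF hB' hne'.symm hxB hxB'
          hNB (hcore B' hB' hxB' (by rw [mem_Icc]; omega)) (B.max'_mem hne) hmem hw4.le hw2.le)
  choose! f hf1 hf2 hf3 using hwit
  have hcard : (F.filter (fun A => x ∉ A ∧ ¬ ∃ a b : ℤ, A = Icc a b)).card ≤
      (Icc (1 : ℤ) (L - 1) ∪ Icc ((N : ℤ) - L + 1) N).card := by
    refine card_le_card_of_injOn f (fun B hB => hf2 B hB) ?_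
    intro B hB B' hB' heq
    by_contra hne
    have hB2 := hB
    have hB2' := hB'
    rw [mem_coe, mem_filter] at hB2 hB2'
    have h1 := hf3 B hB B' hB2'.1 hB2'.2.1 (Ne.symm hne)
    rw [heq] at h1
    exact h1 (hf1 B' hB')
  refine hcard.trans ((card_union_le _ _).trans ?_)
  rw [Int.card_Icc, Int.card_Icc]
  omega

end NearB

open Classical in
/-- P9b NearB.lean -/
theorem card_missing {N L : ℕ} {F : Finset (Finset ℤ)} (hF : Admissible N F) {x : ℤ}
    (hx1 : 1 ≤ x) (hxL : x < L) (hLN : 100 * L ≤ N)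
    (hcore : ∀ B ∈ F, x ∉ B → Icc (L : ℤ) (N - L) ⊆ B) :
    (F.filter (fun A => x ∉ A)).card ≤
      ((prs N x).filter (fun p => Kmix F x p)).card + 6 * L := by
  have h1 := NearB.card_int hF hx1 hxL hLN hcore
  have h2 := NearB.card_nonint hF hx1 hxL hLN hcore
  have h3 : F.filter (fun A => x ∉ A) =
      F.filter (fun A => x ∉ A ∧ ∃ a b : ℤ, A = Icc a b) ∪
      F.filter (fun A => x ∉ A ∧ ¬ ∃ a b : ℤ, A = Icc a b) := by
    ext A
    rw [mem_union, mem_filter, mem_filter, mem_filter]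
    by_cases h4 : ∃ a b : ℤ, A = Icc a b
    · exact ⟨fun h => Or.inl ⟨h.1, h.2, h4⟩, fun h => h.elim (fun h => ⟨h.1, h.2.1⟩)
        (fun h => ⟨h.1, h.2.1⟩)⟩
    · exact ⟨fun h => Or.inr ⟨h.1, h.2, h4⟩, fun h => h.elim (fun h => ⟨h.1, h.2.1⟩)
        (fun h => ⟨h.1, h.2.1⟩)⟩
  rw [h3]
  refine (card_union_le _ _).trans ?_
  omega

end Pool.Agent.APLarge
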