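import Pool.Agent.APLarge.Defs

/-!
Package P9c (helper50): progressions through `x` in a near-extremal family.
-/

set_option autoImplicit false

namespace Pool.Agent.APLarge

open Finset Pool.Agent.APInt

namespace NearC

lemma cp_lower (n : ℕ) (hn : 2 ≤ n) : n ^ 2 + 2 * n ≤ 4 * (cpSet n).card + 4 := by
  have h1 := nc_ineq n n hn hn
  have h2 := two_cpSet n (by omega)
  omega

lemma nc_le (I J : ℕ) : (ncSet I J).card ≤ I * J := by
  refine le_trans (card_filter_le _ _) ?_
  rw [card_product, Nat.card_Ioc, Nat.card_Ioc]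
  simp

/-- the good labels of scale `d`: all coprime pairs except the right pairs reaching beyond `m`
which are not consecutive -/
def lab (R : Finset (ℕ × ℕ)) (m : ℕ) : Finset (ℤ × ℤ) :=
  (cop R).filter (fun p => p.1 < 0 ∨ p.2 ≤ m ∨ p.2 = p.1 + 1)

open Classical in
/-- lower bound for the number of labels -/
lemma card_lab (R : Finset (ℕ × ℕ)) (m : ℕ) :
    (R.filter (fun p => 0 < p.1 ∧ 0 < p.2 ∧ Nat.Coprime p.1 p.2)).card +
      (((cpSet (R.sup Prod.snd)).filter (fun p => p.2 ≤ m ∨ p.2 = p.1 + 1)).card +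
        (cpSet (R.sup Prod.fst)).card) ≤ (lab R m).card := by
  set X := (R.filter (fun p => 0 < p.1 ∧ 0 < p.2 ∧ Nat.Coprime p.1 p.2)).image
      (fun p => (-(p.1 : ℤ), (p.2 : ℤ))) with hX
  set Y := (((cpSet (R.sup Prod.snd)).filter (fun p => p.2 ≤ m ∨ p.2 = p.1 + 1)).image
      (fun p => ((p.1 : ℤ), (p.2 : ℤ)))) with hY
  set Z := (cpSet (R.sup Prod.fst)).image (fun p => (-(p.2 : ℤ), -(p.1 : ℤ))) with hZ
  have hsub : X ∪ (Y ∪ Z) ⊆ lab R m := by
    intro p hp
    rw [lab, mem_filter, cop]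
    simp only [mem_union] at hp ⊢
    rcases hp with hp | hp | hp
    · refine ⟨Or.inl hp, Or.inl ?_⟩
      rw [hX, mem_image] at hp
      obtain ⟨q, hq, rfl⟩ := hp
      rw [mem_filter] at hq
      have := hq.2.1
      show -(q.1 : ℤ) < 0
      omega
    · rw [hY, mem_image] at hp
      obtain ⟨q, hq, rfl⟩ := hp
      rw [mem_filter] at hq
      refine ⟨Or.inr (Or.inl (mem_image.2 ⟨q, hq.1, rfl⟩)), Or.inr ?_⟩
      show (q.2 : ℤ) ≤ m ∨ (q.2 : ℤ) = q.1 + 1
      have := hq.2
      omega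
    · refine ⟨Or.inr (Or.inr hp), Or.inl ?_⟩
      rw [hZ, mem_image] at hp
      obtain ⟨q, hq, rfl⟩ := hp
      simp only [cpSet, mem_filter, mem_product, mem_Ioc] at hq
      show -(q.2 : ℤ) < 0
      omega
  refine le_trans (le_of_eq ?_) (card_le_card hsub)
  rw [card_union_of_disjoint, card_union_of_disjoint, hX, hY, hZ, card_image_of_injective,
    card_image_of_injective, card_image_of_injective]
  · rintro ⟨a, b⟩ ⟨c, d⟩ h
    simp only [Prod.mk.injEq] at h ⊢
    omega
  · rintro ⟨a, b⟩ ⟨c, d⟩ h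
    simp only [Prod.mk.injEq] at h ⊢
    omega
  · rintro ⟨a, b⟩ ⟨c, d⟩ h
    simp only [Prod.mk.injEq] at h ⊢
    omega
  · rw [disjoint_left]
    rintro ⟨a, b⟩ h1 h2
    simp only [hY, hZ, cpSet, mem_image, mem_filter, mem_product, mem_Ioc, Prod.exists,
      Prod.mk.injEq] at h1 h2
    obtain ⟨i, j, hij, rfl, rfl⟩ := h1
    obtain ⟨i', j', hij', h3, h4⟩ := h2
    omega
  · rw [disjoint_left]
    rintro ⟨a, b⟩ h1 h2
    simp only [hX, hY, hZ, cpSet, mem_union, mem_image, mem_filter, mem_product, mem_Ioc,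
      Prod.exists, Prod.mk.injEq] at h1 h2
    obtain ⟨i, j, hij, rfl, rfl⟩ := h1
    rcases h2 with ⟨i', j', hij', h3, h4⟩ | ⟨i', j', hij', h3, h4⟩
    · omega
    · omega

/-- upper bound for `R` -/
lemma card_R (R : Finset (ℕ × ℕ)) (hR : ∀ p ∈ R, 2 ≤ p.1 + p.2) :
    R.card ≤ (R.filter (fun p => 0 < p.1 ∧ 0 < p.2 ∧ Nat.Coprime p.1 p.2)).card +
      ((ncSet (R.sup Prod.fst) (R.sup Prod.snd)).card +
        ((R.sup Prod.fst - 1) + (R.sup Prod.snd - 1))) := by
  classical
  set I := R.sup Prod.fst with hI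
  set J := R.sup Prod.snd with hJ
  set C := R.filter (fun p => 0 < p.1 ∧ 0 < p.2 ∧ Nat.Coprime p.1 p.2) with hC
  have hle1 : ∀ p ∈ R, p.1 ≤ I := fun p hp => le_sup (f := Prod.fst) hp
  have hle2 : ∀ p ∈ R, p.2 ≤ J := fun p hp => le_sup (f := Prod.snd) hp
  set A1 : Finset (ℕ × ℕ) := (Ioc 1 I).image (fun i => (i, 0)) with hA1
  set A2 : Finset (ℕ × ℕ) := (Ioc 1 J).image (fun j => (0, j)) with hA2
  have hA1c : A1.card ≤ I - 1 := le_trans card_image_le (by rw [Nat.card_Ioc])
  have hA2c : A2.card ≤ J - 1 := le_trans card_image_le (by rw [Nat.card_Ioc])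
  have hsub : R ⊆ C ∪ (ncSet I J ∪ (A1 ∪ A2)) := by
    rintro ⟨i, j⟩ hp
    have h1 := hle1 _ hp
    have h2 := hle2 _ hp
    have h3 := hR _ hp
    simp only at h1 h2 h3
    simp only [hC, ncSet, hA1, hA2, mem_union, mem_filter, mem_product, mem_image, mem_Ioc,
      Prod.mk.injEq]
    by_cases hi : 0 < i
    · by_cases hj : 0 < j
      · by_cases hc : Nat.Coprime i j
        · left; exact ⟨hp, hi, hj, hc⟩
        · right; left; exact ⟨⟨⟨hi, h1⟩, hj, h2⟩, hc⟩
      · right; right; left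
        exact ⟨i, ⟨by omega, h1⟩, rfl, by omega⟩
    · right; right; right
      exact ⟨j, ⟨by omega, h2⟩, by omega, rfl⟩
  refine le_trans (card_le_card hsub) (le_trans (card_union_le _ _) ?_)
  have := card_union_le (ncSet I J) (A1 ∪ A2)
  have := card_union_le A1 A2
  omega

open Classical in
lemma card_right (J m : ℕ) :
    (J - 1) ≤ ((cpSet J).filter (fun p => p.2 ≤ m ∨ p.2 = p.1 + 1)).card := by
  have h : (Ioc 1 J).image (fun b => (b - 1, b)) ⊆
      (cpSet J).filter (fun p => p.2 ≤ m ∨ p.2 = p.1 + 1) := by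
    intro p hp
    rw [mem_image] at hp
    obtain ⟨b, hb, rfl⟩ := hp
    rw [mem_Ioc] at hb
    simp only [cpSet, mem_filter, mem_product, mem_Ioc]
    refine ⟨⟨⟨⟨by omega, by omega⟩, by omega, by omega⟩, by omega, ?_⟩, Or.inr (by omega)⟩
    obtain ⟨c, rfl⟩ : ∃ c, b = c + 1 := ⟨b - 1, by omega⟩
    rw [Nat.add_sub_cancel]
    exact Nat.coprime_self_add_right.2 (Nat.coprime_one_right c)
  have h2 := card_le_card h
  rw [card_image_of_injective, Nat.card_Ioc] at h2
  · exact h2
  · intro a b hab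
    simp only [Prod.mk.injEq] at hab
    exact hab.2

open Classical in
lemma card_right' (J m : ℕ) (hm : m ≤ J) :
    (cpSet m).card + (J - m) ≤ ((cpSet J).filter (fun p => p.2 ≤ m ∨ p.2 = p.1 + 1)).card + 1 := by
  have h : cpSet m ∪ (Ioc (max 1 m) J).image (fun b => (b - 1, b)) ⊆
      (cpSet J).filter (fun p => p.2 ≤ m ∨ p.2 = p.1 + 1) := by
    intro p hp
    rw [mem_union] at hp
    rcases hp with hp | hp
    · simp only [cpSet, mem_filter, mem_product, mem_Ioc] at hp ⊢
      omega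
    · rw [mem_image] at hp
      obtain ⟨b, hb, rfl⟩ := hp
      rw [mem_Ioc] at hb
      simp only [cpSet, mem_filter, mem_product, mem_Ioc]
      refine ⟨⟨⟨⟨by omega, by omega⟩, by omega, by omega⟩, by omega, ?_⟩, Or.inr (by omega)⟩
      obtain ⟨c, rfl⟩ : ∃ c, b = c + 1 := ⟨b - 1, by omega⟩
      rw [Nat.add_sub_cancel]
      exact Nat.coprime_self_add_right.2 (Nat.coprime_one_right c)
  have h2 := card_le_card h
  rw [card_union_of_disjoint, card_image_of_injective, Nat.card_Ioc] at h2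
  · omega
  · intro a b hab
    simp only [Prod.mk.injEq] at hab
    exact hab.2
  · rw [disjoint_left]
    rintro ⟨a, b⟩ h3 h4
    simp only [cpSet, mem_filter, mem_product, mem_Ioc] at h3
    simp only [mem_image, mem_Ioc, Prod.mk.injEq] at h4
    obtain ⟨c, hc, h5, h6⟩ := h4
    omega

/-- the count for one scale -/
lemma card_scale (R : Finset (ℕ × ℕ)) (hR : ∀ p ∈ R, 2 ≤ p.1 + p.2) (N L d : ℕ) (x : ℤ)
    (hd : 1 ≤ d) (_hx1 : 1 ≤ x) (hxL : x < L) (hLN : 100 * L ≤ N)
    (h1 : ∀ p ∈ R, (p.1 : ℤ) * d ≤ x - 1) (h2 : ∀ p ∈ R, (p.2 : ℤ) * d ≤ N - x) :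
    R.card ≤ (lab R (((N - L - x) / d).toNat)).card + if 2 * (d : ℤ) ≤ x - 1 then 1 else 0 := by
  classical
  by_cases hne : R.Nonempty
  swap
  · rw [not_nonempty_iff_eq_empty] at hne
    rw [hne]; simp
  have hq := card_lab R (((N - L - x) / d).toNat)
  have hRR := card_R R hR
  obtain ⟨p1, hp1, hI⟩ := exists_fst hne
  obtain ⟨p2, hp2, hJ⟩ := exists_snd hne
  have hI' := h1 p1 hp1
  have hJ' := h2 p2 hp2
  rw [hI] at hI'
  rw [hJ] at hJ'
  set I := R.sup Prod.fst with hIdef
  set J := R.sup Prod.snd with hJdef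
  set m : ℤ := (N - L - x) / d with hm
  have hdpos : (0 : ℤ) < d := by omega
  have hm0 : 0 ≤ m := Int.ediv_nonneg (by omega) hdpos.le
  obtain ⟨M, hM⟩ : ∃ M : ℕ, m = M := ⟨m.toNat, (Int.toNat_of_nonneg hm0).symm⟩
  rw [hM, Int.toNat_natCast] at hq ⊢
  have hm1 : (M : ℤ) * d ≤ N - L - x := by
    rw [← hM, hm]; exact Int.ediv_mul_le _ hdpos.ne'
  have hm2 : N - L - x < ((M : ℤ) + 1) * d := by
    have := Int.lt_ediv_add_one_mul_self (N - L - x : ℤ) hdpos
    rw [← hm, hM] at this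
    exact this
  have hpI := pred_le_cpSet I
  have hrJ := card_right J M
  by_cases hI2 : 2 ≤ I
  swap
  · -- no non-coprime pairs
    have hnc : (ncSet I J).card = 0 := by
      rw [card_eq_zero, eq_empty_iff_forall_notMem]
      intro p hp
      simp only [ncSet, mem_filter, mem_product, mem_Ioc] at hp
      obtain ⟨⟨⟨h4, h5⟩, h6, h7⟩, h8⟩ := hp
      apply h8
      have : p.1 = 1 := by omega
      rw [this]; exact Nat.coprime_one_left _
    omega
  have hdx : 2 * (d : ℤ) ≤ x - 1 := by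
    have : (2 : ℤ) * d ≤ I * d := mul_le_mul_of_nonneg_right (by omega) (by omega)
    omega
  rw [if_pos hdx]
  by_cases hJM : J ≤ M
  · -- all right pairs are good
    have h5 : (cpSet J).filter (fun p => p.2 ≤ M ∨ p.2 = p.1 + 1) = cpSet J := by
      rw [filter_eq_self]
      intro p hp
      simp only [cpSet, mem_filter, mem_product, mem_Ioc] at hp
      left; omega
    rw [h5] at hq
    by_cases hJ2 : 2 ≤ J
    · have := nc_ineq' I J hI2 hJ2
      omega
    · have hnc : (ncSet I J).card = 0 := by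
        rw [card_eq_zero, eq_empty_iff_forall_notMem]
        intro p hp
        simp only [ncSet, mem_filter, mem_product, mem_Ioc] at hp
        obtain ⟨⟨⟨h4, h5⟩, h6, h7⟩, h8⟩ := hp
        apply h8
        have : p.2 = 1 := by omega
        rw [this]; exact Nat.coprime_one_right _
      omega
  · push Not at hJM
    have hr := card_right' J M hJM.le
    have hncl := nc_le I J
    -- M ≥ 97 I, J ≤ 2 M
    have hMI : 97 * (I : ℤ) ≤ M := by
      by_contra hcon
      push Not at hcon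
      have h6 : ((M : ℤ) + 1) * d ≤ (97 * I) * d := mul_le_mul_of_nonneg_right (by omega) (by omega)
      have h7 : (97 * (I : ℤ)) * d = 97 * (I * d) := by ring
      omega
    have hJM2 : (J : ℤ) ≤ 2 * M := by
      by_contra hcon
      push Not at hcon
      have h6 : (2 * (M : ℤ) + 1) * d ≤ J * d := mul_le_mul_of_nonneg_right (by omega) (by omega)
      have h7 : (2 * (M : ℤ) + 1) * d = 2 * (((M : ℤ) + 1) * d) - d := by ring
      omega
    have hM2 : 2 ≤ M := by omega
    have hcp := cp_lower M hM2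
    have hMI' : 97 * I ≤ M := by omega
    have hJM2' : J ≤ 2 * M := by omega
    have h8 : I * J ≤ I * (2 * M) := Nat.mul_le_mul_left _ hJM2'
    have h9 : 97 * (I * M) ≤ M * M := by
      have := Nat.mul_le_mul_right M hMI'
      calc 97 * (I * M) = 97 * I * M := by ring
        _ ≤ M * M := this
    have h10 : I * (2 * M) = 2 * (I * M) := by ring
    have h11 : M ^ 2 = M * M := by ring
    have h12 : 194 * M ≤ M * M := Nat.mul_le_mul_right M (by omega)
    omega

end NearC

open Classical in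
/-- P9c NearC.lean -/
theorem card_ap_near {N L : ℕ} {F : Finset (Finset ℤ)} (hF : Admissible N F) {x : ℤ}
    (hx1 : 1 ≤ x) (hxL : x < L) (hLN : 100 * L ≤ N)
    (hcore : ∀ B ∈ F, x ∉ B → Icc (L : ℤ) (N - L) ⊆ B) :
    (F.filter (fun A => x ∈ A ∧ IsAP A)).card ≤
      ((prs N x).filter (fun p => Oml F x p ∧ ¬ Kmix F x p)).card + N + L := by
  obtain ⟨hsub, hint⟩ := hF
  have hxm : x ∈ Icc (1 : ℤ) N := by rw [mem_Icc]; omega
  set Fs := F.filter (fun A => x ∈ A ∧ A.card ≤ 2) with hFs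
  set Fa := F.filter (fun A => x ∈ A ∧ IsAP A ∧ 3 ≤ A.card) with hFa
  have hcover : (F.filter (fun A => x ∈ A ∧ IsAP A)).card ≤ Fs.card + Fa.card := by
    refine le_trans (card_le_card ?_) (card_union_le _ _)
    intro A hA
    simp only [hFs, hFa, mem_union, mem_filter] at hA ⊢
    by_cases h1 : A.card ≤ 2
    · left; exact ⟨hA.1, hA.2.1, h1⟩
    · right; exact ⟨hA.1, hA.2.1, hA.2.2, by omega⟩
  -- small sets
  have hFsc : Fs.card ≤ N := by
    have h1 : Fs ⊆ (Icc (1 : ℤ) N).image (fun y => {(x : ℤ), y}) := by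
      intro A hA
      rw [hFs, mem_filter] at hA
      obtain ⟨hA, hxA, hc⟩ := hA
      rw [mem_image]
      by_cases h2 : (A.erase x).Nonempty
      · obtain ⟨y, hy⟩ := h2
        have hy' := mem_erase.1 hy
        refine ⟨y, hsub A hA hy'.2, ?_⟩
        apply eq_of_subset_of_card_le
        · intro t ht
          simp only [mem_insert, mem_singleton] at ht
          rcases ht with rfl | rfl
          · exact hxA
          · exact hy'.2
        · rw [card_pair hy'.1.symm]; exact hc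
      · rw [not_nonempty_iff_eq_empty] at h2
        refine ⟨x, hxm, ?_⟩
        rw [← insert_erase hxA, h2]
        simp
    have h2 := le_trans (card_le_card h1) card_image_le
    rw [Int.card_Icc] at h2
    omega
  -- the progressions
  set R : ℕ → Finset (ℕ × ℕ) := fun d => ((range (N + 1)) ×ˢ (range (N + 1))).filter
    (fun p => 2 ≤ p.1 + p.2 ∧ seg x d p.1 p.2 ∈ F) with hR
  have hFa1 : Fa.card ≤ ∑ d ∈ Icc 1 N, (R d).card := by
    have h1 : Fa ⊆ (Icc 1 N).biUnion (fun d => (R d).image (fun p => seg x d p.1 p.2)) := by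
      intro P hP
      obtain ⟨hPF, hxP, hPAP, hc⟩ := mem_filter.1 hP
      obtain ⟨d, hd, i, hi, j, hj, hij, rfl⟩ := exists_seg hPAP hxP hc (hsub P hPF)
      simp only [mem_biUnion, mem_image]
      refine ⟨d, hd, (i, j), ?_, rfl⟩
      simp only [hR, mem_filter, mem_product]
      exact ⟨⟨hi, hj⟩, hij, hPF⟩
    refine le_trans (card_le_card h1) (le_trans card_biUnion_le ?_)
    apply sum_le_sum
    intro d _
    exact card_image_le
  set mm : ℕ → ℕ := fun d => (((N : ℤ) - L - x) / d).toNat with hmm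
  have hbound : ∀ d ∈ Icc 1 N, ∀ p ∈ R d, (p.1 : ℤ) * d ≤ x - 1 ∧ (p.2 : ℤ) * d ≤ N - x := by
    intro d hd p hp
    simp only [hR, mem_filter, mem_product] at hp
    have h3 := hp.2.2
    have h4 : x + (-(p.1 : ℤ)) * d ∈ seg x d p.1 p.2 := mem_seg.2 ⟨-(p.1 : ℤ), by omega, by omega, rfl⟩
    have h5 : x + (p.2 : ℤ) * d ∈ seg x d p.1 p.2 := mem_seg.2 ⟨p.2, by omega, by omega, rfl⟩
    have h6 := mem_Icc.1 (hsub _ h3 h4)
    have h7 := mem_Icc.1 (hsub _ h3 h5)
    have h8 : (-(p.1 : ℤ)) * d = -((p.1 : ℤ) * d) := by ring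
    omega
  have hFa2 : ∑ d ∈ Icc 1 N, (R d).card ≤ ∑ d ∈ Icc 1 N, (NearC.lab (R d) (mm d)).card +
      ∑ d ∈ Icc 1 N, (if 2 * (d : ℤ) ≤ x - 1 then 1 else 0) := by
    rw [← sum_add_distrib]
    apply sum_le_sum
    intro d hd
    refine NearC.card_scale (R d) (fun p hp => ?_) N L d x (mem_Icc.1 hd).1 hx1 hxL hLN
      (fun p hp => (hbound d hd p hp).1) (fun p hp => (hbound d hd p hp).2)
    exact (mem_filter.1 hp).2.1
  have hFa3 : ∑ d ∈ Icc 1 N, (if 2 * (d : ℤ) ≤ x - 1 then 1 else 0) ≤ L := by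
    rw [← card_filter]
    have h1 : (Icc 1 N).filter (fun d : ℕ => 2 * (d : ℤ) ≤ x - 1) ⊆ Icc 1 L := by
      intro d hd
      rw [mem_filter, mem_Icc] at hd
      rw [mem_Icc]
      omega
    have h2 := card_le_card h1
    rw [Nat.card_Icc] at h2
    omega
  have hFa4 : ∑ d ∈ Icc 1 N, (NearC.lab (R d) (mm d)).card ≤
      ((prs N x).filter (fun p => Oml F x p ∧ ¬ Kmix F x p)).card := by
    rw [← card_sigma]
    apply card_le_card_of_injOn
      (fun q : (Σ _ : ℕ, ℤ × ℤ) => ((x : ℤ) + q.2.1 * q.1, (x : ℤ) + q.2.2 * q.1))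
    · rintro ⟨d, a, b⟩ hq
      rw [mem_coe, mem_sigma] at hq
      obtain ⟨hd, hab'⟩ := hq
      have hd' : 1 ≤ d ∧ d ≤ N := mem_Icc.1 hd
      rw [NearC.lab, mem_filter] at hab'
      obtain ⟨hab, hgood⟩ := hab'
      obtain ⟨h1, h2, h3, h4, ⟨i, j⟩, hp, h5, h6⟩ := mem_cop hab
      simp only at h5 h6
      have hp' := hp
      simp only [hR, mem_filter, mem_product] at hp'
      obtain ⟨_, hij, hPF⟩ := hp'
      have hya : (x : ℤ) + a * d ∈ seg x d i j := mem_seg.2 ⟨a, h5, by omega, rfl⟩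
      have hyb : (x : ℤ) + b * d ∈ seg x d i j := mem_seg.2 ⟨b, by omega, h6, rfl⟩
      have hxs : x ∈ seg x d i j := mem_seg.2 ⟨0, by omega, by omega, by ring⟩
      have hd0 : (0 : ℤ) < d := by omega
      have hane : a * d ≠ 0 := mul_ne_zero h2 (by omega)
      have hbne : b * d ≠ 0 := mul_ne_zero h3 (by omega)
      have hlt : a * d < b * d := mul_lt_mul_of_pos_right h1 hd0
      have hya' := mem_Icc.1 (hsub _ hPF hya)
      have hyb' := mem_Icc.1 (hsub _ hPF hyb)
      show ((x : ℤ) + a * d, (x : ℤ) + b * d) ∈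
        (((prs N x).filter (fun p => Oml F x p ∧ ¬ Kmix F x p) : Finset (ℤ × ℤ)) : Set (ℤ × ℤ))
      rw [mem_coe, mem_filter, mem_prs]
      refine ⟨⟨⟨hya'.1, hya'.2, by show x + a * d ≠ x; omega⟩,
        ⟨hyb'.1, hyb'.2, by show x + b * d ≠ x; omega⟩, by show x + a * d < x + b * d; omega⟩,
        ⟨seg x d i j, hPF, ?_, hxs, hya, hyb⟩, ?_⟩
      · refine ⟨x + (-(i : ℤ)) * d, d, i + j + 1, by omega, by omega, ?_⟩
        ext t
        rw [mem_seg]
        simp only [mem_image, mem_range]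
        constructor
        · rintro ⟨k, hk1, hk2, rfl⟩
          refine ⟨(k + i).toNat, by omega, ?_⟩
          rw [Int.toNat_of_nonneg (by omega)]
          ring
        · rintro ⟨k, hk, rfl⟩
          exact ⟨(k : ℤ) - i, by omega, by omega, by ring⟩
      · rintro ⟨hk1, a', b', hk2, hk3, hk4, hk5⟩
        simp only at hk1 hk4 hk5
        have hxn : x ∉ Icc a' b' := by
          rw [mem_Icc]; omega
        have hc := hcore _ hk3 hxn
        have hc1 := mem_Icc.1 (hc (mem_Icc.2 ⟨le_refl _, by omega⟩ : (L : ℤ) ∈ Icc (L : ℤ) (N - L)))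
        have hc2 := mem_Icc.1 (hc (mem_Icc.2 ⟨by omega, le_refl _⟩ :
          (N : ℤ) - L ∈ Icc (L : ℤ) (N - L)))
        have ha0 : 0 < a := by
          by_contra hcon
          push Not at hcon
          have : a * d ≤ 0 * d := mul_le_mul_of_nonneg_right hcon hd0.le
          omega
        rcases hgood with hg | hg | hg
        · simp only at hg
          omega
        · simp only at hg
          have hm0 : 0 ≤ ((N : ℤ) - L - x) / d := Int.ediv_nonneg (by omega) hd0.le
          have hg' : b ≤ ((N : ℤ) - L - x) / d := by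
            have h7 : ((mm d : ℕ) : ℤ) = ((N : ℤ) - L - x) / d := Int.toNat_of_nonneg hm0
            rw [← h7]; exact hg
          have h8 : b * d ≤ N - L - x := (Int.le_ediv_iff_mul_le hd0).1 hg'
          omega
        · simp only at hg
          subst hg
          have h9 : (a + 1) * (d : ℤ) = a * d + d := by ring
          have h10 : 1 * (d : ℤ) ≤ a * d := mul_le_mul_of_nonneg_right (by omega) hd0.le
          omega
    · rintro ⟨d, a, b⟩ hq ⟨d', a', b'⟩ hq' heq
      rw [mem_coe, mem_sigma] at hq hq'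
      obtain ⟨hd, hab⟩ := hq
      obtain ⟨hd', hab'⟩ := hq'
      have hd1 : 1 ≤ d := (mem_Icc.1 hd).1
      have hd1' : 1 ≤ d' := (mem_Icc.1 hd').1
      obtain ⟨_, _, _, hg, _⟩ := mem_cop (mem_filter.1 hab).1
      obtain ⟨_, _, _, hg', _⟩ := mem_cop (mem_filter.1 hab').1
      have heq' : ((x : ℤ) + a * d, (x : ℤ) + b * d) = ((x : ℤ) + a' * d', (x : ℤ) + b' * d') := heq
      simp only [Prod.mk.injEq] at heq'
      have e1 : a * d = a' * d' := by omega
      have e2 : b * d = b' * d' := by omega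
      have g1 : Int.gcd (a * d) (b * d) = d := by
        rw [Int.gcd_mul_right, hg]; simp
      have g2 : Int.gcd (a' * d') (b' * d') = d' := by
        rw [Int.gcd_mul_right, hg']; simp
      have hdd : d = d' := by rw [← g1, ← g2, e1, e2]
      subst hdd
      have hd0 : (d : ℤ) ≠ 0 := by omega
      have ha : a = a' := mul_right_cancel₀ hd0 e1
      have hb : b = b' := mul_right_cancel₀ hd0 e2
      rw [ha, hb]
  omega

end Pool.Agent.APLarge
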