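import Pool.Agent.APInt.Upper
import Pool.Agent.APLarge.APCount
import Pool.Agent.APLarge.Center
import Pool.Agent.APLarge.NearM
import Pool.Agent.APLarge.NearB
import Pool.Agent.APLarge.NearC
import Pool.Agent.APLarge.Mirror
import Pool.Agent.APLarge.Far

set_option autoImplicit false

namespace Pool.Agent.APLarge

open Finset Pool.Agent.APInt

/-! ## near_bound -/

open Classical in
/-- non-progressions through `x` are at most as many as the pairs neither `Kmix` nor `Oml` -/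
lemma Final.card_nonAP {N L : ℕ} {F : Finset (Finset ℤ)} (hF : Admissible N F) {x : ℤ}
    (hx1 : 1 ≤ x) (hxL : x < L) (hLN : 100 * L ≤ N)
    (hcore : ∀ B ∈ F, x ∉ B → Icc (L : ℤ) (N - L) ⊆ B) :
    (F.filter (fun A => x ∈ A ∧ ¬ IsAP A)).card ≤
      ((prs N x).filter (fun p => ¬ Kmix F x p ∧ ¬ Oml F x p)).card := by
  have h1 : ∀ A ∈ F.filter (fun A => x ∈ A ∧ ¬ IsAP A), ∃ p : ℤ × ℤ,
      p.1 < p.2 ∧ Own x A p.1 p.2 ∧ ¬ Kmix F x p := by
    intro A hA
    rw [mem_filter] at hA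
    obtain ⟨y, z, h1, h2, h3⟩ := lemma_M hF hx1 hxL hLN hcore hA.1 hA.2.1 hA.2.2
    exact ⟨(y, z), h1, h2, h3⟩
  choose! f hf using h1
  apply card_le_card_of_injOn f
  · intro A hA
    have hA' := hA
    rw [mem_coe, mem_filter] at hA'
    obtain ⟨h2, h3, h4⟩ := hf A hA
    rw [mem_coe, mem_filter]
    refine ⟨?_, h4, ?_⟩
    · exact h3.mem_prs (hF.1 A hA'.1) h2
    · rintro ⟨P, hP, hPA, hxP, h5, h6⟩
      have hne : A ≠ P := by
        rintro rfl
        exact hA'.2.2 hPA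
      exact h3.exclusive hF hA'.1 hP hne hxP hA'.2.1 ⟨h5, h6⟩
  · intro A hA B hB hAB
    by_contra hne
    have hA' := hA
    have hB' := hB
    rw [mem_coe, mem_filter] at hA' hB'
    have h3 := (hf A hA).2.1
    have h4 := (hf B hB).2.1
    refine h3.exclusive hF hA'.1 hB'.1 hne hB'.2.1 hA'.2.1 ?_
    rw [hAB]
    exact ⟨h4.1, h4.2.1⟩

/-- P9d Near.lean -/
theorem near_bound {N L : ℕ} {F : Finset (Finset ℤ)} (hF : Admissible N F) {x : ℤ}
    (hx1 : 1 ≤ x) (hxL : x < L) (hLN : 100 * L ≤ N)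
    (hcore : ∀ B ∈ F, x ∉ B → Icc (L : ℤ) (N - L) ⊆ B) :
    F.card ≤ N.choose 2 + 1 + (N - 1) / 4 := by
  classical
  have h1 := card_missing hF hx1 hxL hLN hcore
  have h2 := card_ap_near hF hx1 hxL hLN hcore
  have h3 := Final.card_nonAP hF hx1 hxL hLN hcore
  have h4 : F.card = (F.filter (fun A => x ∉ A)).card +
      ((F.filter (fun A => x ∈ A ∧ IsAP A)).card + (F.filter (fun A => x ∈ A ∧ ¬ IsAP A)).card) := by
    rw [← card_filter_add_card_filter_not (s := F) (fun A => x ∉ A)]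
    congr 1
    rw [← card_filter_add_card_filter_not (s := F.filter (fun A => ¬ x ∉ A)) (fun A => IsAP A)]
    rw [filter_filter, filter_filter]
    congr 2
    · ext A; simp
    · ext A; simp
  have h5 : ((prs N x).filter (fun p => Kmix F x p)).card +
      (((prs N x).filter (fun p => Oml F x p ∧ ¬ Kmix F x p)).card +
      ((prs N x).filter (fun p => ¬ Kmix F x p ∧ ¬ Oml F x p)).card) = (prs N x).card := by
    rw [← card_filter_add_card_filter_not (s := prs N x) (fun p => Kmix F x p)]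
    congr 1
    rw [← card_filter_add_card_filter_not (s := (prs N x).filter (fun p => ¬ Kmix F x p))
      (fun p => Oml F x p)]
    rw [filter_filter, filter_filter]
    congr 2
    ext p; simp only [mem_filter]; tauto
  have hxN : x ∈ Icc (1 : ℤ) N := by rw [mem_Icc]; omega
  have h6 := card_prs hxN
  have h7 : N.choose 2 = (N - 1).choose 2 + (N - 1) := by
    obtain ⟨n, rfl⟩ : ∃ n, N = n + 1 := ⟨N - 1, by omega⟩
    rw [Nat.choose_succ_succ' n 1]
    simp
    omega
  omega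

/-! ## upper_large -/

/-- a progression with many elements is an interval -/
lemma Final.interval_of_card {N : ℕ} {P : Finset ℤ} (hP : IsAP P) (hPN : P ⊆ Icc (1 : ℤ) N)
    (hc : N + 3 ≤ 2 * P.card) : ∃ a b : ℤ, a ≤ b ∧ P = Icc a b := by
  obtain ⟨a, d, b, hd, hab, hdvd, h⟩ := (isAP_iff P).1 hP
  by_cases hd1 : d = 1
  · subst hd1
    refine ⟨a, b, hab, ?_⟩
    ext t
    rw [h t, mem_Icc]
    simp
  · exfalso
    -- the map `t ↦ t / 2` is injective on `P`
    have h1 : P.card ≤ (Icc (0 : ℤ) (N / 2)).card := by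
      apply card_le_card_of_injOn (fun t => t / 2)
      · intro t ht
        have := hPN ht
        rw [mem_Icc] at this
        rw [mem_coe, mem_Icc]
        show 0 ≤ t / 2 ∧ t / 2 ≤ (N : ℤ) / 2
        omega
      · intro s hs t ht hst
        have h2 := (h s).1 hs
        have h3 := (h t).1 ht
        have h4 : d ∣ s - t := by
          have := dvd_sub h2.1 h3.1
          simpa using this
        obtain ⟨k, hk⟩ := h4
        simp only at hst
        have h5 : -1 ≤ s - t ∧ s - t ≤ 1 := by omega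
        by_contra hne
        have hk0 : k ≠ 0 := by
          rintro rfl
          rw [mul_zero] at hk
          omega
        have hd2 : 2 ≤ d := by omega
        rcases lt_or_gt_of_ne hk0 with hk1 | hk1
        · have : d * k ≤ d * (-1) := mul_le_mul_of_nonneg_left (by omega) (by omega)
          omega
        · have : d * 1 ≤ d * k := mul_le_mul_of_nonneg_left (by omega) (by omega)
          omega
    rw [Int.card_Icc] at h1
    have h6 : ((N / 2 : ℤ) + 1 - 0).toNat ≤ N / 2 + 1 := by omega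
    omega

/-- two large members missing `x` -/
lemma Final.two_miss {N : ℕ} {F : Finset (Finset ℤ)} (hF : Admissible N F) {x : ℤ}
    (hx : x ∈ Icc (1 : ℤ) N) (hN : 2000 ≤ N)
    (hsmall : ∀ B ∈ F, x ∉ B → 250 * (((Icc (1 : ℤ) N).erase x) \ B).card < N)
    {B1 B2 : Finset ℤ} (hB1 : B1 ∈ F) (hB2 : B2 ∈ F) (hne : B1 ≠ B2) (h1 : x ∉ B1)
    (h2 : x ∉ B2) : ∃ a b : ℤ, B1 ∩ B2 = Icc a b ∧ 1 ≤ a ∧ b ≤ N ∧ 125 * a ≤ 250 + N ∧
      125 * N - 125 - N ≤ 125 * b := by
  have hP := hF.2 B1 hB1 B2 hB2 hne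
  have hsub : B1 ∩ B2 ⊆ Icc (1 : ℤ) N := inter_subset_left.trans (hF.1 B1 hB1)
  have hc : N ≤ (B1 ∩ B2).card + 1 + ((((Icc (1 : ℤ) N).erase x) \ B1).card +
      (((Icc (1 : ℤ) N).erase x) \ B2).card) := by
    have h3 : Icc (1 : ℤ) N ⊆ ((B1 ∩ B2) ∪ {x}) ∪ ((((Icc (1 : ℤ) N).erase x) \ B1) ∪
      (((Icc (1 : ℤ) N).erase x) \ B2)) := by
      intro t ht
      by_cases htx : t = x
      · subst htx; simp
      by_cases ht1 : t ∈ B1
      · by_cases ht2 : t ∈ B2
        · simp [ht1, ht2]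
        · apply mem_union_right
          apply mem_union_right
          rw [mem_sdiff, mem_erase]
          exact ⟨⟨htx, ht⟩, ht2⟩
      · apply mem_union_right
        apply mem_union_left
        rw [mem_sdiff, mem_erase]
        exact ⟨⟨htx, ht⟩, ht1⟩
    have h4 := card_le_card h3
    have h5 := card_union_le ((B1 ∩ B2) ∪ {x}) ((((Icc (1 : ℤ) N).erase x) \ B1) ∪
      (((Icc (1 : ℤ) N).erase x) \ B2))
    have h6 := card_union_le (B1 ∩ B2) {x}
    have h7 := card_union_le (((Icc (1 : ℤ) N).erase x) \ B1) (((Icc (1 : ℤ) N).erase x) \ B2)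
    rw [Int.card_Icc] at h4
    rw [card_singleton] at h6
    omega
  have hs1 := hsmall B1 hB1 h1
  have hs2 := hsmall B2 hB2 h2
  obtain ⟨a, b, hab, hPI⟩ := Final.interval_of_card hP hsub (by omega)
  have ha : a ∈ Icc (1 : ℤ) N := hsub (by rw [hPI, mem_Icc]; omega)
  have hb : b ∈ Icc (1 : ℤ) N := hsub (by rw [hPI, mem_Icc]; omega)
  rw [mem_Icc] at ha hb
  refine ⟨a, b, hPI, ha.1, hb.2, ?_, ?_⟩
  · rw [hPI, Int.card_Icc] at hc
    omega
  · rw [hPI, Int.card_Icc] at hc
    omega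

/-- two large members missing `x`, to the right of `x` -/
lemma Final.left_case {N : ℕ} {F : Finset (Finset ℤ)} (hF : Admissible N F) {x : ℤ}
    (hx : x ∈ Icc (1 : ℤ) N) (hN : 2000 ≤ N)
    (hsmall : ∀ B ∈ F, x ∉ B → 250 * (((Icc (1 : ℤ) N).erase x) \ B).card < N)
    {B1 B2 : Finset ℤ} (hB1 : B1 ∈ F) (hB2 : B2 ∈ F) (hne : B1 ≠ B2) (h1 : x ∉ B1)
    (h2 : x ∉ B2) (hxs : 125 * x ≤ 250 + N) : F.card ≤ N.choose 2 + 1 + (N - 1) / 4 := by
  rw [mem_Icc] at hx
  apply near_bound (L := N / 100) hF hx.1 (by omega) (by omega)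
  intro B hB hxB t ht
  rw [mem_Icc] at ht
  obtain ⟨B', hB', hne', hxB'⟩ : ∃ B' ∈ F, B ≠ B' ∧ x ∉ B' := by
    by_cases h : B = B1
    · exact ⟨B2, hB2, by rw [h]; exact hne, h2⟩
    · exact ⟨B1, hB1, h, h1⟩
  obtain ⟨a, b, h3, h4, h5, h6, h7⟩ := Final.two_miss hF (mem_Icc.2 hx) hN hsmall hB hB' hne' hxB
    hxB'
  have h8 : t ∈ B ∩ B' := by
    rw [h3, mem_Icc]
    omega
  exact (mem_inter.1 h8).1

lemma Final.card_sdiff_mir {N : ℕ} (x : ℤ) (B : Finset ℤ) :
    (((Icc (1 : ℤ) N).erase (N + 1 - x)) \ B).card =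
      (((Icc (1 : ℤ) N).erase x) \ mir N B).card := by
  rw [← card_mir N (((Icc (1 : ℤ) N).erase (N + 1 - x)) \ B)]
  congr 1
  ext t
  rw [mem_mir, mem_sdiff, mem_sdiff, mem_erase, mem_erase, mem_mir, mem_Icc, mem_Icc]
  constructor
  · rintro ⟨⟨h1, h2⟩, h3⟩
    exact ⟨⟨by omega, by omega⟩, h3⟩
  · rintro ⟨⟨h1, h2⟩, h3⟩
    exact ⟨⟨by omega, by omega⟩, h3⟩

/-- two large members missing `x` -/
lemma Final.two_case {N : ℕ} {F : Finset (Finset ℤ)} (hF : Admissible N F) {x : ℤ}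
    (hx : x ∈ Icc (1 : ℤ) N) (hN : 2000 ≤ N)
    (hsmall : ∀ B ∈ F, x ∉ B → 250 * (((Icc (1 : ℤ) N).erase x) \ B).card < N)
    {B1 B2 : Finset ℤ} (hB1 : B1 ∈ F) (hB2 : B2 ∈ F) (hne : B1 ≠ B2) (h1 : x ∉ B1)
    (h2 : x ∉ B2) : F.card ≤ N.choose 2 + 1 + (N - 1) / 4 := by
  obtain ⟨a, b, h3, h4, h5, h6, h7⟩ := Final.two_miss hF hx hN hsmall hB1 hB2 hne h1 h2
  have hxI : x ∉ Icc a b := by
    rw [← h3, mem_inter]
    tauto
  rw [mem_Icc] at hxI
  by_cases hxa : x < a
  · exact Final.left_case hF hx hN hsmall hB1 hB2 hne h1 h2 (by omega)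
  · have hxb : b < x := by omega
    rw [← card_mirF N F]
    have hxm : (N : ℤ) + 1 - ((N : ℤ) + 1 - x) = x := by ring
    rw [mem_Icc] at hx
    apply Final.left_case (x := N + 1 - x) (B1 := mir N B1) (B2 := mir N B2) (admissible_mir hF)
      (by rw [mem_Icc]; omega) hN
    · intro B hB hxB
      rw [mem_mirF] at hB
      rw [Final.card_sdiff_mir]
      apply hsmall _ hB
      rw [mem_mir]
      exact hxB
    · rw [mem_mirF, mir_mir]; exact hB1
    · rw [mem_mirF, mir_mir]; exact hB2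
    · intro h
      apply hne
      rw [← mir_mir N B1, h, mir_mir]
    · rw [mem_mir, hxm]; exact h1
    · rw [mem_mir, hxm]; exact h2
    · omega

lemma Final.star_case {N : ℕ} {F : Finset (Finset ℤ)} (hF : Admissible N F) {x : ℤ}
    (hx : x ∈ Icc (1 : ℤ) N) (hxF : ∀ A ∈ F, x ∈ A) : F.card ≤ N.choose 2 + 1 + (N - 1) / 4 := by
  rw [mem_Icc] at hx
  obtain ⟨m, rfl⟩ : ∃ m : ℕ, (m : ℤ) = x := ⟨x.toNat, Int.toNat_of_nonneg (by omega)⟩
  have h := star_upper N m (by omega) (by omega) F hF hxF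
  omega

lemma Final.one_case {N : ℕ} {F : Finset (Finset ℤ)} (hF : Admissible N F) {x : ℤ}
    (hx : x ∈ Icc (1 : ℤ) N) {B : Finset ℤ} (hB : B ∈ F) (hxB : x ∉ B)
    (huniq : ∀ A ∈ F, x ∉ A → A = B) : F.card ≤ N.choose 2 + 1 + (N - 1) / 4 := by
  have hsing : ∀ A : Finset ℤ, x ∈ A → IsAP ({x} ∩ A) := by
    intro A hA
    have : ({x} : Finset ℤ) ∩ A = {x} := by
      ext t
      simp only [mem_inter, mem_singleton]
      constructor
      · exact fun h => h.1
      · rintro rfl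
        exact ⟨rfl, hA⟩
    rw [this]
    exact ⟨x, 1, 1, le_refl _, le_refl _, by simp⟩
  have hxF : ({x} : Finset ℤ) ∉ F := by
    intro h
    have hne : ({x} : Finset ℤ) ≠ B := by
      rintro rfl
      exact hxB (mem_singleton_self x)
    have h1 := (hF.2 _ h _ hB hne).nonempty
    obtain ⟨t, ht⟩ := h1
    rw [mem_inter, mem_singleton] at ht
    exact hxB (ht.1 ▸ ht.2)
  have hmem : ∀ A ∈ F.erase B, x ∈ A := by
    intro A hA
    rw [mem_erase] at hA
    by_contra hcon
    exact hA.1 (huniq A hA.2 hcon)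
  have hadm : Admissible N (insert {x} (F.erase B)) := by
    constructor
    · intro A hA
      rw [mem_insert] at hA
      rcases hA with rfl | hA
      · intro t ht
        rw [mem_singleton] at ht
        rw [ht]; exact hx
      · exact hF.1 A (mem_of_mem_erase hA)
    · intro A hA C hC hne
      rw [mem_insert] at hA hC
      rcases hA with rfl | hA
      · rcases hC with rfl | hC
        · exact absurd rfl hne
        · exact hsing C (hmem C hC)
      · rcases hC with rfl | hC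
        · rw [inter_comm]
          exact hsing A (hmem A hA)
        · exact hF.2 A (mem_of_mem_erase hA) C (mem_of_mem_erase hC) hne
  have h1 := Final.star_case hadm hx (by
    intro A hA
    rw [mem_insert] at hA
    rcases hA with rfl | hA
    · exact mem_singleton_self x
    · exact hmem A hA)
  rw [card_insert_of_notMem (fun h => hxF (mem_of_mem_erase h)), card_erase_of_mem hB] at h1
  have h2 : 1 ≤ F.card := card_pos.2 ⟨B, hB⟩
  omega

theorem upper_large : ∃ N0 : ℕ, ∀ N ≥ N0, ∀ F : Finset (Finset ℤ), Admissible N F →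
    F.card ≤ N.choose 2 + 1 + (N - 1) / 4 := by
  classical
  obtain ⟨N1, h1⟩ := card_ap
  obtain ⟨N2, h2⟩ := exists_center 1e-9 (by norm_num)
  obtain ⟨N3, h3⟩ := far_bound
  refine ⟨max (max N1 N2) (max N3 2000), ?_⟩
  intro N hN F hF
  have hN1 : N1 ≤ N := le_trans (le_trans (le_max_left _ _) (le_max_left _ _)) hN
  have hN2 : N2 ≤ N := le_trans (le_trans (le_max_right _ _) (le_max_left _ _)) hN
  have hN3 : N3 ≤ N := le_trans (le_trans (le_max_left _ _) (le_max_right _ _)) hN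
  have hN4 : 2000 ≤ N := le_trans (le_trans (le_max_right _ _) (le_max_right _ _)) hN
  by_cases hsm : F.card ≤ N.choose 2
  · omega
  push Not at hsm
  have hc := h1 N hN1 F hF
  have hsplit : (F.filter (fun A => IsAP A)).card + (F.filter (fun A => ¬ IsAP A)).card = F.card :=
    card_filter_add_card_filter_not _
  have hch : (N.choose 2 : ℝ) = N * (N - 1) / 2 := by
    rw [Nat.cast_choose_two]
  have hN4' : (2000 : ℝ) ≤ N := by exact_mod_cast hN4
  have hNA : 0.07 * (N : ℝ) ^ 2 ≤ ((F.filter (fun A => ¬ IsAP A)).card : ℝ) := by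
    have h4 : (N.choose 2 : ℝ) < (F.card : ℝ) := by exact_mod_cast hsm
    have h5 : ((F.filter (fun A => IsAP A)).card : ℝ) +
        ((F.filter (fun A => ¬ IsAP A)).card : ℝ) = F.card := by exact_mod_cast hsplit
    rw [hch] at h4
    nlinarith
  obtain ⟨x, hx, hxe⟩ := h2 N hN2 F hF hNA
  have hfar := h3 N hN3 F hF x hx hxe
  have hsmall : ∀ B ∈ F, x ∉ B → 250 * (((Icc (1 : ℤ) N).erase x) \ B).card < N := by
    intro B hB hxB
    by_contra hcon
    push Not at hcon
    have h6 := hfar ⟨B, hB, hxB, by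
      rw [div_le_iff₀ (by norm_num)]
      have : (N : ℝ) ≤ ((250 * (((Icc (1 : ℤ) N).erase x) \ B).card : ℕ) : ℝ) := by
        exact_mod_cast hcon
      push_cast at this
      linarith⟩
    omega
  by_cases hall : ∀ A ∈ F, x ∈ A
  · exact Final.star_case hF hx hall
  push Not at hall
  obtain ⟨B1, hB1, hxB1⟩ := hall
  by_cases huniq : ∀ A ∈ F, x ∉ A → A = B1
  · exact Final.one_case hF hx hB1 hxB1 huniq
  push Not at huniq
  obtain ⟨B2, hB2, hxB2, hne⟩ := huniq
  exact Final.two_case hF hx hN4 hsmall hB2 hB1 hne hxB2 hxB1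

end Pool.Agent.APLarge
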