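import Pool.Agent.APLarge.Defs

/-!
Neighbours, runs and triples: bounds for the number of members which are not progressions.
-/

set_option autoImplicit false

namespace Pool.Agent.APLarge

open Finset Pool.Agent.APInt

namespace Big

/-- `u` and `u + g` are neighbours in `A`. -/
def Adj (A : Finset ℤ) (u g : ℤ) : Prop :=
  0 < g ∧ u ∈ A ∧ u + g ∈ A ∧ ∀ t ∈ A, t ≤ u ∨ u + g ≤ t

open Classical in
/-- The maximal progression of difference `g` through `u` inside `A`. -/
noncomputable def run (A : Finset ℤ) (u g : ℤ) : Finset ℤ :=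
  A.filter (fun w => g ∣ w - u ∧ ∀ t : ℤ, g ∣ t - u → min u w ≤ t → t ≤ max u w → t ∈ A)

open Classical in
lemma mem_run {A : Finset ℤ} {u g w : ℤ} : w ∈ run A u g ↔ w ∈ A ∧ g ∣ w - u ∧
    ∀ t : ℤ, g ∣ t - u → min u w ≤ t → t ≤ max u w → t ∈ A := by
  rw [run, mem_filter]

lemma run_subset (A : Finset ℤ) (u g : ℤ) : run A u g ⊆ A :=
  fun _ hw => (mem_run.1 hw).1

lemma self_mem_run {A : Finset ℤ} {u : ℤ} (g : ℤ) (hu : u ∈ A) : u ∈ run A u g := by
  rw [mem_run]
  refine ⟨hu, by simp, ?_⟩
  intro t _ h1 h2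
  rw [min_self] at h1
  rw [max_self] at h2
  have : t = u := by omega
  rw [this]; exact hu

/-- Two different members sharing a pair which is adjacent in the first one meet only in the run
of this pair. -/
lemma key {N : ℕ} {F : Finset (Finset ℤ)} (hF : Admissible N F) {A B : Finset ℤ} (hA : A ∈ F)
    (hB : B ∈ F) (hne : A ≠ B) {u g w : ℤ} (hadj : Adj A u g) (hu : u ∈ B) (hug : u + g ∈ B)
    (hwA : w ∈ A) (hwB : w ∈ B) : w ∈ run A u g := by
  obtain ⟨hg, huA, hugA, hadj⟩ := hadj
  obtain ⟨a, d, b, hd, hab, _, h⟩ := (isAP_iff _).1 (hF.2 A hA B hB hne)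
  have h1 := (h u).1 (mem_inter.2 ⟨huA, hu⟩)
  have h2 := (h (u + g)).1 (mem_inter.2 ⟨hugA, hug⟩)
  have h3 := (h w).1 (mem_inter.2 ⟨hwA, hwB⟩)
  have hdg : d ∣ g := by
    have := dvd_sub h2.1 h1.1
    have e : u + g - a - (u - a) = g := by ring
    rwa [e] at this
  have hdle : d ≤ g := Int.le_of_dvd hg hdg
  have h4 : u + d ∈ A := by
    have : u + d ∈ A ∩ B := by
      rw [h]
      refine ⟨?_, by omega, by omega⟩
      have := dvd_add h1.1 (dvd_refl d)
      have e : u - a + d = u + d - a := by ring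
      rwa [e] at this
    exact (mem_inter.1 this).1
  have hdeq : d = g := by
    rcases hadj _ h4 with h5 | h5 <;> omega
  subst hdeq
  rw [mem_run]
  refine ⟨hwA, ?_, ?_⟩
  · have := dvd_sub h3.1 h1.1
    have e : w - a - (u - a) = w - u := by ring
    rwa [e] at this
  · intro t ht h5 h6
    have : t ∈ A ∩ B := by
      rw [h]
      refine ⟨?_, ?_, ?_⟩
      · have := dvd_add ht h1.1
        have e : t - u + (u - a) = t - a := by ring
        rwa [e] at this
      · rcases min_choice u w with h7 | h7 <;> omega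
      · rcases max_choice u w with h7 | h7 <;> omega
    exact (mem_inter.1 this).1

/-- If a pair is adjacent and its run is everything then the set is a progression. -/
lemma exists_out {A : Finset ℤ} {u g : ℤ} (hadj : Adj A u g) (hA : ¬ IsAP A) :
    (A \ run A u g).Nonempty := by
  by_contra hcon
  rw [not_nonempty_iff_eq_empty, sdiff_eq_empty_iff_subset] at hcon
  apply hA
  obtain ⟨hg, huA, _, _⟩ := hadj
  have hAne : A.Nonempty := ⟨u, huA⟩
  have hmin := mem_run.1 (hcon (A.min'_mem hAne))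
  have hmax := mem_run.1 (hcon (A.max'_mem hAne))
  have hminu : A.min' hAne ≤ u := A.min'_le u huA
  have humax : u ≤ A.max' hAne := A.le_max' u huA
  rw [isAP_iff]
  refine ⟨A.min' hAne, g, A.max' hAne, by omega, A.min'_le_max' hAne, ?_, ?_⟩
  · have := dvd_sub hmax.2.1 hmin.2.1
    simpa using this
  · intro t
    constructor
    · intro ht
      refine ⟨?_, A.min'_le t ht, A.le_max' t ht⟩
      have := dvd_sub (mem_run.1 (hcon ht)).2.1 hmin.2.1
      simpa using this
    · rintro ⟨h1, h2, h3⟩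
      have h4 : g ∣ t - u := by
        have := dvd_add h1 hmin.2.1
        simpa using this
      rcases le_total t u with h5 | h5
      · apply hmin.2.2 t h4
        · exact le_trans (min_le_right _ _) h2
        · exact le_trans h5 (le_max_left _ _)
      · apply hmax.2.2 t h4
        · exact le_trans (min_le_left _ _) h5
        · exact le_trans h3 (le_max_right _ _)

/-- The distance from `u` to the next element. -/
noncomputable def gap (A : Finset ℤ) (u : ℤ) : ℤ :=
  if h : (A.filter (fun t => u < t)).Nonempty then (A.filter (fun t => u < t)).min' h - u else 0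

lemma adj_gap {A : Finset ℤ} {u : ℤ} (hu : u ∈ A) (h : ∃ t ∈ A, u < t) : Adj A u (gap A u) := by
  obtain ⟨t, ht, hut⟩ := h
  have hne : (A.filter (fun t => u < t)).Nonempty := ⟨t, mem_filter.2 ⟨ht, hut⟩⟩
  rw [gap, dif_pos hne]
  have h1 := (A.filter (fun t => u < t)).min'_mem hne
  rw [mem_filter] at h1
  refine ⟨by omega, hu, ?_, ?_⟩
  · have e : u + ((A.filter (fun t => u < t)).min' hne - u) =
      (A.filter (fun t => u < t)).min' hne := by ring
    rw [e]; exact h1.1
  · intro s hs
    rcases le_or_gt s u with h2 | h2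
    · exact Or.inl h2
    · right
      have := (A.filter (fun t => u < t)).min'_le s (mem_filter.2 ⟨hs, h2⟩)
      omega

lemma gap_eq {A : Finset ℤ} {u g : ℤ} (h : Adj A u g) : gap A u = g := by
  have h1 := adj_gap h.2.1 ⟨u + g, h.2.2.1, by have := h.1; omega⟩
  obtain ⟨h2, h3, h4, h5⟩ := h
  obtain ⟨h6, h7, h8, h9⟩ := h1
  rcases h5 _ h8 with h | h <;> rcases h9 _ h4 with h' | h' <;> omega

/-- The left ends of the short gaps. -/
noncomputable def tight (A : Finset ℤ) (G : ℕ) : Finset ℤ :=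
  A.filter (fun u => (∃ t ∈ A, u < t) ∧ gap A u ≤ G)

open Classical in
lemma card_tight {N : ℕ} {A : Finset ℤ} (hA : A ⊆ Icc (1 : ℤ) N) (G : ℕ) :
    (A.card - 1) * (G + 1) ≤ (tight A G).card * (G + 1) + N := by
  rcases A.eq_empty_or_nonempty with rfl | hne
  · simp
  set L := A.filter (fun u => (∃ t ∈ A, u < t) ∧ ¬ gap A u ≤ G) with hL
  have h1 : (A.card - 1) ≤ (tight A G).card + L.card := by
    rw [← card_erase_of_mem (A.max'_mem hne)]
    refine le_trans (card_le_card ?_) (card_union_le _ _)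
    intro u hu
    rw [mem_erase] at hu
    have h2 : ∃ t ∈ A, u < t :=
      ⟨A.max' hne, A.max'_mem hne, lt_of_le_of_ne (A.le_max' u hu.2) hu.1⟩
    rw [mem_union, tight, mem_filter, hL, mem_filter]
    by_cases h3 : gap A u ≤ G
    · exact Or.inl ⟨hu.2, h2, h3⟩
    · exact Or.inr ⟨hu.2, h2, h3⟩
  have h2 : L.card * (G + 1) ≤ N := by
    have h3 : (L ×ˢ (Icc (1 : ℤ) (G + 1))).card ≤ (Icc (1 : ℤ) N).card := by
      apply card_le_card_of_injOn (fun p => p.1 + p.2)
      · rintro ⟨u, i⟩ hp
        rw [mem_coe, mem_product, hL, mem_filter, mem_Icc] at hp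
        obtain ⟨⟨hu, hex, hg⟩, hi1, hi2⟩ := hp
        simp only at hu hex hg hi1 hi2
        have h4 := adj_gap hu hex
        have h5 := mem_Icc.1 (hA h4.2.2.1)
        have h6 := mem_Icc.1 (hA hu)
        rw [mem_coe, mem_Icc]
        simp only
        omega
      · rintro ⟨u, i⟩ hp ⟨v, j⟩ hq heq
        rw [mem_coe, mem_product, hL, mem_filter, mem_Icc] at hp hq
        obtain ⟨⟨hu, hex, hg⟩, hi1, hi2⟩ := hp
        obtain ⟨⟨hv, hex', hg'⟩, hj1, hj2⟩ := hq
        simp only at hu hex hg hi1 hi2 hv hex' hg' hj1 hj2 heq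
        have h4 := adj_gap hu hex
        have h5 := adj_gap hv hex'
        rcases h4.2.2.2 _ hv with h6 | h6 <;> rcases h5.2.2.2 _ hu with h7 | h7
        · have : u = v := by omega
          subst this
          have : i = j := by omega
          rw [this]
        · exfalso; omega
        · exfalso; omega
        · exfalso; omega
    rw [card_product, Int.card_Icc, Int.card_Icc] at h3
    have e1 : ((G : ℤ) + 1 + 1 - 1).toNat = G + 1 := by omega
    have e2 : ((N : ℤ) + 1 - 1).toNat = N := by omega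
    rwa [e1, e2] at h3
  calc (A.card - 1) * (G + 1) ≤ ((tight A G).card + L.card) * (G + 1) :=
        Nat.mul_le_mul_right _ h1
    _ = (tight A G).card * (G + 1) + L.card * (G + 1) := by ring
    _ ≤ _ := by omega

/-- at least half of the gaps are short -/
lemma half_tight {N m : ℕ} {A : Finset ℤ} (hA : A ⊆ Icc (1 : ℤ) N) (hm : 2 ≤ m)
    (hcard : m ≤ A.card) : m - 1 ≤ 2 * (tight A (2 * N / (m - 1))).card := by
  set G := 2 * N / (m - 1) with hG
  have h1 := card_tight hA G
  have h2 : 2 * N < (G + 1) * (m - 1) := by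
    have := Nat.lt_div_mul_add (a := 2 * N) (b := m - 1) (by omega)
    rw [← hG] at this
    calc 2 * N < G * (m - 1) + (m - 1) := this
      _ = (G + 1) * (m - 1) := by ring
  obtain ⟨k, hk⟩ : ∃ k, m = k + 1 := ⟨m - 1, by omega⟩
  subst hk
  simp only [Nat.add_sub_cancel] at h2 ⊢
  by_contra hcon
  push Not at hcon
  have h3 : k ≤ A.card - 1 := by omega
  have h4 : k * (G + 1) ≤ (tight A G).card * (G + 1) + N :=
    le_trans (Nat.mul_le_mul_right _ h3) h1
  -- 2 k (G+1) <= 2 t (G+1) + 2 N < (k - 1 + k)(G+1)...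
  have h5 : 2 * (tight A G).card * (G + 1) ≤ (k - 1) * (G + 1) :=
    Nat.mul_le_mul_right _ (by omega)
  have h6 : 2 * N < k * (G + 1) := by
    have e : k * (G + 1) = (G + 1) * k := mul_comm _ _
    omega
  have h7 : 2 * (k * (G + 1)) ≤ (k - 1) * (G + 1) + 2 * N := by
    calc 2 * (k * (G + 1)) ≤ 2 * ((tight A G).card * (G + 1) + N) := by omega
      _ = 2 * (tight A G).card * (G + 1) + 2 * N := by ring
      _ ≤ _ := by omega
  have h8 : (k - 1) * (G + 1) ≤ k * (G + 1) := Nat.mul_le_mul_right _ (by omega)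
  omega

/-- counting triples (left end, gap, point outside the run) -/
lemma triples {N : ℕ} {F : Finset (Finset ℤ)} (hF : Admissible N F) {m : ℕ} (hm : 2 ≤ m) (e : ℕ)
    (F' : Finset (Finset ℤ)) (hF' : F' ⊆ F) (hcard : ∀ A ∈ F', m ≤ A.card)
    (hout : ∀ A ∈ F', ∀ u g, Adj A u g → g ≤ ((2 * N / (m - 1) : ℕ) : ℤ) →
      e ≤ (A \ run A u g).card) :
    F'.card * (m - 1) ^ 2 * e ≤ 4 * N ^ 3 := by
  classical
  set G := 2 * N / (m - 1) with hG
  set S := F'.sigma (fun A => (tight A G).sigma (fun u => A \ run A u (gap A u))) with hS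
  have h1 : S.card ≤ ((Icc (1 : ℤ) N) ×ˢ ((Icc (1 : ℤ) G) ×ˢ (Icc (1 : ℤ) N))).card := by
    apply card_le_card_of_injOn (fun p => (p.2.1, gap p.1 p.2.1, p.2.2))
    · rintro ⟨A, u, w⟩ hp
      simp only [hS, mem_coe, mem_sigma, tight, mem_filter, mem_sdiff] at hp
      obtain ⟨hAF, ⟨hu, hex, hg⟩, hw, _⟩ := hp
      have h2 := adj_gap hu hex
      have h3 := (hF.1 A (hF' hAF)) hu
      have h4 := (hF.1 A (hF' hAF)) hw
      have h5 := h2.1
      simp only [mem_coe, mem_product, mem_Icc] at h3 h4 ⊢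
      omega
    · rintro ⟨A, u, w⟩ hp ⟨B, v, z⟩ hq heq
      simp only [hS, mem_coe, mem_sigma, tight, mem_filter, mem_sdiff] at hp hq
      obtain ⟨hAF, ⟨hu, hex, hg⟩, hw, hwr⟩ := hp
      obtain ⟨hBF, ⟨hv, hex', hg'⟩, hz, hzr⟩ := hq
      simp only [Prod.mk.injEq] at heq
      obtain ⟨h1, h2, h3⟩ := heq
      subst h1
      subst h3
      have hAB : A = B := by
        by_contra hne
        have h4 := adj_gap hu hex
        have h5 := adj_gap hv hex'
        exact hwr (key hF (hF' hAF) (hF' hBF) hne h4 hv (by rw [h2]; exact h5.2.2.1) hw hz)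
      subst hAB
      rfl
  have h2 : F'.card * (m - 1) * e ≤ 2 * S.card := by
    rw [hS, card_sigma, mul_sum]
    calc F'.card * (m - 1) * e = ∑ A ∈ F', (m - 1) * e := by
          rw [sum_const, smul_eq_mul]; ring
      _ ≤ _ := by
          apply sum_le_sum
          intro A hA
          rw [card_sigma]
          have h3 : ∑ u ∈ tight A G, e ≤ ∑ u ∈ tight A G, (A \ run A u (gap A u)).card := by
            apply sum_le_sum
            intro u hu
            rw [tight, mem_filter] at hu
            exact hout A hA u _ (adj_gap hu.1 hu.2.1) hu.2.2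
          rw [sum_const, smul_eq_mul] at h3
          have h4 := half_tight (hF.1 A (hF' hA)) hm (hcard A hA)
          rw [← hG] at h4
          calc (m - 1) * e ≤ (2 * (tight A G).card) * e := Nat.mul_le_mul_right _ h4
            _ = 2 * ((tight A G).card * e) := by ring
            _ ≤ _ := Nat.mul_le_mul_left _ h3
  rw [card_product, card_product, Int.card_Icc, Int.card_Icc] at h1
  have e1 : ((G : ℤ) + 1 - 1).toNat = G := by simp
  have e2 : ((N : ℤ) + 1 - 1).toNat = N := by simp
  rw [e1, e2] at h1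
  have h3 : G * (m - 1) ≤ 2 * N := Nat.div_mul_le_self _ _
  calc F'.card * (m - 1) ^ 2 * e = (F'.card * (m - 1) * e) * (m - 1) := by ring
    _ ≤ (2 * (N * (G * N))) * (m - 1) :=
        Nat.mul_le_mul_right _ (le_trans h2 (Nat.mul_le_mul_left _ h1))
    _ = 2 * N * N * (G * (m - 1)) := by ring
    _ ≤ 2 * N * N * (2 * N) := Nat.mul_le_mul_left _ h3
    _ = 4 * N ^ 3 := by ring

end Big

open Classical in
theorem big_members {N : ℕ} {F : Finset (Finset ℤ)} (hF : Admissible N F) {m : ℕ} (hm : 2 ≤ m)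
    (h : ∀ A ∈ F, ¬ IsAP A → m ≤ A.card) :
    (F.filter (fun A => ¬ IsAP A)).card * (m - 1) ^ 2 ≤ 4 * N ^ 3 := by
  have := Big.triples hF hm 1 (F.filter (fun A => ¬ IsAP A)) (filter_subset _ _)
    (fun A hA => h A (mem_filter.1 hA).1 (mem_filter.1 hA).2)
    (fun A hA u g hadj _ => (Big.exists_out hadj (mem_filter.1 hA).2).card_pos)
  simpa using this

end Pool.Agent.APLarge
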