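import Pool.Agent.APLarge.Defs

/-!
The core lemma: an element in no owned pair forces a special pair.
-/

set_option autoImplicit false

namespace Pool.Agent.APLarge

open Finset Pool.Agent.APInt

/-- a divisor `e` of `p - x` all of whose steps from `x` to `p` are in `A` -/
def Full (A : Finset ℤ) (x p e : ℤ) : Prop :=
  1 ≤ e ∧ e ∣ p - x ∧ ∀ t : ℤ, x ≤ t → t ≤ p → e ∣ t - x → t ∈ A

theorem core_lemma {A : Finset ℤ} {x p : ℤ} (hx : x ∈ A) (hp : p ∈ A) (hxp : x < p)
    (h : ∀ y ∈ A, x < y → y < p → ¬ Own x A y p) :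
    (∃ a b : ℤ, 0 < a ∧ 0 < b ∧ Own x A (x + a) (x + b) ∧ (Int.lcm a b : ℤ) ∣ p - x) ∨
    ∃ e : ℤ, 1 ≤ e ∧ e ∣ p - x ∧ ∀ t : ℤ, x ≤ t → t ≤ p → (t ∈ A ↔ e ∣ t - x) := by
  classical
  -- full divisors below every element
  have key : ∀ y ∈ A, x < y → y < p → Full A x p (Int.gcd (y - x) (p - x) : ℤ) := by
    intro y hy hxy hyp
    have hg : 0 < Int.gcd (y - x) (p - x) := Int.gcd_pos_of_ne_zero_left _ (by omega)
    refine ⟨by omega, Int.gcd_dvd_right _ _, ?_⟩
    intro t ht1 ht2 htd
    refine mem_of_not_own hx hy hp (by omega) (by omega) (by omega) (h y hy hxy hyp) htd ?_ ?_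
    · have : min x (min y p) ≤ x := min_le_left _ _
      omega
    · have h1 : p ≤ max y p := le_max_right _ _
      have h2 : max y p ≤ max x (max y p) := le_max_right _ _
      omega
  have htriv : Full A x p (p - x) := by
    refine ⟨by omega, dvd_refl _, ?_⟩
    intro t ht1 ht2 htd
    rcases eq_or_lt_of_le ht1 with h1 | h1
    · rw [← h1]; exact hx
    · have h2 := Int.le_of_dvd (by omega) htd
      have h3 : t = p := by omega
      rw [h3]; exact hp
  -- the smallest full divisor
  have hex : ∃ n : ℕ, Full A x p n := ⟨(p - x).toNat, by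
    rw [Int.toNat_of_nonneg (by omega)]; exact htriv⟩
  set e := Nat.find hex with he
  have heF : Full A x p e := Nat.find_spec hex
  have hmin : ∀ n : ℕ, Full A x p n → e ≤ n := fun n hn => Nat.find_min' hex hn
  by_cases hall : ∀ n : ℕ, Full A x p n → e ∣ n
  · right
    refine ⟨e, heF.1, heF.2.1, ?_⟩
    intro t ht1 ht2
    constructor
    · intro htA
      rcases eq_or_lt_of_le ht1 with h1 | h1
      · rw [← h1]; simp
      · rcases eq_or_lt_of_le ht2 with h2 | h2
        · rw [h2]; exact heF.2.1
        · have h3 := hall _ (key t htA h1 h2)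
          exact (Int.natCast_dvd_natCast.2 h3).trans (Int.gcd_dvd_left _ _)
    · intro htd
      exact heF.2.2 t ht1 ht2 htd
  · left
    push Not at hall
    -- the smallest full divisor which is not a multiple of `e`
    obtain ⟨n0, hn0, hn0'⟩ := hall
    have hex2 : ∃ n : ℕ, Full A x p n ∧ ¬ e ∣ n := ⟨n0, hn0, hn0'⟩
    set f := Nat.find hex2 with hf
    have hfF : Full A x p f ∧ ¬ e ∣ f := Nat.find_spec hex2
    have hfmin : ∀ n : ℕ, Full A x p n → ¬ e ∣ n → f ≤ n :=
      fun n hn hn' => Nat.find_min' hex2 ⟨hn, hn'⟩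
    have he1 : 1 ≤ e := by have := heF.1; omega
    have hf1 : 1 ≤ f := by have := hfF.1.1; omega
    have hef : e < f := by
      have h1 := hmin f hfF.1
      rcases Nat.lt_or_ge e f with h2 | h2
      · exact h2
      · exfalso
        have : e = f := le_antisymm h1 h2
        apply hfF.2
        rw [← this]
    have hep : (e : ℤ) ≤ p - x := Int.le_of_dvd (by omega) heF.2.1
    have hfp : (f : ℤ) ≤ p - x := Int.le_of_dvd (by omega) hfF.1.2.1
    have hxe : x + e ∈ A := heF.2.2 _ (by omega) (by omega) (by simp)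
    have hxf : x + f ∈ A := hfF.1.2.2 _ (by omega) (by omega) (by simp)
    refine ⟨e, f, by omega, by omega, ?_, ?_⟩
    · by_contra hown
      -- the gcd would be full
      have hg0 : 0 < Nat.gcd e f := Nat.gcd_pos_of_pos_left _ he1
      have hge : Nat.gcd e f ≤ e := Nat.gcd_le_left _ he1
      have hxg : x + (Nat.gcd e f : ℤ) ∈ A := by
        refine mem_of_not_own hx hxe hxf (by omega) (by omega) (by omega) hown ?_ ?_ ?_
        · have h1 : (x + (e : ℤ)) - x = e := by ring
          have h2 : (x + (f : ℤ)) - x = f := by ring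
          have h3 : x + (Nat.gcd e f : ℤ) - x = (Nat.gcd e f : ℤ) := by ring
          rw [h1, h2, h3, Int.gcd_natCast_natCast]
        · have : min x (min (x + (e : ℤ)) (x + f)) ≤ x := min_le_left _ _
          omega
        · have h1 : x + (f : ℤ) ≤ max (x + (e : ℤ)) (x + f) := le_max_right _ _
          have h2 : max (x + (e : ℤ)) (x + f) ≤ max x (max (x + (e : ℤ)) (x + f)) :=
            le_max_right _ _
          omega
      have hfull := key _ hxg (by omega) (by omega)
      have h3 : x + (Nat.gcd e f : ℤ) - x = (Nat.gcd e f : ℤ) := by ring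
      have hgd : ((Nat.gcd e f : ℕ) : ℤ) ∣ p - x :=
        (Int.natCast_dvd_natCast.2 (Nat.gcd_dvd_left e f)).trans heF.2.1
      have h4 : Int.gcd ((Nat.gcd e f : ℕ) : ℤ) (p - x) = Nat.gcd e f := by
        rw [Int.gcd_eq_natAbs, Int.natAbs_natCast]
        exact Nat.gcd_eq_left (Int.natCast_dvd.1 hgd)
      rw [h3, h4] at hfull
      have h5 := hmin _ hfull
      have h6 : Nat.gcd e f = e := le_antisymm hge h5
      exact hfF.2 (h6 ▸ Nat.gcd_dvd_right e f)
    · have := Int.coe_lcm_dvd heF.2.1 hfF.1.2.1
      exact this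

/-- the reflection in `x` -/
def refl (x : ℤ) (A : Finset ℤ) : Finset ℤ := A.image (fun t => 2 * x - t)

lemma mem_refl {x : ℤ} {A : Finset ℤ} {t : ℤ} : t ∈ refl x A ↔ 2 * x - t ∈ A := by
  rw [refl, mem_image]
  constructor
  · rintro ⟨s, hs, rfl⟩
    have : 2 * x - (2 * x - s) = s := by ring
    rw [this]; exact hs
  · intro h
    exact ⟨_, h, by ring⟩

lemma own_refl {x : ℤ} {A : Finset ℤ} {y z : ℤ} (hx : x ∈ A) :
    Own x (refl x A) (2 * x - y) (2 * x - z) ↔ Own x A y z := by
  have hx' : x ∈ refl x A := by rw [mem_refl]; convert hx using 1; ring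
  have e1 : 2 * x - (2 * x - y) = y := by ring
  have e2 : 2 * x - (2 * x - z) = z := by ring
  have e3 : Int.gcd (2 * x - y - x) (2 * x - z - x) = Int.gcd (y - x) (z - x) := by
    have a1 : 2 * x - y - x = -(y - x) := by ring
    have a2 : 2 * x - z - x = -(z - x) := by ring
    rw [a1, a2, Int.neg_gcd, Int.gcd_neg]
  rw [own_iff hx', own_iff hx, mem_refl, mem_refl, e1, e2, e3]
  have hmm : ∀ t, (min x (min (2 * x - y) (2 * x - z)) ≤ t ∧ t ≤ max x (max (2 * x - y) (2 * x - z)))
      ↔ (min x (min y z) ≤ 2 * x - t ∧ 2 * x - t ≤ max x (max y z)) := by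
    intro t
    omega
  constructor
  · rintro ⟨h1, h2, h3, h4, h5, t, h6, h7, h8, h9⟩
    have h10 := (hmm t).1 ⟨h7, h8⟩
    rw [mem_refl] at h9
    refine ⟨h1, h2, by omega, by omega, by omega, 2 * x - t, ?_, h10.1, h10.2, h9⟩
    have : 2 * x - t - x = -(t - x) := by ring
    rw [this, dvd_neg]
    exact h6
  · rintro ⟨h1, h2, h3, h4, h5, t, h6, h7, h8, h9⟩
    have h11 : 2 * x - (2 * x - t) = t := by ring
    have h10 := (hmm (2 * x - t)).2 (by rw [h11]; exact ⟨h7, h8⟩)
    refine ⟨h1, h2, by omega, by omega, by omega, 2 * x - t, ?_, h10.1, h10.2, ?_⟩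
    · have : 2 * x - t - x = -(t - x) := by ring
      rw [this, dvd_neg]
      exact h6
    · rw [mem_refl, h11]; exact h9

lemma lcm_le_of_dvd {a b : ℤ} {M : ℤ} {N : ℕ} (hM : 0 < M) (hMN : M ≤ N)
    (h : (Int.lcm a b : ℤ) ∣ M) : Int.lcm a b ≤ N := by
  have := Int.le_of_dvd hM h
  omega

/-- the case `x < p` of the next theorem, for sets in any interval of length `N` -/
lemma dom_right {N : ℕ} {A : Finset ℤ} {x p lo : ℤ} (hA : A ⊆ Icc lo (lo + N)) (hx : x ∈ A)
    (hAP : ¬ IsAP A) (hp : p ∈ A) (hpx : x < p) (h : ∀ z, ¬ Own x A p z) : Spec N x A := by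
  have hxI := mem_Icc.1 (hA hx)
  have hpI := mem_Icc.1 (hA hp)
  rcases core_lemma hx hp hpx (fun y _ _ _ hy => h y hy.symm) with
    ⟨a, b, ha, hb, hab, hl⟩ | ⟨e, he, hep, hA'⟩
  · exact ⟨a, b, hab, lcm_le_of_dvd (by omega) (by omega) hl⟩
  · by_contra hS
    have hep' : e ≤ p - x := Int.le_of_dvd (by omega) hep
    have hxe : x + e ∈ A := (hA' _ (by omega) (by omega)).2 (by simp)
    -- all elements are in the class of `x`
    have hcl : ∀ z ∈ A, e ∣ z - x := by
      intro z hz
      by_cases hzx : z = x
      · rw [hzx]; simp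
      by_cases hzp : z = p
      · rw [hzp]; exact hep
      have hg : 0 < Int.gcd (p - x) (z - x) := Int.gcd_pos_of_ne_zero_left _ (by omega)
      have hgd : (Int.gcd (p - x) (z - x) : ℤ) ∣ p - x := Int.gcd_dvd_left _ _
      have hgle : (Int.gcd (p - x) (z - x) : ℤ) ≤ p - x := Int.le_of_dvd (by omega) hgd
      have h1 : x + (Int.gcd (p - x) (z - x) : ℤ) ∈ A := by
        refine mem_of_not_own hx hp hz (by omega) hzx (Ne.symm hzp) (h z) (by simp) ?_ ?_
        · have : min x (min p z) ≤ x := min_le_left _ _
          omega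
        · have h1 : p ≤ max p z := le_max_left _ _
          have h2 : max p z ≤ max x (max p z) := le_max_right _ _
          omega
      have h2 := (hA' _ (by omega) (by omega)).1 h1
      have h3 : e ∣ (Int.gcd (p - x) (z - x) : ℤ) := by
        have : x + (Int.gcd (p - x) (z - x) : ℤ) - x = (Int.gcd (p - x) (z - x) : ℤ) := by ring
        rwa [this] at h2
      exact h3.trans (Int.gcd_dvd_right _ _)
    -- all points of the class between `x` and an element are present
    have hfull : ∀ z ∈ A, ∀ t, min x z ≤ t → t ≤ max x z → e ∣ t - x → t ∈ A := by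
      intro z hz t ht1 ht2 htd
      by_cases hzx : z = x
      · have : t = x := by rw [hzx] at ht1 ht2; omega
        rw [this]; exact hx
      by_cases hze : z = x + e
      · have h4 : min x z = x := by omega
        have h5 : max x z = x + e := by omega
        exact (hA' t (by omega) (by omega)).2 htd
      have hno : ¬ Own x A (x + e) z := by
        intro hown
        apply hS
        refine ⟨e, z - x, ?_, ?_⟩
        · have : x + (z - x) = z := by ring
          rw [this]; exact hown
        · have h6 : (Int.lcm e (z - x) : ℤ) ∣ z - x :=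
            Int.coe_lcm_dvd (hcl z hz) (dvd_refl _)
          have h7 := mem_Icc.1 (hA hz)
          rcases lt_trichotomy z x with h8 | h8 | h8
          · refine lcm_le_of_dvd (M := -(z - x)) (by omega) (by omega) ((dvd_neg).2 h6)
          · exact absurd h8 hzx
          · exact lcm_le_of_dvd (by omega) (by omega) h6
      refine mem_of_not_own hx hxe hz (by omega) hzx (Ne.symm hze) hno ?_ ?_ ?_
      · have : x + e - x = e := by ring
        rw [this]
        refine dvd_trans ?_ htd
        exact Int.gcd_dvd_left _ _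
      · omega
      · omega
    apply hAP
    rw [isAP_iff]
    have hne : A.Nonempty := ⟨x, hx⟩
    refine ⟨A.min' hne, e, A.max' hne, he, A.min'_le_max' hne, ?_, ?_⟩
    · have h1 := hcl _ (A.max'_mem hne)
      have h2 := hcl _ (A.min'_mem hne)
      have := dvd_sub h1 h2
      have e1 : A.max' hne - x - (A.min' hne - x) = A.max' hne - A.min' hne := by ring
      rwa [e1] at this
    · intro t
      have h2 := hcl _ (A.min'_mem hne)
      constructor
      · intro ht
        refine ⟨?_, A.min'_le t ht, A.le_max' t ht⟩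
        have := dvd_sub (hcl t ht) h2
        have e1 : t - x - (A.min' hne - x) = t - A.min' hne := by ring
        rwa [e1] at this
      · rintro ⟨h3, h4, h5⟩
        have h6 : e ∣ t - x := by
          have := dvd_add h3 h2
          have e1 : t - A.min' hne + (A.min' hne - x) = t - x := by ring
          rwa [e1] at this
        rcases le_total t x with h7 | h7
        · exact hfull _ (A.min'_mem hne) t (by omega) (by omega) h6
        · exact hfull _ (A.max'_mem hne) t (by omega) (by omega) h6

lemma isAP_refl {x : ℤ} {A : Finset ℤ} (h : IsAP (refl x A)) : IsAP A := by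
  rw [isAP_iff] at h ⊢
  obtain ⟨a, d, b, hd, hab, hdvd, h⟩ := h
  refine ⟨2 * x - b, d, 2 * x - a, hd, by omega, ?_, ?_⟩
  · have : 2 * x - a - (2 * x - b) = b - a := by ring
    rw [this]; exact hdvd
  · intro t
    have h1 : t ∈ A ↔ 2 * x - t ∈ refl x A := by
      rw [mem_refl]
      have : 2 * x - (2 * x - t) = t := by ring
      rw [this]
    rw [h1, h (2 * x - t)]
    constructor
    · rintro ⟨h2, h3, h4⟩
      refine ⟨?_, by omega, by omega⟩
      have h5 := dvd_sub hdvd h2
      have : b - a - (2 * x - t - a) = t - (2 * x - b) := by ring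
      rwa [this] at h5
    · rintro ⟨h2, h3, h4⟩
      refine ⟨?_, by omega, by omega⟩
      have h5 := dvd_sub hdvd h2
      have : b - a - (t - (2 * x - b)) = 2 * x - t - a := by ring
      rwa [this] at h5

lemma spec_refl {N : ℕ} {x : ℤ} {A : Finset ℤ} (hx : x ∈ A) (h : Spec N x (refl x A)) :
    Spec N x A := by
  obtain ⟨a, b, hab, hl⟩ := h
  refine ⟨-a, -b, ?_, ?_⟩
  · rw [← own_refl hx]
    have e1 : 2 * x - (x + -a) = x + a := by ring
    have e2 : 2 * x - (x + -b) = x + b := by ring
    rw [e1, e2]
    exact hab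
  · rw [Int.neg_lcm, Int.lcm_neg]
    exact hl

theorem dom_spec {N : ℕ} {A : Finset ℤ} {x p : ℤ} (hA : A ⊆ Icc (1 : ℤ) N) (hx : x ∈ A)
    (hAP : ¬ IsAP A) (hp : p ∈ A) (hpx : p ≠ x) (h : ∀ z, ¬ Own x A p z) : Spec N x A := by
  rcases lt_or_gt_of_ne hpx with h1 | h1
  · apply spec_refl hx
    refine dom_right (lo := 2 * x - N) (p := 2 * x - p) ?_ ?_ (fun h => hAP (isAP_refl h)) ?_
      (by omega) ?_
    · intro t ht
      rw [mem_refl] at ht
      have := mem_Icc.1 (hA ht)
      rw [mem_Icc]
      omega
    · rw [mem_refl]; convert hx using 1; ring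
    · rw [mem_refl]; convert hp using 1; ring
    · intro z hz
      apply h (2 * x - z)
      rw [← own_refl hx]
      have e1 : 2 * x - (2 * x - z) = z := by ring
      rw [e1]
      exact hz
  · refine dom_right (lo := 1) ?_ hx hAP hp h1 h
    intro t ht
    have := mem_Icc.1 (hA ht)
    rw [mem_Icc]
    omega

lemma isAP_of_full {A : Finset ℤ} {x e : ℤ} (hx : x ∈ A) (he : 1 ≤ e)
    (hcl : ∀ z ∈ A, e ∣ z - x)
    (hfull : ∀ z ∈ A, ∀ t, min x z ≤ t → t ≤ max x z → e ∣ t - x → t ∈ A) : IsAP A := by
  rw [isAP_iff]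
  have hne : A.Nonempty := ⟨x, hx⟩
  refine ⟨A.min' hne, e, A.max' hne, he, A.min'_le_max' hne, ?_, ?_⟩
  · have h1 := hcl _ (A.max'_mem hne)
    have h2 := hcl _ (A.min'_mem hne)
    have := dvd_sub h1 h2
    have e1 : A.max' hne - x - (A.min' hne - x) = A.max' hne - A.min' hne := by ring
    rwa [e1] at this
  · intro t
    have h2 := hcl _ (A.min'_mem hne)
    constructor
    · intro ht
      refine ⟨?_, A.min'_le t ht, A.le_max' t ht⟩
      have := dvd_sub (hcl t ht) h2
      have e1 : t - x - (A.min' hne - x) = t - A.min' hne := by ring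
      rwa [e1] at this
    · rintro ⟨h3, h4, h5⟩
      have h6 : e ∣ t - x := by
        have := dvd_add h3 h2
        have e1 : t - A.min' hne + (A.min' hne - x) = t - x := by ring
        rwa [e1] at this
      rcases le_total t x with h7 | h7
      · exact hfull _ (A.min'_mem hne) t (by omega) (by omega) h6
      · exact hfull _ (A.max'_mem hne) t (by omega) (by omega) h6

theorem cross_spec {N : ℕ} {A : Finset ℤ} {x q' q : ℤ} (hA : A ⊆ Icc (1 : ℤ) N) (hx : x ∈ A)
    (hAP : ¬ IsAP A) (hq' : q' ∈ A) (hq : q ∈ A) (hq'x : q' ≠ x) (hxq : x < q) (hlt : q' < q)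
    (hadj : ∀ t ∈ A, t ≠ x → t ≤ q' ∨ q ≤ t)
    (h : ∀ y z, y ≤ q' → q ≤ z → ¬ Own x A y z) : Spec N x A := by
  have hxI := mem_Icc.1 (hA hx)
  have hqI := mem_Icc.1 (hA hq)
  rcases lt_or_gt_of_ne hq'x with h1 | h1
  · -- `x` between `q'` and `q`
    exfalso
    apply hAP
    have hg : 0 < Int.gcd (q' - x) (q - x) := Int.gcd_pos_of_ne_zero_left _ (by omega)
    have hgq : (Int.gcd (q' - x) (q - x) : ℤ) ∣ q - x := Int.gcd_dvd_right _ _
    have hgq' : (Int.gcd (q' - x) (q - x) : ℤ) ∣ q' - x := Int.gcd_dvd_left _ _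
    have hno := h q' q (le_refl _) (le_refl _)
    set g : ℤ := (Int.gcd (q' - x) (q - x) : ℤ) with hgdef
    have hg1 : 1 ≤ g := by omega
    have hgle : g ≤ q - x := Int.le_of_dvd (by omega) hgq
    have hgle' : g ≤ -(q' - x) := Int.le_of_dvd (by omega) ((dvd_neg).2 hgq')
    have hxg : x + g ∈ A :=
      mem_of_not_own hx hq' hq hq'x (by omega) (by omega) hno (by simp [← hgdef]) (by omega)
        (by omega)
    have hxg' : x - g ∈ A :=
      mem_of_not_own hx hq' hq hq'x (by omega) (by omega) hno (by simp [← hgdef]) (by omega)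
        (by omega)
    have hqe : q = x + g := by
      rcases hadj _ hxg (by omega) with h2 | h2 <;> omega
    have hqe' : q' = x - g := by
      rcases hadj _ hxg' (by omega) with h2 | h2 <;> omega
    -- the elements to the right
    have hright : ∀ z ∈ A, q ≤ z → g ∣ z - x ∧ ∀ t, q' ≤ t → t ≤ z → g ∣ t - x → t ∈ A := by
      intro z hz hqz
      have hno := h q' z (le_refl _) hqz
      have hk : 0 < Int.gcd (q' - x) (z - x) := Int.gcd_pos_of_ne_zero_left _ (by omega)
      have hkd : (Int.gcd (q' - x) (z - x) : ℤ) ∣ q' - x := Int.gcd_dvd_left _ _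
      have hkd' : (Int.gcd (q' - x) (z - x) : ℤ) ∣ z - x := Int.gcd_dvd_right _ _
      have hm := fun t => mem_of_not_own (t := t) hx hq' hz hq'x (by omega) (by omega) hno
      set k : ℤ := (Int.gcd (q' - x) (z - x) : ℤ) with hkdef
      have hkle : k ≤ -(q' - x) := Int.le_of_dvd (by omega) ((dvd_neg).2 hkd)
      have hxk : x + k ∈ A := hm _ (by simp) (by omega) (by omega)
      have hke : k = g := by
        rcases hadj _ hxk (by omega) with h2 | h2 <;> omega
      rw [hke] at hm hkd'
      exact ⟨hkd', fun t ht1 ht2 htd => hm t htd (by omega) (by omega)⟩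
    have hleft : ∀ y ∈ A, y ≤ q' → g ∣ y - x ∧ ∀ t, y ≤ t → t ≤ q → g ∣ t - x → t ∈ A := by
      intro y hy hyq
      have hno := h y q hyq (le_refl _)
      have hk : 0 < Int.gcd (y - x) (q - x) := Int.gcd_pos_of_ne_zero_left _ (by omega)
      have hkd : (Int.gcd (y - x) (q - x) : ℤ) ∣ y - x := Int.gcd_dvd_left _ _
      have hkd' : (Int.gcd (y - x) (q - x) : ℤ) ∣ q - x := Int.gcd_dvd_right _ _
      have hm := fun t => mem_of_not_own (t := t) hx hy hq (by omega) (by omega) (by omega) hno
      set k : ℤ := (Int.gcd (y - x) (q - x) : ℤ) with hkdef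
      have hkle : k ≤ q - x := Int.le_of_dvd (by omega) hkd'
      have hxk : x - k ∈ A := hm _ (by simp) (by omega) (by omega)
      have hke : k = g := by
        rcases hadj _ hxk (by omega) with h2 | h2 <;> omega
      rw [hke] at hm hkd
      exact ⟨hkd, fun t ht1 ht2 htd => hm t htd (by omega) (by omega)⟩
    refine isAP_of_full hx hg1 ?_ ?_
    · intro z hz
      by_cases hzx : z = x
      · rw [hzx]; simp
      rcases hadj z hz hzx with h2 | h2
      · exact (hleft z hz h2).1
      · exact (hright z hz h2).1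
    · intro z hz t ht1 ht2 htd
      by_cases hzx : z = x
      · have : t = x := by rw [hzx] at ht1 ht2; omega
        rw [this]; exact hx
      rcases hadj z hz hzx with h2 | h2
      · exact (hleft z hz h2).2 t (by omega) (by omega) htd
      · exact (hright z hz h2).2 t (by omega) (by omega) htd
  · -- both to the right of `x`
    rcases core_lemma hx hq hxq (fun y hy hxy hyq => by
        have h2 : y ≤ q' := by
          rcases hadj y hy (by omega) with h3 | h3 <;> omega
        exact h y q h2 (le_refl _)) with ⟨a, b, ha, hb, hab, hl⟩ | ⟨e, he, heq, hA'⟩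
    · exact ⟨a, b, hab, lcm_le_of_dvd (by omega) (by omega) hl⟩
    · by_contra hS
      have heq' : e ≤ q - x := Int.le_of_dvd (by omega) heq
      have hxe : x + e ∈ A := (hA' _ (by omega) (by omega)).2 (by simp)
      have hq'e : e ∣ q' - x := (hA' q' (by omega) (by omega)).1 hq'
      have heq'' : e ≤ q' - x := Int.le_of_dvd (by omega) hq'e
      have hright : ∀ z ∈ A, q ≤ z → e ∣ z - x ∧ ∀ t, x ≤ t → t ≤ z → e ∣ t - x → t ∈ A := by
        intro z hz hqz
        have hno := h (x + e) z (by omega) hqz
        have hk : 0 < Int.gcd (x + e - x) (z - x) := Int.gcd_pos_of_ne_zero_left _ (by omega)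
        have hkd : (Int.gcd (x + e - x) (z - x) : ℤ) ∣ x + e - x := Int.gcd_dvd_left _ _
        have hkd' : (Int.gcd (x + e - x) (z - x) : ℤ) ∣ z - x := Int.gcd_dvd_right _ _
        have hm := fun t => mem_of_not_own (t := t) hx hxe hz (by omega) (by omega) (by omega) hno
        set k : ℤ := (Int.gcd (x + e - x) (z - x) : ℤ) with hkdef
        have hkle : k ≤ x + e - x := Int.le_of_dvd (by omega) hkd
        have hxk : x + k ∈ A := hm _ (by simp) (by omega) (by omega)
        have h3 := (hA' _ (by omega) (by omega)).1 hxk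
        have h4 : x + k - x = k := by ring
        rw [h4] at h3
        have h5 := Int.le_of_dvd (by omega) h3
        have hke : k = e := by omega
        rw [hke] at hm hkd'
        exact ⟨hkd', fun t ht1 ht2 htd => hm t htd (by omega) (by omega)⟩
      have hcl : ∀ z ∈ A, e ∣ z - x := by
        intro z hz
        rcases lt_trichotomy z x with hzx | hzx | hzx
        · have hno := h z q (by omega) (le_refl _)
          have hk : 0 < Int.gcd (z - x) (q - x) := Int.gcd_pos_of_ne_zero_left _ (by omega)
          have hkd : (Int.gcd (z - x) (q - x) : ℤ) ∣ z - x := Int.gcd_dvd_left _ _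
          have hkd' : (Int.gcd (z - x) (q - x) : ℤ) ∣ q - x := Int.gcd_dvd_right _ _
          have hm := fun t => mem_of_not_own (t := t) hx hz hq (by omega) (by omega) (by omega) hno
          set k : ℤ := (Int.gcd (z - x) (q - x) : ℤ) with hkdef
          have hkle : k ≤ q - x := Int.le_of_dvd (by omega) hkd'
          have hxk : x + k ∈ A := hm _ (by simp) (by omega) (by omega)
          have h3 := (hA' _ (by omega) (by omega)).1 hxk
          have h4 : x + k - x = k := by ring
          rw [h4] at h3
          exact h3.trans hkd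
        · rw [hzx]; simp
        · rcases le_total q z with h2 | h2
          · exact (hright z hz h2).1
          · exact (hA' z (by omega) h2).1 hz
      apply hAP
      refine isAP_of_full hx he hcl ?_
      intro z hz t ht1 ht2 htd
      rcases lt_trichotomy z x with hzx | hzx | hzx
      · have hno : ¬ Own x A (x + e) z := by
          intro hown
          apply hS
          refine ⟨e, z - x, ?_, ?_⟩
          · have : x + (z - x) = z := by ring
            rw [this]; exact hown
          · have h6 : (Int.lcm e (z - x) : ℤ) ∣ z - x :=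
              Int.coe_lcm_dvd (hcl z hz) (dvd_refl _)
            have h7 := mem_Icc.1 (hA hz)
            exact lcm_le_of_dvd (M := -(z - x)) (by omega) (by omega) ((dvd_neg).2 h6)
        refine mem_of_not_own hx hxe hz (by omega) (by omega) (by omega) hno ?_ ?_ ?_
        · have : x + e - x = e := by ring
          rw [this]
          refine dvd_trans ?_ htd
          exact Int.gcd_dvd_left _ _
        · omega
        · omega
      · have : t = x := by rw [hzx] at ht1 ht2; omega
        rw [this]; exact hx
      · rcases le_total q z with h2 | h2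
        · exact (hright z hz h2).2 t (by omega) (by omega) htd
        · exact (hA' t (by omega) (by omega)).2 htd

end Pool.Agent.APLarge
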