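import Pool.Agent.APInt.Family
import Pool.Agent.APInt.Upper

/-!
Definitions for the determination of `t(N)` for all large `N`.
-/

set_option autoImplicit false

namespace Pool.Agent.APLarge

open Finset Pool.Agent.APInt

/-- The pair `{y, z}` is owned by `A` relative to `x`: no progression inside `A` contains
`x`, `y` and `z`. -/
def Own (x : ℤ) (A : Finset ℤ) (y z : ℤ) : Prop :=
  y ∈ A ∧ z ∈ A ∧ y ≠ x ∧ z ≠ x ∧ y ≠ z ∧
    ∀ P ⊆ A, IsAP P → x ∈ P → y ∈ P → z ∈ P → False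

/-- `A` owns a special pair relative to `x`. -/
def Spec (N : ℕ) (x : ℤ) (A : Finset ℤ) : Prop :=
  ∃ a b : ℤ, Own x A (x + a) (x + b) ∧ Int.lcm a b ≤ N

/-- The progression with difference `d` and ends `a`, `b` (if `d` divides `b - a`). -/
noncomputable def apSet (d a b : ℤ) : Finset ℤ := (Icc a b).filter (fun t => d ∣ t - a)

/-- The pair `p` lies in a progression of the family through `x`. -/
def Oml (F : Finset (Finset ℤ)) (x : ℤ) (p : ℤ × ℤ) : Prop :=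
  ∃ P ∈ F, IsAP P ∧ x ∈ P ∧ p.1 ∈ P ∧ p.2 ∈ P

/-- The pair `p` surrounds an interval of the family missing `x`. -/
def Tl (F : Finset (Finset ℤ)) (x : ℤ) (p : ℤ × ℤ) : Prop :=
  p.1 + 1 ≤ p.2 - 1 ∧ Icc (p.1 + 1) (p.2 - 1) ∈ F ∧ x ∉ Icc (p.1 + 1) (p.2 - 1)

/-- The pair `p` surrounds (not tightly) an interval of the family to the right of `x`. -/
def Kmix (F : Finset (Finset ℤ)) (x : ℤ) (p : ℤ × ℤ) : Prop :=
  x < p.1 ∧ ∃ a b : ℤ, a ≤ b ∧ Icc a b ∈ F ∧ p.1 < a ∧ b < p.2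

/-- `a` is the largest left end and `b` the smallest right end of a progression of `F`
missing `x`. -/
structure Hull (N : ℕ) (F : Finset (Finset ℤ)) (x a b : ℤ) : Prop where
  adm : Admissible N F
  hx : x ∈ Icc (1 : ℤ) N
  xb : x ≤ b
  ab : a ≤ b
  ha : a ∈ Icc (1 : ℤ) N
  hb : b ∈ Icc (1 : ℤ) N
  low : ∀ B ∈ F, IsAP B → x ∉ B → ∃ t ∈ B, t ≤ a
  high : ∀ B ∈ F, IsAP B → x ∉ B → ∃ t ∈ B, b ≤ t
  att_low : ∃ B ∈ F, IsAP B ∧ x ∉ B ∧ ∀ t ∈ B, a ≤ t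
  att_high : ∃ B ∈ F, IsAP B ∧ x ∉ B ∧ ∀ t ∈ B, t ≤ b

open Classical in
/-- The excluded pairs. -/
noncomputable def Omega (N : ℕ) (F : Finset (Finset ℤ)) (x a b : ℤ) : Finset (ℤ × ℤ) :=
  (prs N x).filter (fun p => (p.2 < a ∨ b < p.1) ∨ Tl F x p ∨ Oml F x p)

/-- The reflection of a set. -/
def mir (N : ℕ) (A : Finset ℤ) : Finset ℤ := A.image (fun t => (N : ℤ) + 1 - t)

/-- The reflection of a family. -/
noncomputable def mirF (N : ℕ) (F : Finset (Finset ℤ)) : Finset (Finset ℤ) := F.image (mir N)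

/-! ### basic facts -/

lemma Own.symm {x : ℤ} {A : Finset ℤ} {y z : ℤ} (h : Own x A y z) : Own x A z y :=
  ⟨h.2.1, h.1, h.2.2.2.1, h.2.2.1, h.2.2.2.2.1.symm,
    fun P h1 h2 h3 h4 h5 => h.2.2.2.2.2 P h1 h2 h3 h5 h4⟩

lemma Own.comm {x : ℤ} {A : Finset ℤ} {y z : ℤ} : Own x A y z ↔ Own x A z y :=
  ⟨Own.symm, Own.symm⟩

lemma isAP_iff_apSet (P : Finset ℤ) :
    IsAP P ↔ ∃ d a b : ℤ, 1 ≤ d ∧ a ≤ b ∧ d ∣ b - a ∧ P = apSet d a b := by
  rw [isAP_iff]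
  constructor
  · rintro ⟨a, d, b, hd, hab, hdvd, h⟩
    refine ⟨d, a, b, hd, hab, hdvd, ?_⟩
    ext t
    rw [h t, apSet, mem_filter, mem_Icc]
    tauto
  · rintro ⟨d, a, b, hd, hab, hdvd, rfl⟩
    refine ⟨a, d, b, hd, hab, hdvd, ?_⟩
    intro t
    rw [apSet, mem_filter, mem_Icc]
    tauto

lemma mem_apSet {d a b t : ℤ} : t ∈ apSet d a b ↔ (a ≤ t ∧ t ≤ b) ∧ d ∣ t - a := by
  rw [apSet, mem_filter, mem_Icc]

lemma isAP_apSet {d a b : ℤ} (hd : 1 ≤ d) (hab : a ≤ b) : IsAP (apSet d a b) := by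
  have h0 : 0 ≤ (b - a) % d := Int.emod_nonneg _ (by omega)
  have h1 : (b - a) % d < d := Int.emod_lt_of_pos _ (by omega)
  have h2 : d * ((b - a) / d) + (b - a) % d = b - a := Int.mul_ediv_add_emod _ _
  have h3 : 0 ≤ (b - a) / d := Int.ediv_nonneg (by omega) (by omega)
  rw [isAP_iff]
  refine ⟨a, d, a + d * ((b - a) / d), hd, ?_, by simp, ?_⟩
  · have := mul_nonneg (by omega : (0 : ℤ) ≤ d) h3
    omega
  · intro t
    rw [mem_apSet]
    constructor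
    · rintro ⟨⟨h4, h5⟩, k, hk⟩
      refine ⟨⟨k, hk⟩, h4, ?_⟩
      have h6 : k ≤ (b - a) / d := by
        rw [Int.le_ediv_iff_mul_le (by omega)]
        have : k * d = d * k := mul_comm _ _
        omega
      have h7 : d * k ≤ d * ((b - a) / d) := mul_le_mul_of_nonneg_left h6 (by omega)
      omega
    · rintro ⟨h4, h5, h6⟩
      exact ⟨⟨h5, by omega⟩, h4⟩

/-- Ownership in terms of a missing point. -/
lemma own_iff {x : ℤ} {A : Finset ℤ} {y z : ℤ} (_hx : x ∈ A) :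
    Own x A y z ↔ y ∈ A ∧ z ∈ A ∧ y ≠ x ∧ z ≠ x ∧ y ≠ z ∧
      ∃ t, (Int.gcd (y - x) (z - x) : ℤ) ∣ t - x ∧ min x (min y z) ≤ t ∧
        t ≤ max x (max y z) ∧ t ∉ A := by
  unfold Own
  constructor
  · rintro ⟨hy, hz, hyx, hzx, hyz, h⟩
    refine ⟨hy, hz, hyx, hzx, hyz, ?_⟩
    by_contra hcon
    push Not at hcon
    set g : ℤ := (Int.gcd (y - x) (z - x) : ℤ) with hg
    have hgpos : 0 < g := by
      rw [hg]
      have : 0 < Int.gcd (y - x) (z - x) := Int.gcd_pos_of_ne_zero_left _ (by omega)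
      exact_mod_cast this
    have hgy : g ∣ y - x := Int.gcd_dvd_left _ _
    have hgz : g ∣ z - x := Int.gcd_dvd_right _ _
    set lo := min x (min y z) with hlo
    set hi := max x (max y z) with hhi
    have h1 : lo ≤ x := min_le_left _ _
    have h2 : lo ≤ y := le_trans (min_le_right _ _) (min_le_left _ _)
    have h3 : lo ≤ z := le_trans (min_le_right _ _) (min_le_right _ _)
    have h4 : x ≤ hi := le_max_left _ _
    have h5 : y ≤ hi := le_trans (le_max_left _ _) (le_max_right _ _)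
    have h6 : z ≤ hi := le_trans (le_max_right _ _) (le_max_right _ _)
    have hglo : g ∣ x - lo := by
      rcases min_choice x (min y z) with h7 | h7
      · rw [hlo, h7]; simp
      · rcases min_choice y z with h8 | h8
        · rw [hlo, h7, h8, ← dvd_neg]; simpa using hgy
        · rw [hlo, h7, h8, ← dvd_neg]; simpa using hgz
    refine h (apSet g lo hi) ?_ (isAP_apSet (by omega) (by omega)) ?_ ?_ ?_
    · intro t ht
      rw [mem_apSet] at ht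
      refine hcon t ?_ ht.1.1 ht.1.2
      have := dvd_sub ht.2 hglo
      simpa using this
    · exact mem_apSet.2 ⟨⟨h1, h4⟩, hglo⟩
    · refine mem_apSet.2 ⟨⟨h2, h5⟩, ?_⟩
      have := dvd_add hgy hglo
      simpa using this
    · refine mem_apSet.2 ⟨⟨h3, h6⟩, ?_⟩
      have := dvd_add hgz hglo
      simpa using this
  · rintro ⟨hy, hz, hyx, hzx, hyz, t, h1, h2, h3, h4⟩
    refine ⟨hy, hz, hyx, hzx, hyz, ?_⟩
    intro P hPA hP hxP hyP hzP
    apply h4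
    apply hPA
    apply hP.mem_of_gcd hxP hyP hzP _ h2 h3
    rw [← Int.coe_gcd]
    exact h1

/-- Absence of ownership: all points of the coarsest progression are present. -/
lemma mem_of_not_own {x : ℤ} {A : Finset ℤ} {y z : ℤ} (hx : x ∈ A) (hy : y ∈ A) (hz : z ∈ A)
    (hyx : y ≠ x) (hzx : z ≠ x) (hyz : y ≠ z) (h : ¬ Own x A y z) {t : ℤ}
    (ht : (Int.gcd (y - x) (z - x) : ℤ) ∣ t - x) (h1 : min x (min y z) ≤ t)
    (h2 : t ≤ max x (max y z)) : t ∈ A := by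
  by_contra hcon
  exact h ((own_iff hx).2 ⟨hy, hz, hyx, hzx, hyz, t, ht, h1, h2, hcon⟩)

lemma exists_own {A : Finset ℤ} {x : ℤ} (hx : x ∈ A) (hA : ¬ IsAP A) :
    ∃ y z, y < z ∧ Own x A y z := by
  obtain ⟨y, hy, z, hz, h1, h2, h3, h4⟩ := exists_owned hx hA
  exact ⟨y, z, h3, hy, hz, h1, h2, h3.ne, h4⟩

/-- Owned pairs are exclusive. -/
lemma Own.exclusive {N : ℕ} {F : Finset (Finset ℤ)} (hF : Admissible N F) {x : ℤ}
    {A A' : Finset ℤ} (hA : A ∈ F) (hA' : A' ∈ F) (hne : A ≠ A') (hxA' : x ∈ A')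
    (hxA : x ∈ A) {y z : ℤ} (h : Own x A y z) : ¬ (y ∈ A' ∧ z ∈ A') := by
  rintro ⟨hy, hz⟩
  exact h.2.2.2.2.2 (A ∩ A') inter_subset_left (hF.2 A hA A' hA' hne)
    (mem_inter.2 ⟨hxA, hxA'⟩) (mem_inter.2 ⟨h.1, hy⟩) (mem_inter.2 ⟨h.2.1, hz⟩)

/-- Owned pairs of a member which is not a progression are labels. -/
lemma Own.mem_prs {N : ℕ} {x : ℤ} {A : Finset ℤ} (hA : A ⊆ Icc (1 : ℤ) N) {y z : ℤ}
    (hyz : y < z) (h : Own x A y z) : (y, z) ∈ prs N x := by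
  simp only [prs, mem_filter, mem_product, mem_erase]
  exact ⟨⟨⟨h.2.2.1, hA h.1⟩, h.2.2.2.1, hA h.2.1⟩, hyz⟩

lemma mem_prs {N : ℕ} {x : ℤ} {p : ℤ × ℤ} : p ∈ prs N x ↔
    (1 ≤ p.1 ∧ p.1 ≤ N ∧ p.1 ≠ x) ∧ (1 ≤ p.2 ∧ p.2 ≤ N ∧ p.2 ≠ x) ∧ p.1 < p.2 := by
  simp only [prs, mem_filter, mem_product, mem_erase, mem_Icc]
  tauto

lemma card_prs {N : ℕ} {x : ℤ} (hx : x ∈ Icc (1 : ℤ) N) : (prs N x).card = (N - 1).choose 2 := by
  rw [prs, card_pairs, card_erase_of_mem hx, Int.card_Icc]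
  congr 1
  omega

end Pool.Agent.APLarge
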