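import Pool.Agent.APLarge.Defs

/-!
# Real inequalities (package P7D)
-/

set_option autoImplicit false

namespace Pool.Agent.APLarge

open Finset Pool.Agent.APInt

noncomputable def Mx (ρ X η : ℝ) : ℝ :=
  if ρ * X ≤ 0.54 * η then ρ * X * η else (ρ ^ 2 * X ^ 2 / 0.54 + 0.54 * η ^ 2) / 2

theorem ri1 (ρ X η i τ t : ℝ) (hρ : 0 ≤ ρ) (hi : 0 ≤ i) (hiX : i ≤ X) (ht : 0 ≤ t) (htη : t ≤ η)
    (htτ : t ≤ τ) : ρ * i * τ - 0.54 * (τ ^ 2 - t ^ 2) / 2 ≤ Mx ρ X η := by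
  have hτ : 0 ≤ τ := ht.trans htτ
  have h1 : ρ * i * τ ≤ ρ * X * τ := by
    have := mul_le_mul_of_nonneg_left hiX hρ
    exact mul_le_mul_of_nonneg_right this hτ
  have h2 : t ^ 2 ≤ η ^ 2 := by nlinarith
  have h3 : t ^ 2 ≤ τ ^ 2 := by nlinarith
  have hη : 0 ≤ η := ht.trans htη
  have hX : 0 ≤ X := hi.trans hiX
  have hρX : 0 ≤ ρ * X := mul_nonneg hρ hX
  rw [Mx]
  split_ifs with h
  · rcases le_total τ η with h4 | h4
    · have : ρ * X * τ ≤ ρ * X * η := mul_le_mul_of_nonneg_left h4 hρX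
      nlinarith
    · nlinarith [mul_nonneg (sub_nonneg.2 h4) (sub_nonneg.2 h),
        mul_nonneg (sub_nonneg.2 h4) (sub_nonneg.2 h4)]
  · have h5 : ρ ^ 2 * X ^ 2 / 0.54 = 50 / 27 * (ρ * X) ^ 2 := by rw [mul_pow]; ring
    rw [h5]
    have h6 := sq_nonneg (ρ * X - 27 / 50 * τ)
    have h7 : (0.54 : ℝ) = 27 / 50 := by norm_num
    rw [h7]
    nlinarith

theorem ri2 (ρ s η i j tl tr : ℝ) (hρ : 0 ≤ ρ) (hρ2 : ρ ≤ 0.54) (htl : 0 ≤ tl) (htr : 0 ≤ tr)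
    (htls : tl ≤ s) (htrη : tr ≤ η) (hi : tl ≤ i) (hj : tr ≤ j) :
    ρ * i * j - 0.54 * ((i ^ 2 - tl ^ 2) + (j ^ 2 - tr ^ 2)) / 2 ≤ ρ * (s ^ 2 + η ^ 2) / 2 := by
  have h1 : ρ * i * j ≤ ρ * (i ^ 2 + j ^ 2) / 2 := by nlinarith [mul_nonneg hρ (sq_nonneg (i - j))]
  have h2 : tl ^ 2 ≤ i ^ 2 := by nlinarith
  have h3 : tr ^ 2 ≤ j ^ 2 := by nlinarith
  have h4 : tl ^ 2 ≤ s ^ 2 := by nlinarith
  have h5 : tr ^ 2 ≤ η ^ 2 := by nlinarith
  have h6 := mul_nonneg (sub_nonneg.2 hρ2) (sub_nonneg.2 h2)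
  have h7 := mul_nonneg (sub_nonneg.2 hρ2) (sub_nonneg.2 h3)
  have h8 := mul_nonneg hρ (sub_nonneg.2 h4)
  have h9 := mul_nonneg hρ (sub_nonneg.2 h5)
  nlinarith

private lemma mx3 (X η : ℝ) : Mx 0.46 X η = if 23 / 50 * X ≤ 27 / 50 * η then 23 / 50 * X * η else
    529 / 2700 * X ^ 2 + 27 / 100 * η ^ 2 := by
  rw [Mx]
  have e1 : (0.46 : ℝ) = 23 / 50 := by norm_num
  have e2 : (0.54 : ℝ) = 27 / 50 := by norm_num
  rw [e1, e2]
  split_ifs with h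
  · rfl
  · ring

private lemma mx4 (X η : ℝ) : Mx 0.21 X η = if 21 / 100 * X ≤ 27 / 50 * η then 21 / 100 * X * η else
    49 / 1200 * X ^ 2 + 27 / 100 * η ^ 2 := by
  rw [Mx]
  have e1 : (0.21 : ℝ) = 21 / 100 := by norm_num
  have e2 : (0.54 : ℝ) = 27 / 50 := by norm_num
  rw [e1, e2]
  split_ifs with h
  · rfl
  · ring

theorem ri3 (X α η : ℝ) (hX : 0 ≤ X) (hα : 0 ≤ α) (hη : 0 ≤ η) :
    Mx 0.46 X η + (Mx 0.46 X η + α * η) / 4 +
      0.395 * max (Mx 0.46 X η + α * η) ((X + α) * η) ≤ 0.97 * (((X + α) ^ 2 + η ^ 2) / 2) := by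
  have hXη := mul_nonneg hX hη
  have hαη := mul_nonneg hα hη
  have hXα := mul_nonneg hX hα
  have hsq : (X + α) * η ≤ ((X + α) ^ 2 + η ^ 2) / 2 := by nlinarith [sq_nonneg (X + α - η)]
  have e1 : (0.395 : ℝ) = 79 / 200 := by norm_num
  have e2 : (0.97 : ℝ) = 97 / 100 := by norm_num
  rw [mx3, e1, e2]
  split_ifs with h
  · have h1 : max (23 / 50 * X * η + α * η) ((X + α) * η) = (X + α) * η := by
      apply max_eq_right
      nlinarith
    rw [h1]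
    nlinarith
  · push Not at h
    have h2 : 0 ≤ (23 / 50 * X - 27 / 50 * η) := by linarith
    have h3 := mul_nonneg h2 hX
    have h4 := mul_nonneg h2 hη
    have h5 := mul_nonneg h2 hα
    have h8 := mul_nonneg h2 h2
    have h9 := sq_nonneg α
    rcases max_cases (529 / 2700 * X ^ 2 + 27 / 100 * η ^ 2 + α * η) ((X + α) * η) with
      ⟨h6, h7⟩ | ⟨h6, h7⟩
    · rw [h6]
      clear h7 h6
      nlinarith [sq_nonneg X, sq_nonneg η]
    · rw [h6]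
      clear h7 h6
      nlinarith [sq_nonneg X, sq_nonneg η]

theorem ri4 (X α η : ℝ) (hX : 0 ≤ X) (hα : 0 ≤ α) (hη : 0 ≤ η) :
    Mx 0.21 X η + 0.645 * max (Mx 0.21 X η + α * η) ((X + α) * η) ≤
      0.97 * (((X + α) ^ 2 + η ^ 2) / 2) := by
  have hXη := mul_nonneg hX hη
  have hαη := mul_nonneg hα hη
  have hXα := mul_nonneg hX hα
  have hsq : (X + α) * η ≤ ((X + α) ^ 2 + η ^ 2) / 2 := by nlinarith [sq_nonneg (X + α - η)]
  have e1 : (0.645 : ℝ) = 129 / 200 := by norm_num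
  have e2 : (0.97 : ℝ) = 97 / 100 := by norm_num
  rw [mx4, e1, e2]
  split_ifs with h
  · have h1 : max (21 / 100 * X * η + α * η) ((X + α) * η) = (X + α) * η := by
      apply max_eq_right
      nlinarith
    rw [h1]
    nlinarith
  · push Not at h
    have h2 : 0 ≤ (21 / 100 * X - 27 / 50 * η) := by linarith
    have h3 := mul_nonneg h2 hX
    have h4 := mul_nonneg h2 hη
    have h5 := mul_nonneg h2 hα
    have h8 := mul_nonneg h2 h2
    have h9 := sq_nonneg α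
    rcases max_cases (49 / 1200 * X ^ 2 + 27 / 100 * η ^ 2 + α * η) ((X + α) * η) with
      ⟨h6, h7⟩ | ⟨h6, h7⟩
    · rw [h6]
      clear h7 h6
      nlinarith [sq_nonneg X, sq_nonneg η]
    · rw [h6]
      clear h7 h6
      nlinarith [sq_nonneg X, sq_nonneg η]

end Pool.Agent.APLarge
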