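import Pool.Agent.APLarge.Rho
import Pool.Agent.APLarge.Pairs
import Pool.Agent.APLarge.RealIneq
import Pool.Agent.APLarge.Scale

/-!
Labels of the progressions of all scales, and a lower bound for the number of excluded pairs.
-/

set_option autoImplicit false

namespace Pool.Agent.APLarge

open Finset Pool.Agent.APInt

/-- `u ≥ Au` iff `u ≥ 1` and `x + u d ≥ a` -/
def Au (x a : ℤ) (d : ℕ) : ℕ := max 1 ((a - x + (d - 1)) / d).toNat

/-- `u ≤ Bu` iff `x + u d ≤ b` -/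
def Bu (x b : ℤ) (d : ℕ) : ℕ := ((b - x) / d).toNat

/-- `u ≤ Cu` iff `x - u d ≥ a` -/
def Cu (x a : ℤ) (d : ℕ) : ℕ := ((x - a) / d).toNat

lemma one_le_Au (x a : ℤ) (d : ℕ) : 1 ≤ Au x a d := le_max_left _ _

lemma Au_le {x a : ℤ} {d u : ℕ} (hd : 1 ≤ d) (hu : 1 ≤ u) : Au x a d ≤ u ↔ a ≤ x + u * d := by
  have hd' : (0 : ℤ) < d := by exact_mod_cast hd
  have h1 : (a - x + (d - 1)) / (d : ℤ) ≤ u ↔ a ≤ x + u * d := by
    rw [← Int.lt_add_one_iff, Int.ediv_lt_iff_lt_mul hd']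
    have h2 : ((u : ℤ) + 1) * d = u * d + d := by ring
    constructor
    · intro h
      linarith
    · intro h
      linarith
  rw [← h1]
  unfold Au
  omega

lemma le_Bu {x b : ℤ} {d u : ℕ} (hd : 1 ≤ d) (hu : 1 ≤ u) : u ≤ Bu x b d ↔ x + u * d ≤ b := by
  have hd' : (0 : ℤ) < d := by exact_mod_cast hd
  have h1 : (u : ℤ) ≤ (b - x) / (d : ℤ) ↔ x + u * d ≤ b := by
    rw [Int.le_ediv_iff_mul_le hd']
    constructor
    · intro h
      linarith
    · intro h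
      linarith
  rw [← h1]
  unfold Bu
  omega

lemma le_Cu {x a : ℤ} {d u : ℕ} (hd : 1 ≤ d) (hu : 1 ≤ u) : u ≤ Cu x a d ↔ a ≤ x - u * d := by
  have hd' : (0 : ℤ) < d := by exact_mod_cast hd
  have h1 : (u : ℤ) ≤ (x - a) / (d : ℤ) ↔ a ≤ x - u * d := by
    rw [Int.le_ediv_iff_mul_le hd']
    constructor
    · intro h
      linarith
    · intro h
      linarith
  rw [← h1]
  unfold Cu
  omega

/-- largest left extent -/
noncomputable def Im (N : ℕ) (F : Finset (Finset ℤ)) (x : ℤ) (d : ℕ) : ℕ :=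
  (Rd N F x d).sup Prod.fst

/-- largest right extent -/
noncomputable def Jm (N : ℕ) (F : Finset (Finset ℤ)) (x : ℤ) (d : ℕ) : ℕ :=
  (Rd N F x d).sup Prod.snd

open Classical in
/-- natural labels with good gcd -/
noncomputable def NatL (N : ℕ) (F : Finset (Finset ℤ)) (x : ℤ) (g : ℕ → ℕ → Prop) (d : ℕ) :
    Finset (ℤ × ℤ) :=
  ((Rd N F x d).filter (fun p => g p.1 p.2)).image (fun p => (-(p.1 : ℤ), (p.2 : ℤ)))

/-- same-side labels to the right -/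
noncomputable def ExtR (N : ℕ) (F : Finset (Finset ℤ)) (x a b : ℤ) (d : ℕ) :
    Finset (ℤ × ℤ) :=
  (((Icc (Au x a d) (Bu x b d)) ×ˢ (Icc (Au x a d) (Jm N F x d))).filter
    (fun p : ℕ × ℕ => p.1 < p.2 ∧ Nat.Coprime p.1 p.2)).image (fun p => ((p.1 : ℤ), (p.2 : ℤ)))

/-- same-side labels to the left -/
noncomputable def ExtL (N : ℕ) (F : Finset (Finset ℤ)) (x a : ℤ) (d : ℕ) :
    Finset (ℤ × ℤ) :=
  (((Icc 1 (Cu x a d)) ×ˢ (Icc 1 (Im N F x d))).filter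
    (fun p : ℕ × ℕ => p.1 < p.2 ∧ Nat.Coprime p.1 p.2)).image
      (fun p => (-(p.2 : ℤ), -(p.1 : ℤ)))

/-- all labels of scale `d` -/
noncomputable def Lab (N : ℕ) (F : Finset (Finset ℤ)) (x a b : ℤ) (g : ℕ → ℕ → Prop) (d : ℕ) :
    Finset (ℤ × ℤ) :=
  NatL N F x g d ∪ (ExtR N F x a b d ∪ ExtL N F x a d)

lemma mem_Rd {N : ℕ} {F : Finset (Finset ℤ)} {x : ℤ} {d i j : ℕ} :
    (i, j) ∈ Rd N F x d ↔ (1 ≤ i ∧ i ≤ N) ∧ (1 ≤ j ∧ j ≤ N) ∧ seg x d i j ∈ F := by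
  simp only [Rd, mem_filter, mem_product, mem_Icc]
  tauto

lemma exists_Jm {N : ℕ} {F : Finset (Finset ℤ)} {x : ℤ} {d : ℕ} (h : 1 ≤ Jm N F x d) :
    ∃ i, (i, Jm N F x d) ∈ Rd N F x d := by
  have hne : (Rd N F x d).Nonempty := by
    by_contra hcon
    rw [not_nonempty_iff_eq_empty] at hcon
    unfold Jm at h
    rw [hcon] at h
    simp at h
  obtain ⟨p, hp, hp2⟩ := exists_snd hne
  refine ⟨p.1, ?_⟩
  unfold Jm
  rw [← hp2]
  exact hp

lemma exists_Im {N : ℕ} {F : Finset (Finset ℤ)} {x : ℤ} {d : ℕ} (h : 1 ≤ Im N F x d) :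
    ∃ j, (Im N F x d, j) ∈ Rd N F x d := by
  have hne : (Rd N F x d).Nonempty := by
    by_contra hcon
    rw [not_nonempty_iff_eq_empty] at hcon
    unfold Im at h
    rw [hcon] at h
    simp at h
  obtain ⟨p, hp, hp2⟩ := exists_fst hne
  refine ⟨p.2, ?_⟩
  unfold Im
  rw [← hp2]
  exact hp

lemma le_Jm {N : ℕ} {F : Finset (Finset ℤ)} {x : ℤ} {d i j : ℕ} (h : (i, j) ∈ Rd N F x d) :
    j ≤ Jm N F x d := le_sup (f := Prod.snd) h

lemma le_Im {N : ℕ} {F : Finset (Finset ℤ)} {x : ℤ} {d i j : ℕ} (h : (i, j) ∈ Rd N F x d) :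
    i ≤ Im N F x d := le_sup (f := Prod.fst) h

lemma Jm_pos {N : ℕ} {F : Finset (Finset ℤ)} {x : ℤ} {d : ℕ} (h : (Rd N F x d).Nonempty) :
    1 ≤ Jm N F x d := by
  obtain ⟨⟨i, j⟩, hp⟩ := h
  exact le_trans (mem_Rd.1 hp).2.1.1 (le_Jm hp)

lemma Im_pos {N : ℕ} {F : Finset (Finset ℤ)} {x : ℤ} {d : ℕ} (h : (Rd N F x d).Nonempty) :
    1 ≤ Im N F x d := by
  obtain ⟨⟨i, j⟩, hp⟩ := h
  exact le_trans (mem_Rd.1 hp).1.1 (le_Im hp)

/-- elements of the labels of scale `d` -/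
lemma mem_Lab {N : ℕ} {F : Finset (Finset ℤ)} {x a b : ℤ} {g : ℕ → ℕ → Prop} {d : ℕ} {p : ℤ × ℤ}
    (h : p ∈ Lab N F x a b g d) :
    (∃ i j : ℕ, (i, j) ∈ Rd N F x d ∧ g i j ∧ p = (-(i : ℤ), (j : ℤ))) ∨
    (∃ u v : ℕ, Au x a d ≤ u ∧ u ≤ Bu x b d ∧ u < v ∧ v ≤ Jm N F x d ∧ Nat.Coprime u v ∧
      p = ((u : ℤ), (v : ℤ))) ∨
    (∃ u v : ℕ, 1 ≤ u ∧ u ≤ Cu x a d ∧ u < v ∧ v ≤ Im N F x d ∧ Nat.Coprime u v ∧
      p = (-(v : ℤ), -(u : ℤ))) := by
  simp only [Lab, mem_union] at h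
  rcases h with h | h | h
  · left
    simp only [NatL, mem_image, mem_filter, Prod.exists] at h
    obtain ⟨i, j, ⟨h1, h2⟩, rfl⟩ := h
    exact ⟨i, j, h1, h2, rfl⟩
  · right; left
    simp only [ExtR, mem_image, mem_filter, Prod.exists, mem_product, mem_Icc] at h
    obtain ⟨u, v, ⟨⟨⟨h1, h2⟩, h3, h4⟩, h5, h6⟩, rfl⟩ := h
    exact ⟨u, v, h1, h2, h5, h4, h6, rfl⟩
  · right; right
    simp only [ExtL, mem_image, mem_filter, Prod.exists, mem_product, mem_Icc] at h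
    obtain ⟨u, v, ⟨⟨⟨h1, h2⟩, h3, h4⟩, h5, h6⟩, rfl⟩ := h
    exact ⟨u, v, h1, h2, h5, h4, h6, rfl⟩

/-- all labels lie below a member -/
lemma mem_Lab' {N : ℕ} {F : Finset (Finset ℤ)} {x a b : ℤ} {g : ℕ → ℕ → Prop} {d : ℕ} {p : ℤ × ℤ}
    (h : p ∈ Lab N F x a b g d) :
    p.1 < p.2 ∧ p.1 ≠ 0 ∧ p.2 ≠ 0 ∧ ∃ i j : ℕ, (i, j) ∈ Rd N F x d ∧ -(i : ℤ) ≤ p.1 ∧
      p.2 ≤ (j : ℤ) := by
  rcases mem_Lab h with ⟨i, j, h1, h2, rfl⟩ | ⟨u, v, h1, h2, h3, h4, h5, rfl⟩ |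
    ⟨u, v, h1, h2, h3, h4, h5, rfl⟩
  · have h3 := mem_Rd.1 h1
    refine ⟨?_, ?_, ?_, i, j, h1, le_refl _, le_refl _⟩
    · simp only; omega
    · simp only; omega
    · simp only; omega
  · have h6 := one_le_Au x a d
    obtain ⟨i, hi⟩ := exists_Jm (N := N) (F := F) (x := x) (d := d) (by omega)
    refine ⟨?_, ?_, ?_, i, _, hi, ?_, ?_⟩
    · simp only; omega
    · simp only; omega
    · simp only; omega
    · simp only; omega
    · simp only; omega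
  · obtain ⟨j, hj⟩ := exists_Im (N := N) (F := F) (x := x) (d := d) (by omega)
    refine ⟨?_, ?_, ?_, _, j, hj, ?_, ?_⟩
    · simp only; omega
    · simp only; omega
    · simp only; omega
    · simp only; omega
    · simp only; omega

lemma seg_bounds {N : ℕ} {F : Finset (Finset ℤ)} (hF : Admissible N F) {x : ℤ} {d i j : ℕ}
    (h : (i, j) ∈ Rd N F x d) : 1 ≤ x - i * d ∧ x + j * d ≤ N := by
  have h1 := hF.1 _ (mem_Rd.1 h).2.2
  have h2 : x - i * d ∈ seg x d i j := by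
    rw [mem_seg]
    exact ⟨-(i : ℤ), le_refl _, by omega, by ring⟩
  have h3 : x + j * d ∈ seg x d i j := by
    rw [mem_seg]
    exact ⟨(j : ℤ), by omega, le_refl _, by ring⟩
  have h4 := mem_Icc.1 (h1 h2)
  have h5 := mem_Icc.1 (h1 h3)
  exact ⟨h4.1, h5.2⟩

/-- labels in `prs` and below a progression through `x` -/
lemma lab_prs {N : ℕ} {F : Finset (Finset ℤ)} (hF : Admissible N F) {x a b : ℤ}
    {g : ℕ → ℕ → Prop} {d : ℕ} (hd : 1 ≤ d) {p : ℤ × ℤ} (h : p ∈ Lab N F x a b g d) :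
    (x + p.1 * d, x + p.2 * d) ∈ prs N x ∧ Oml F x (x + p.1 * d, x + p.2 * d) := by
  obtain ⟨h1, h2, h3, i, j, h4, h5, h6⟩ := mem_Lab' h
  have hd' : (0 : ℤ) < d := by exact_mod_cast hd
  have h7 := seg_bounds hF h4
  have h8 : -(i : ℤ) * d ≤ p.1 * d := mul_le_mul_of_nonneg_right h5 hd'.le
  have h9 : p.2 * d ≤ j * d := mul_le_mul_of_nonneg_right h6 hd'.le
  have h10 : p.1 * d < p.2 * d := mul_lt_mul_of_pos_right h1 hd'
  have h11 : p.1 * d ≠ 0 := mul_ne_zero h2 hd'.ne'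
  have h12 : p.2 * d ≠ 0 := mul_ne_zero h3 hd'.ne'
  have h13 : -(i : ℤ) * d = -(i * d) := by ring
  constructor
  · rw [mem_prs]
    simp only
    refine ⟨⟨?_, ?_, ?_⟩, ⟨?_, ?_, ?_⟩, ?_⟩
    · linarith
    · linarith
    · intro h; apply h11; linarith
    · linarith
    · linarith
    · intro h; apply h12; linarith
    · linarith
  · refine ⟨seg x d i j, (mem_Rd.1 h4).2.2, isAP_seg x hd i j, self_mem_seg x d i j, ?_, ?_⟩
    · rw [mem_seg]
      exact ⟨p.1, h5, by omega, rfl⟩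
    · rw [mem_seg]
      exact ⟨p.2, by omega, h6, rfl⟩

/-- labels are not on one side of `[a, b]` -/
lemma lab_not_K {N : ℕ} {F : Finset (Finset ℤ)} {x a b : ℤ} (hH : Hull N F x a b)
    {g : ℕ → ℕ → Prop} {d : ℕ} (hd : 1 ≤ d) {p : ℤ × ℤ} (h : p ∈ Lab N F x a b g d) :
    a ≤ x + p.2 * d ∧ x + p.1 * d ≤ b := by
  have hd' : (0 : ℤ) < d := by exact_mod_cast hd
  have hxb := hH.xb
  have hab := hH.ab
  rcases mem_Lab h with ⟨i, j, h1, h2, rfl⟩ | ⟨u, v, h1, h2, h3, h4, h5, rfl⟩ |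
    ⟨u, v, h1, h2, h3, h4, h5, rfl⟩
  · simp only
    have h3 := le_of_mem_Rd hH h1
    have h4 : 0 ≤ (i : ℤ) * d := by positivity
    constructor
    · exact h3
    · linarith
  · simp only
    have h6 := one_le_Au x a d
    have h7 := (Au_le (x := x) (a := a) hd (by omega : 1 ≤ u)).1 h1
    have h8 := (le_Bu (x := x) (b := b) hd (by omega : 1 ≤ u)).1 h2
    have h9 : (u : ℤ) * d ≤ v * d := mul_le_mul_of_nonneg_right (by omega) hd'.le
    constructor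
    · linarith
    · linarith
  · simp only
    have h7 := (le_Cu (x := x) (a := a) hd h1).1 h2
    have h9 : 0 ≤ (v : ℤ) * d := by positivity
    constructor
    · linarith
    · linarith

/-- labels do not surround intervals missing `x` -/
lemma lab_not_Tl {N : ℕ} {F : Finset (Finset ℤ)} {x a b : ℤ} (hH : Hull N F x a b)
    {g : ℕ → ℕ → Prop} {d : ℕ} (hd : 1 ≤ d) {p : ℤ × ℤ} (h : p ∈ Lab N F x a b g d) :
    ¬ Tl F x (x + p.1 * d, x + p.2 * d) := by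
  have hd' : (0 : ℤ) < d := by exact_mod_cast hd
  have hxb := hH.xb
  have hab := hH.ab
  rintro ⟨h1, h2, h3⟩
  simp only at h1 h2 h3
  have hAP : IsAP (Icc (x + p.1 * d + 1) (x + p.2 * d - 1)) := by
    rw [isAP_iff]
    refine ⟨x + p.1 * d + 1, 1, x + p.2 * d - 1, le_refl _, h1, one_dvd _, ?_⟩
    intro t
    rw [mem_Icc]
    simp
  obtain ⟨t1, ht1, ht1'⟩ := hH.low _ h2 hAP h3
  obtain ⟨t2, ht2, ht2'⟩ := hH.high _ h2 hAP h3
  rw [mem_Icc] at ht1 ht2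
  rw [mem_Icc] at h3
  rcases mem_Lab h with ⟨i, j, h4, h5, rfl⟩ | ⟨u, v, h4, h5, h6, h7, h8, rfl⟩ |
    ⟨u, v, h4, h5, h6, h7, h8, rfl⟩
  · simp only at *
    have h6 := mem_Rd.1 h4
    have h7 : (1 : ℤ) * d ≤ i * d := mul_le_mul_of_nonneg_right (by omega) hd'.le
    have h8 : (1 : ℤ) * d ≤ j * d := mul_le_mul_of_nonneg_right (by omega) hd'.le
    apply h3
    constructor
    · linarith
    · linarith
  · simp only at *
    have h9 := one_le_Au x a d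
    have h10 := (Au_le (x := x) (a := a) hd (by omega : 1 ≤ u)).1 h4
    linarith
  · simp only at *
    have h9 : 0 ≤ (u : ℤ) * d := by positivity
    linarith

/-- pairs on one side of `[a, b]` -/
noncomputable def Kst (N : ℕ) (x a b : ℤ) : Finset (ℤ × ℤ) :=
  (prs N x).filter (fun p => p.2 < a ∨ b < p.1)

lemma card_Kst {N : ℕ} {F : Finset (Finset ℤ)} {x a b : ℤ} (hH : Hull N F x a b) :
    (((a : ℝ) - 1) ^ 2 + ((N : ℝ) - b) ^ 2) / 2 ≤ ((Kst N x a b).card : ℝ) + 2 * N := by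
  classical
  have hxb := hH.xb
  have hab := hH.ab
  have ha := mem_Icc.1 hH.ha
  have hb := mem_Icc.1 hH.hb
  have hx := mem_Icc.1 hH.hx
  set S : Finset ℤ := (Icc 1 (a - 1)).erase x with hS
  set T : Finset ℤ := Icc (b + 1) N with hT
  have hsub : ((S ×ˢ S).filter (fun p => p.1 < p.2)) ∪ ((T ×ˢ T).filter (fun p => p.1 < p.2)) ⊆
      Kst N x a b := by
    intro p hp
    simp only [hS, hT, mem_union, mem_filter, mem_product, mem_erase, mem_Icc] at hp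
    rw [Kst, mem_filter, mem_prs]
    rcases hp with hp | hp
    · refine ⟨⟨⟨?_, ?_, ?_⟩, ⟨?_, ?_, ?_⟩, ?_⟩, Or.inl ?_⟩ <;> omega
    · refine ⟨⟨⟨?_, ?_, ?_⟩, ⟨?_, ?_, ?_⟩, ?_⟩, Or.inr ?_⟩ <;> omega
  have hdisj : Disjoint ((S ×ˢ S).filter (fun p => p.1 < p.2))
      ((T ×ˢ T).filter (fun p => p.1 < p.2)) := by
    rw [disjoint_left]
    intro p hp hq
    simp only [hS, hT, mem_filter, mem_product, mem_erase, mem_Icc] at hp hq
    omega
  have h1 := card_le_card hsub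
  rw [card_union_of_disjoint hdisj, card_pairs, card_pairs] at h1
  have hSc : ((a : ℝ) - 1) - 1 ≤ (S.card : ℝ) := by
    have h2 : (Icc (1 : ℤ) (a - 1)).card - 1 ≤ S.card := pred_card_le_card_erase
    rw [Int.card_Icc] at h2
    have h3 : a - 2 ≤ (S.card : ℤ) := by omega
    have h4 : ((a - 2 : ℤ) : ℝ) ≤ ((S.card : ℤ) : ℝ) := by exact_mod_cast h3
    push_cast at h4
    linarith
  have hTc : (T.card : ℝ) = (N : ℝ) - b := by
    have h3 : (T.card : ℤ) = N - b := by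
      rw [hT, Int.card_Icc]
      omega
    have h4 : ((T.card : ℤ) : ℝ) = ((N - b : ℤ) : ℝ) := by rw [h3]
    push_cast at h4
    linarith
  have h2 : ((S.card.choose 2 : ℕ) : ℝ) + ((T.card.choose 2 : ℕ) : ℝ) ≤
      ((Kst N x a b).card : ℝ) := by exact_mod_cast h1
  rw [Nat.cast_choose_two, Nat.cast_choose_two, hTc] at h2
  have ha1 : (1 : ℝ) ≤ a := by exact_mod_cast ha.1
  have haN : (a : ℝ) ≤ N := by exact_mod_cast ha.2
  have hb1 : (1 : ℝ) ≤ b := by exact_mod_cast hb.1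
  have hbN : (b : ℝ) ≤ N := by exact_mod_cast hb.2
  have hab' : (a : ℝ) ≤ b := by exact_mod_cast hab
  have hS0 : (0 : ℝ) ≤ S.card := Nat.cast_nonneg _
  have h5 : ((a : ℝ) - 1) ^ 2 / 2 - 3 / 2 * ((a : ℝ) - 1) ≤ (S.card : ℝ) * (S.card - 1) / 2 := by
    by_cases h6 : (a : ℝ) ≤ 4
    · have h7 : ((a : ℝ) - 1) ^ 2 / 2 - 3 / 2 * ((a : ℝ) - 1) ≤ 0 := by nlinarith
      have h8 : (0 : ℝ) ≤ (S.card : ℝ) * (S.card - 1) := by
        rcases Nat.eq_zero_or_pos S.card with h9 | h9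
        · rw [h9]; simp
        · have : (1 : ℝ) ≤ S.card := by exact_mod_cast h9
          exact mul_nonneg hS0 (by linarith)
      linarith
    · push Not at h6
      nlinarith
  nlinarith

open Classical in
/-- the lower bound for the number of excluded pairs -/
lemma omega_ge {N : ℕ} {F : Finset (Finset ℤ)} {x a b : ℤ} (hH : Hull N F x a b)
    (g : ℕ → ℕ → Prop) (κ : ℕ → ℕ)
    (hκ : ∀ d ∈ Icc 1 N, ∀ p ∈ Lab N F x a b g d, κ (Int.gcd p.1 p.2 * d) = d) :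
    (Kst N x a b).card + ((prs N x).filter (fun p => Tl F x p)).card +
      ∑ d ∈ Icc 1 N, (Lab N F x a b g d).card ≤ (Omega N F x a b).card := by
  rw [← card_labels (Icc 1 N) (fun d hd => (mem_Icc.1 hd).1) x (Lab N F x a b g) κ hκ]
  have hd1 : Disjoint (Kst N x a b) ((prs N x).filter (fun p => Tl F x p)) := by
    rw [disjoint_left]
    intro p hp hq
    rw [Kst, mem_filter] at hp
    rw [mem_filter] at hq
    obtain ⟨_, h1, h2, h3⟩ := hq
    have hAP : IsAP (Icc (p.1 + 1) (p.2 - 1)) := by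
      rw [isAP_iff]
      refine ⟨p.1 + 1, 1, p.2 - 1, le_refl _, h1, one_dvd _, ?_⟩
      intro t
      rw [mem_Icc]
      simp
    obtain ⟨t1, ht1, ht1'⟩ := hH.low _ h2 hAP h3
    obtain ⟨t2, ht2, ht2'⟩ := hH.high _ h2 hAP h3
    rw [mem_Icc] at ht1 ht2
    have h4 := hp.2
    have h5 := hH.ab
    omega
  have hd2 : Disjoint (Kst N x a b ∪ (prs N x).filter (fun p => Tl F x p))
      ((Icc 1 N).biUnion (fun d => (Lab N F x a b g d).image
        (fun p => ((x + p.1 * d, x + p.2 * d) : ℤ × ℤ)))) := by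
    rw [disjoint_left]
    intro p hp hq
    rw [mem_biUnion] at hq
    obtain ⟨d, hd, hq⟩ := hq
    rw [mem_image] at hq
    obtain ⟨r, hr, rfl⟩ := hq
    have hd1 := (mem_Icc.1 hd).1
    rw [mem_union] at hp
    rcases hp with hp | hp
    · rw [Kst, mem_filter] at hp
      have h1 := lab_not_K hH hd1 hr
      have h2 := hp.2
      simp only at h2
      omega
    · rw [mem_filter] at hp
      exact lab_not_Tl hH hd1 hr hp.2
  rw [← card_union_of_disjoint hd1, ← card_union_of_disjoint hd2]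
  apply card_le_card
  intro p hp
  rw [mem_union, mem_union] at hp
  rw [Omega, mem_filter]
  rcases hp with (hp | hp) | hp
  · rw [Kst, mem_filter] at hp
    exact ⟨hp.1, Or.inl hp.2⟩
  · rw [mem_filter] at hp
    exact ⟨hp.1, Or.inr (Or.inl hp.2)⟩
  · rw [mem_biUnion] at hp
    obtain ⟨d, hd, hq⟩ := hp
    rw [mem_image] at hq
    obtain ⟨r, hr, rfl⟩ := hq
    have h1 := lab_prs hH.adm (mem_Icc.1 hd).1 hr
    exact ⟨h1.1, Or.inr (Or.inr h1.2)⟩

/-- the labels of one scale are counted separately -/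
lemma card_Lab {N : ℕ} {F : Finset (Finset ℤ)} {x a b : ℤ} {g : ℕ → ℕ → Prop} {d : ℕ} :
    (Lab N F x a b g d).card =
      (NatL N F x g d).card + ((ExtR N F x a b d).card + (ExtL N F x a d).card) := by
  rw [Lab, card_union_of_disjoint, card_union_of_disjoint]
  · rw [disjoint_left]
    intro p hp hq
    simp only [ExtR, mem_image, mem_filter, Prod.exists, mem_product, mem_Icc] at hp
    simp only [ExtL, mem_image, mem_filter, Prod.exists, mem_product, mem_Icc] at hq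
    obtain ⟨u, v, ⟨⟨⟨h1, h2⟩, h3, h4⟩, h5, h6⟩, rfl⟩ := hp
    obtain ⟨u', v', ⟨⟨⟨h1', h2'⟩, h3', h4'⟩, h5', h6'⟩, h7⟩ := hq
    rw [Prod.mk.injEq] at h7
    have := one_le_Au x a d
    omega
  · rw [disjoint_left]
    intro p hp hq
    simp only [NatL, mem_image, mem_filter, Prod.exists] at hp
    obtain ⟨i, j, ⟨h1, h2⟩, rfl⟩ := hp
    have h3 := mem_Rd.1 h1
    rw [mem_union] at hq
    rcases hq with hq | hq
    · simp only [ExtR, mem_image, mem_filter, Prod.exists, mem_product, mem_Icc] at hq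
      obtain ⟨u', v', ⟨⟨⟨h1', h2'⟩, h3', h4'⟩, h5', h6'⟩, h7⟩ := hq
      rw [Prod.mk.injEq] at h7
      omega
    · simp only [ExtL, mem_image, mem_filter, Prod.exists, mem_product, mem_Icc] at hq
      obtain ⟨u', v', ⟨⟨⟨h1', h2'⟩, h3', h4'⟩, h5', h6'⟩, h7⟩ := hq
      rw [Prod.mk.injEq] at h7
      omega

end Pool.Agent.APLarge
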