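import Pool.Agent.APLarge.MidB

/-!
There are few members of medium size.
-/

set_option autoImplicit false

namespace Pool.Agent.APLarge

open Finset Pool.Agent.APInt

namespace Mid

open Big

lemma near_count {N m e0 G : ℕ} {F : Finset (Finset ℤ)} (hF : Admissible N F) (he0 : 1 ≤ e0)
    (hm : 4 * e0 ≤ m) (C0 : ℝ) (hC0 : 0 ≤ C0) (S : Finset (Finset ℤ)) (hSF : S ⊆ F)
    (U : Finset ℤ → ℤ) (γ : Finset ℤ → ℕ) (hS : ∀ A ∈ S, Nap N m e0 A (U A) (γ A))
    (hγ : ∀ A ∈ S, γ A ≤ G) (hcard : ∀ A ∈ S, (A.card : ℝ) ≤ C0 * m) :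
    (S.card : ℝ) ≤ G * ((4 * C0 + (2 * e0 + 1) ^ 2 + 1) * N) +
      C0 * (2 * e0 + 1) * m * N * (2 * √(G : ℝ) * (1 + Real.log G)) := by
  classical
  rcases S.eq_empty_or_nonempty with rfl | ⟨A', hA'⟩
  · have := Real.log_natCast_nonneg G
    simp only [card_empty, Nat.cast_zero]
    positivity
  have hm0 : 0 < m := by omega
  have hmR : (0 : ℝ) < m := by exact_mod_cast hm0
  have hg'1 : 1 ≤ γ A' := by
    have := (hS A' hA').adj.1
    omega
  have hG1 : 1 ≤ G := le_trans hg'1 (hγ A' hA')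
  have hN1 : 1 ≤ N := by
    have h1 := (hS A' hA').sub (hS A' hA').adj.2.1
    rw [mem_Icc] at h1
    omega
  have hNR : (1 : ℝ) ≤ N := by exact_mod_cast hN1
  set α := N / (m + 1 - 2 * e0) with hα
  have hαR : (α : ℝ) ≤ 2 * N / m := by
    have h1 : (α : ℝ) ≤ (N : ℝ) / ((m + 1 - 2 * e0 : ℕ) : ℝ) := Nat.cast_div_le
    refine le_trans h1 ?_
    have h2 : (m : ℝ) ≤ 2 * ((m + 1 - 2 * e0 : ℕ) : ℝ) := by
      have : m ≤ 2 * (m + 1 - 2 * e0) := by omega
      exact_mod_cast this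
    rw [div_le_div_iff₀ (by linarith) hmR]
    nlinarith
  have hAα : ∀ A ∈ S, (A.card : ℝ) * α ≤ 2 * C0 * N := by
    intro A hA
    calc (A.card : ℝ) * α ≤ (C0 * m) * (2 * N / m) :=
          mul_le_mul (hcard A hA) hαR (by positivity) (by positivity)
      _ = 2 * C0 * N := by field_simp
  have hper : ∀ g ∈ Icc 1 G, ((S.filter (fun A => γ A = g)).card : ℝ) ≤
      (4 * C0 + (2 * e0 + 1) ^ 2 + 1) * N +
        C0 * (2 * e0 + 1) * m * N * ((Nat.gcd g (γ A') : ℝ) / g) := by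
    intro g hg
    rw [mem_Icc] at hg
    set Sg := S.filter (fun A => γ A = g) with hSg
    rcases Sg.eq_empty_or_nonempty with h0 | ⟨A1, hA1⟩
    · rw [h0]
      simp only [card_empty, Nat.cast_zero]
      positivity
    have hSgS : Sg ⊆ S := filter_subset _ _
    have hSg' : ∀ A ∈ Sg, Nap N m e0 A (U A) (g : ℤ) := by
      intro A hA
      have h1 := hS A (hSgS hA)
      rw [hSg, mem_filter] at hA
      rwa [hA.2] at h1
    have h1 := class_ne hF g U Sg (hSgS.trans hSF) (by omega) hSg' hA1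
    have h2 := class_eq hF g (U A1) U (Sg.filter (fun A => (g : ℤ) ∣ U A - U A1))
      ((filter_subset _ _).trans (hSgS.trans hSF)) (by omega)
      (fun A hA => hSg' A (mem_filter.1 hA).1) (fun A hA => (mem_filter.1 hA).2)
      (hSF hA') (hS A' hA')
    have h3 := count_class (u := U A') (r := U A1) (hS A' hA').adj.2.1 hg.1 hg'1
    have h4 : Sg.card = (Sg.filter (fun A => (g : ℤ) ∣ U A - U A1)).card +
        (Sg.filter (fun A => ¬ (g : ℤ) ∣ U A - U A1)).card :=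
      (card_filter_add_card_filter_not _).symm
    rw [← hα] at h1 h2
    set c := ((run A' (U A') (γ A')).filter (fun t => (g : ℤ) ∣ t - U A1)).card with hc
    have h5 : ((run A' (U A') (γ A')).card : ℝ) ≤ C0 * m := by
      refine le_trans ?_ (hcard A' hA')
      exact_mod_cast card_le_card (run_subset _ _ _)
    have h6 : (c : ℝ) ≤ C0 * m * ((Nat.gcd g (γ A') : ℝ) / g) + 1 := by
      refine le_trans h3 ?_
      have := mul_le_mul_of_nonneg_right h5
        (show (0 : ℝ) ≤ (Nat.gcd g (γ A') : ℝ) / g by positivity)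
      linarith
    have h1R : (((Sg.filter (fun A => ¬ (g : ℤ) ∣ U A - U A1)).card : ℕ) : ℝ) ≤
        (A1.card : ℝ) * α + e0 * ((2 * e0 + 1) * N) := by exact_mod_cast h1
    have h2R : (((Sg.filter (fun A => (g : ℤ) ∣ U A - U A1)).card : ℕ) : ℝ) ≤
        1 + (A'.card : ℝ) * α + e0 * ((2 * e0 + 1) * N) + c * ((2 * e0 + 1) * N) := by
      exact_mod_cast h2
    have h4R : (Sg.card : ℝ) = (((Sg.filter (fun A => (g : ℤ) ∣ U A - U A1)).card : ℕ) : ℝ) +
        (((Sg.filter (fun A => ¬ (g : ℤ) ∣ U A - U A1)).card : ℕ) : ℝ) := by exact_mod_cast h4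
    have h7 := hAα A' hA'
    have h8 := hAα A1 (hSgS hA1)
    have h9 : (c : ℝ) * ((2 * e0 + 1) * N) ≤
        (C0 * m * ((Nat.gcd g (γ A') : ℝ) / g) + 1) * ((2 * e0 + 1) * N) :=
      mul_le_mul_of_nonneg_right h6 (by positivity)
    rw [h4R]
    nlinarith
  have hsum : S.card = ∑ g ∈ Icc 1 G, (S.filter (fun A => γ A = g)).card := by
    apply card_eq_sum_card_fiberwise
    intro A hA
    rw [mem_coe] at hA
    rw [mem_coe, mem_Icc]
    have := (hS A hA).adj.1
    exact ⟨by omega, hγ A hA⟩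
  have hlog := Real.log_natCast_nonneg G
  calc (S.card : ℝ) = ∑ g ∈ Icc 1 G, ((S.filter (fun A => γ A = g)).card : ℝ) := by
        rw [hsum]; push_cast; rfl
    _ ≤ ∑ g ∈ Icc 1 G, ((4 * C0 + (2 * e0 + 1) ^ 2 + 1) * N +
        C0 * (2 * e0 + 1) * m * N * ((Nat.gcd g (γ A') : ℝ) / g)) := sum_le_sum hper
    _ = G * ((4 * C0 + (2 * e0 + 1) ^ 2 + 1) * N) +
        C0 * (2 * e0 + 1) * m * N * ∑ g ∈ Icc 1 G, ((Nat.gcd g (γ A') : ℝ) / g) := by
        rw [sum_add_distrib, sum_const, nsmul_eq_mul, Nat.card_Icc, mul_sum, Nat.add_sub_cancel]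
    _ ≤ _ := by
        have h1 := sum_gcd (G := G) hg'1
        have h2 : √(γ A' : ℝ) ≤ √(G : ℝ) := by
          apply Real.sqrt_le_sqrt
          exact_mod_cast hγ A' hA'
        have h3 : 2 * √(γ A' : ℝ) * (1 + Real.log G) ≤ 2 * √(G : ℝ) * (1 + Real.log G) := by
          apply mul_le_mul_of_nonneg_right _ (by linarith)
          linarith
        have h4 : C0 * (2 * e0 + 1) * m * N * ∑ g ∈ Icc 1 G, ((Nat.gcd g (γ A') : ℝ) / g) ≤
            C0 * (2 * e0 + 1) * m * N * (2 * √(G : ℝ) * (1 + Real.log G)) :=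
          mul_le_mul_of_nonneg_left (le_trans h1 h3) (by positivity)
        linarith

/-- the elementary asymptotic inequality -/
lemma growth (a b c : ℝ) (ha : 0 ≤ a) (hb : 0 ≤ b) (hc : 0 < c) :
    ∃ T0 : ℝ, 1 ≤ T0 ∧ ∀ T ≥ T0, a + b * (√T * (1 + Real.log T)) ≤ c * T := by
  set s0 := max 1 ((a + 5 * b) / c) with hs0
  have h1 : 1 ≤ s0 := le_max_left _ _
  refine ⟨s0 ^ 4, one_le_pow₀ h1, ?_⟩
  intro T hT
  set s := √√T with hs
  have hT0 : 0 < T := lt_of_lt_of_le (by positivity) hT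
  have hs2 : s ^ 2 = √T := Real.sq_sqrt (Real.sqrt_nonneg _)
  have hs4 : s ^ 4 = T := by
    calc s ^ 4 = (s ^ 2) ^ 2 := by ring
      _ = T := by rw [hs2, Real.sq_sqrt hT0.le]
  have hsn : 0 ≤ s := Real.sqrt_nonneg _
  have hss0 : s0 ≤ s := by
    have : s0 ^ 4 ≤ s ^ 4 := by rw [hs4]; exact hT
    exact le_of_pow_le_pow_left₀ (by norm_num) hsn this
  have hs1 : 1 ≤ s := le_trans h1 hss0
  have hlog : Real.log T ≤ 4 * s := by
    rw [← hs4, Real.log_pow]
    have := Real.log_le_sub_one_of_pos (show 0 < s by linarith)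
    push_cast
    linarith
  have h2 : (a + 5 * b) ≤ c * s := by
    have h3 : (a + 5 * b) / c ≤ s := le_trans (le_max_right _ _) hss0
    rw [div_le_iff₀ hc] at h3
    linarith
  have h4 : s ^ 2 * (1 + Real.log T) ≤ 5 * s ^ 3 := by
    have : 1 + Real.log T ≤ 5 * s := by linarith
    calc s ^ 2 * (1 + Real.log T) ≤ s ^ 2 * (5 * s) :=
          mul_le_mul_of_nonneg_left this (by positivity)
      _ = 5 * s ^ 3 := by ring
  rw [← hs2]
  calc a + b * (s ^ 2 * (1 + Real.log T)) ≤ a * s ^ 3 + b * (5 * s ^ 3) := by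
        have h5 : a ≤ a * s ^ 3 := by
          have : 1 ≤ s ^ 3 := one_le_pow₀ hs1
          nlinarith
        have h6 := mul_le_mul_of_nonneg_left h4 hb
        linarith
    _ = (a + 5 * b) * s ^ 3 := by ring
    _ ≤ (c * s) * s ^ 3 := mul_le_mul_of_nonneg_right h2 (by positivity)
    _ = c * T := by rw [← hs4]; ring

end Mid

open Mid Big

open Classical in
theorem mid_members (c1 C0 η : ℝ) (hc1 : 0 < c1) (hC0 : 1 ≤ C0) (hη : 0 < η) :
    ∃ N0 : ℕ, ∀ N ≥ N0, ∀ F : Finset (Finset ℤ), Admissible N F → ∀ m : ℕ,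
      c1 * √(N : ℝ) ≤ m → (m : ℝ) ≤ 9 * √(N : ℝ) → (∀ A ∈ F, ¬ IsAP A → m ≤ A.card) →
      ((F.filter (fun A => ¬ IsAP A ∧ (A.card : ℝ) ≤ C0 * m)).card : ℝ) ≤ η * (N : ℝ) ^ 2 := by
  set e0 : ℕ := ⌈32 / (η * c1 ^ 2)⌉₊ + 1 with he0def
  have he0 : 1 ≤ e0 := by omega
  have he0R : 32 / (η * c1 ^ 2) ≤ e0 := by
    refine le_trans (Nat.le_ceil _) ?_
    rw [he0def]
    push_cast
    linarith
  set C' : ℝ := 4 * C0 + (2 * e0 + 1) ^ 2 + 1 with hC'
  obtain ⟨T0, hT01, hT0⟩ := growth (4 * C' / c1) (18 * C0 * (2 * e0 + 1)) (η * c1 / 8)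
    (by positivity) (by positivity) (by positivity)
  set X0 : ℝ := max (c1 * T0 / 4) ((4 * e0 + 2) / c1) with hX0
  refine ⟨⌈X0 ^ 2⌉₊ + 1, ?_⟩
  intro N hN F hF m hm1 hm2 hcard
  set x := √(N : ℝ) with hx
  have hNN : X0 ^ 2 ≤ N := by
    have h1 : ⌈X0 ^ 2⌉₊ ≤ N := by omega
    exact le_trans (Nat.le_ceil _) (by exact_mod_cast h1)
  have hX0pos : 0 < X0 := lt_of_lt_of_le (by positivity) (le_max_right _ _)
  have hxX : X0 ≤ x := by
    rw [hx]
    exact Real.le_sqrt_of_sq_le hNN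
  have hx0 : 0 < x := by linarith
  have hx2 : x ^ 2 = N := Real.sq_sqrt (by positivity)
  have hxT : T0 ≤ 4 * x / c1 := by
    have : c1 * T0 / 4 ≤ x := le_trans (le_max_left _ _) hxX
    rw [le_div_iff₀ hc1]
    linarith
  have hxe : 4 * e0 + 2 ≤ c1 * x := by
    have : (4 * e0 + 2) / c1 ≤ x := le_trans (le_max_right _ _) hxX
    rw [div_le_iff₀ hc1] at this
    linarith
  have hm3 : 4 * e0 + 2 ≤ m := by
    have : ((4 * e0 + 2 : ℕ) : ℝ) ≤ m := by
      push_cast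
      linarith
    exact_mod_cast this
  have hmR : (6 : ℝ) ≤ m := by
    have : 6 ≤ m := by omega
    exact_mod_cast this
  set G := 2 * N / (m - 1) with hG
  set T := F.filter (fun A => ¬ IsAP A ∧ (A.card : ℝ) ≤ C0 * m) with hT
  have hTF : T ⊆ F := filter_subset _ _
  -- the far members
  set T1 := T.filter (fun A => ∀ u g, Adj A u g → g ≤ ((G : ℕ) : ℤ) →
    e0 ≤ (A \ run A u g).card) with hT1
  set T2 := T.filter (fun A => ¬ ∀ u g, Adj A u g → g ≤ ((G : ℕ) : ℤ) →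
    e0 ≤ (A \ run A u g).card) with hT2
  have hT12 : T.card = T1.card + T2.card := (card_filter_add_card_filter_not _).symm
  have hm1R : (m : ℝ) / 2 ≤ ((m - 1 : ℕ) : ℝ) := by
    rw [Nat.cast_sub (by omega)]
    push_cast
    linarith
  have hfar : (T1.card : ℝ) ≤ η / 2 * (N : ℝ) ^ 2 := by
    have h1 := triples hF (by omega : 2 ≤ m) e0 T1 ((filter_subset _ _).trans hTF)
      (fun A hA => by
        have h2 := (mem_filter.1 (mem_filter.1 hA).1)
        exact hcard A h2.1 h2.2.1)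
      (fun A hA => (mem_filter.1 hA).2)
    have h1R : (T1.card : ℝ) * ((m - 1 : ℕ) : ℝ) ^ 2 * e0 ≤ 4 * (N : ℝ) ^ 3 := by
      exact_mod_cast h1
    have h2 : c1 ^ 2 * N / 4 ≤ ((m - 1 : ℕ) : ℝ) ^ 2 := by
      have h3 : c1 * x / 2 ≤ ((m - 1 : ℕ) : ℝ) := by linarith
      calc c1 ^ 2 * N / 4 = (c1 * x / 2) ^ 2 := by rw [← hx2]; ring
        _ ≤ _ := pow_le_pow_left₀ (by positivity) h3 2
    have h3 : 32 ≤ η * c1 ^ 2 * e0 := by
      rw [div_le_iff₀ (by positivity)] at he0R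
      linarith
    have hNpos : (0 : ℝ) < N := by rw [← hx2]; positivity
    have h4 : (T1.card : ℝ) * (c1 ^ 2 * N / 4) * e0 ≤ 4 * (N : ℝ) ^ 3 := by
      refine le_trans ?_ h1R
      apply mul_le_mul_of_nonneg_right _ (by positivity)
      exact mul_le_mul_of_nonneg_left h2 (by positivity)
    have h5 : (T1.card : ℝ) * (c1 ^ 2 * e0) ≤ 16 * (N : ℝ) ^ 2 := by
      have h6 : ((T1.card : ℝ) * (c1 ^ 2 * e0)) * N ≤ (16 * (N : ℝ) ^ 2) * N := by
        nlinarith
      exact le_of_mul_le_mul_right h6 hNpos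
    have h7 : (T1.card : ℝ) * 32 ≤ 16 * (N : ℝ) ^ 2 * η := by
      calc (T1.card : ℝ) * 32 ≤ (T1.card : ℝ) * (η * c1 ^ 2 * e0) :=
            mul_le_mul_of_nonneg_left h3 (by positivity)
        _ = ((T1.card : ℝ) * (c1 ^ 2 * e0)) * η := by ring
        _ ≤ _ := mul_le_mul_of_nonneg_right h5 hη.le
    linarith
  -- the near members
  have hex : ∀ A : Finset ℤ, ∃ p : ℤ × ℕ, A ∈ T2 →
      Nap N m e0 A p.1 (p.2 : ℤ) ∧ p.2 ≤ G := by
    intro A
    by_cases hA : A ∈ T2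
    · have h1 := (mem_filter.1 hA).2
      push Not at h1
      obtain ⟨u, g, hadj, hgG, hout⟩ := h1
      have h2 := (mem_filter.1 (mem_filter.1 hA).1)
      have hg0 := hadj.1
      refine ⟨(u, g.toNat), fun _ => ?_⟩
      have e : ((g.toNat : ℕ) : ℤ) = g := Int.toNat_of_nonneg hg0.le
      simp only
      rw [e]
      exact ⟨⟨hF.1 A h2.1, hadj, h2.2.1, hout, hcard A h2.1 h2.2.1⟩, by omega⟩
    · exact ⟨(0, 0), fun h => absurd h hA⟩
  choose p hp using hex
  have hnear0 := near_count (G := G) hF he0 (by omega : 4 * e0 ≤ m) C0 (by linarith) T2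
    ((filter_subset _ _).trans hTF) (fun A => (p A).1) (fun A => (p A).2)
    (fun A hA => (hp A hA).1) (fun A hA => (hp A hA).2)
    (fun A hA => (mem_filter.1 (mem_filter.1 hA).1).2.2)
  have hnear : (T2.card : ℝ) ≤ η / 2 * (N : ℝ) ^ 2 := by
    rcases T2.eq_empty_or_nonempty with h0 | ⟨A, hA⟩
    · rw [h0]
      simp only [card_empty, Nat.cast_zero]
      positivity
    have hG1 : 1 ≤ G := by
      have h1 := (hp A hA).1.adj.1
      have h2 := (hp A hA).2
      omega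
    set t := 4 * x / c1 with ht
    have hGt : (G : ℝ) ≤ t := by
      have h1 : (G : ℝ) ≤ ((2 * N : ℕ) : ℝ) / ((m - 1 : ℕ) : ℝ) := Nat.cast_div_le
      refine le_trans h1 ?_
      push_cast
      rw [ht, div_le_div_iff₀ (by linarith) hc1, ← hx2]
      have h3 : c1 * x / 2 ≤ ((m - 1 : ℕ) : ℝ) := by linarith
      nlinarith
    have hG1R : (1 : ℝ) ≤ G := by exact_mod_cast hG1
    have ht1 : 1 ≤ t := le_trans hG1R hGt
    have hlogG : Real.log G ≤ Real.log t := Real.log_le_log (by linarith) hGt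
    have hlogG0 : 0 ≤ Real.log G := Real.log_nonneg hG1R
    have hsq : √(G : ℝ) * (1 + Real.log G) ≤ √t * (1 + Real.log t) := by
      apply mul_le_mul (Real.sqrt_le_sqrt hGt) (by linarith) (by linarith)
        (Real.sqrt_nonneg _)
    have hgr := hT0 t hxT
    have hC'pos : 0 ≤ C' := by positivity
    -- first term
    have e1 : (G : ℝ) * (C' * N) ≤ 4 * C' / c1 * x ^ 3 := by
      calc (G : ℝ) * (C' * N) ≤ t * (C' * N) := mul_le_mul_of_nonneg_right hGt (by positivity)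
        _ = 4 * C' / c1 * x ^ 3 := by rw [ht, ← hx2]; ring
    have e2 : C0 * (2 * e0 + 1) * m * N * (2 * √(G : ℝ) * (1 + Real.log G)) ≤
        18 * C0 * (2 * e0 + 1) * (√t * (1 + Real.log t)) * x ^ 3 := by
      have hC0' : 0 ≤ C0 := by linarith
      calc C0 * (2 * e0 + 1) * m * N * (2 * √(G : ℝ) * (1 + Real.log G))
          = (2 * C0 * (2 * e0 + 1) * N * (√(G : ℝ) * (1 + Real.log G))) * m := by ring
        _ ≤ (2 * C0 * (2 * e0 + 1) * N * (√(G : ℝ) * (1 + Real.log G))) * (9 * x) := by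
            apply mul_le_mul_of_nonneg_left hm2
            positivity
        _ = (18 * C0 * (2 * e0 + 1) * N * x) * (√(G : ℝ) * (1 + Real.log G)) := by ring
        _ ≤ (18 * C0 * (2 * e0 + 1) * N * x) * (√t * (1 + Real.log t)) :=
            mul_le_mul_of_nonneg_left hsq (by positivity)
        _ = _ := by rw [← hx2]; ring
    have e3 : (T2.card : ℝ) ≤
        (4 * C' / c1 + 18 * C0 * (2 * e0 + 1) * (√t * (1 + Real.log t))) * x ^ 3 := by
      linarith
    calc (T2.card : ℝ) ≤ _ := e3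
      _ ≤ (η * c1 / 8 * t) * x ^ 3 := mul_le_mul_of_nonneg_right hgr (by positivity)
      _ = η / 2 * (N : ℝ) ^ 2 := by
          rw [ht, ← hx2]
          field_simp
          ring
  rw [hT12]
  push_cast
  linarith

end Pool.Agent.APLarge
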