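import Pool.Agent.APLarge.Big

/-!
Members which are progressions up to few elements.
-/

set_option autoImplicit false

namespace Pool.Agent.APLarge

open Finset Pool.Agent.APInt

namespace Mid

open Big

lemma run_trans {A : Finset ℤ} {u v w g : ℤ} (hv : v ∈ run A u g) (hw : w ∈ run A v g) :
    w ∈ run A u g := by
  rw [mem_run] at hv hw ⊢
  obtain ⟨h1, h2, h3⟩ := hv
  obtain ⟨h4, h5, h6⟩ := hw
  refine ⟨h4, ?_, ?_⟩
  · have := dvd_add h5 h2
    have e : w - v + (v - u) = w - u := by ring
    rwa [e] at this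
  · intro t ht h7 h8
    by_cases h : min u v ≤ t ∧ t ≤ max u v
    · exact h3 t ht h.1 h.2
    · have h9 : g ∣ t - v := by
        have := dvd_sub ht h2
        have e : t - u - (v - u) = t - v := by ring
        rwa [e] at this
      apply h6 t h9 <;> omega

lemma run_convex {A : Finset ℤ} {u v w g t : ℤ} (hv : v ∈ run A u g) (hw : w ∈ run A u g)
    (ht : g ∣ t - u) (h1 : v ≤ t) (h2 : t ≤ w) : t ∈ run A u g := by
  rw [mem_run] at hv hw ⊢
  obtain ⟨hv1, hv2, hv3⟩ := hv
  obtain ⟨hw1, hw2, hw3⟩ := hw
  have key : ∀ s, g ∣ s - u → min u t ≤ s → s ≤ max u t → s ∈ A := by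
    intro s hs h3 h4
    by_cases h : min u v ≤ s ∧ s ≤ max u v
    · exact hv3 s hs h.1 h.2
    · apply hw3 s hs <;> omega
  exact ⟨key t ht (min_le_right _ _) (le_max_right _ _), ht, key⟩

open Classical in
/-- left ends of pairs of the run which are adjacent in `A` -/
noncomputable def Q (A : Finset ℤ) (u g : ℤ) : Finset ℤ := (run A u g).filter (fun v => Adj A v g)

open Classical in
lemma mem_Q {A : Finset ℤ} {u g v : ℤ} : v ∈ Q A u g ↔ v ∈ run A u g ∧ Adj A v g := by
  rw [Q, mem_filter]

open Classical in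
lemma card_bad {A : Finset ℤ} {u g : ℤ} (hadj : Adj A u g) :
    (run A u g \ Q A u g).card ≤ (A \ run A u g).card + 1 := by
  have hne : (run A u g).Nonempty := ⟨u, self_mem_run g hadj.2.1⟩
  have hg := hadj.1
  set M := (run A u g).max' hne with hM
  have h1 : (run A u g \ Q A u g).card ≤ ((run A u g \ Q A u g).erase M).card + 1 := by
    have := pred_card_le_card_erase (s := run A u g \ Q A u g) (a := M)
    omega
  refine le_trans h1 (Nat.add_le_add_right ?_ 1)
  apply card_le_card_of_forall_subsingleton (fun v t => v < t ∧ t < v + g)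
  · intro v hv
    rw [mem_erase, mem_sdiff] at hv
    obtain ⟨hvM, hvr, hvQ⟩ := hv
    have hMr : M ∈ run A u g := (run A u g).max'_mem hne
    have hvltM : v < M := lt_of_le_of_ne ((run A u g).le_max' v hvr) hvM
    have hdv := (mem_run.1 hvr).2.1
    have hdM := (mem_run.1 hMr).2.1
    have hgM : g ≤ M - v := by
      apply Int.le_of_dvd (by omega)
      have := dvd_sub hdM hdv
      have e : M - u - (v - u) = M - v := by ring
      rwa [e] at this
    have hvg : v + g ∈ run A u g := by
      apply run_convex hvr hMr _ (by omega) (by omega)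
      have := dvd_add hdv (dvd_refl g)
      have e : v - u + g = v + g - u := by ring
      rwa [e] at this
    have hnadj : ¬ Adj A v g := fun h => hvQ (mem_Q.2 ⟨hvr, h⟩)
    have : ∃ t ∈ A, v < t ∧ t < v + g := by
      by_contra hcon
      push Not at hcon
      apply hnadj
      refine ⟨hg, (mem_run.1 hvr).1, (mem_run.1 hvg).1, ?_⟩
      intro t ht
      rcases le_or_gt t v with h | h
      · exact Or.inl h
      · exact Or.inr (hcon t ht h)
    obtain ⟨t, htA, h2, h3⟩ := this
    refine ⟨t, ?_, h2, h3⟩
    rw [mem_sdiff]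
    refine ⟨htA, ?_⟩
    intro htr
    have h4 := dvd_sub (mem_run.1 htr).2.1 hdv
    have e : t - u - (v - u) = t - v := by ring
    rw [e] at h4
    have := Int.le_of_dvd (by omega) h4
    omega
  · intro t _ v hv v' hv'
    simp only [Set.mem_ofPred_eq, mem_erase, mem_sdiff] at hv hv'
    obtain ⟨⟨_, hvr, _⟩, h2, h3⟩ := hv
    obtain ⟨⟨_, hvr', _⟩, h2', h3'⟩ := hv'
    have h4 := dvd_sub (mem_run.1 hvr).2.1 (mem_run.1 hvr').2.1
    have e : v - u - (v' - u) = v - v' := by ring
    rw [e] at h4
    by_contra hne'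
    rcases lt_or_gt_of_ne hne' with h | h
    · have h5 := (dvd_neg (a := g)).2 h4
      have := Int.le_of_dvd (by omega) h5
      omega
    · have := Int.le_of_dvd (by omega) h4
      omega

/-- A member which is a progression up to fewer than `e0` elements. -/
structure Nap (N m e0 : ℕ) (A : Finset ℤ) (u g : ℤ) : Prop where
  sub : A ⊆ Icc (1 : ℤ) N
  adj : Adj A u g
  nap : ¬ IsAP A
  out : (A \ run A u g).card < e0
  card : m ≤ A.card

lemma Nap.card_run {N m e0 : ℕ} {A : Finset ℤ} {u g : ℤ} (h : Nap N m e0 A u g) :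
    m + 1 ≤ (run A u g).card + e0 := by
  classical
  have h1 := card_sdiff_add_card_eq_card (run_subset A u g)
  have h2 := h.out
  have h3 := h.card
  omega

lemma Nap.card_Q {N m e0 : ℕ} {A : Finset ℤ} {u g : ℤ} (h : Nap N m e0 A u g) :
    m + 1 ≤ (Q A u g).card + 2 * e0 := by
  classical
  have h1 : (run A u g \ Q A u g).card + (Q A u g).card = (run A u g).card :=
    card_sdiff_add_card_eq_card (filter_subset _ _)
  have h2 := h.out
  have h3 := h.card_run
  have h4 := card_bad h.adj
  omega

lemma Nap.not_mem_run {A : Finset ℤ} {u g w v : ℤ} (hw : w ∈ A \ run A u g)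
    (hv : v ∈ run A u g) : w ∉ run A v g := by
  rw [mem_sdiff] at hw
  exact fun h => hw.2 (run_trans hv h)

/-- (alpha) -/
lemma alpha {N m e0 : ℕ} {F : Finset (Finset ℤ)} (hF : Admissible N F) (g : ℤ)
    (U : Finset ℤ → ℤ) (S : Finset (Finset ℤ)) (hSF : S ⊆ F)
    (hS : ∀ A ∈ S, Nap N m e0 A (U A) g) (w : ℤ) (hw : ∀ A ∈ S, w ∈ A \ run A (U A) g) :
    S.card * (m + 1 - 2 * e0) ≤ N := by
  classical
  have h1 : (S.biUnion (fun A => Q A (U A) g)).card = ∑ A ∈ S, (Q A (U A) g).card := by
    apply card_biUnion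
    intro A hA B hB hne
    rw [Function.onFun, disjoint_left]
    intro v hvA hvB
    rw [mem_Q] at hvA hvB
    have hwA := hw A hA
    have hwB := hw B hB
    exact Nap.not_mem_run hwA hvA.1 (key hF (hSF hA) (hSF hB) hne hvA.2 hvB.2.2.1 hvB.2.2.2.1
      (mem_sdiff.1 hwA).1 (mem_sdiff.1 hwB).1)
  have h2 : (S.biUnion (fun A => Q A (U A) g)).card ≤ N := by
    have : (S.biUnion (fun A => Q A (U A) g)) ⊆ Icc (1 : ℤ) N := by
      intro v hv
      rw [mem_biUnion] at hv
      obtain ⟨A, hA, hv⟩ := hv
      exact (hS A hA).sub ((mem_Q.1 hv).2.2.1)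
    have := card_le_card this
    rw [Int.card_Icc] at this
    simpa using this
  calc S.card * (m + 1 - 2 * e0) = ∑ A ∈ S, (m + 1 - 2 * e0) := by
        rw [sum_const, smul_eq_mul]
    _ ≤ ∑ A ∈ S, (Q A (U A) g).card := by
        apply sum_le_sum
        intro A hA
        have := (hS A hA).card_Q
        omega
    _ ≤ N := by rw [← h1]; exact h2

/-- near every point of the run there is a good pair -/
lemma Nap.window {N m e0 : ℕ} {A : Finset ℤ} {u g : ℤ} (h : Nap N m e0 A u g)
    (hm : 2 * e0 ≤ m) {y : ℤ} (hy : y ∈ run A u g) :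
    ∃ j ∈ Icc (-(e0 : ℤ)) e0, y + j * g ∈ Q A u g := by
  classical
  by_contra hcon
  push Not at hcon
  have hg := h.adj.1
  set W := (run A u g).filter (fun t => y - e0 * g ≤ t ∧ t ≤ y + e0 * g) with hW
  have hyd := (mem_run.1 hy).2.1
  have h1 : W ⊆ run A u g \ Q A u g := by
    intro t ht
    rw [hW, mem_filter] at ht
    obtain ⟨htr, ht1, ht2⟩ := ht
    rw [mem_sdiff]
    refine ⟨htr, ?_⟩
    have h2 := dvd_sub (mem_run.1 htr).2.1 hyd
    obtain ⟨j, hj⟩ := h2
    have h3 : t = y + j * g := by linarith
    have h4 : j ≤ e0 := by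
      by_contra h5
      push Not at h5
      have : (e0 : ℤ) * g < j * g := mul_lt_mul_of_pos_right h5 hg
      omega
    have h5 : -(e0 : ℤ) ≤ j := by
      by_contra h6
      push Not at h6
      have h7 : j * g < -(e0 : ℤ) * g := mul_lt_mul_of_pos_right h6 hg
      have h8 : -(e0 : ℤ) * g = -(e0 * g) := by ring
      omega
    rw [h3]
    exact hcon j (mem_Icc.2 ⟨h5, h4⟩)
  have h2 : W.card ≤ e0 := by
    have h3 := card_le_card h1
    have h4 := card_bad h.adj
    have h5 := h.out
    omega
  have h3 : e0 + 1 ≤ W.card := by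
    by_cases hall : run A u g ⊆ W
    · have := card_le_card hall
      have h4 := h.card_run
      omega
    · rw [not_subset] at hall
      obtain ⟨t, htr, htW⟩ := hall
      have h4 : t < y - e0 * g ∨ y + e0 * g < t := by
        by_contra h5
        push Not at h5
        exact htW (mem_filter.2 ⟨htr, h5⟩)
      have e : e0 + 1 = (range (e0 + 1)).card := by simp
      rw [e]
      rcases h4 with h4 | h4
      · apply card_le_card_of_injOn (fun j : ℕ => y - j * g)
        · intro j hj
          rw [mem_coe, mem_range] at hj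
          have hj0 : (0 : ℤ) ≤ j * g := by positivity
          have hj1 : (j : ℤ) * g ≤ e0 * g := by
            apply mul_le_mul_of_nonneg_right _ hg.le
            omega
          change y - j * g ∈ W
          rw [hW, mem_filter]
          refine ⟨?_, by omega, ?_⟩
          · apply run_convex htr hy _ (by omega) (by omega)
            have := dvd_sub hyd (dvd_mul_left g (j : ℤ))
            have e : y - u - j * g = y - j * g - u := by ring
            rwa [e] at this
          · have : (0 : ℤ) ≤ e0 * g := by positivity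
            omega
        · intro i _ j _ hij
          have : (i : ℤ) * g = j * g := by
            simp only at hij
            omega
          have := mul_right_cancel₀ hg.ne' this
          exact_mod_cast this
      · apply card_le_card_of_injOn (fun j : ℕ => y + j * g)
        · intro j hj
          rw [mem_coe, mem_range] at hj
          have hj0 : (0 : ℤ) ≤ j * g := by positivity
          have hj1 : (j : ℤ) * g ≤ e0 * g := by
            apply mul_le_mul_of_nonneg_right _ hg.le
            omega
          change y + j * g ∈ W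
          rw [hW, mem_filter]
          refine ⟨?_, ?_, by omega⟩
          · apply run_convex hy htr _ (by omega) (by omega)
            have := dvd_add hyd (dvd_mul_left g (j : ℤ))
            have e : y - u + j * g = y + j * g - u := by ring
            rwa [e] at this
          · have : (0 : ℤ) ≤ e0 * g := by positivity
            omega
        · intro i _ j _ hij
          have : (i : ℤ) * g = j * g := by
            simp only at hij
            omega
          have := mul_right_cancel₀ hg.ne' this
          exact_mod_cast this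
  omega

/-- (beta) -/
lemma beta {N m e0 : ℕ} {F : Finset (Finset ℤ)} (hF : Admissible N F) (g : ℤ)
    (U : Finset ℤ → ℤ) (S : Finset (Finset ℤ)) (hSF : S ⊆ F) (hm : 2 * e0 ≤ m)
    (hS : ∀ A ∈ S, Nap N m e0 A (U A) g) (y : ℤ) (hy : ∀ A ∈ S, y ∈ run A (U A) g) :
    S.card ≤ (2 * e0 + 1) * N := by
  classical
  have h1 : S.card ≤ ((Icc (-(e0 : ℤ)) e0) ×ˢ (Icc (1 : ℤ) N)).card := by
    apply card_le_card_of_forall_subsingleton
      (fun A p => y + p.1 * g ∈ Q A (U A) g ∧ p.2 ∈ A \ run A (U A) g)
    · intro A hA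
      obtain ⟨j, hj, h1⟩ := (hS A hA).window hm (hy A hA)
      obtain ⟨w, hw⟩ := exists_out (hS A hA).adj (hS A hA).nap
      exact ⟨(j, w), mem_product.2 ⟨hj, (hS A hA).sub (mem_sdiff.1 hw).1⟩, h1, hw⟩
    · rintro ⟨j, w⟩ _ A hA B hB
      simp only [Set.mem_ofPred_eq] at hA hB
      obtain ⟨hAS, hjA, hwA⟩ := hA
      obtain ⟨hBS, hjB, hwB⟩ := hB
      by_contra hne
      rw [mem_Q] at hjA hjB
      exact Nap.not_mem_run hwA hjA.1 (key hF (hSF hAS) (hSF hBS) hne hjA.2 hjB.2.2.1
        hjB.2.2.2.1 (mem_sdiff.1 hwA).1 (mem_sdiff.1 hwB).1)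
  rw [card_product, Int.card_Icc, Int.card_Icc] at h1
  have e1 : ((e0 : ℤ) + 1 - -(e0 : ℤ)).toNat = 2 * e0 + 1 := by omega
  have e2 : ((N : ℤ) + 1 - 1).toNat = N := by simp
  rwa [e1, e2] at h1

end Mid

end Pool.Agent.APLarge
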