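import Pool.Agent.APLarge.MidA

/-!
Counting nearly-progressions with a given difference.
-/

set_option autoImplicit false

namespace Pool.Agent.APLarge

open Finset Pool.Agent.APInt

namespace Mid

open Big

/-- covering a set of members by the conditions of (alpha) and (beta) -/
lemma cover {N m e0 : ℕ} {F : Finset (Finset ℤ)} (hF : Admissible N F) (g : ℤ)
    (U : Finset ℤ → ℤ) (S : Finset (Finset ℤ)) (hSF : S ⊆ F) (hm : 2 * e0 ≤ m)
    (hS : ∀ A ∈ S, Nap N m e0 A (U A) g) (X Y : Finset ℤ)
    (h : ∀ A ∈ S, (∃ t ∈ X, t ∈ A \ run A (U A) g) ∨ ∃ t ∈ Y, t ∈ run A (U A) g) :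
    S.card ≤ X.card * (N / (m + 1 - 2 * e0)) + Y.card * ((2 * e0 + 1) * N) := by
  classical
  have h1 : S ⊆ (X.biUnion (fun t => S.filter (fun A => t ∈ A \ run A (U A) g))) ∪
      (Y.biUnion (fun t => S.filter (fun A => t ∈ run A (U A) g))) := by
    intro A hA
    rw [mem_union, mem_biUnion, mem_biUnion]
    rcases h A hA with ⟨t, ht, h2⟩ | ⟨t, ht, h2⟩
    · exact Or.inl ⟨t, ht, mem_filter.2 ⟨hA, h2⟩⟩
    · exact Or.inr ⟨t, ht, mem_filter.2 ⟨hA, h2⟩⟩
  refine le_trans (card_le_card h1) (le_trans (card_union_le _ _) (Nat.add_le_add ?_ ?_))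
  · refine le_trans card_biUnion_le ?_
    rw [← smul_eq_mul, ← sum_const]
    apply sum_le_sum
    intro t _
    rw [Nat.le_div_iff_mul_le (by omega)]
    exact alpha hF g U (S.filter (fun A => t ∈ A \ run A (U A) g))
      ((filter_subset _ _).trans hSF) (fun A hA => hS A (mem_filter.1 hA).1) t
      (fun A hA => (mem_filter.1 hA).2)
  · refine le_trans card_biUnion_le ?_
    rw [← smul_eq_mul, ← sum_const]
    apply sum_le_sum
    intro t _
    exact beta hF g U (S.filter (fun A => t ∈ run A (U A) g))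
      ((filter_subset _ _).trans hSF) hm (fun A hA => hS A (mem_filter.1 hA).1) t
      (fun A hA => (mem_filter.1 hA).2)

lemma exists_common {N : ℕ} {F : Finset (Finset ℤ)} (hF : Admissible N F) {A B : Finset ℤ}
    (hA : A ∈ F) (hB : B ∈ F) (hne : A ≠ B) : ∃ t, t ∈ A ∧ t ∈ B := by
  obtain ⟨t, ht⟩ := (hF.2 A hA B hB hne).nonempty
  exact ⟨t, mem_inter.1 ht⟩

lemma class_ne {N m e0 : ℕ} {F : Finset (Finset ℤ)} (hF : Admissible N F) (g : ℤ)
    (U : Finset ℤ → ℤ) (S : Finset (Finset ℤ)) (hSF : S ⊆ F) (hm : 2 * e0 ≤ m)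
    (hS : ∀ A ∈ S, Nap N m e0 A (U A) g) {A1 : Finset ℤ} (hA1 : A1 ∈ S) :
    (S.filter (fun A => ¬ g ∣ U A - U A1)).card ≤
      A1.card * (N / (m + 1 - 2 * e0)) + e0 * ((2 * e0 + 1) * N) := by
  classical
  have h1 : (A1 \ run A1 (U A1) g).card ≤ e0 := (hS A1 hA1).out.le
  refine le_trans (cover hF g U (S.filter (fun A => ¬ g ∣ U A - U A1))
    ((filter_subset _ _).trans hSF) hm (fun A hA => hS A (mem_filter.1 hA).1) A1
    (A1 \ run A1 (U A1) g) ?_) (Nat.add_le_add_left (Nat.mul_le_mul_right _ h1) _)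
  intro A hA
  rw [mem_filter] at hA
  obtain ⟨hAS, hAg⟩ := hA
  have hne : A ≠ A1 := by
    rintro rfl
    exact hAg (by simp)
  obtain ⟨t, htA, htA1⟩ := exists_common hF (hSF hAS) (hSF hA1) hne
  by_cases htr : t ∈ run A (U A) g
  · right
    refine ⟨t, ?_, htr⟩
    rw [mem_sdiff]
    refine ⟨htA1, ?_⟩
    intro htr1
    apply hAg
    have := dvd_sub (mem_run.1 htr1).2.1 (mem_run.1 htr).2.1
    have e : t - U A1 - (t - U A) = U A - U A1 := by ring
    rwa [e] at this
  · left
    exact ⟨t, htA1, mem_sdiff.2 ⟨htA, htr⟩⟩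

open Classical in
lemma class_eq {N m e0 : ℕ} {F : Finset (Finset ℤ)} (hF : Admissible N F) (g r : ℤ)
    (U : Finset ℤ → ℤ) (S : Finset (Finset ℤ)) (hSF : S ⊆ F) (hm : 2 * e0 ≤ m)
    (hS : ∀ A ∈ S, Nap N m e0 A (U A) g) (hr : ∀ A ∈ S, g ∣ U A - r) {A' : Finset ℤ}
    (hA' : A' ∈ F) {u' g' : ℤ} (hN' : Nap N m e0 A' u' g') :
    S.card ≤ 1 + A'.card * (N / (m + 1 - 2 * e0)) + e0 * ((2 * e0 + 1) * N) +
      ((run A' u' g').filter (fun t => g ∣ t - r)).card * ((2 * e0 + 1) * N) := by
  have h1 : S.card ≤ (S.erase A').card + 1 := by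
    have := pred_card_le_card_erase (s := S) (a := A')
    omega
  have h2 := cover hF g U (S.erase A') ((erase_subset _ _).trans hSF) hm
    (fun A hA => hS A (mem_of_mem_erase hA)) A'
    ((A' \ run A' u' g') ∪ (run A' u' g').filter (fun t => g ∣ t - r)) ?_
  · have h3 : ((A' \ run A' u' g') ∪ (run A' u' g').filter (fun t => g ∣ t - r)).card ≤
        e0 + ((run A' u' g').filter (fun t => g ∣ t - r)).card :=
      le_trans (card_union_le _ _) (Nat.add_le_add_right hN'.out.le _)
    have h4 := Nat.mul_le_mul_right ((2 * e0 + 1) * N) h3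
    have h5 := Nat.add_mul e0 ((run A' u' g').filter (fun t => g ∣ t - r)).card
      ((2 * e0 + 1) * N)
    omega
  · intro A hA
    rw [mem_erase] at hA
    obtain ⟨hne, hAS⟩ := hA
    obtain ⟨t, htA, htA'⟩ := exists_common hF (hSF hAS) hA' hne
    by_cases htr : t ∈ run A (U A) g
    · right
      refine ⟨t, ?_, htr⟩
      rw [mem_union]
      by_cases htr' : t ∈ run A' u' g'
      · right
        rw [mem_filter]
        refine ⟨htr', ?_⟩
        have := dvd_add (mem_run.1 htr).2.1 (hr A hAS)
        have e : t - U A + (U A - r) = t - r := by ring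
        rwa [e] at this
      · exact Or.inl (mem_sdiff.2 ⟨htA', htr'⟩)
    · exact Or.inl ⟨t, htA', mem_sdiff.2 ⟨htA, htr⟩⟩

open Classical in
/-- number of points of a run in a residue class -/
lemma count_class {A : Finset ℤ} {u r : ℤ} (hu : u ∈ A) {g g' : ℕ} (hg : 1 ≤ g) (hg' : 1 ≤ g') :
    (((run A u g').filter (fun t => (g : ℤ) ∣ t - r)).card : ℝ) ≤
      (run A u g').card * ((Nat.gcd g g' : ℝ) / g) + 1 := by
  set R := run A u g' with hR
  have hne : R.Nonempty := ⟨u, self_mem_run _ hu⟩
  set a := R.min' hne with ha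
  set b := R.max' hne with hb
  have haR : a ∈ R := R.min'_mem hne
  have hbR : b ∈ R := R.max'_mem hne
  have hab : a ≤ b := R.min'_le_max' hne
  have had := (mem_run.1 haR).2.1
  have hbd := (mem_run.1 hbR).2.1
  obtain ⟨q, hq⟩ : ∃ q : ℕ, b - a = g' * q := by
    have := dvd_sub hbd had
    have e : b - u - (a - u) = b - a := by ring
    rw [e] at this
    obtain ⟨q, hq⟩ := this
    have hq0 : 0 ≤ q := by
      by_contra hcon
      push Not at hcon
      have : (g' : ℤ) * q < 0 := mul_neg_of_pos_of_neg (by omega) hcon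
      omega
    exact ⟨q.toNat, by rw [hq, Int.toNat_of_nonneg hq0]⟩
  have hcard : q + 1 ≤ R.card := by
    have e : q + 1 = (range (q + 1)).card := by simp
    rw [e]
    apply card_le_card_of_injOn (fun j : ℕ => a + j * g')
    · intro j hj
      rw [mem_coe, mem_range] at hj
      change a + j * g' ∈ R
      have hj0 : (0 : ℤ) ≤ j * g' := by positivity
      have hj1 : (j : ℤ) * g' ≤ g' * q := by
        rw [mul_comm (g' : ℤ)]
        apply mul_le_mul_of_nonneg_right <;> omega
      apply run_convex haR hbR _ (by omega) (by omega)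
      have := dvd_add had (dvd_mul_left (g' : ℤ) (j : ℤ))
      have e : a - u + j * g' = a + j * g' - u := by ring
      rwa [e] at this
    · intro i _ j _ hij
      have : (i : ℤ) * g' = j * g' := by
        simp only at hij
        omega
      have := mul_right_cancel₀ (by omega : (g' : ℤ) ≠ 0) this
      exact_mod_cast this
  set l := Nat.lcm g g' with hl
  have hlpos : 0 < l := Nat.lcm_pos (by omega) (by omega)
  have hT : (R.filter (fun t => (g : ℤ) ∣ t - r)).card ≤ (g' * q) / l + 1 := by
    have e : (g' * q) / l + 1 = (range ((g' * q) / l + 1)).card := by simp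
    rw [e]
    apply card_le_card_of_injOn (fun t => ((t - a) / l).toNat)
    · intro t ht
      rw [mem_coe, mem_filter] at ht
      have h1 : a ≤ t := R.min'_le t ht.1
      have h2 : t ≤ b := R.le_max' t ht.1
      have h3 : 0 ≤ (t - a) / l := Int.ediv_nonneg (by omega) (by omega)
      have h4 : (t - a) / l ≤ ((g' * q : ℕ) : ℤ) / l := by
        apply Int.ediv_le_ediv (by omega)
        push_cast
        omega
      rw [← Int.natCast_ediv] at h4
      rw [mem_coe, mem_range]
      change ((t - a) / l).toNat < g' * q / l + 1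
      omega
    · intro t ht s hs hts
      rw [mem_coe, mem_filter] at ht hs
      simp only at hts
      have h1 : a ≤ t := R.min'_le t ht.1
      have h2 : a ≤ s := R.min'_le s hs.1
      have h3 : 0 ≤ (t - a) / l := Int.ediv_nonneg (by omega) (by omega)
      have h4 : 0 ≤ (s - a) / l := Int.ediv_nonneg (by omega) (by omega)
      have h5 : (t - a) / l = (s - a) / l := by omega
      have h6 : (l : ℤ) ∣ t - s := by
        rw [hl, Int.natCast_dvd]
        apply Nat.lcm_dvd
        · rw [← Int.natCast_dvd]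
          have := dvd_sub ht.2 hs.2
          have e : t - r - (s - r) = t - s := by ring
          rwa [e] at this
        · rw [← Int.natCast_dvd]
          have := dvd_sub (mem_run.1 ht.1).2.1 (mem_run.1 hs.1).2.1
          have e : t - u - (s - u) = t - s := by ring
          rwa [e] at this
      have h7 : (t - a) % l = (s - a) % l := by
        apply Int.emod_eq_emod_iff_emod_sub_eq_zero.2
        have e : t - a - (s - a) = t - s := by ring
        rw [e]
        exact Int.emod_eq_zero_of_dvd h6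
      have h8 := Int.mul_ediv_add_emod (t - a) l
      have h9 := Int.mul_ediv_add_emod (s - a) l
      rw [h5, h7] at h8
      omega
  have hT' : ((R.filter (fun t => (g : ℤ) ∣ t - r)).card : ℝ) ≤ (g' * q : ℝ) / l + 1 := by
    calc ((R.filter (fun t => (g : ℤ) ∣ t - r)).card : ℝ) ≤ (((g' * q) / l + 1 : ℕ) : ℝ) := by
          exact_mod_cast hT
      _ = (((g' * q) / l : ℕ) : ℝ) + 1 := by push_cast; ring
      _ ≤ _ := by
          have := Nat.cast_div_le (α := ℝ) (m := g' * q) (n := l)
          push_cast at this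
          linarith
  have hlr : (l : ℝ) * Nat.gcd g g' = g * g' := by
    have := Nat.gcd_mul_lcm g g'
    rw [mul_comm, ← hl] at this
    exact_mod_cast this
  have hlpos' : (0 : ℝ) < l := by exact_mod_cast hlpos
  have hgpos' : (0 : ℝ) < g := by exact_mod_cast hg
  have h10 : (g' * q : ℝ) / l = q * ((Nat.gcd g g' : ℝ) / g) := by
    field_simp
    linarith [congrArg (fun x : ℝ => x * q) hlr]
  rw [h10] at hT'
  have h11 : (q : ℝ) ≤ R.card := by
    have : q ≤ R.card := by omega
    exact_mod_cast this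
  have h12 : (q : ℝ) * ((Nat.gcd g g' : ℝ) / g) ≤ R.card * ((Nat.gcd g g' : ℝ) / g) :=
    mul_le_mul_of_nonneg_right h11 (by positivity)
  linarith

lemma card_divisors_le (n : ℕ) : ((Nat.divisors n).card : ℝ) ≤ 2 * √(n : ℝ) := by
  classical
  set s := Nat.sqrt n with hs
  have h1 : (Nat.divisors n).card ≤ s + s := by
    have h2 : Nat.divisors n ⊆ (Icc 1 s) ∪ ((Nat.divisors n).filter (fun d => s < d)) := by
      intro d hd
      rw [mem_union, mem_filter, mem_Icc]
      rcases le_or_gt d s with h | h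
      · exact Or.inl ⟨Nat.pos_of_mem_divisors hd, h⟩
      · exact Or.inr ⟨hd, h⟩
    refine le_trans (card_le_card h2) (le_trans (card_union_le _ _) ?_)
    rw [Nat.card_Icc]
    have h3 : ((Nat.divisors n).filter (fun d => s < d)).card ≤ (Icc 1 s).card := by
      apply card_le_card_of_injOn (fun d => n / d)
      · intro d hd
        rw [mem_coe, mem_filter, Nat.mem_divisors] at hd
        obtain ⟨⟨h4, h5⟩, h6⟩ := hd
        have hd0 : 0 < d := by omega
        rw [mem_coe, mem_Icc]
        constructor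
        · exact Nat.div_pos (Nat.le_of_dvd (by omega) h4) hd0
        · by_contra hcon
          push Not at hcon
          have h7 : (s + 1) * (s + 1) ≤ (n / d) * d := Nat.mul_le_mul hcon h6
          rw [Nat.div_mul_cancel h4] at h7
          have := Nat.lt_succ_sqrt n
          rw [← hs] at this
          simp only [Nat.succ_eq_add_one] at this
          omega
      · intro d hd e he hde
        rw [mem_coe, mem_filter, Nat.mem_divisors] at hd he
        simp only at hde
        have h4 := Nat.div_mul_cancel hd.1.1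
        have h5 := Nat.div_mul_cancel he.1.1
        rw [← hde] at h5
        have h6 : 0 < n / d := Nat.div_pos (Nat.le_of_dvd (by omega) hd.1.1) (by omega)
        have h7 : n / d * d = n / d * e := by rw [h4, h5]
        exact Nat.eq_of_mul_eq_mul_left h6 h7
    rw [Nat.card_Icc] at h3
    omega
  have h2 : (s : ℝ) ≤ √(n : ℝ) := by
    rw [hs]
    exact Real.nat_sqrt_le_real_sqrt
  have h3 : ((Nat.divisors n).card : ℝ) ≤ s + s := by exact_mod_cast h1
  linarith

lemma sum_inv_le (G : ℕ) : ∑ k ∈ Icc 1 G, (1 : ℝ) / k ≤ 1 + Real.log G := by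
  have := harmonic_le_one_add_log G
  rw [harmonic_eq_sum_Icc] at this
  push_cast at this
  refine le_trans (le_of_eq ?_) this
  apply sum_congr rfl
  intro k _
  rw [one_div]

lemma sum_gcd {G g' : ℕ} (hg' : 1 ≤ g') :
    ∑ g ∈ Icc 1 G, (Nat.gcd g g' : ℝ) / g ≤ 2 * √(g' : ℝ) * (1 + Real.log G) := by
  classical
  have h1 : ∑ g ∈ Icc 1 G, (Nat.gcd g g' : ℝ) / g ≤
      ∑ p ∈ (Nat.divisors g') ×ˢ (Icc 1 G), (1 : ℝ) / p.2 := by
    have h2 : ∑ g ∈ Icc 1 G, (Nat.gcd g g' : ℝ) / g =
        ∑ p ∈ (Icc 1 G).image (fun g => (Nat.gcd g g', g / Nat.gcd g g')), (1 : ℝ) / p.2 := by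
      rw [sum_image]
      · apply sum_congr rfl
        intro g hg
        rw [mem_Icc] at hg
        have h3 : 0 < Nat.gcd g g' := Nat.gcd_pos_of_pos_left _ (by omega)
        have h4 : Nat.gcd g g' ∣ g := Nat.gcd_dvd_left _ _
        simp only
        rw [Nat.cast_div h4 (by positivity)]
        rw [one_div_div]
      · intro g hg h hh heq
        simp only [Prod.mk.injEq] at heq
        have h5 := Nat.div_mul_cancel (Nat.gcd_dvd_left g g')
        have h6 := Nat.div_mul_cancel (Nat.gcd_dvd_left h g')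
        rw [heq.2, heq.1, h6] at h5
        exact h5.symm
    rw [h2]
    apply sum_le_sum_of_subset_of_nonneg
    · intro p hp
      rw [mem_image] at hp
      obtain ⟨g, hg, rfl⟩ := hp
      rw [mem_Icc] at hg
      rw [mem_product, Nat.mem_divisors, mem_Icc]
      refine ⟨⟨Nat.gcd_dvd_right _ _, by omega⟩, ?_, ?_⟩
      · exact Nat.div_pos (Nat.gcd_le_left _ (by omega)) (Nat.gcd_pos_of_pos_left _ (by omega))
      · exact le_trans (Nat.div_le_self _ _) hg.2
    · intro p _ _
      positivity
  rw [sum_product] at h1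
  simp only [sum_const, nsmul_eq_mul] at h1
  have hlog : 0 ≤ 1 + Real.log G := by
    have := Real.log_natCast_nonneg G
    linarith
  calc _ ≤ _ := h1
    _ ≤ ((Nat.divisors g').card : ℝ) * (1 + Real.log G) :=
        mul_le_mul_of_nonneg_left (sum_inv_le G) (by positivity)
    _ ≤ _ := mul_le_mul_of_nonneg_right (card_divisors_le g') hlog

end Mid

end Pool.Agent.APLarge
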