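import Pool.Agent.APLarge.Labels

/-!
The inequality for one scale.
-/

set_option autoImplicit false

namespace Pool.Agent.APLarge

open Finset Pool.Agent.APInt

lemma ext_aux {E τ T err : ℝ} (hE : 0 ≤ E) (hτ : 0 ≤ τ) (hT : 0 ≤ T) (herr : 0 ≤ err)
    (h : 0.54 * (τ ^ 2 - T ^ 2) / 2 - err ≤ E) :
    ∃ t : ℝ, 0 ≤ t ∧ t ≤ τ ∧ t ≤ max (T - 1) 0 ∧
      0.54 * (τ ^ 2 - t ^ 2) / 2 - (err + 0.54 * (2 * T + 1) / 2) ≤ E := by
  by_cases h1 : T - 1 ≤ τ
  · by_cases h2 : 1 ≤ T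
    · refine ⟨T - 1, by linarith, h1, le_max_left _ _, ?_⟩
      nlinarith
    · push Not at h2
      refine ⟨0, le_refl _, hτ, le_max_right _ _, ?_⟩
      nlinarith
  · push Not at h1
    refine ⟨τ, hτ, le_refl _, le_trans h1.le (le_max_left _ _), ?_⟩
    nlinarith

section

variable {N : ℕ} {F : Finset (Finset ℤ)} {x a b : ℤ}

open Classical in
lemma card_Rd_le {g : ℕ → ℕ → Prop} {d : ℕ} (hd : 1 ≤ d) (h : ∀ i j, (i, j) ∈ Rd N F x d →
    a ≤ x + j * d) :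
    (Rd N F x d).card ≤ (NatL N F x g d).card +
      (((Icc 1 (Im N F x d)) ×ˢ (Icc (Au x a d) (Jm N F x d))).filter
        (fun p : ℕ × ℕ => ¬ g p.1 p.2)).card := by
  have h1 : (NatL N F x g d).card = ((Rd N F x d).filter (fun p => g p.1 p.2)).card := by
    rw [NatL, card_image_of_injective]
    intro p q hpq
    simp only [Prod.mk.injEq, neg_inj, Nat.cast_inj] at hpq
    exact Prod.ext hpq.1 hpq.2
  have h2 : ((Rd N F x d).filter (fun p => ¬ g p.1 p.2)).card ≤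
      (((Icc 1 (Im N F x d)) ×ˢ (Icc (Au x a d) (Jm N F x d))).filter
        (fun p : ℕ × ℕ => ¬ g p.1 p.2)).card := by
    apply card_le_card
    rintro ⟨i, j⟩ hp
    rw [mem_filter] at hp ⊢
    have h3 := mem_Rd.1 hp.1
    refine ⟨?_, hp.2⟩
    rw [mem_product, mem_Icc, mem_Icc]
    exact ⟨⟨h3.1.1, le_Im hp.1⟩, (Au_le hd h3.2.1.1).2 (h i j hp.1), le_Jm hp.1⟩
  have h3 := card_filter_add_card_filter_not (s := Rd N F x d) (fun p => g p.1 p.2)
  omega

lemma card_ExtR {d : ℕ} : (ExtR N F x a b d).card =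
    (((Icc (Au x a d) (Bu x b d)) ×ˢ (Icc (Au x a d) (Jm N F x d))).filter
      (fun p : ℕ × ℕ => p.1 < p.2 ∧ Nat.Coprime p.1 p.2)).card := by
  rw [ExtR, card_image_of_injective]
  intro p q hpq
  simp only [Prod.mk.injEq, Nat.cast_inj] at hpq
  exact Prod.ext hpq.1 hpq.2

lemma card_ExtL {d : ℕ} : (ExtL N F x a d).card =
    (((Icc 1 (Cu x a d)) ×ˢ (Icc 1 (Im N F x d))).filter
      (fun p : ℕ × ℕ => p.1 < p.2 ∧ Nat.Coprime p.1 p.2)).card := by
  rw [ExtL, card_image_of_injective]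
  intro p q hpq
  simp only [Prod.mk.injEq, neg_inj, Nat.cast_inj] at hpq
  exact Prod.ext hpq.2 hpq.1

lemma log_le_of {n N : ℕ} (h1 : 1 ≤ n) (h2 : n ≤ N) : Real.log n ≤ Real.log N :=
  Real.log_le_log (by exact_mod_cast h1) (by exact_mod_cast h2)

/-- sizes of the extents -/
lemma Jm_mul {d : ℕ} (hF : Admissible N F) (hR : (Rd N F x d).Nonempty) :
    (Jm N F x d : ℤ) * d ≤ N - x := by
  obtain ⟨i, hi⟩ := exists_Jm (Jm_pos hR)
  have := (seg_bounds hF hi).2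
  linarith

lemma Im_mul {d : ℕ} (hF : Admissible N F) (hR : (Rd N F x d).Nonempty) :
    (Im N F x d : ℤ) * d ≤ x - 1 := by
  obtain ⟨j, hj⟩ := exists_Im (Im_pos hR)
  have := (seg_bounds hF hj).1
  linarith

open Classical in
/-- one scale when `x` is to the left of `[a, b]` -/
lemma scale_A (hH : Hull N F x a b) {g : ℕ → ℕ → Prop} {ρ : ℝ} (hρ0 : 0 ≤ ρ)
    (hg : ∀ I A J : ℕ, 1 ≤ I → A ≤ J → 1 ≤ A →
      ((((Icc 1 I) ×ˢ (Icc A J)).filter (fun p : ℕ × ℕ => ¬ g p.1 p.2)).card : ℝ) ≤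
        ρ * I * ((J : ℝ) - A) + I * (1 + Real.log I))
    {d : ℕ} (hd : 1 ≤ d) (hR : (Rd N F x d).Nonempty) :
    ((Rd N F x d).card : ℝ) - ((Lab N F x a b g d).card : ℝ) ≤
      Mx ρ ((x : ℝ) - 1) ((N : ℝ) - b) / (d : ℝ) ^ 2 + 8 * ((N : ℝ) / d) * (1 + Real.log N) := by
  set I := Im N F x d with hI
  set J := Jm N F x d with hJ
  set A := Au x a d with hA
  set B := Bu x b d with hB
  have hI1 : 1 ≤ I := Im_pos hR
  have hJ1 : 1 ≤ J := Jm_pos hR
  have hA1 : 1 ≤ A := one_le_Au x a d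
  have hAJ : A ≤ J := by
    obtain ⟨i, hi⟩ := exists_Jm (Jm_pos hR)
    exact (Au_le hd hJ1).2 (le_of_mem_Rd hH hi)
  have hId := Im_mul hH.adm hR
  have hJd := Jm_mul hH.adm hR
  rw [← hI] at hId
  rw [← hJ] at hJd
  have hxx := mem_Icc.1 hH.hx
  have hd0 : (0 : ℝ) < d := by exact_mod_cast hd
  have hIdR : (I : ℝ) * d ≤ (x : ℝ) - 1 := by exact_mod_cast hId
  have hJdR : (J : ℝ) * d ≤ (N : ℝ) - x := by exact_mod_cast hJd
  have hx1R : (1 : ℝ) ≤ x := by exact_mod_cast hxx.1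
  have hxNR : (x : ℝ) ≤ N := by exact_mod_cast hxx.2
  have hIN : (I : ℝ) ≤ (N : ℝ) / d := by rw [le_div_iff₀ hd0]; linarith
  have hJN : (J : ℝ) ≤ (N : ℝ) / d := by rw [le_div_iff₀ hd0]; linarith
  have hd1R : (1 : ℝ) ≤ d := by exact_mod_cast hd
  have hI1R : (1 : ℝ) ≤ I := by exact_mod_cast hI1
  have hJ1R : (1 : ℝ) ≤ J := by exact_mod_cast hJ1
  have hIN' : I ≤ N := by
    have : (I : ℝ) ≤ N := le_trans hIN (div_le_self (by positivity) hd1R)
    exact_mod_cast this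
  have hJN' : J ≤ N := by
    have : (J : ℝ) ≤ N := le_trans hJN (div_le_self (by positivity) hd1R)
    exact_mod_cast this
  have hlI := log_le_of hI1 hIN'
  have hlJ := log_le_of hJ1 hJN'
  have hlI0 : 0 ≤ Real.log I := Real.log_nonneg hI1R
  have hlJ0 : 0 ≤ Real.log J := Real.log_nonneg hJ1R
  have hlN0 : 0 ≤ Real.log N := le_trans hlI0 hlI
  -- the natural labels
  have h1 : ((Rd N F x d).card : ℝ) ≤ ((NatL N F x g d).card : ℝ) +
      (ρ * I * ((J : ℝ) - A) + I * (1 + Real.log I)) := by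
    have h2 := card_Rd_le (N := N) (F := F) (x := x) (a := a) (g := g) hd
      (fun i j hij => le_of_mem_Rd hH hij)
    have h3 := hg I A J hI1 hAJ hA1
    have h4 : ((Rd N F x d).card : ℝ) ≤ ((NatL N F x g d).card : ℝ) +
      ((((Icc 1 I) ×ˢ (Icc A J)).filter (fun p : ℕ × ℕ => ¬ g p.1 p.2)).card : ℝ) := by
      exact_mod_cast h2
    linarith
  -- the labels to the right
  have h2 := cp_pairs A B J hA1 hAJ
  rw [← card_ExtR (N := N) (F := F) (x := x) (a := a) (b := b) (d := d)] at h2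
  have hτ : (0 : ℝ) ≤ (J : ℝ) - A := by
    have : (A : ℝ) ≤ J := by exact_mod_cast hAJ
    linarith
  obtain ⟨t, ht0, htτ, htT, ht⟩ := ext_aux (E := ((ExtR N F x a b d).card : ℝ))
    (Nat.cast_nonneg _) hτ (Nat.cast_nonneg (J - B)) (by positivity) h2
  have hTJ : (((J - B : ℕ) : ℕ) : ℝ) ≤ J := by exact_mod_cast Nat.sub_le _ _
  -- the point `t` scaled
  have htη : t * d ≤ (N : ℝ) - b := by
    by_cases hJB : J ≤ B
    · have h3 : ((J - B : ℕ) : ℝ) = 0 := by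
        rw [Nat.sub_eq_zero_of_le hJB]; simp
      rw [h3] at htT
      have h4 : t ≤ 0 := le_trans htT (by simp)
      have h5 : (b : ℝ) ≤ N := by exact_mod_cast (mem_Icc.1 hH.hb).2
      nlinarith
    · push Not at hJB
      have h3 : ((J - B : ℕ) : ℝ) = (J : ℝ) - B := by
        rw [Nat.cast_sub hJB.le]
      rw [h3] at htT
      have h4 : (B : ℝ) + 1 ≤ J := by exact_mod_cast hJB
      have h5 : t ≤ (J : ℝ) - B - 1 := by
        refine le_trans htT (max_le (le_refl _) (by linarith))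
      have h6 : ¬ (B + 1 ≤ Bu x b d) := by omega
      rw [le_Bu hd (by omega)] at h6
      push Not at h6
      have h7 : (b : ℝ) < x + ((B : ℝ) + 1) * d := by exact_mod_cast h6
      have h8 : t * d ≤ ((J : ℝ) - B - 1) * d := mul_le_mul_of_nonneg_right h5 hd0.le
      nlinarith
  have h3 := ri1 ρ ((x : ℝ) - 1) ((N : ℝ) - b) (I * d) (((J : ℝ) - A) * d) (t * d) hρ0
    (by positivity) hIdR (by positivity) htη (mul_le_mul_of_nonneg_right htτ hd0.le)
  have h4 : ρ * I * ((J : ℝ) - A) - 0.54 * (((J : ℝ) - A) ^ 2 - t ^ 2) / 2 ≤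
      Mx ρ ((x : ℝ) - 1) ((N : ℝ) - b) / (d : ℝ) ^ 2 := by
    rw [le_div_iff₀ (by positivity)]
    refine le_trans (le_of_eq ?_) h3
    ring
  have h5 : (((Lab N F x a b g d).card : ℕ) : ℝ) = ((NatL N F x g d).card : ℝ) +
      (((ExtR N F x a b d).card : ℝ) + ((ExtL N F x a d).card : ℝ)) := by
    rw [card_Lab]; push_cast; ring
  have h6 : (0 : ℝ) ≤ ((ExtL N F x a d).card : ℝ) := Nat.cast_nonneg _
  have h7 : (I : ℝ) * (1 + Real.log I) ≤ ((N : ℝ) / d) * (1 + Real.log N) :=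
    mul_le_mul hIN (by linarith) (by linarith) (by positivity)
  have h8 : (J : ℝ) * (4 + Real.log J) ≤ ((N : ℝ) / d) * (4 + Real.log N) :=
    mul_le_mul hJN (by linarith) (by linarith) (by positivity)
  have h9 : 0 ≤ ((N : ℝ) / d) * Real.log N := mul_nonneg (by positivity) hlN0
  have e1 : ((N : ℝ) / d) * (1 + Real.log N) = (N : ℝ) / d + ((N : ℝ) / d) * Real.log N := by ring
  have e2 : ((N : ℝ) / d) * (4 + Real.log N) =
      4 * ((N : ℝ) / d) + ((N : ℝ) / d) * Real.log N := by ring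
  have e3 : 8 * ((N : ℝ) / d) * (1 + Real.log N) =
      8 * ((N : ℝ) / d) + 8 * (((N : ℝ) / d) * Real.log N) := by ring
  rw [e1] at h7
  rw [e2] at h8
  rw [e3, h5]
  linarith

open Classical in
/-- one scale when `x` is in `[a, b]` -/
lemma scale_B (hH : Hull N F x a b) (hax : a ≤ x) {g : ℕ → ℕ → Prop} {ρ : ℝ} (hρ0 : 0 ≤ ρ)
    (hρ1 : ρ ≤ 0.54)
    (hg : ∀ I A J : ℕ, 1 ≤ I → A ≤ J → 1 ≤ A →
      ((((Icc 1 I) ×ˢ (Icc A J)).filter (fun p : ℕ × ℕ => ¬ g p.1 p.2)).card : ℝ) ≤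
        ρ * I * ((J : ℝ) - A) + I * (1 + Real.log I))
    {d : ℕ} (hd : 1 ≤ d) (hR : (Rd N F x d).Nonempty) :
    ((Rd N F x d).card : ℝ) - ((Lab N F x a b g d).card : ℝ) ≤
      ρ * ((((a : ℝ) - 1) ^ 2 + ((N : ℝ) - b) ^ 2) / 2) / (d : ℝ) ^ 2 +
        14 * ((N : ℝ) / d) * (1 + Real.log N) := by
  set I := Im N F x d with hI
  set J := Jm N F x d with hJ
  set B := Bu x b d with hB
  set C := Cu x a d with hC
  have hI1 : 1 ≤ I := Im_pos hR
  have hJ1 : 1 ≤ J := Jm_pos hR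
  have hA : Au x a d = 1 := by
    apply le_antisymm _ (one_le_Au x a d)
    rw [Au_le hd (le_refl 1)]
    have : (0 : ℤ) ≤ ((1 : ℕ) : ℤ) * d := by positivity
    linarith
  have hId := Im_mul hH.adm hR
  have hJd := Jm_mul hH.adm hR
  rw [← hI] at hId
  rw [← hJ] at hJd
  have hxx := mem_Icc.1 hH.hx
  have haa := mem_Icc.1 hH.ha
  have hd0 : (0 : ℝ) < d := by exact_mod_cast hd
  have hIdR : (I : ℝ) * d ≤ (x : ℝ) - 1 := by exact_mod_cast hId
  have hJdR : (J : ℝ) * d ≤ (N : ℝ) - x := by exact_mod_cast hJd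
  have hx1R : (1 : ℝ) ≤ x := by exact_mod_cast hxx.1
  have hxNR : (x : ℝ) ≤ N := by exact_mod_cast hxx.2
  have haxR : (a : ℝ) ≤ x := by exact_mod_cast hax
  have ha1R : (1 : ℝ) ≤ a := by exact_mod_cast haa.1
  have hIN : (I : ℝ) ≤ (N : ℝ) / d := by rw [le_div_iff₀ hd0]; linarith
  have hJN : (J : ℝ) ≤ (N : ℝ) / d := by rw [le_div_iff₀ hd0]; linarith
  have hd1R : (1 : ℝ) ≤ d := by exact_mod_cast hd
  have hI1R : (1 : ℝ) ≤ I := by exact_mod_cast hI1
  have hJ1R : (1 : ℝ) ≤ J := by exact_mod_cast hJ1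
  have hIN' : I ≤ N := by
    have : (I : ℝ) ≤ N := le_trans hIN (div_le_self (by positivity) hd1R)
    exact_mod_cast this
  have hJN' : J ≤ N := by
    have : (J : ℝ) ≤ N := le_trans hJN (div_le_self (by positivity) hd1R)
    exact_mod_cast this
  have hlI := log_le_of hI1 hIN'
  have hlJ := log_le_of hJ1 hJN'
  have hlI0 : 0 ≤ Real.log I := Real.log_nonneg hI1R
  have hlJ0 : 0 ≤ Real.log J := Real.log_nonneg hJ1R
  have hlN0 : 0 ≤ Real.log N := le_trans hlI0 hlI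
  -- the natural labels
  have h1 : ((Rd N F x d).card : ℝ) ≤ ((NatL N F x g d).card : ℝ) +
      (ρ * I * ((J : ℝ) - 1) + I * (1 + Real.log I)) := by
    have h2 := card_Rd_le (N := N) (F := F) (x := x) (a := a) (g := g) hd
      (fun i j hij => le_of_mem_Rd hH hij)
    rw [hA] at h2
    have h3 := hg I 1 J hI1 hJ1 (le_refl 1)
    have h4 : ((Rd N F x d).card : ℝ) ≤ ((NatL N F x g d).card : ℝ) +
      ((((Icc 1 I) ×ˢ (Icc 1 J)).filter (fun p : ℕ × ℕ => ¬ g p.1 p.2)).card : ℝ) := by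
      exact_mod_cast h2
    rw [Nat.cast_one] at h3
    linarith
  -- the labels to the right
  have h2 := cp_pairs 1 B J (le_refl 1) hJ1
  have h2' := card_ExtR (N := N) (F := F) (x := x) (a := a) (b := b) (d := d)
  rw [hA, ← hB, ← hJ] at h2'
  rw [← h2', Nat.cast_one] at h2
  obtain ⟨t, ht0, htτ, htT, ht⟩ := ext_aux (E := ((ExtR N F x a b d).card : ℝ))
    (Nat.cast_nonneg _) (by linarith) (Nat.cast_nonneg (J - B)) (by positivity) h2
  have hTJ : (((J - B : ℕ) : ℕ) : ℝ) ≤ J := by exact_mod_cast Nat.sub_le _ _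
  have htη : t * d ≤ (N : ℝ) - b := by
    by_cases hJB : J ≤ B
    · have h3 : ((J - B : ℕ) : ℝ) = 0 := by
        rw [Nat.sub_eq_zero_of_le hJB]; simp
      rw [h3] at htT
      have h4 : t ≤ 0 := le_trans htT (by simp)
      have h5 : (b : ℝ) ≤ N := by exact_mod_cast (mem_Icc.1 hH.hb).2
      nlinarith
    · push Not at hJB
      have h3 : ((J - B : ℕ) : ℝ) = (J : ℝ) - B := by
        rw [Nat.cast_sub hJB.le]
      rw [h3] at htT
      have h4 : (B : ℝ) + 1 ≤ J := by exact_mod_cast hJB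
      have h5 : t ≤ (J : ℝ) - B - 1 := by
        refine le_trans htT (max_le (le_refl _) (by linarith))
      have h6 : ¬ (B + 1 ≤ Bu x b d) := by omega
      rw [le_Bu hd (by omega)] at h6
      push Not at h6
      have h7 : (b : ℝ) < x + ((B : ℝ) + 1) * d := by exact_mod_cast h6
      have h8 : t * d ≤ ((J : ℝ) - B - 1) * d := mul_le_mul_of_nonneg_right h5 hd0.le
      nlinarith
  -- the labels to the left
  have h3 := cp_pairs 1 C I (le_refl 1) hI1
  have h3' := card_ExtL (N := N) (F := F) (x := x) (a := a) (d := d)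
  rw [← hC, ← hI] at h3'
  rw [← h3', Nat.cast_one] at h3
  obtain ⟨u, hu0, huτ, huT, hu⟩ := ext_aux (E := ((ExtL N F x a d).card : ℝ))
    (Nat.cast_nonneg _) (by linarith) (Nat.cast_nonneg (I - C)) (by positivity) h3
  have hUI : (((I - C : ℕ) : ℕ) : ℝ) ≤ I := by exact_mod_cast Nat.sub_le _ _
  have hus : u * d ≤ (a : ℝ) - 1 := by
    by_cases hJB : I ≤ C
    · have h3 : ((I - C : ℕ) : ℝ) = 0 := by
        rw [Nat.sub_eq_zero_of_le hJB]; simp
      rw [h3] at huT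
      have h4 : u ≤ 0 := le_trans huT (by simp)
      nlinarith
    · push Not at hJB
      have h3 : ((I - C : ℕ) : ℝ) = (I : ℝ) - C := by
        rw [Nat.cast_sub hJB.le]
      rw [h3] at huT
      have h4 : (C : ℝ) + 1 ≤ I := by exact_mod_cast hJB
      have h5 : u ≤ (I : ℝ) - C - 1 := by
        refine le_trans huT (max_le (le_refl _) (by linarith))
      have h6 : ¬ (C + 1 ≤ Cu x a d) := by omega
      rw [le_Cu hd (by omega)] at h6
      push Not at h6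
      have h7 : (x : ℝ) - ((C : ℝ) + 1) * d < a := by exact_mod_cast h6
      have h8 : u * d ≤ ((I : ℝ) - C - 1) * d := mul_le_mul_of_nonneg_right h5 hd0.le
      nlinarith
  have h4 := ri2 ρ ((a : ℝ) - 1) ((N : ℝ) - b) (((I : ℝ) - 1) * d) (((J : ℝ) - 1) * d)
    (u * d) (t * d) hρ0 hρ1 (by positivity) (by positivity) hus htη
    (mul_le_mul_of_nonneg_right huτ hd0.le) (mul_le_mul_of_nonneg_right htτ hd0.le)
  have h5 : ρ * ((I : ℝ) - 1) * ((J : ℝ) - 1) - 0.54 * ((((I : ℝ) - 1) ^ 2 - u ^ 2) +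
      (((J : ℝ) - 1) ^ 2 - t ^ 2)) / 2 ≤
      ρ * ((((a : ℝ) - 1) ^ 2 + ((N : ℝ) - b) ^ 2) / 2) / (d : ℝ) ^ 2 := by
    rw [le_div_iff₀ (by positivity)]
    refine le_trans (le_of_eq ?_) (le_trans h4 (le_of_eq ?_))
    · ring
    · ring
  have h6 : (((Lab N F x a b g d).card : ℕ) : ℝ) = ((NatL N F x g d).card : ℝ) +
      (((ExtR N F x a b d).card : ℝ) + ((ExtL N F x a d).card : ℝ)) := by
    rw [card_Lab]; push_cast; ring
  have h7 : (I : ℝ) * (1 + Real.log I) ≤ ((N : ℝ) / d) * (1 + Real.log N) :=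
    mul_le_mul hIN (by linarith) (by linarith) (by positivity)
  have h8 : (J : ℝ) * (4 + Real.log J) ≤ ((N : ℝ) / d) * (4 + Real.log N) :=
    mul_le_mul hJN (by linarith) (by linarith) (by positivity)
  have h8' : (I : ℝ) * (4 + Real.log I) ≤ ((N : ℝ) / d) * (4 + Real.log N) :=
    mul_le_mul hIN (by linarith) (by linarith) (by positivity)
  have h9 : 0 ≤ ((N : ℝ) / d) * Real.log N := mul_nonneg (by positivity) hlN0
  have h10 : ρ * I * ((J : ℝ) - 1) = ρ * ((I : ℝ) - 1) * ((J : ℝ) - 1) + ρ * ((J : ℝ) - 1) := by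
    ring
  have h11 : ρ * ((J : ℝ) - 1) ≤ 0.54 * ((J : ℝ) - 1) :=
    mul_le_mul_of_nonneg_right hρ1 (by linarith)
  have e1 : ((N : ℝ) / d) * (1 + Real.log N) = (N : ℝ) / d + ((N : ℝ) / d) * Real.log N := by ring
  have e2 : ((N : ℝ) / d) * (4 + Real.log N) =
      4 * ((N : ℝ) / d) + ((N : ℝ) / d) * Real.log N := by ring
  have e3 : 14 * ((N : ℝ) / d) * (1 + Real.log N) =
      14 * ((N : ℝ) / d) + 14 * (((N : ℝ) / d) * Real.log N) := by ring
  rw [e1] at h7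
  rw [e2] at h8 h8'
  rw [e3, h6]
  linarith

end

end Pool.Agent.APLarge
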